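import Pool.Agent.P.MP_48bde8_co_s.Crun
import Pool.Agent.P.MP_48bde8_co.Defs

/-! The normalised curve and its rational branch. -/

namespace Pool.Agent.P.MP_48bde8_co_s

open MP_48bde8_co

section

variable {R : Type} [CommRing R] (r : ℕ → R) (ζ : R)

/-- First denominator of the branch. -/
def bU : R := 1 - r 26 * ζ ^ 2

/-- Second denominator of the branch. -/
def bV : R := 1 - r 2 * ζ

/-- Coefficients of the cubic. -/
def bn : Fin 3 → R := ![r 12 + r 23, r 32 - 2 * r 26 + r 12 * (r 12 + r 23), -(r 2 * r 26)]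

/-- The cubic. -/
def bN : R := 1 + bn r 0 * ζ + bn r 1 * ζ ^ 2 + bn r 2 * ζ ^ 3

/-- First numerator. -/
def bT : R := 2 * r 29 * bU r ζ ^ 2 + r 29 * ζ ^ 2 * (2 * r 32 + r 30 * ζ) -
  r 35 * (1 + r 26 * ζ ^ 2) - r 24 * ζ

/-- Second numerator. -/
def bR : R := (r 34 + r 25) * (1 + r 12 * ζ + r 12 ^ 2 * ζ ^ 2) +
  (r 34 * bn r 0 - r 25 * r 2) * (ζ + r 12 * ζ ^ 2) + (r 34 * bn r 1 - r 25 * r 26) * ζ ^ 2

theorem lemA (z a h e d P l κ k0 k1 k2 k3 k4 G σ : R) :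
    curve 1 z a 1 0 (2 * h) (h ^ 2 + e) d (l + 2 * d * h) (P - d * h ^ 2 + (l + 2 * d * h) * h) κ
      ![k0, k1, k2, k3, k4] (G + l * σ) (σ - h) =
    a ^ 2 * (2 * (G - d * σ ^ 2 - P) * (h * G + l * σ ^ 2 - (1 - z)) +
      (k0 - 2 * d * z * (σ ^ 2 - h ^ 2))) ^ 2 + σ ^ 2 *
    (-4 * a ^ 2 * (G - d * σ ^ 2 - P) ^ 2 * ((G + l * h) ^ 2 - 4 * (1 - z) * l) +
      16 * a * (σ ^ 2 + e) * ((1 - z) ^ 2 + 2 * (1 - z) * (l * σ ^ 2 - h * G) -
        (σ ^ 2 - h ^ 2) * (G ^ 2 - l ^ 2 * σ ^ 2)) + 4 * (κ + k2 * (σ ^ 2 - h ^ 2)) +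
      8 * a * k1 * (G - d * σ ^ 2 - P) + 8 * a ^ 2 * k3 * (G - d * σ ^ 2 - P) * (G + l * h) +
      4 * a * k4 * (σ ^ 2 - h ^ 2) * (G + l * h) + 32 * a * l * z * (σ ^ 2 - h ^ 2) ^ 2) := by
  simp only [curve, Matrix.cons_val]
  ring

end

variable {F : Type} [Field F]

theorem curC_zero [CharZero F] {q : ℕ → F} (h : Cons q 110 curC) (h0 : q 128 = 0)
    {z a A e d P κ k0 k1 k2 k3 k4 G σ : F} (hA : a * A = 1) (c1 : q 66 = -16 * A)
    (c2 : q 79 = -16 * A * e) (c3 : q 64 = 2 * d) (c4 : q 73 = 2 * P) (c5 : q 77 = q 63 ^ 2)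
    (c6 : q 81 = z) (c7 : q 25 = 1 - z) (c8 : q 10 = 64 * A ^ 2 * κ) (c9 : q 98 = 4 * k0)
    (c10 : q 99 = -16 * A * k1) (c11 : q 100 = 16 * A ^ 2 * k2) (c12 : q 97 = 8 * k3)
    (c13 : q 101 = -8 * A * k4) (n1 : q 110 ≠ 0) (n2 : q 111 ≠ 0)
    (hσ : q 113 ^ 2 = σ ^ 2 * q 110) (hG : q 115 = G * q 112) :
    curve 1 z a 1 0 (2 * q 63) (q 63 ^ 2 + e) d (q 7 + 2 * d * q 63)
      (P - d * q 63 ^ 2 + (q 7 + 2 * d * q 63) * q 63) κ ![k0, k1, k2, k3, k4] (G + q 7 * σ)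
      (σ - q 63) = 0 := by
  simp only [curC, Cons, Ex.ev, Nat.cast_ofNat, Nat.reduceAdd, c1, c2, c3, c4, c5, c6, c7, c8, c9,
    c10, c11, c12, c13] at h
  obtain ⟨-, -, h112, -, h114, -, h116, h117, h118, h119, h120, h121, h122, h123, h124, h125,
    h126, h127, h128, -⟩ := h
  rw [lemA]
  rw [← pow_two, hσ] at h114
  generalize σ ^ 2 = V at *
  replace h116 : q 116 = V * q 112 := by rw [h116, h114, h112]; ring
  replace h117 : q 117 = 2 * (G - d * V - P) * q 112 := by rw [h117, hG, h116]; ring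
  replace h118 : q 118 = (G + q 7 * q 63) * q 112 := by rw [h118, hG]; ring
  replace h119 : q 119 = (q 63 * G + q 7 * V - (1 - z)) * q 112 := by rw [h119, hG, h116]; ring
  replace h120 : q 120 = (V - q 63 ^ 2) * q 110 := by rw [h120, h114]; ring
  replace h124 : q 124 = ((1 - z) ^ 2 + 2 * (1 - z) * (q 7 * V - q 63 * G) -
      (V - q 63 ^ 2) * (G ^ 2 - q 7 ^ 2 * V)) * (q 112 ^ 2 * q 110) := by
    rw [h124, h123, h122, h116, hG, h120]; ring
  generalize (1 - z) ^ 2 + 2 * (1 - z) * (q 7 * V - q 63 * G) -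
      (V - q 63 ^ 2) * (G ^ 2 - q 7 ^ 2 * V) = B at *
  generalize G - d * V - P = g at *
  generalize G + q 7 * q 63 = Γ at *
  generalize q 63 * G + q 7 * V - (1 - z) = T at *
  generalize V - q 63 ^ 2 = ν at *
  replace h121 : q 121 = 4 * (2 * g * T + (k0 - 2 * d * z * ν)) * q 112 ^ 2 := by
    rw [h121, h117, h119, h120, h112]; ring
  generalize 2 * g * T + (k0 - 2 * d * z * ν) = Ξ at *
  have h1 : 16 * q 110 * q 112 ^ 4 * (Ξ ^ 2 + V * (-4 * g ^ 2 * (Γ ^ 2 - 4 * (1 - z) * q 7) +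
      16 * A * (V + e) * B + 4 * A ^ 2 * (κ + k2 * ν) + 8 * A * k1 * g + 8 * k3 * g * Γ +
      4 * A * k4 * ν * Γ + 32 * A * q 7 * z * ν ^ 2)) = 0 := by
    rw [← h0, h128, h127, h121, h114, h126, h125, h124, h122, h120, h118, h117, h112]
    ring
  have h2 := (mul_eq_zero.1 h1).resolve_left (mul_ne_zero (mul_ne_zero (by norm_num) n1)
    (pow_ne_zero _ (h112 ▸ mul_ne_zero n1 n2)))
  linear_combination a ^ 2 * h2 - V * (16 * a * (V + e) * B + 4 * (κ + k2 * ν) * (1 + a * A) +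
    8 * a * k1 * g + 4 * a * k4 * ν * Γ + 32 * a * q 7 * z * ν ^ 2) * hA

theorem branch_pt {q : ℕ → F} (h1 : Cons q 11 preC) (h2 : Cons q 26 core) (h3 : Cons q 110 curC)
    (h9 : q 9 = 1) (e0 : q 53 = 0) (hh : q 63 = q 17 - q 23) {y ζ m f G : F} (hy : y * ζ = 1)
    (hY : q 1 = y + q 26 * ζ) (n1 : bU q ζ ≠ 0) (n2 : bV q ζ ≠ 0) (n3 : bN q ζ ≠ 0) (n4 : m ≠ 0)
    (hm : m * bU q ζ = (y - q 12) * bN q ζ)
    (hG : G * (bU q ζ ^ 2 * (bV q ζ * bN q ζ)) =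
      ζ * (bT q ζ * (bV q ζ * bN q ζ) - bR q ζ * bU q ζ ^ 2))
    (hf : m * f = -(m * G) - q 25) :
    q 110 ≠ 0 ∧ q 111 ≠ 0 ∧ q 113 ^ 2 = (m + q 63) ^ 2 * q 110 ∧
      q 115 = (f - q 7 * (m + q 63)) * q 112 := by
  simp only [preC, core, curC, Cons, Ex.ev, Nat.cast_ofNat, Nat.reduceAdd, h9] at h1 h2 h3
  obtain ⟨h11, h12, h13, h14, h15, h16, h17, h18, h19, -, -, h22, h23, h24, -⟩ := h1
  obtain ⟨h26, h27, h28, h29, h30, h31, h32, h33, h34, h35, -, -, -, -, -, -, -, -, -, -, -, -, -,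
    -, -, -, -, h53, -⟩ := h2
  obtain ⟨h110, h111, h112, h113, -, h115, -⟩ := h3
  have y0 : y ≠ 0 := left_ne_zero_of_mul_eq_one hy
  have x0 : y - q 12 ≠ 0 := fun h => mul_ne_zero n4 n1 (by rw [hm, h, zero_mul])
  have a1 : q 110 = (y * bU q ζ) ^ 2 := by
    rw [h110, hY, bU]
    linear_combination (q 26 * (4 - 2 * y * ζ - 2 * (y * ζ - 1)) -
      q 26 ^ 2 * ζ ^ 2 * (y * ζ + 1) + 2 * q 26 * (y * ζ - 1) + 4 * q 26 * y * ζ) * hy
  have a2 : q 111 = (y - q 12) * bV q ζ := by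
    rw [h111, hY, bV, h28, h26]
    linear_combination q 2 * hy
  have a3 : q 30 = 2 * q 26 * q 17 := by rw [h30, h18, h26]; ring
  have a4 : q 113 = (m + q 63) * (y * bU q ζ) := by
    rw [show (m + q 63) * (y * bU q ζ) = y * (m * bU q ζ) + q 63 * y * bU q ζ by ring, hm, h113,
      hY, hh, eq_inv_of_mul_eq_one_right hy]
    simp only [bN, bn, bU, Matrix.cons_val, h32, h31, h27, h26, h18]
    field_simp
    ring
  refine ⟨a1 ▸ pow_ne_zero _ (mul_ne_zero y0 n1), a2 ▸ mul_ne_zero x0 n2, by rw [a4, a1]; ring, ?_⟩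
  have a5 : (1 - q 12 * ζ) * bR q ζ = q 34 * bN q ζ + q 25 * bU q ζ * bV q ζ := by
    rw [e0, h31, h28, h27] at h53
    simp only [bR, bN, bn, bU, bV, Matrix.cons_val, h34, h33, h32, h31, h27, h26]
    linear_combination q 12 * (q 12 - q 2) ^ 2 * ζ ^ 3 * h53
  have a6 : f * ((y - q 12) * bV q ζ) * bU q ζ ^ 2 =
      -(ζ * bT q ζ * ((y - q 12) * bV q ζ)) + q 34 * bU q ζ ^ 2 := mul_left_cancel₀ n3 (by
    linear_combination bU q ζ ^ 3 * bV q ζ * hf - (f + G) * bU q ζ ^ 2 * bV q ζ * hm -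
      (y - q 12) * hG + bU q ζ ^ 2 * a5 + bR q ζ * bU q ζ ^ 2 * hy)
  have a7 : q 20 + q 21 = q 35 - q 7 * q 32 := by
    rw [h35, h22, h34, h33, h32, h31, h29, h27, h23, h19, h18, h17, h16, h15, h14, h13, h12, h11]
    ring
  have a8 : 2 * (q 11 * (q 20 - q 21)) = q 24 - q 7 * q 30 := by
    rw [h24, a3, h26, h12, h11]; ring
  have a9 : q 29 = q 7 * q 26 := by rw [h29, h19, h26]; ring
  have a10 : -(y * bT q ζ) - q 7 * q 113 * (y * bU q ζ) = (q 35 - q 7 * q 32) * q 1 +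
      (q 24 - q 7 * q 30) - q 7 * (q 1 + q 17) * (y * bU q ζ) ^ 2 := by
    rw [h113, hY, eq_inv_of_mul_eq_one_right hy]
    simp only [bT, bU, a9, a3]
    field_simp
    ring
  rw [h115, a7, a8, h112, a1]
  rw [← a2] at a6
  linear_combination -(y ^ 2 * a6) - q 111 * a10 - q 7 * y * bU q ζ * q 111 * a4 +
    y * bT q ζ * q 111 * hy

/-- The normalised data attached to the registers. -/
structure Star (r : ℕ → F) (z a c u d s v κ : F) (μ : Fin 9 → F) : Prop where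
  ha : a * (r 26 ^ 3 * r 44 ^ 2) = -r 39 ^ 4
  hc : c * r 26 = r 30 - 2 * r 26 * r 23
  hu : 4 * r 26 * r 44 ^ 2 * u = r 52 + 4 * r 44 ^ 2 * r 23 * (r 26 * r 23 - r 30)
  hd : d * r 39 ^ 2 = r 47
  hs : s * r 39 ^ 2 = r 48 - 2 * r 23 * r 47
  hv : 2 * v * r 39 ^ 2 = r 50 - 2 * r 23 * (r 48 - r 23 * r 47)
  rel : ∀ j, rel 1 z a 1 0 c u d s v μ j = 0
  m0 : 2 * μ 0 * r 39 ^ 2 = r 26 * r 56
  m1 : μ 1 = r 57 + r 23
  m4 : μ 4 = r 59 + (r 32 - r 26) + 2 * r 23 * r 57 + r 23 ^ 2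
  m8 : μ 8 = r 60 + 2 * (r 32 - r 26) * r 57 + r 30 + 3 * r 23 * (r 59 + (r 32 - r 26)) +
    3 * r 23 ^ 2 * r 57 + r 23 ^ 3
  mb : 2 * r 33 * (2 * μ 3 + d * μ 4 + c * μ 0 + s * μ 1 + v * z) = r 62
  cur : ∀ y ζ m f G : F, y * ζ = 1 → bU r ζ ≠ 0 → bV r ζ ≠ 0 → bN r ζ ≠ 0 → m ≠ 0 →
    m * bU r ζ = (y - r 12) * bN r ζ → G * (bU r ζ ^ 2 * (bV r ζ * bN r ζ)) =
      ζ * (bT r ζ * (bV r ζ * bN r ζ) - bR r ζ * bU r ζ ^ 2) → m * f = -(m * G) - (1 - z) →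
    curve 1 z a 1 0 c u d s v κ (coef 1 z a 1 0 c d s v μ) f m = 0

theorem exists_star [IsAlgClosed F] [CharZero F] {r : ℕ → F} {z : F}
    (h : Cons r 26 (core ++ (core2 ++ coretb))) (h9 : r 9 = 1) (ho : r 22 = 1) (e0 : r 53 = 0)
    (hz : r 25 = 1 - z) (ha : r 12 ≠ 0) (hb : r 2 ≠ 0) (hP : r 39 ≠ 0) (hT : r 44 ≠ 0) :
    ∃ a c u d s v κ μ, Star r z a c u d s v κ μ := by
  obtain ⟨q, q1, q2, q3, q4, q5, q6⟩ := crun h h9 ho e0 ha hb hP
  have hc := ((cons_append ..).1 h).1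
  have g26 : r 26 = r 12 * r 2 := hc.1
  have g49 : r 49 = r 39 * r 39 := (hc.drop 23).1
  have g51 : r 51 = r 44 * r 44 := (hc.drop 25).1
  have hη : r 26 ≠ 0 := g26 ▸ mul_ne_zero ha hb
  have d1 := q4
  simp only [List.forall_mem_cons] at q1 q5
  obtain ⟨i2, i8, i9, i12, i18, i19, i22, i23, i24, i25, -⟩ := q1
  have g11 : q 11 * q 11 = r 26 := by
    rw [g26, ← i12, ← i2, show q 12 = q 0 * q 11 from q3.2.1, show q 11 = q 0 * q 2 from q3.1]
    ring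
  simp only [restC, Cons, Ex.ev, Nat.cast_ofNat, Nat.reduceAdd, q2, Nat.reduceLeDiff,
    Nat.reduceLT, q5, i22, i23, i25, ho, hz, g49, g51] at d1
  obtain ⟨h63, -, -, h66, -, -, -, -, -, -, -, -, -, h76, h77, h78, -, h80, h81, h82, h83, h84,
    h85, h86, h87, h88, h89, -, -, h92, h93, h94, h95, h96, h97, h98, h99, h100, h101, I1, I2, I3,
    I4, I5, I6, I7, I8, -⟩ := d1
  replace h81 : q 81 = z := by rw [h81]; ring
  obtain ⟨A, hA⟩ : ∃ A, q 66 = -16 * A := ⟨-q 66 / 16, by ring⟩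
  have k1 : A * r 39 ^ 4 = -(r 26 ^ 3 * r 44 ^ 2) := mul_left_cancel₀ hη (by
    linear_combination (r 26 * r 39 ^ 4 / 16) * (hA - h66) + (r 39 ^ 4 * q 65 ^ 2 / 16) * g11 -
      (4 * r 26 ^ 2 * r 44 + r 39 ^ 2 * q 11 * q 65) / 16 * I5)
  have A0 : A ≠ 0 := fun h => mul_ne_zero (pow_ne_zero 3 hη) (pow_ne_zero 2 hT) (by
    rw [h] at k1
    linear_combination k1)
  obtain ⟨a, haA⟩ : ∃ a, a * A = 1 := ⟨A⁻¹, inv_mul_cancel₀ A0⟩
  obtain ⟨e, he⟩ : ∃ e, q 79 = -16 * A * e := ⟨-q 79 * a / 16, by linear_combination -q 79 * haA⟩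
  obtain ⟨d, hd⟩ : ∃ d, q 64 = 2 * d := ⟨q 64 / 2, by ring⟩
  obtain ⟨P, hP'⟩ : ∃ P, q 73 = 2 * P := ⟨q 73 / 2, by ring⟩
  replace h76 : q 76 = q 7 + 2 * d * q 63 := by rw [h76, hd]
  replace h78 : q 78 = 2 * (P - d * q 63 ^ 2 + (q 7 + 2 * d * q 63) * q 63) := by
    rw [h78, h77, h76, hd, hP']; ring
  replace h80 : q 80 = -16 * A * (q 63 ^ 2 + e) := by rw [h80, h77, hA, he]; ring
  rw [hd] at I1 h92 h93 h96 h97 h99 h100 h101
  rw [h81] at h87 h88 h89 h92 h93 h94 h97 h99 h100 h101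
  rw [hA] at h94 h95 h100 h101
  refine ⟨a, 2 * q 63, q 63 ^ 2 + e, d, q 7 + 2 * d * q 63,
    P - d * q 63 ^ 2 + (q 7 + 2 * d * q 63) * q 63, q 10 * a ^ 2 / 64,
    ![q 75 / 16, q 87, q 94 / 16, q 92 / 16, q 88, -A * (q 93 / 16 + 2 * q 63 * (q 92 / 16) +
      (q 63 ^ 2 + e) * (q 75 / 16) + z ^ 2), q 95 / 16, q 93 / 16, q 89], ?_, ?_, ?_, ?_, ?_, ?_,
    fun j => ?_, ?_, ?_, ?_, ?_, ?_, fun y ζ m f G hy n1 n2 n3 n4 hm hG hf => ?_⟩
  · linear_combination a * k1 - r 39 ^ 4 * haA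
  · linear_combination -I4
  · refine mul_left_cancel₀ (pow_ne_zero 2 hη) ?_
    rw [h80] at I6
    linear_combination (-1 / 4) * I6 + 4 * (q 63 ^ 2 + e) * k1
  · linear_combination (-1 / 2) * I1
  · linear_combination -I2 - r 39 ^ 2 * h76
  · linear_combination -I3 - r 39 ^ 2 * h78
  · rw [h80] at h94 h95
    rw [h76, h78] at h93
    fin_cases j <;> simp only [rel, Fin.zero_eta, Fin.mk_one, Fin.reduceFinMk, Matrix.cons_val]
    · linear_combination a / 16 * h94 - (q 88 + 2 * q 63 * q 87 + (q 63 ^ 2 + e) * z) * haA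
    · linear_combination -(q 93 / 16 + 2 * q 63 * (q 92 / 16) + (q 63 ^ 2 + e) * (q 75 / 16) +
        z ^ 2) * haA
    · linear_combination a / 16 * h95 - (q 89 + 2 * q 63 * q 88 + (q 63 ^ 2 + e) * q 87) * haA
    · linear_combination 1 / 8 * h93
  · simp only [Matrix.cons_val]
    linear_combination (-1 / 8) * I7
  · simp only [Matrix.cons_val]
    rw [h87, h84]; ring
  · simp only [Matrix.cons_val]
    rw [h88, h85, h84, h83, h82]; ring
  · simp only [Matrix.cons_val]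
    rw [h89, h86, h85, h84, h83, h82]; ring
  · simp only [Matrix.cons_val]
    rw [h76, h78] at h92
    linear_combination -I8 + r 33 / 4 * h92
  · obtain ⟨p, p1, p2, p3, p4⟩ := q6 (y + r 26 * ζ)
    obtain ⟨c1, c2, -, -, -, c3⟩ := progC_iff.1 p3
    have p5 : ∀ i, 26 ≤ i → i < 63 → p i = r i := fun i h1 h2 =>
      (p1 i (by omega) (by omega)).trans (q2 i h1 h2)
    have p6 : ∀ i, 2 ≤ i → i < 110 → p i = q i := fun i h1 h2 => p1 i h2 (by omega)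
    obtain ⟨b1, b2, b3, b4⟩ := branch_pt (y := y) (ζ := ζ) (m := m) (f := f) (G := G) c1 c2 c3
      ((p6 9 (by decide) (by decide)).trans (i9.trans h9))
      ((p5 53 (by decide) (by decide)).trans e0)
      (by rw [p6 63, p6 17, p6 23, h63, i23] <;> decide) hy (by rw [p2, p5 26] <;> decide)
      (by simpa only [bU, p5, Nat.reduceLeDiff, Nat.reduceLT] using n1)
      (by simpa only [bV, p6, i2, Nat.reduceLeDiff, Nat.reduceLT] using n2)
      (by simpa only [bN, bn, p6, q2, i2, i12, i23, Nat.reduceLeDiff, Nat.reduceLT] using n3) n4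
      (by simpa only [bU, bN, bn, p6, q2, i2, i12, i23, Nat.reduceLeDiff, Nat.reduceLT] using hm)
      (by simpa only [bU, bV, bN, bT, bR, bn, p6, q2, i2, i12, i23, i24, i25, Nat.reduceLeDiff,
        Nat.reduceLT] using hG)
      (by rw [p6 25, i25, hz, hf] <;> decide)
    have h0 := curC_zero c3 p4 (z := z) (e := e) (d := d) (P := P) (κ := q 10 * a ^ 2 / 64)
      (k0 := q 98 / 4) (k1 := -q 99 * a / 16) (k2 := q 100 * a ^ 2 / 16) (k3 := q 97 / 8)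
      (k4 := -q 101 * a / 8) haA (by rw [p6 66, hA] <;> decide) (by rw [p6 79, he] <;> decide)
      (by rw [p6 64, hd] <;> decide) (by rw [p6 73, hP'] <;> decide)
      (by rw [p6 77, p6 63, h77, pow_two] <;> decide) (by rw [p6 81, h81] <;> decide)
      (by rw [p6 25, i25, hz] <;> decide)
      (by rw [p6 10 (by decide) (by decide)]; linear_combination -q 10 * (a * A + 1) * haA)
      (by rw [p6 98 (by decide) (by decide)]; ring)
      (by rw [p6 99 (by decide) (by decide)]; linear_combination -q 99 * haA)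
      (by rw [p6 100 (by decide) (by decide)]; linear_combination -q 100 * (a * A + 1) * haA)
      (by rw [p6 97 (by decide) (by decide)]; ring)
      (by rw [p6 101 (by decide) (by decide)]; linear_combination -q 101 * haA) b1 b2 b3 b4
    rw [sub_add_cancel, add_sub_cancel_right, p6 63 (by decide) (by decide),
      p6 7 (by decide) (by decide)] at h0
    refine Eq.trans ?_ h0
    congr 1
    rw [h76, h78] at h92 h96
    rw [h76] at h97 h100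
    simp only [coef, Matrix.cons_val]
    congr 1
    · linear_combination (-1 / 4) * h98 + q 63 / 4 * h97 + 1 / 4 * h92
    congr 1
    · linear_combination a / 16 * h99 - a / 16 * h96 - a * q 7 / 4 * h92
    congr 1
    · linear_combination -a ^ 2 / 16 * h100 - a ^ 2 * d / 8 * h96 -
        4 * a * (2 * (q 63 * q 7 * (2 * (q 63 * z) + q 87)) + z * (2 - z)) * haA
    congr 1
    · linear_combination (-1 / 8) * h97
    congr 1
    · linear_combination a / 8 * h101 + 8 * (q 87 + q 63 * z) * haA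

end Pool.Agent.P.MP_48bde8_co_s
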