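import Pool.Agent.P.MP_48bde8_co_s.Unn
import Pool.Agent.P.MP_48bde8_co_s.Star

/-! The two families of moments agree. -/

namespace Pool.Agent.P.MP_48bde8_co_s

open MP_48bde8_co MP_48bde8_co.Exist

section

variable {R R' : Type} [CommRing R] [CommRing R'] (ψ : R →+* R') (r : ℕ → R) (ζ : R)

theorem map_bU : ψ (bU r ζ) = bU (fun i => ψ (r i)) (ψ ζ) := by simp [bU]

theorem map_bV : ψ (bV r ζ) = bV (fun i => ψ (r i)) (ψ ζ) := by simp [bV]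

theorem map_bN : ψ (bN r ζ) = bN (fun i => ψ (r i)) (ψ ζ) := by simp [bN, bn, map_ofNat]

theorem map_bT : ψ (bT r ζ) = bT (fun i => ψ (r i)) (ψ ζ) := by simp [bT, bU, map_ofNat]

theorem map_bR : ψ (bR r ζ) = bR (fun i => ψ (r i)) (ψ ζ) := by simp [bR, bn, map_ofNat]

/-- The coefficients of the branch are small. -/
def Sm (E : R) (r : ℕ → R) : Prop :=
  E ∣ r 2 ∧ E ∣ r 12 + r 23 ∧ E ∣ r 24 ∧ E ∣ r 26 ∧ E ∣ r 29 ∧ E ∣ r 32 ∧ E ∣ r 34 + r 25 ∧ E ∣ r 35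

theorem Sm.map {E : R} {r : ℕ → R} (h : Sm E r) : Sm (ψ E) fun i => ψ (r i) := by
  obtain ⟨h1, h2, h3, h4, h5, h6, h7, h8⟩ := h
  simp only [Sm, ← map_add]
  exact ⟨map_dvd ψ h1, map_dvd ψ h2, map_dvd ψ h3, map_dvd ψ h4, map_dvd ψ h5, map_dvd ψ h6,
    map_dvd ψ h7, map_dvd ψ h8⟩

theorem Sm.dvd {E : R} {r : ℕ → R} (h : Sm E r) : E ∣ bU r ζ - 1 ∧ E ∣ bV r ζ - 1 ∧
    E ∣ bT r ζ ∧ E ∣ bR r ζ ∧ E * ζ ∣ bN r ζ - bU r ζ := by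
  obtain ⟨⟨a1, h1⟩, ⟨a2, h2⟩, ⟨a3, h3⟩, ⟨a4, h4⟩, ⟨a5, h5⟩, ⟨a6, h6⟩, ⟨a7, h7⟩, ⟨a8, h8⟩⟩ := h
  simp only [bU, bV, bT, bR, bN, bn, Matrix.cons_val, h2, h7]
  refine ⟨⟨-a4 * ζ ^ 2, by rw [h4]; ring⟩, ⟨-a1 * ζ, by rw [h1]; ring⟩,
    ⟨2 * a5 * (1 - r 26 * ζ ^ 2) ^ 2 + a5 * ζ ^ 2 * (2 * r 32 + r 30 * ζ) -
      a8 * (1 + r 26 * ζ ^ 2) - a3 * ζ, by rw [h3, h5, h8]; ring⟩,
    ⟨a7 * (1 + r 12 * ζ + r 12 ^ 2 * ζ ^ 2) + (r 34 * a2 - r 25 * a1) * (ζ + r 12 * ζ ^ 2) +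
      (r 34 * (a6 - 2 * a4 + r 12 * a2) - r 25 * a4) * ζ ^ 2, by rw [h1, h4, h6]; ring⟩,
    ⟨a2 + (a6 - a4 + r 12 * a2) * ζ - r 2 * a4 * ζ ^ 2, by rw [h4, h6]; ring⟩⟩

open Polynomial in
theorem exists_WG {ε : R} (hC : Cpl ε) {r : ℕ → R} (h : Sm (ε ^ 2) r) : ∃ W Γ : R → R,
    (∀ s s', s - s' ∣ W s - W s') ∧ (∀ s s', s - s' ∣ Γ s - Γ s') ∧ ∀ ζ, IsUnit (bU r ζ) ∧
      IsUnit (bV r ζ * bN r ζ) ∧ (1 + ε ^ 2 * (ζ * W ζ)) * bU r ζ = bN r ζ ∧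
      ε ^ 2 * ζ * Γ ζ * (bU r ζ ^ 2 * (bV r ζ * bN r ζ)) =
        ζ * (bT r ζ * (bV r ζ * bN r ζ) - bR r ζ * bU r ζ ^ 2) := by
  have lp : ∀ p : R[X], (fun ζ => p.eval ζ) ∈ lipS (RingHom.id R) id := fun p =>
    lp_iff.2 fun a b => sub_dvd_eval_sub a b p
  have un : ∀ y : R, ε ^ 2 ∣ y - 1 → IsUnit y := fun y ⟨t, ht⟩ =>
    (show 1 + ε * (ε * t) = y by linear_combination -ht) ▸ hC.isUnit _
  have u1 := fun ζ => un _ (h.dvd ζ).1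
  have u2 : ∀ ζ, IsUnit (bV r ζ * bN r ζ) := fun ζ => (un _ (h.dvd ζ).2.1).mul (un _
    ((((dvd_mul_right _ ζ).trans (h.dvd ζ).2.2.2.2).add (h.dvd ζ).1).trans (dvd_of_eq (by ring))))
  obtain ⟨-, -, ⟨T, hT⟩, ⟨Q, hQ⟩, ⟨w, hw⟩⟩ := (h.map C).dvd X
  have eU : ∀ ζ, eval ζ (bU (fun i => C (r i)) X) = bU r ζ := fun ζ => by simp [bU]
  have eN : ∀ ζ, eval ζ (bN (fun i => C (r i)) X) = bN r ζ := fun ζ => by simp [bN, bn]
  have eV : ∀ ζ, eval ζ (bV (fun i => C (r i)) X) = bV r ζ := fun ζ => by simp [bV]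
  obtain ⟨y1, m1, k1⟩ := lp_inv (lp (bU (fun i => C (r i)) X)) fun ζ => (eU ζ).symm ▸ u1 ζ
  obtain ⟨y2, m2, k2⟩ := lp_inv (lp (bV (fun i => C (r i)) X * bN (fun i => C (r i)) X))
    fun ζ => by rw [eval_mul, eV, eN]; exact u2 ζ
  refine ⟨(fun ζ => w.eval ζ) * y1, (fun ζ => T.eval ζ) * y1 ^ 2 - (fun ζ => Q.eval ζ) * y2,
    lp_iff.1 (mul_mem (lp w) m1),
    lp_iff.1 (sub_mem (mul_mem (lp T) (pow_mem m1 2)) (mul_mem (lp Q) m2)), fun ζ => ?_⟩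
  have a1 : bU r ζ * y1 ζ = 1 := (eU ζ) ▸ congrFun k1 ζ
  have a2 : bV r ζ * bN r ζ * y2 ζ = 1 := by
    rw [← eV, ← eN, ← eval_mul]
    exact congrFun k2 ζ
  have a3 : bT r ζ = ε ^ 2 * T.eval ζ := by simpa [bT, bU] using congrArg (eval ζ) hT
  have a4 : bR r ζ = ε ^ 2 * Q.eval ζ := by simpa [bR, bn] using congrArg (eval ζ) hQ
  have a5 : bN r ζ - bU r ζ = ε ^ 2 * ζ * w.eval ζ := by
    simpa [eU, eN] using congrArg (eval ζ) hw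
  refine ⟨u1 ζ, u2 ζ, ?_, ?_⟩
  · simp only [Pi.mul_apply]
    linear_combination ε ^ 2 * ζ * w.eval ζ * a1 - a5
  · simp only [Pi.mul_apply, Pi.sub_apply, Pi.pow_apply, a3, a4]
    linear_combination ε ^ 2 * ζ * T.eval ζ * (bV r ζ * bN r ζ) * (bU r ζ * y1 ζ + 1) * a1 -
      ε ^ 2 * ζ * Q.eval ζ * bU r ζ ^ 2 * a2

end

theorem moments {O F : Type} [CommRing O] [Field F] {ι : O →+* F}
    {ε sg si hf th z : O} {e : Fˣ} (he : ι ε = e) (hC : Cpl ε) (hinv : sg * si = 1)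
    (hhf : 2 * hf = 1) (hth : 3 * th = 1) (hz : ι z = -(ι sg ^ 2 * (e : F) ^ 2)) {θ : Fin 10 → O}
    {τ : List Bool → O} (hτ : SDC 1 z θ τ) (hsm : Small ε z θ)
    (hpa : ParLT ι.range e (ι sg) (ι si) (ι hf) fun j => ι (θ j))
    (hloc : ∀ y ∈ ι.range, IsUnit (1 + (e : F) * y)) (hkap : θ 9 = Kap 1 z θ τ)
    (hmom : ∀ j, τ (w9 j) = shear (θ 1) (mom0 1 z ε) j) {r : ℕ → O} (ha : ε ∣ r 12 + 1)
    (hr : Sm (ε ^ 2) r) {a c u d s v κ ρ ς l : F} {μ : Fin 9 → F}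
    (hS : Star (fun i => ι (r i)) (ι z) a c u d s v κ μ)
    (hθ : (fun j => ι (θ j)) = thS a c u d s v ρ ς l (ι (θ 9)))
    (hk : VV ι.range e 9 (ρ * coef 1 (ι z) a 1 0 c d s v μ 0)) :
    msS (ι z) ρ ς (shear l (mom0 1 (ι z) (ι ε))) = μ := by
  obtain ⟨W, Γ, hW, hΓ, hb⟩ := exists_WG hC hr
  choose ζ δ y f h1 h2 h3 h4 h5 h6 using
    branch_node he hC hinv hhf hth hz hτ hsm hpa hloc hkap hmom ha hW hΓ
  have hω : ∀ i, ∃ y ∈ ι.range, om e (ι si) i (ι (δ i)) * y = 1 := fun i => by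
    obtain ⟨t, ht⟩ := (node_units hC hinv hhf i (h2 i)).2.2.exists_right_inv
    exact ⟨ι t, ⟨t, rfl⟩, by
      rw [om_eq, ← he, ← map_omO, ← map_mul]
      exact (congrArg ι ht).trans (map_one ι)⟩
  have h7 : ∀ i, curve 1 (ι z) a 1 0 c u d s v κ (coef 1 (ι z) a 1 0 c d s v μ) (f i)
      (mOf e (ι si) i (ι (δ i))) = 0 := fun i => by
    obtain ⟨b1, b2, b3, b4⟩ := hb (ζ i)
    obtain ⟨t, -, ht⟩ := hω i
    have b5 := (b2.map ι).ne_zero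
    rw [map_mul, map_bV, map_bN] at b5
    refine hS.cur (y i) (ι (ζ i)) _ _ _ (h1 i) (map_bU ι r _ ▸ (b1.map ι).ne_zero)
      (left_ne_zero_of_mul b5) (right_ne_zero_of_mul b5)
      (mul_ne_zero (Units.ne_zero _) (left_ne_zero_of_mul_eq_one ht)) ?_ ?_ (h5 i)
    · rw [h3, ← map_bU, ← map_bN, ← b3, map_mul, mul_assoc]
    · simpa only [← map_bU, ← map_bV, ← map_bN, ← map_bT, ← map_bR, ← map_pow, ← map_mul,
        ← map_sub] using congrArg ι b4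
  have hl : ι (θ 1) = l := congrFun hθ 1
  have hρ : ι (θ 2) = ρ := congrFun hθ 2
  obtain ⟨u0, u2, -, u3, u4⟩ := hpa.units hloc
  have hk0 := hpa.coef 0
  rw [← hz, ← he, hl] at hk0
  have hrel : ∀ j, relT 1 (ι z) (fun j => ι (θ j)) (shear l (mom0 1 (ι z) (ι ε))) j = 0 := by
    intro j
    have := congrArg ι (hτ.rel j)
    simpa only [map_relT, hmom, map_shear, map_mom0, map_one, map_zero, hl] using this
  simp only [curveAt_eq, hl] at h6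
  generalize shear l (mom0 1 (ι z) (ι ε)) = μ' at *
  have h8 := vand' hpa hloc (δ := fun i => ι (δ i)) (f := f) (fun i => by
      obtain ⟨t, ht⟩ := h2 i
      exact ⟨ι t, ⟨t, rfl⟩, by rw [← map_d0, ← map_sub, ht, map_mul, he, zpow_one]⟩) hω h4
    (hz ▸ NodeC.vz hpa) h5 (k := fun _ => ι hf * (coefT 1 (ι z) (fun j => ι (θ j)) μ' 0 +
      ksS ρ (coef 1 (ι z) a 1 0 c d s v μ) 0))
    (((VV.of_mem hpa.hhf).mul (hk0.add hk)).mono hpa.he (by decide)) fun i => by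
      rw [curve_diff _ _ _ (ι (θ 9)) (ρ ^ 7 * κ) _ _ _ _ hpa.hhf2, h6, hθ, curve_unn, h7,
        mul_zero, sub_zero]
  have a0 := congrFun hθ 0
  have a3 := congrFun hθ 3
  have a4 := congrFun hθ 4
  have a6 := congrFun hθ 6
  have a7 := congrFun hθ 7
  simp only [thS, Matrix.cons_val] at a0 a3 a4 a6 a7
  simp only [a0, a3, a4, a6, a7, hρ] at u0 u2 u3 u4
  rw [hθ] at hrel
  rw [hθ, coef_unn] at h8
  have k0 := sub_eq_zero.1 (congrFun h8 5)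
  have k1 := sub_eq_zero.1 (congrFun h8 1)
  have k2 := sub_eq_zero.1 (congrFun h8 2)
  have k3 := sub_eq_zero.1 (congrFun h8 3)
  have k4 := sub_eq_zero.1 (congrFun h8 4)
  simp only [ksS, Matrix.cons_val] at k0 k1 k2 k3 k4
  refine mom_eq (IsUnit.of_mul_eq_one _ hpa.hhf2) (isUnit_of_mul_isUnit_left u0)
    (isUnit_of_mul_isUnit_left (y := ρ ^ 4) (by convert u3 using 1; ring))
    (isUnit_of_mul_isUnit_left (y := ρ ^ 3) (by convert u4 using 1; ring)) (funext fun j => ?_)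
    (rel_unn u2 hrel) hS.rel
  fin_cases j
  exacts [u2.mul_left_cancel k0, (u2.pow 4).mul_left_cancel k1, (u2.pow 6).mul_left_cancel k2, k3,
    (u2.pow 2).mul_left_cancel k4]

end Pool.Agent.P.MP_48bde8_co_s
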