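import Pool.Agent.P.MP_48bde8_co_s.Ex

/-! The programs. -/

namespace Pool.Agent.P.MP_48bde8_co_s

open Ex

/- registers
  23 c, 24 G3, 25 dl, -/
/-- First steps of the system. -/
def preS : List Ex :=
  [add (v 0) (mul (v 9) (v 1)), sub (mul (v 1) (v 22)) (mul (mul (v 8) (mul (sub (v 12) (v 2))
    (sub (v 12) (v 2)))) (add (v 12) (v 2))), mul (v 22) (sub (v 9) (v 0))]

/- registers
  23 c, 24 G3, 25 dl, -/
/-- First steps of the matching system. -/
def preH : List Ex :=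
  [add (v 0) (mul (v 9) (v 1)), v 7, mul (v 22) (sub (v 9) (v 0))]

/- registers
  25 dl, -/
/-- First step of the identity check. -/
def preJ : List Ex :=
  [neg (mul (v 8) (add (mul (add (v 12) (v 2)) (add (v 23) (sm 2 (mul (v 9) (sub (v 12) (v 2))))))
    (v 18)))]

/- registers
  11 rho, 12 a, 13 rm, 14 rp, 15 k1, 16 k2, 17 S, 18 e, 19 l, 20 A1, 21 A2, 22 o, 23 c, 24 G3, 25
    dl, -/
/-- First steps of the curve check. -/
def preC : List Ex :=
  [mul (v 0) (v 2), mul (v 0) (v 11), sub (v 0) (v 9), add (v 0) (v 9), mul (v 13) (v 3), mul (v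
    14) (v 4), add (v 15) (v 16), neg (sm 2 (mul (v 2) (v 17))), mul (v 7) (v 2), sm 4 (mul (mul
    (mul (v 11) (v 15)) (v 15)) (v 5)), neg (sm 4 (mul (mul (mul (v 11) (v 16)) (v 16)) (v 6))),
    sub (sub (sub (sm 2 (mul (mul (v 7) (v 11)) (add (sub (v 11) (v 15)) (v 16)))) (v 20)) (v 21))
    (mul (mul (v 8) (sub (v 12) (v 2))) (sub (v 12) (v 2))), sub (sm 2 (sub (v 4) (v 3))) (sub (v
    12) (v 2)), sm 2 (mul (v 11) (add (sub (v 20) (v 21)) (mul (mul (v 7) (v 11)) (v 17)))), neg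
    (mul (v 8) (add (mul (add (v 12) (v 2)) (add (v 23) (sm 2 (sub (v 12) (v 2))))) (v 18)))]

/- registers
  26 eta, 27 th, 28 vp, 29 Lam, 30 Q, 31 p, 32 D, 33 th2, 34 g4, 35 G2, 36 Q2, 37 D2, 38 eD2, 39
    Pi, 40 Sg, 41 QD, 42 LD2, 43 xe, 44 Th, 45 Tq, 46 Psi, 47 pd, 48 pr, 49 Pi2, 50 pv, 51 Th2, 52
    M0, 53 e0, -/
/-- The common steps. -/
def core : List Ex :=
  [mul (v 12) (v 2), sub (v 12) (v 2), add (v 12) (v 2), mul (v 12) (v 19), neg (mul (v 12) (v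
    18)), add (v 23) (mul (v 9) (v 27)), sub (v 18) (mul (v 27) (v 31)), mul (v 27) (v 27), mul (v
    8) (v 33), sub (sub (sm 2 (mul (v 9) (v 29))) (v 22)) (v 34), mul (v 30) (v 30), mul (v 32) (v
    32), mul (v 26) (v 37), sub (v 36) (v 38), add (v 36) (v 38), mul (v 30) (v 32), mul (v 29) (v
    37), mul (v 9) (v 26), sub (sub (mul (v 35) (v 40)) (mul (v 41) (v 24))) (mul (v 42) (v 32)),
    sub (mul (v 24) (v 40)) (sm 4 (mul (mul (v 26) (v 41)) (v 35))), add (mul (v 9) (add (sub (mul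
    (v 30) (v 24)) (sm 2 (mul (mul (v 26) (v 32)) (v 35)))) (v 42))) (mul (v 39) (v 8)), sub (mul
    (v 26) (v 45)) (mul (mul (v 29) (v 30)) (sub (v 36) (sm 3 (v 38)))), add (mul (v 30) (v 45))
    (mul (v 42) (v 40)), mul (v 39) (v 39), sub (add (sub (mul (mul (v 24) (v 32)) (add (sm 4 (mul
    (v 43) (v 39))) (mul (v 32) (v 36)))) (mul (mul (v 35) (v 30)) (add (sm 8 (mul (v 43) (v 39)))
    (mul (v 32) (v 40))))) (mul (mul (v 29) (v 41)) (add (sm 4 (mul (v 9) (v 39))) (mul (v 37) (v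
    32))))) (sm 2 (mul (mul (v 8) (v 28)) (v 49))), mul (v 44) (v 44), sub (mul (v 51) (v 37)) (sm
    8 (mul (mul (v 39) (v 44)) (v 46))), add (mul (v 8) (add (mul (v 28) (add (v 31) (mul (v 9) (v
    27)))) (v 18))) (v 25)]

/- registers
  54 k, 55 Om, 56 T0, 57 f2, 58 vp2, 59 f3, 60 f4, -/
/-- More common steps. -/
def core2 : List Ex :=
  [add (v 18) (mul (v 28) (v 31)), add (mul (v 9) (sub (mul (add (v 32) (sm 4 (v 43))) (v 35)) (sm
    4 (mul (mul (v 9) (v 29)) (v 32))))) (mul (mul (v 8) (v 54)) (v 54)), sub (sm 2 (mul (v 46) (v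
    46))) (mul (v 44) (v 55)), sub (neg (v 24)) (mul (v 34) (v 28)), mul (v 28) (v 28), sub (sub
    (sm 2 (mul (v 29) (v 32))) (sm 3 (mul (v 26) (v 35)))) (mul (v 34) (sub (v 58) (v 26))), sub
    (sub (mul (v 29) (v 30)) (sm 2 (mul (v 26) (v 24)))) (mul (mul (v 34) (v 28)) (sub (v 58) (sm
    2 (v 26))))]

/- registers
  61 Wr, 62 tb, -/
/-- More common steps. -/
def coretb : List Ex :=
  [add (add (mul (v 19) (add (sub (sm 2 (v 32)) (v 18)) (mul (v 9) (sub (sm 2 (mul (v 2) (v 2)))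
    (sm 6 (v 26)))))) (mul (v 22) (v 28))) (v 57), add (sm 2 (mul (v 25) (v 61))) (mul (v 33) (sub
    (sm 4 (mul (mul (v 25) (v 8)) (v 28))) (mul (mul (v 8) (v 8)) (add (add (mul (v 18) (add (sm 3
    (v 28)) (v 27))) (mul (v 31) (sub (sm 3 (v 58)) (v 33)))) (sm 4 (mul (v 43) (v 27)))))))]

/-- A large step. -/
def tpol_159 : Ex :=
  add (mul (v 155) (add (add (add (add (add (add (add (add (add (mul (v 139) (sub (sm 2 (v 98))
    (add (v 94) (v 109)))) (mul (v 114) (sub (v 109) (v 98)))) (mul (v 115) (sm 2 (v 109)))) (mul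
    (v 116) (sub (add (add (add (v 104) (sm 8 (v 99))) (sm 6 (v 106))) (v 125)) (add (add (sm 4 (v
    105)) (sm 8 (v 110))) (sm 4 (v 124)))))) (mul (v 118) (sub (add (sm 2 (v 105)) (sm 6 (v 124)))
    (add (add (sm 6 (v 106)) (sm 6 (v 110))) (sm 2 (v 125)))))) (mul (v 120) (sub (add (add (sm 24
    (v 142)) (sm 2 (v 143))) (sm 8 (v 148))) (add (sm 8 (v 141)) (sm 24 (v 144)))))) (mul (v 70)
    (sub (add (add (add (sm 3 (v 101)) (sm 2 (v 123))) (v 134)) (v 136)) (add (add (v 130) (v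
    126)) (v 113))))) (mul (v 75) (sub (add (add (v 126) (sm 2 (v 134))) (v 136)) (add (sm 3 (v
    123)) (sm 3 (v 113)))))) (mul (v 80) (sub (add (add (add (add (add (add (v 149) (sm 4 (v
    133))) (sm 2 (v 135))) (sm 6 (v 125))) (sm 2 (v 152))) (v 153)) (v 146)) (add (add (add (add
    (add (sm 3 (v 132)) (v 150)) (sm 2 (v 124))) (sm 2 (v 151))) (sm 4 (v 137))) (v 154))))) (mul
    (v 85) (neg (sm 2 (v 136)))))) (mul (v 2) (add (mul (v 147) (add (add (add (add (add (add (add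
    (add (add (mul (v 139) (sub (add (v 83) (v 98)) (sm 2 (v 94)))) (mul (v 114) (sub (add (add (v
    83) (sm 2 (v 91))) (v 98)) (add (v 94) (v 109))))) (mul (v 115) (sub (add (sm 2 (v 94)) (sm 2
    (v 109))) (sm 10 (v 98))))) (mul (v 116) (sub (add (sm 2 (v 127)) (sm 16 (v 99))) (sm 16 (v
    95))))) (mul (v 118) (sub (add (add (sm 6 (v 105)) (sm 46 (v 99))) (sm 2 (v 124))) (add (add
    (add (sm 2 (v 104)) (sm 14 (v 95))) (sm 6 (v 106))) (sm 14 (v 110)))))) (mul (v 120) (sub (add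
    (add (sm 8 (v 140)) (sm 6 (v 129))) (sm 24 (v 142))) (add (add (add (sm 6 (v 128)) (sm 24 (v
    141))) (sm 6 (v 143))) (sm 8 (v 144)))))) (mul (v 70) (sub (add (add (add (v 111) (sm 6 (v
    98))) (v 130)) (v 113)) (add (add (add (add (sm 6 (v 103)) (sm 7 (v 101))) (sm 4 (v 109))) (v
    126)) (v 134))))) (mul (v 75) (sub (add (add (add (add (v 111) (sm 6 (v 101))) (sm 13 (v
    123))) (sm 4 (v 113))) (v 136)) (add (add (add (add (sm 3 (v 103)) (sm 2 (v 130))) (sm 8 (v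
    109))) (sm 6 (v 126))) (sm 2 (v 134)))))) (mul (v 80) (sub (add (add (add (add (sm 3 (v 131))
    (sm 2 (v 106))) (sm 2 (v 110))) (sm 2 (v 135))) (sm 3 (v 137))) (add (add (add (add (add (sm 2
    (v 105)) (v 132)) (sm 6 (v 133))) (sm 6 (v 124))) (sm 10 (v 125))) (v 146))))) (mul (v 85)
    (add (add (sm 4 (v 126)) (sm 2 (v 113))) (sm 4 (v 136)))))) (mul (v 2) (add (mul (v 138) (add
    (add (add (add (add (add (add (add (mul (v 114) (sub (add (add (sm 2 (v 74)) (v 94)) (sm 2 (v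
    91))) (add (v 83) (sm 8 (v 79))))) (mul (v 115) (sub (add (sm 10 (v 94)) (sm 8 (v 91))) (add
    (add (sm 2 (v 83)) (sm 8 (v 79))) (sm 2 (v 98)))))) (mul (v 116) (sub (add (add (sm 2 (v 117))
    (sm 8 (v 84))) (sm 2 (v 127))) (add (sm 8 (v 119)) (sm 8 (v 95)))))) (mul (v 118) (sub (add
    (add (sm 14 (v 84)) (sm 8 (v 127))) (sm 14 (v 99))) (add (sm 8 (v 119)) (sm 46 (v 95))))))
    (mul (v 120) (sub (add (sm 6 (v 121)) (sm 6 (v 129))) (sm 6 (v 128))))) (mul (v 70) (sub (add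
    (add (add (add (sm 3 (v 87)) (sm 2 (v 91))) (sm 8 (v 103))) (sm 3 (v 101))) (sm 8 (v 109)))
    (add (add (add (sm 2 (v 83)) (sm 4 (v 94))) (sm 10 (v 98))) (sm 2 (v 123)))))) (mul (v 75)
    (sub (add (add (add (add (add (sm 5 (v 87)) (v 111)) (sm 16 (v 98))) (sm 2 (v 130))) (sm 16 (v
    109))) (v 126)) (add (add (add (sm 3 (v 103)) (sm 16 (v 101))) (sm 9 (v 123))) (v 113)))))
    (mul (v 80) (sub (add (add (add (add (add (add (add (sm 4 (v 104)) (sm 2 (v 105))) (sm 6 (v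
    99))) (sm 4 (v 132))) (sm 2 (v 133))) (sm 18 (v 124))) (sm 2 (v 125))) (v 137)) (add (add (add
    (add (sm 6 (v 95)) (sm 3 (v 131))) (sm 2 (v 106))) (sm 10 (v 110))) (sm 4 (v 135)))))) (mul (v
    85) (neg (add (add (add (add (sm 2 (v 111)) (sm 4 (v 101))) (sm 8 (v 126))) (sm 6 (v 113)))
    (sm 2 (v 136))))))) (mul (v 2) (add (mul (v 67) (add (add (add (add (add (add (add (add (mul
    (v 114) (sm 2 (v 74))) (mul (v 115) (sub (sm 8 (v 74)) (add (sm 2 (v 83)) (sm 8 (v 79))))))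
    (mul (v 116) (sm 2 (v 117)))) (mul (v 118) (sub (add (sm 8 (v 117)) (sm 6 (v 84))) (sm 8 (v
    119))))) (mul (v 120) (neg (sm 2 (v 121))))) (mul (v 70) (sub (add (add (add (add (sm 2 (v
    74)) (sm 6 (v 83))) (sm 8 (v 94))) (sm 2 (v 98))) (v 101)) (add (add (add (add (sm 8 (v 79))
    (sm 3 (v 87))) (sm 2 (v 91))) (sm 2 (v 103))) (sm 4 (v 109)))))) (mul (v 75) (sub (add (add
    (sm 8 (v 91)) (sm 7 (v 103))) (sm 10 (v 101))) (add (add (add (add (add (sm 8 (v 79)) (sm 4 (v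
    87))) (sm 8 (v 94))) (sm 32 (v 98))) (sm 8 (v 109))) (v 123))))) (mul (v 80) (sub (add (add
    (add (add (sm 6 (v 84)) (sm 6 (v 95))) (sm 2 (v 105))) (sm 14 (v 110))) (sm 2 (v 125))) (add
    (add (add (sm 8 (v 104)) (sm 6 (v 99))) (sm 2 (v 106))) (sm 10 (v 124)))))) (mul (v 85) (add
    (add (add (add (sm 2 (v 87)) (sm 4 (v 111))) (sm 12 (v 101))) (sm 4 (v 126))) (sm 6 (v
    113)))))) (mul (v 2) (add (mul (v 65) (add (add (add (mul (v 70) (sub (add (sm 16 (v 79)) (sm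
    2 (v 98))) (add (add (add (sm 2 (v 74)) (sm 6 (v 83))) (sm 4 (v 94))) (sm 2 (v 91))))) (mul (v
    75) (sub (add (add (add (sm 8 (v 74)) (sm 8 (v 79))) (sm 16 (v 94))) (sm 16 (v 98))) (add (add
    (v 87) (sm 16 (v 91))) (v 103))))) (mul (v 80) (sub (add (add (sm 4 (v 104)) (sm 6 (v 95)))
    (sm 2 (v 106))) (add (add (add (sm 14 (v 84)) (sm 2 (v 105))) (sm 6 (v 99))) (sm 6 (v
    110)))))) (mul (v 85) (neg (add (add (add (sm 6 (v 87)) (sm 2 (v 111))) (sm 12 (v 101))) (sm 2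
    (v 113))))))) (mul (v 2) (add (mul (v 12) (add (add (add (mul (v 70) (sub (add (sm 2 (v 83))
    (sm 2 (v 91))) (add (sm 2 (v 74)) (sm 8 (v 79))))) (mul (v 75) (sub (add (sm 8 (v 79)) (sm 8
    (v 91))) (add (sm 16 (v 74)) (sm 8 (v 94)))))) (mul (v 80) (sub (add (sm 10 (v 84)) (sm 6 (v
    99))) (sm 6 (v 95))))) (mul (v 85) (add (sm 6 (v 87)) (sm 4 (v 101)))))) (mul (v 2) (add (add
    (add (mul (v 70) (sm 2 (v 74))) (mul (v 75) (sub (sm 8 (v 74)) (sm 8 (v 79))))) (mul (v 80)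
    (neg (sm 2 (v 84))))) (mul (v 85) (neg (sm 2 (v 87))))))))))))))))

/-- A large step. -/
def tpol_192 : Ex :=
  add (mul (v 156) (add (add (add (add (add (add (add (add (add (mul (v 139) (sub (sm 4 (v 110))
    (sm 4 (v 99)))) (mul (v 114) (sub (add (add (v 105) (sm 2 (v 110))) (sm 3 (v 124))) (add (sm 3
    (v 106)) (v 125))))) (mul (v 115) (sub (sm 2 (v 124)) (add (v 106) (v 125))))) (mul (v 116)
    (sm 2 (v 143)))) (mul (v 118) (sub (add (add (add (add (sm 5 (v 161)) (sm 6 (v 142))) (sm 10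
    (v 163))) (sm 6 (v 148))) (v 173)) (add (add (add (v 160) (sm 10 (v 162))) (sm 12 (v 144)))
    (sm 5 (v 164)))))) (mul (v 120) (sub (add (add (add (sm 4 (v 177)) (sm 40 (v 179))) (sm 4 (v
    174))) (sm 20 (v 181))) (add (add (add (add (sm 20 (v 178)) (sm 2 (v 167))) (sm 40 (v 180)))
    (sm 2 (v 175))) (sm 4 (v 182)))))) (mul (v 70) (sub (add (add (add (v 150) (sm 6 (v 124))) (v
    151)) (sm 2 (v 137))) (add (add (add (add (add (v 132) (sm 4 (v 133))) (v 135)) (sm 4 (v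
    125))) (v 152)) (v 153))))) (mul (v 75) (sub (add (add (v 133) (sm 5 (v 135))) (sm 4 (v 137)))
    (add (add (add (v 151) (sm 2 (v 125))) (sm 2 (v 152))) (v 153))))) (mul (v 80) (sub (add (add
    (add (add (add (add (add (v 168) (sm 2 (v 169))) (v 184)) (sm 16 (v 163))) (sm 2 (v 185))) (sm
    5 (v 172))) (sm 2 (v 173))) (v 188)) (add (add (add (add (add (add (add (v 183) (sm 6 (v
    162))) (sm 6 (v 170))) (sm 2 (v 148))) (sm 16 (v 164))) (sm 2 (v 186))) (v 187)) (sm 2 (v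
    176)))))) (mul (v 85) (sub (sm 2 (v 153)) (sm 2 (v 137)))))) (mul (v 2) (add (mul (v 155) (add
    (add (add (add (add (add (add (add (add (mul (v 139) (sub (sm 8 (v 95)) (sm 8 (v 99)))) (mul
    (v 114) (sub (add (add (add (sm 2 (v 95)) (sm 3 (v 105))) (sm 2 (v 110))) (v 124)) (add (add
    (v 104) (sm 10 (v 99))) (sm 3 (v 106)))))) (mul (v 115) (sub (add (add (sm 6 (v 105)) (sm 8 (v
    99))) (sm 6 (v 124))) (add (add (add (v 104) (sm 10 (v 106))) (sm 8 (v 110))) (v 125))))) (mul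
    (v 116) (sub (add (sm 2 (v 128)) (sm 2 (v 143))) (sm 10 (v 129))))) (mul (v 118) (sub (add
    (add (add (sm 6 (v 140)) (sm 60 (v 142))) (sm 8 (v 143))) (sm 6 (v 148))) (add (add (sm 36 (v
    141)) (sm 8 (v 129))) (sm 36 (v 144)))))) (mul (v 120) (sub (add (sm 12 (v 166)) (sm 12 (v
    174))) (add (add (sm 2 (v 165)) (sm 20 (v 167))) (sm 2 (v 175)))))) (mul (v 70) (sub (add (add
    (add (add (add (add (v 131) (sm 8 (v 132))) (sm 2 (v 110))) (sm 7 (v 133))) (v 151)) (sm 8 (v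
    125))) (v 152)) (add (add (add (add (add (add (sm 2 (v 105)) (v 149)) (sm 10 (v 106))) (v
    150)) (sm 6 (v 124))) (sm 2 (v 135))) (sm 2 (v 137)))))) (mul (v 75) (sub (add (add (add (add
    (add (add (v 131) (v 132)) (sm 2 (v 150))) (sm 24 (v 124))) (sm 6 (v 151))) (sm 2 (v 125)))
    (sm 2 (v 152))) (add (add (add (add (add (v 149) (sm 12 (v 106))) (sm 13 (v 133))) (sm 17 (v
    135))) (sm 4 (v 137))) (v 153))))) (mul (v 80) (sub (add (add (add (add (add (add (add (add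
    (sm 2 (v 160)) (sm 2 (v 142))) (sm 2 (v 169))) (sm 8 (v 162))) (sm 4 (v 144))) (sm 8 (v 170)))
    (sm 2 (v 148))) (sm 30 (v 164))) (sm 2 (v 176))) (add (add (add (add (sm 4 (v 168)) (sm 20 (v
    163))) (sm 4 (v 171))) (sm 4 (v 172))) (sm 4 (v 173)))))) (mul (v 85) (sub (add (sm 4 (v 133))
    (sm 4 (v 137))) (add (add (sm 4 (v 151)) (sm 2 (v 125))) (sm 4 (v 153))))))) (mul (v 2) (add
    (mul (v 147) (add (add (add (add (add (add (add (add (add (mul (v 139) (sub (sm 4 (v 95)) (sm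
    4 (v 84)))) (mul (v 114) (sub (sm 10 (v 95)) (add (sm 2 (v 84)) (sm 2 (v 99)))))) (mul (v 115)
    (sub (add (sm 2 (v 105)) (sm 16 (v 99))) (add (add (v 104) (sm 16 (v 95))) (v 106))))) (mul (v
    116) (sub (sm 10 (v 128)) (add (sm 2 (v 121)) (sm 2 (v 129)))))) (mul (v 118) (sub (add (add
    (sm 6 (v 140)) (sm 16 (v 128))) (sm 6 (v 142))) (add (sm 12 (v 141)) (sm 16 (v 129)))))) (mul
    (v 120) (sub (sm 4 (v 166)) (add (sm 2 (v 165)) (sm 2 (v 167)))))) (mul (v 70) (sub (add (add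
    (add (add (sm 2 (v 104)) (sm 2 (v 95))) (sm 10 (v 105))) (sm 18 (v 106))) (sm 3 (v 135))) (add
    (add (add (add (add (add (sm 4 (v 131)) (sm 10 (v 99))) (sm 9 (v 132))) (sm 2 (v 110))) (sm 2
    (v 133))) (sm 6 (v 124))) (sm 4 (v 125)))))) (mul (v 75) (sub (add (add (add (add (add (add
    (sm 6 (v 104)) (sm 7 (v 132))) (sm 4 (v 106))) (sm 8 (v 110))) (sm 23 (v 133))) (sm 11 (v
    135))) (sm 2 (v 125))) (add (add (add (add (add (sm 5 (v 131)) (sm 8 (v 99))) (v 149)) (sm 2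
    (v 150))) (sm 48 (v 124))) (v 151))))) (mul (v 80) (sub (add (add (add (add (add (add (sm 12
    (v 141)) (sm 3 (v 168))) (sm 2 (v 161))) (sm 4 (v 144))) (sm 2 (v 148))) (sm 4 (v 171))) (sm 2
    (v 173))) (add (add (add (add (add (add (add (sm 4 (v 140)) (sm 8 (v 160))) (sm 24 (v 142)))
    (sm 4 (v 169))) (sm 2 (v 170))) (sm 8 (v 163))) (sm 12 (v 164))) (v 172))))) (mul (v 85) (sub
    (add (add (add (add (sm 2 (v 149)) (sm 4 (v 106))) (sm 8 (v 151))) (sm 8 (v 125))) (sm 2 (v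
    153))) (add (sm 2 (v 131)) (sm 8 (v 133))))))) (mul (v 2) (add (mul (v 138) (add (add (add
    (add (add (add (add (mul (v 114) (neg (sm 2 (v 84)))) (mul (v 115) (sub (sm 8 (v 84)) (sm 8 (v
    95))))) (mul (v 116) (neg (sm 2 (v 121))))) (mul (v 118) (sub (sm 8 (v 128)) (sm 8 (v 121)))))
    (mul (v 70) (sub (add (add (add (add (sm 6 (v 95)) (sm 3 (v 131))) (sm 18 (v 99))) (sm 2 (v
    132))) (sm 6 (v 124))) (add (add (add (add (add (sm 2 (v 84)) (sm 6 (v 104))) (sm 14 (v 105)))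
    (sm 6 (v 106))) (sm 2 (v 110))) (v 133))))) (mul (v 75) (sub (add (add (add (add (add (sm 16
    (v 95)) (sm 3 (v 131))) (sm 8 (v 105))) (sm 28 (v 106))) (sm 24 (v 124))) (v 135)) (add (add
    (add (add (sm 14 (v 104)) (sm 9 (v 132))) (sm 16 (v 110))) (sm 11 (v 133))) (sm 2 (v 125))))))
    (mul (v 80) (sub (add (add (add (sm 6 (v 140)) (sm 10 (v 160))) (sm 36 (v 142))) (sm 12 (v
    163))) (add (add (add (add (sm 20 (v 141)) (sm 4 (v 161))) (sm 20 (v 144))) (sm 2 (v 148)))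
    (sm 2 (v 164)))))) (mul (v 85) (sub (sm 4 (v 131)) (add (add (add (add (add (sm 2 (v 104)) (sm
    4 (v 149))) (sm 16 (v 106))) (sm 4 (v 151))) (sm 12 (v 125))) (sm 4 (v 137))))))) (mul (v 2)
    (add (mul (v 67) (add (add (add (mul (v 70) (sub (add (add (add (sm 2 (v 84)) (sm 6 (v 104)))
    (sm 6 (v 105))) (sm 2 (v 110))) (add (add (sm 18 (v 95)) (sm 6 (v 99))) (sm 2 (v 106))))) (mul
    (v 75) (sub (add (add (add (add (sm 10 (v 104)) (v 131)) (sm 24 (v 99))) (v 132)) (sm 8 (v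
    110))) (add (add (add (sm 8 (v 84)) (sm 24 (v 95))) (sm 16 (v 105))) (sm 20 (v 106)))))) (mul
    (v 80) (sub (add (add (add (sm 2 (v 140)) (sm 4 (v 141))) (sm 2 (v 161))) (sm 12 (v 144)))
    (add (add (sm 4 (v 160)) (sm 8 (v 142))) (sm 2 (v 162)))))) (mul (v 85) (add (add (add (add
    (add (sm 8 (v 104)) (sm 2 (v 149))) (sm 24 (v 106))) (sm 8 (v 133))) (sm 8 (v 125))) (sm 2 (v
    137)))))) (mul (v 2) (add (mul (v 65) (add (add (add (mul (v 70) (sub (add (sm 2 (v 84)) (sm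
    10 (v 95))) (add (sm 2 (v 104)) (sm 2 (v 99))))) (mul (v 75) (sub (add (sm 16 (v 84)) (sm 8 (v
    105))) (add (sm 2 (v 104)) (sm 16 (v 99)))))) (mul (v 80) (sub (sm 4 (v 141)) (add (sm 6 (v
    140)) (sm 6 (v 142)))))) (mul (v 85) (neg (add (add (add (add (sm 12 (v 104)) (sm 4 (v 131)))
    (sm 16 (v 106))) (sm 4 (v 133))) (sm 2 (v 125))))))) (mul (v 2) (add (mul (v 12) (add (add
    (add (mul (v 70) (neg (sm 2 (v 84)))) (mul (v 75) (sub (sm 8 (v 95)) (sm 8 (v 84))))) (mul (v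
    80) (sm 2 (v 140)))) (mul (v 85) (add (add (sm 8 (v 104)) (sm 2 (v 131))) (sm 4 (v 106))))))
    (mul (v 2) (mul (v 85) (neg (sm 2 (v 104)))))))))))))))))

/- registers
  63 q, 64 ph, 65 a2, 66 xh, 67 a3, 68 gh, 69 G2h, 70 ff1001, 71 H200, 72 H201, 73 H202, 74 H203,
    75 ff1010, 76 H110, 77 H111, 78 H112, 79 H113, 80 ff1100, 81 H300, 82 H301, 83 H302, 84 H303,
    85 ff2000, 86 H400, 87 H401, 88 H020, 89 H021, 90 H022, 91 H023, 92 H210, 93 H211, 94 H212, 95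
    H213, 96 H120, 97 H121, 98 H122, 99 H123, 100 H220, 101 H221, 102 H310, 103 H311, 104 H402,
    105 H312, 106 H222, 107 H030, 108 H031, 109 H032, 110 H033, 111 H500, 112 H040, 113 H041, 114
    ff0011, 115 ff0020, 116 ff0101, 117 H204, 118 ff0110, 119 H114, 120 ff0200, 121 H304, 122
    H130, 123 H131, 124 H132, 125 H042, 126 H320, 127 H024, 128 H214, 129 H124, 130 H410, 131
    H501, 132 H411, 133 H321, 134 H230, 135 H231, 136 H140, 137 H141, 138 a4, 139 ff0002, 140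
    H403, 141 H313, 142 H223, 143 H034, 144 H133, 145 H050, 146 H051, 147 a5, 148 H043, 149 H600,
    150 H510, 151 H420, 152 H330, 153 H240, 154 H150, 155 a6, 156 a7, 157 a8, 158 aT1, 159 T1, 160
    H502, 161 H412, 162 H322, 163 H232, 164 H142, 165 H404, 166 H314, 167 H224, 168 H601, 169
    H511, 170 H421, 171 H331, 172 H241, 173 H052, 174 H134, 175 H044, 176 H151, 177 H503, 178
    H413, 179 H323, 180 H233, 181 H143, 182 H053, 183 H700, 184 H610, 185 H520, 186 H430, 187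
    H340, 188 H250, 189 a9, 190 a10, 191 aT2, 192 T2, -/
/-- The two smooth right-hand sides. -/
def tpol : List Ex :=
  [add (v 18) (mul (v 2) (v 31)), mul (v 31) (v 12), mul (v 12) (v 12), mul (v 9) (v 65), mul (v
    65) (v 12), mul (v 8) (v 67), mul (v 35) (v 12), mul (v 68) (v 24), mul (v 64) (v 64), mul (v
    71) (v 66), mul (v 72) (v 66), mul (v 73) (v 66), mul (v 68) (v 69), mul (v 63) (v 64), mul (v
    76) (v 66), mul (v 77) (v 66), mul (v 78) (v 66), mul (v 68) (v 19), mul (v 71) (v 64), mul (v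
    81) (v 66), mul (v 82) (v 66), mul (v 83) (v 66), mul (v 68) (v 68), mul (v 81) (v 64), mul (v
    86) (v 66), mul (v 63) (v 63), mul (v 88) (v 66), mul (v 89) (v 66), mul (v 90) (v 66), mul (v
    76) (v 64), mul (v 92) (v 66), mul (v 93) (v 66), mul (v 94) (v 66), mul (v 88) (v 64), mul (v
    96) (v 66), mul (v 97) (v 66), mul (v 98) (v 66), mul (v 96) (v 64), mul (v 100) (v 66), mul
    (v 92) (v 64), mul (v 102) (v 66), mul (v 87) (v 66), mul (v 103) (v 66), mul (v 101) (v 66),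
    mul (v 88) (v 63), mul (v 107) (v 66), mul (v 108) (v 66), mul (v 109) (v 66), mul (v 86) (v
    64), mul (v 107) (v 63), mul (v 112) (v 66), mul (v 69) (v 24), mul (v 69) (v 69), mul (v 19)
    (v 24), mul (v 74) (v 66), mul (v 19) (v 69), mul (v 79) (v 66), mul (v 19) (v 19), mul (v 84)
    (v 66), mul (v 107) (v 64), mul (v 122) (v 66), mul (v 123) (v 66), mul (v 113) (v 66), mul (v
    100) (v 64), mul (v 91) (v 66), mul (v 95) (v 66), mul (v 99) (v 66), mul (v 102) (v 64), mul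
    (v 111) (v 66), mul (v 130) (v 66), mul (v 126) (v 66), mul (v 122) (v 64), mul (v 134) (v
    66), mul (v 112) (v 64), mul (v 136) (v 66), mul (v 67) (v 12), mul (v 24) (v 24), mul (v 104)
    (v 66), mul (v 105) (v 66), mul (v 106) (v 66), mul (v 110) (v 66), mul (v 124) (v 66), mul (v
    112) (v 63), mul (v 145) (v 66), mul (v 138) (v 12), mul (v 125) (v 66), mul (v 111) (v 64),
    mul (v 130) (v 64), mul (v 126) (v 64), mul (v 134) (v 64), mul (v 136) (v 64), mul (v 145) (v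
    64), mul (v 147) (v 12), mul (v 155) (v 12), mul (v 156) (v 12), mul (v 157) (v 12), tpol_159,
    mul (v 131) (v 66), mul (v 132) (v 66), mul (v 133) (v 66), mul (v 135) (v 66), mul (v 137) (v
    66), mul (v 140) (v 66), mul (v 141) (v 66), mul (v 142) (v 66), mul (v 149) (v 66), mul (v
    150) (v 66), mul (v 151) (v 66), mul (v 152) (v 66), mul (v 153) (v 66), mul (v 146) (v 66),
    mul (v 144) (v 66), mul (v 148) (v 66), mul (v 154) (v 66), mul (v 160) (v 66), mul (v 161) (v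
    66), mul (v 162) (v 66), mul (v 163) (v 66), mul (v 164) (v 66), mul (v 173) (v 66), mul (v
    149) (v 64), mul (v 150) (v 64), mul (v 151) (v 64), mul (v 152) (v 64), mul (v 153) (v 64),
    mul (v 154) (v 64), mul (v 157) (v 12), mul (v 189) (v 12), mul (v 190) (v 12), tpol_192]

/- registers
  193 oz, 194 xz, 195 s, 196 zz, 197 zw, 198 sx, 199 n1, 200 m2, 201 m3, 202 cc, 203 n2, 204 n3,
    205 ab, 206 aa, 207 aab, 208 abb, 209 t0, 210 t1, 211 t2, 212 Dx, 213 r3, 214 r4, 215 E1, 216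
    F5, 217 F6, 218 u2, 219 u1, 220 u0, 221 Ln, 222 Lm, 223 LL, 224 E2, 225 E3, 226 E4, 227 E5,
    228 E6, -/
/-- The equations. -/
def restS : List Ex :=
  [mul (v 22) (v 0), mul (v 9) (v 0), mul (mul (v 6) (v 6)) (v 0), mul (v 0) (v 0), add (v 0) (mul
    (v 195) (v 0)), mul (v 195) (v 9), mul (v 193) (sub (v 9) (v 23)), mul (v 194) (add (add (v 9)
    (v 0)) (v 198)), mul (v 194) (add (add (add (add (add (mul (v 9) (v 9)) (sm 3 (v 194))) (v
    196)) (sm 3 (mul (v 198) (add (v 9) (v 0))))) (sm 3 (mul (v 198) (v 198)))) (mul (mul (v 198)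
    (v 198)) (v 195))), mul (v 23) (v 23), mul (v 22) (add (sub (v 200) (sm 2 (mul (v 23) (v
    194)))) (mul (v 202) (v 0))), mul (v 22) (sub (add (sub (v 201) (sm 3 (mul (v 23) (v 200))))
    (sm 3 (mul (v 202) (v 194)))) (mul (mul (v 202) (v 23)) (v 0))), mul (mul (v 6) (v 193)) (v
    194), mul (v 193) (v 0), sub (mul (v 22) (mul (v 194) (v 197))) (mul (v 23) (v 206)), mul (v
    205) (sub (add (sm 2 (add (v 9) (v 198))) (v 0)) (sm 2 (v 23))), add (mul (v 4) (v 199)) (mul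
    (v 5) (v 193)), add (add (mul (v 3) (v 205)) (mul (v 4) (v 203))) (mul (v 5) (v 199)), add
    (add (mul (v 3) (v 208)) (mul (v 4) (v 204))) (mul (v 5) (v 203)), sub (v 32) (v 43), sub (mul
    (v 22) (sub (add (v 197) (mul (mul (v 9) (v 1)) (v 1))) (v 212))) (mul (v 9) (v 59)), sub (mul
    (v 22) (sub (add (sub (sub (add (add (v 197) (sm 2 (mul (v 197) (v 195)))) (mul (mul (v 197)
    (v 195)) (v 195))) (sm 3 (mul (v 1) (v 197)))) (mul (mul (mul (v 9) (v 1)) (v 1)) (v 1))) (sm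
    2 (mul (v 212) (v 1)))) (v 30))) (mul (v 9) (v 60)), sub (v 209) (v 56), sub (mul (v 158) (v
    210)) (v 159), sub (mul (v 191) (v 211)) (v 192), sub (mul (v 4) (v 4)) (sm 4 (mul (v 51) (v
    26))), sub (sm 2 (mul (v 4) (v 5))) (sm 4 (mul (v 51) (v 30))), sub (mul (v 5) (v 5)) (v 52),
    sm 2 (mul (v 3) (v 4)), sm 2 (mul (v 3) (v 5)), mul (v 3) (v 3), add (add (add (add (mul (v
    223) (v 206)) (mul (v 221) (v 205))) (mul (v 218) (v 203))) (mul (v 219) (v 199))) (mul (v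
    220) (v 193)), add (add (add (add (add (mul (v 223) (v 207)) (mul (v 221) (v 208))) (mul (v
    222) (v 205))) (mul (v 218) (v 204))) (mul (v 219) (v 203))) (mul (v 220) (v 199)), sub (mul
    (v 3) (add (add (add (mul (v 221) (v 207)) (mul (v 222) (v 206))) (mul (v 218) (v 208))) (mul
    (v 219) (v 205)))) (sm 8 (mul (mul (v 51) (v 49)) (mul (v 193) (v 193)))), sub (mul (v 33)
    (add (add (add (add (mul (v 30) (v 209)) (sm 2 (mul (v 26) (v 210)))) (sm 2 (mul (v 47) (v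
    203)))) (sm 2 (mul (v 48) (v 199)))) (mul (v 50) (v 193)))) (mul (v 49) (v 62)), add (mul (v
    33) (add (add (add (add (add (mul (v 30) (v 210)) (sm 2 (mul (v 26) (v 211)))) (sm 2 (mul (v
    47) (v 204)))) (sm 2 (mul (v 48) (v 203)))) (mul (v 50) (v 199))) (sm 2 (mul (v 49) (mul (v
    22) (mul (v 9) (v 193))))))) (mul (v 23) (mul (v 49) (v 62)))]

/- registers
  61 N8, 62 m0, 63 ec, 64 Qc, 65 TQ, 66 Te, 67 Mm, 68 nn, 69 LL, 70 nm, 71 gA, 72 gB, 73 gAA, 74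
    gAB, 75 gBB, 76 gAAA, 77 gAAB, 78 gABB, 79 gBBB, -/
/-- The couplings. -/
def coup : List Ex :=
  [sm 8 (mul (v 51) (v 49)), sub (v 5) (mul (v 4) (v 23)), mul (v 26) (v 23), sub (v 30) (sm 2 (v
    63)), sm 4 (mul (v 51) (v 64)), sm 4 (mul (v 51) (v 26)), sub (add (v 52) (sm 4 (mul (mul (v
    51) (v 23)) (sub (v 63) (v 30))))) (mul (v 62) (v 62)), mul (v 4) (v 4), mul (v 3) (v 3), mul
    (v 4) (v 62), mul (v 3) (v 67), add (add (add (v 61) (mul (v 4) (v 67))) (mul (v 62) (v 65)))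
    (sm 4 (mul (v 51) (sub (v 50) (sm 2 (mul (v 23) (sub (v 48) (mul (v 23) (v 47)))))))), sub (v
    61) (sm 2 (mul (v 69) (v 62))), mul (v 3) (sub (v 65) (sm 2 (v 70))), add (add (sm 8 (mul (v
    51) (sub (v 48) (sm 2 (mul (v 23) (v 47)))))) (sm 2 (mul (v 4) (v 65)))) (sm 2 (mul (v 62)
    (sub (v 66) (v 68)))), neg (mul (v 69) (v 3)), neg (mul (v 69) (v 4)), mul (v 3) (sub (v 66)
    (v 68)), add (sm 8 (mul (v 51) (v 47))) (mul (v 4) (sub (sm 3 (v 66)) (v 68)))]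

/- registers
  80 hA, 81 hB, 82 hAA, 83 hAB, 84 hBB, 85 hAAA, 86 hAAB, 87 hABB, 88 hBBB, -/
/-- The matching equations. -/
def rowH : List Ex :=
  [sub (mul (v 61) (v 10)) (v 71), sub (mul (v 61) (v 11)) (v 72), sub (mul (v 61) (v 13)) (v 73),
    sub (mul (v 61) (v 14)) (v 74), sub (mul (v 61) (v 15)) (v 75), sub (mul (v 61) (v 16)) (v
    76), sub (mul (v 61) (v 17)) (v 77), sub (mul (v 61) (v 20)) (v 78), sub (mul (v 61) (v 21))
    (v 79)]

/- registers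
  193 xx, 194 Dx, 195 dc, 196 zf, 197 n1, 198 n2, 199 n3, 200 Pt, 201 J5, 202 J6, -/
/-- The identities for the smooth rows. -/
def restJ : List Ex :=
  [mul (v 9) (v 9), sub (v 32) (v 43), mul (v 25) (v 23), sub (mul (v 9) (v 22)) (v 25), add (mul
    (v 193) (v 57)) (v 195), sub (mul (v 193) (add (mul (v 9) (v 59)) (mul (v 194) (v 22)))) (mul
    (v 195) (v 23)), add (mul (mul (v 193) (v 9)) (add (add (mul (v 9) (v 60)) (sm 2 (mul (v 194)
    (v 57)))) (mul (v 30) (v 22)))) (mul (mul (v 195) (v 23)) (v 23)), mul (v 49) (v 62), sub (mul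
    (v 158) (sub (v 200) (mul (v 33) (add (add (add (mul (v 30) (v 56)) (sm 2 (mul (v 47) (v
    198)))) (sm 2 (mul (v 48) (v 197)))) (mul (v 50) (v 196)))))) (sm 2 (mul (mul (v 26) (v 33))
    (v 159))), add (mul (v 191) (add (mul (v 33) (add (add (add (sm 2 (mul (v 47) (v 199))) (sm 2
    (mul (v 48) (v 198)))) (mul (v 50) (v 197))) (sm 2 (mul (v 49) (mul (v 22) (mul (v 9) (v
    196))))))) (mul (v 23) (v 200)))) (mul (v 33) (add (mul (mul (v 65) (v 30)) (v 159)) (sm 2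
    (mul (v 26) (v 192)))))]

/- registers
  63 h, 64 d2, 65 ch4, 66 C16, 67 w1, 68 w2, 69 G0p, 70 G0m, 71 G1p, 72 G1m, 73 P2, 74 che2, 75
    mu0, 76 rr, 77 hh, 78 v2, 79 Ce, 80 Cu, 81 zf, 82 De, 83 cc, 84 n1, 85 n2, 86 n3, 87 m1, 88
    m2, 89 m3, 90 Wq, 91 b2, 92 mu3, 93 mu7, 94 mu2, 95 mu6, 96 ga, 97 K3, 98 K0, 99 K1, 100 K2,
    101 K4, 102 I1, 103 I2, 104 I3, 105 I4, 106 I5, 107 I6, 108 I7, 109 I8, -/
/-- The normalised curve data. -/
def restC : List Ex :=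
  [sub (v 17) (v 23), add (v 5) (v 6), sub (v 5) (v 6), mul (v 65) (v 65), add (sm 4 (v 11)) (v
    16), sub (v 15) (sm 4 (v 11)), sub (sub (sub (neg (mul (v 7) (add (sm 2 (v 11)) (v 17)))) (mul
    (mul (v 16) (v 16)) (v 6))) (mul (mul (mul (v 8) (v 2)) (v 14)) (v 14))) (mul (mul (v 5) (v
    15)) (add (sm 2 (v 67)) (v 15))), sub (sub (sub (neg (mul (v 7) (sub (v 17) (sm 2 (v 11)))))
    (mul (mul (v 15) (v 15)) (v 5))) (mul (mul (mul (v 8) (v 2)) (v 13)) (v 13))) (mul (mul (v 6)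
    (v 16)) (add (sm 2 (v 68)) (v 16))), sub (mul (mul (v 15) (v 15)) (sub (sub (mul (mul (v 16)
    (v 16)) (v 6)) (sm 4 (mul (v 11) (v 7)))) (mul (v 5) (add (mul (v 67) (v 67)) (sm 8 (mul (v
    11) (v 15))))))) (sm 4 (mul (mul (mul (v 11) (v 8)) (mul (v 3) (v 14))) (mul (v 3) (v 14)))),
    add (mul (mul (v 16) (v 16)) (sub (add (mul (mul (v 15) (v 15)) (v 5)) (sm 4 (mul (v 11) (v
    7)))) (mul (v 6) (sub (mul (v 68) (v 68)) (sm 8 (mul (v 11) (v 16))))))) (sm 4 (mul (mul (mul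
    (v 11) (v 8)) (mul (v 4) (v 13))) (mul (v 4) (v 13)))), add (v 69) (v 70), sub (v 69) (v 70),
    add (mul (v 74) (v 74)) (sm 2 (mul (v 65) (sub (v 71) (v 72)))), add (v 7) (mul (v 64) (v
    63)), mul (v 63) (v 63), add (sub (v 73) (mul (v 64) (v 77))) (sm 2 (mul (v 76) (v 63))), sm 2
    (mul (v 65) (v 74)), add (mul (v 66) (v 77)) (v 79), sub (v 22) (v 25), sub (v 32) (v 26), mul
    (v 23) (v 23), add (v 57) (mul (v 25) (v 23)), sub (add (v 59) (mul (v 82) (v 22))) (mul (v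
    25) (v 83)), add (add (add (v 60) (sm 2 (mul (v 82) (v 57)))) (mul (v 30) (v 22))) (mul (mul
    (v 25) (v 83)) (v 23)), add (v 84) (mul (v 23) (v 81)), add (add (v 85) (sm 2 (mul (v 23) (v
    84)))) (mul (v 83) (v 81)), add (add (add (v 86) (sm 3 (mul (v 23) (v 85)))) (sm 3 (mul (v 83)
    (v 84)))) (mul (mul (v 83) (v 23)) (v 81)), sub (sub (mul (v 7) (add (v 31) (sm 2 (v 2)))) (sm
    2 (mul (v 8) (v 28)))) (sm 4 (mul (v 0) (sub (mul (mul (v 3) (v 3)) (v 5)) (mul (mul (v 4) (v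
    4)) (v 6))))), sub (add (sm 2 (mul (v 25) (v 90))) (sm 4 (mul (mul (v 25) (v 8)) (v 28))))
    (mul (mul (v 8) (v 8)) (add (add (mul (v 18) (add (sm 3 (v 28)) (v 27))) (mul (v 31) (sub (sm
    3 (v 58)) (v 33)))) (sm 4 (mul (v 43) (v 27))))), sub (sub (sub (sub (sm 4 (v 91)) (sm 4 (mul
    (v 64) (v 88)))) (mul (v 63) (v 75))) (sm 8 (mul (v 76) (v 87)))) (sm 4 (mul (v 78) (v 81))),
    neg (add (add (add (add (sm 4 (mul (v 64) (v 89))) (mul (v 63) (v 92))) (sm 8 (mul (v 76) (v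
    88)))) (sm 4 (mul (v 78) (v 87)))) (sm 8 (mul (v 22) (v 81)))), add (mul (v 66) (add (v 88)
    (sm 2 (mul (v 63) (v 87))))) (mul (v 80) (v 81)), add (mul (v 66) (add (v 89) (sm 2 (mul (v
    63) (v 88))))) (mul (v 80) (v 87)), add (add (add (add (sm 4 (v 95)) (mul (v 64) (v 93))) (sm
    4 (mul (v 63) (v 94)))) (sm 2 (mul (v 76) (v 92)))) (mul (v 78) (v 75)), add (add (v 75) (sm 4
    (mul (v 64) (v 87)))) (sm 8 (mul (v 76) (v 81))), sub (sm 4 (v 91)) (mul (v 63) (v 97)), add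
    (sub (sm 16 (mul (v 7) (v 91))) (v 96)) (sm 16 (mul (mul (v 64) (v 25)) (v 81))), sub (sub
    (mul (v 64) (v 96)) (mul (v 7) (add (add (sm 8 (v 94)) (sm 4 (mul (v 76) (v 75)))) (sm 2 (mul
    (v 64) (v 92)))))) (sm 4 (mul (v 66) (add (sm 2 (mul (mul (v 63) (v 7)) (add (sm 2 (mul (v 63)
    (v 81))) (v 87)))) (mul (v 81) (sub (sm 2 (v 22)) (v 81)))))), neg (add (mul (v 64) (v 75))
    (sm 4 (mul (v 66) (add (v 87) (mul (v 63) (v 81)))))), sub (mul (v 49) (v 64)) (sm 2 (v 47)),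
    sub (mul (v 49) (v 76)) (sub (v 48) (sm 2 (mul (v 23) (v 47)))), sub (mul (v 49) (v 78)) (sub
    (v 50) (sm 2 (mul (v 23) (sub (v 48) (mul (v 23) (v 47)))))), sub (sm 2 (mul (v 26) (v 63)))
    (sub (v 30) (sm 2 (mul (v 26) (v 23)))), sub (sm 4 (mul (mul (v 26) (v 26)) (v 44))) (mul (mul
    (v 49) (v 11)) (v 65)), sub (mul (mul (v 49) (v 49)) (v 80)) (sm 4 (mul (mul (v 26) (v 26))
    (add (v 52) (sm 4 (mul (mul (v 51) (v 23)) (sub (mul (v 26) (v 23)) (v 30))))))), sub (mul (v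
    49) (v 75)) (sm 8 (mul (v 26) (v 56))), sub (mul (v 33) (v 91)) (v 62)]

/- registers
  110 O2, 111 Yw, 112 OY, 113 nq, 114 nn, 115 Gn, 116 nY, 117 ghh, 118 Ga, 119 t1, 120 nu, 121 Xi,
    122 OY2, 123 OO, 124 Bn, 125 Yw2, 126 gG, 127 Br, 128 EE, -/
/-- The curve along the parametrisation. -/
def curC : List Ex :=
  [sub (mul (v 1) (v 1)) (sm 4 (v 26)), sub (v 1) (v 28), mul (v 110) (v 111), sub (add (mul (v 1)
    (add (v 1) (v 17))) (v 32)) (sm 4 (v 26)), mul (v 113) (v 113), sub (add (mul (add (mul (add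
    (v 20) (v 21)) (v 1)) (sm 2 (mul (v 11) (sub (v 20) (v 21))))) (v 111)) (mul (v 34) (v 110)))
    (mul (mul (v 7) (add (v 1) (v 17))) (v 112)), mul (v 114) (v 111), sub (sub (sm 2 (v 115))
    (mul (v 64) (v 116))) (mul (v 73) (v 112)), add (v 115) (mul (mul (v 7) (v 63)) (v 112)), sub
    (add (mul (v 63) (v 115)) (mul (v 7) (v 116))) (mul (v 25) (v 112)), sub (v 114) (mul (v 77)
    (v 110)), add (sm 4 (mul (v 117) (v 119))) (mul (sub (mul (v 98) (v 110)) (sm 4 (mul (mul (v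
    64) (v 81)) (v 120)))) (mul (v 112) (v 111))), mul (v 112) (v 112), mul (v 122) (v 110), sub
    (mul (v 25) (add (mul (v 25) (v 123)) (sm 2 (mul (mul (v 112) (v 110)) (sub (mul (v 7) (v
    116)) (mul (v 63) (v 115))))))) (mul (v 120) (sub (mul (v 115) (v 115)) (mul (mul (mul (v 7)
    (v 7)) (v 116)) (v 112)))), mul (v 111) (v 111), mul (v 117) (v 118), sub (sub (mul (v 122)
    (add (sub (sub (mul (mul (add (mul (v 10) (v 110)) (sm 4 (mul (v 100) (v 120)))) (v 110)) (v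
    125)) (sm 32 (mul (mul (mul (v 66) (v 7)) (v 81)) (mul (mul (v 120) (v 120)) (v 125))))) (sm 8
    (mul (v 101) (mul (mul (v 120) (v 118)) (v 111))))) (mul (v 117) (add (sub (sm 8 (mul (v 97)
    (v 118))) (sm 4 (mul (v 99) (v 112)))) (sm 64 (mul (mul (v 25) (v 7)) (v 117))))))) (sm 16
    (mul (v 126) (v 126)))) (sm 16 (mul (mul (add (mul (v 66) (v 114)) (mul (v 79) (v 110))) (v
    125)) (v 124))), add (mul (v 110) (mul (v 121) (v 121))) (mul (v 114) (v 127))]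

/-- The system. -/
def progS : List Ex := preS ++ (core ++ (core2 ++ (coretb ++ (tpol ++ restS))))

/-- The matching system. -/
def progH : List Ex := preH ++ (core ++ (core2 ++ (coup ++ rowH)))

/-- The identity check. -/
def progJ : List Ex := preJ ++ (core ++ (core2 ++ (coretb ++ (tpol ++ restJ))))

/-- The curve check. -/
def progC : List Ex := preC ++ (core ++ (core2 ++ (coretb ++ (restC ++ curC))))

end Pool.Agent.P.MP_48bde8_co_s
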