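import Pool.Agent.P.MP_48bde8_co_s.Contr
import Pool.Agent.P.MP_48bde8_co_s.Prog

/-! The certificates. -/

namespace Pool.Agent.P.MP_48bde8_co_s

/-- Initial terms. -/
def u0a : List (ℕ × ℕ × ℤ) :=
  [(0, 0, -1), (2, 1, -1), (5, 2, -1), (7, 3, -1), (8, 3, -2), (10, 4, -4), (11, 4, -6), (12, 5,
    -2), (13, 5, -20), (14, 5, -18)]

/-- Initial terms. -/
def u0b : List (ℕ × ℕ × ℤ) :=
  [(17, 6, -1)]

/-- Initial terms. -/
def u0cp : List (ℕ × ℕ × ℤ) :=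
  [(0, 0, 1), (2, 1, 2), (4, 2, 1), (5, 2, 2), (7, 3, 3), (8, 3, 3), (9, 4, 1), (10, 4, 10), (11,
    4, 8), (12, 5, 10), (13, 5, 41), (14, 5, 23), (14, 6, 3)]

/-- Initial terms. -/
def u0e : List (ℕ × ℕ × ℤ) :=
  [(5, 2, 1), (7, 3, 1), (8, 3, 1), (10, 4, 2), (11, 4, 2), (12, 5, 1), (13, 5, 7), (14, 5, 4),
    (15, 6, 7)]

/-- Initial terms. -/
def u0g : List (ℕ × ℕ × ℤ) :=
  [(0, 0, -1), (2, 1, 1), (4, 2, -1), (5, 2, 1), (6, 3, 1), (7, 3, -1), (8, 3, 3), (8, 4, -1), (9,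
    4, 1), (10, 4, -2), (10, 5, 1), (11, 4, 10), (11, 5, -1), (12, 5, 2), (12, 6, -1), (13, 5, 2),
    (13, 6, 1), (14, 5, 31), (14, 6, -2), (14, 7, 1)]

/-- Initial terms. -/
def u0l : List (ℕ × ℕ × ℤ) :=
  []

/-- Initial terms. -/
def u0L : List (ℕ × ℕ × ℤ) :=
  [(15, 6, 2), (17, 7, 12), (18, 7, 8), (19, 8, 30), (20, 8, 60), (21, 8, 24), (21, 9, 40), (22,
    9, 192), (23, 9, 228), (23, 10, 30)]

/-- Initial terms. -/
def u0n : List (ℕ × ℕ × ℤ) :=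
  []

/-- Initial terms. -/
def u0m : List (ℕ × ℕ × ℤ) :=
  [(14, 6, 1), (15, 6, 1), (16, 7, 6), (17, 7, 10), (18, 7, 5), (18, 8, 15), (19, 8, 45), (20, 8,
    48), (20, 9, 20), (21, 8, 16), (21, 9, 116), (22, 9, 225), (22, 10, 15), (23, 9, 178), (23,
    10, 185)]

/-- Initial terms. -/
def u0G : List (ℕ × ℕ × ℤ) :=
  [(7, 3, -1), (9, 4, -1), (10, 4, -1), (12, 5, -3), (13, 5, -2), (14, 6, -2)]

/-- Parameters of the packing. -/
def cfg : Cf := ⟨3300, 2 ^ 110 + 1, 3, 58, 32⟩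

/-- Inputs. -/
def inpB : List Sp :=
  [⟨21, [(2, 1, 1)], 0, []⟩, ⟨23, u0cp, 2, [(14, 0, 1)]⟩, ⟨24, u0b, 1, [(15, 0, 1)]⟩, ⟨31, u0L, 6,
    [(23, 0, 1)]⟩, ⟨31, u0n, 7, [(24, 0, 1)]⟩, ⟨32, u0m, 8, [(23, 0, 1)]⟩, ⟨16, [(0, 0, 1)], 0,
    []⟩, ⟨0, [], 0, []⟩, ⟨23, u0g, 4, [(14, 0, 1)]⟩, ⟨21, [(1, 0, 1)], 0, []⟩, ⟨0, [], 0, []⟩, ⟨0,
    [], 0, []⟩, ⟨23, u0a, 0, [(14, 0, 1)]⟩, ⟨0, [], 0, []⟩, ⟨0, [], 0, []⟩, ⟨0, [], 0, []⟩, ⟨0,
    [], 0, []⟩, ⟨0, [], 0, []⟩, ⟨23, u0e, 3, [(15, 0, 1)]⟩, ⟨24, u0l, 5, [(15, 0, 1)]⟩, ⟨0, [], 0,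
    []⟩, ⟨0, [], 0, []⟩, ⟨23, [(0, 0, 1)], 0, []⟩]

/-- Target precisions. -/
def hsB : List ℕ :=
  [21, 23, 21, 24, 20, 20, 24, 23, 21, 20, 20, 20, 20, 28, 22, 28, 24, 28, 23, 28, 19, 30, 0, 24,
    0, 0, 34, 0, 42, 46, 21, 20, 22, 34, 0, 18, 18, 17, 0, 0, 23, 20, 18, 17, 18, 18, 20, 23, 13,
    0, 0, 0, 20, 23, 0, 0, 0, 24, 15, 11, 12, 0, 14, 17, 15, 28, 0, 0, 0, 25, 21, 22, 0, 30, 26,
    27, 21, 32, 30, 27, 25, 16, 26, 31, 31, 31, 32, 26, 19, 34, 34, 22, 19, 26, 0, 23, 0, 0, 0,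
    33, 34, 31, 33, 34, 0, 0, 0, 29, 18, 28, 33, 34, 33, 36, 35, 18, 25, 0, 0, 18, 0, 0, 0, 0, 18,
    0, 21, 28, 33, 33, 35, 0, 18, 18, 18, 18, 36, 18, 18, 20, 0, 0, 0, 0, 0, 20, 20, 20, 0, 0, 0,
    0, 0, 0, 0, 0, 0, 0, 0, 0, 20, 20, 0, 0, 0, 0, 16, 16, 16, 35, 21, 20, 17, 8, 19, 18, 22, 21,
    11, 19, 21, 11, 21, 19, 20, 20, 34, 36, 35, 19, 19, 18, 34, 36, 35, 43, 45, 46, 43, 45, 44,
    48, 50, 62, 0, 0]

/-- Multipliers. -/
def mlB0 : List (List (ℕ × ℕ × ℤ)) :=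
  [[(39, 17, 4), (40, 17, 12), (41, 17, -4), (41, 18, 4), (42, 17, -4), (42, 18, 12), (43, 18, 8),
    (44, 18, 20)], [(41, 17, 16), (42, 17, 16), (43, 18, 24), (44, 18, 76)], [(42, 17, 8), (44,
    18, 16)], [(26, 12, -4), (27, 12, -16), (28, 12, -20), (28, 13, 20), (29, 12, -4), (29, 13,
    84), (30, 12, 4), (30, 13, 108), (30, 14, -60), (31, 13, 44), (31, 14, -240), (32, 13, -12),
    (32, 14, -256), (32, 15, 140), (33, 13, -12), (33, 14, -60), (33, 15, 520), (34, 14, 8), (34,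
    15, 436), (34, 16, -280)], [(24, 11, 4), (25, 11, 8), (26, 11, 4), (26, 12, -56), (27, 12,
    -112), (28, 12, -52), (28, 13, 420), (29, 12, -16), (29, 13, 784), (30, 13, 232), (30, 14,
    -2240), (31, 13, 164), (31, 14, -3696), (32, 13, 72), (32, 14, -88), (32, 15, 9520)], [(25,
    11, 8), (27, 12, -128), (28, 12, -20), (29, 13, 1088), (30, 13, 208), (31, 13, 84), (31, 14,
    -6528)], [(12, 6, 2), (13, 6, 6), (14, 6, 4), (14, 7, -22), (15, 6, -2), (15, 7, -80), (16, 7,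
    -84), (16, 8, 132), (17, 7, -4), (17, 8, 528), (18, 7, 16), (18, 8, 676), (18, 9, -572), (19,
    8, 230), (19, 9, -2398), (20, 8, -30), (20, 9, -3386), (20, 10, 2002)], [(10, 5, 2), (11, 5,
    2), (12, 6, -22), (13, 6, -38), (14, 6, -16), (14, 7, 132), (15, 7, 286), (16, 7, 202), (16,
    8, -572), (17, 7, 76), (17, 8, -1386), (18, 8, -1232), (18, 9, 2002)], [(0, 0, 1), (2, 1,
    -18), (3, 1, -13)]]

/-- Multipliers. -/
def mlB1 : List (List (ℕ × ℕ × ℤ)) :=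
  [[(42, 18, 4), (43, 18, 8), (44, 18, -12), (44, 19, 4), (45, 18, -8), (45, 19, 8), (46, 18, 8),
    (46, 19, -24)], [(44, 18, -4), (45, 18, -32), (46, 18, -36)], [(46, 18, -8)], [(28, 12, 4),
    (29, 12, 12), (30, 12, 12), (30, 13, -12), (31, 12, 4), (31, 13, -40), (32, 13, -44), (32, 14,
    20), (33, 13, -16), (33, 14, 64), (34, 13, -8), (34, 14, 52), (34, 15, -20), (35, 14, -24),
    (35, 15, -80), (36, 14, -48), (36, 15, -100)], [(28, 12, -8), (29, 12, -24), (30, 12, -16),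
    (30, 13, 108), (31, 13, 324), (32, 13, 252), (32, 14, -780), (33, 13, 48), (33, 14, -2228),
    (34, 14, -1672), (34, 15, 4000)], [(28, 12, -4), (29, 12, -12), (30, 13, 68), (31, 13, 204),
    (32, 13, 48), (32, 14, -612), (33, 14, -1772)], [(14, 6, -2), (15, 6, -4), (16, 6, -2), (16,
    7, 18), (17, 7, 46), (18, 7, 40), (18, 8, -88), (19, 7, 14), (19, 8, -240), (20, 8, -248),
    (20, 9, 308), (21, 8, -136), (21, 9, 814), (22, 8, -36), (22, 9, 844), (22, 10, -858)], [(14,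
    6, -4), (15, 6, -6), (16, 7, 44), (17, 7, 94), (18, 7, 48), (18, 8, -264), (19, 8, -660), (20,
    8, -534), (20, 9, 1144)], [(0, 0, 1), (1, 0, 1), (2, 1, -17), (3, 1, -29), (4, 1, -12), (4, 2,
    153), (5, 2, 340)]]

/-- Multipliers. -/
def mlB2 : List (List (ℕ × ℕ × ℤ)) :=
  [[(40, 17, -4), (41, 17, -12), (42, 17, 4), (43, 17, 4), (43, 18, 4), (44, 18, -4), (44, 19, 4),
    (45, 18, -52), (45, 19, 12)], [(42, 17, -16), (43, 17, -16), (44, 18, -36), (45, 18, -92)],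
    [(43, 17, -8), (44, 18, -8), (45, 18, -32)], [(27, 12, 4), (28, 12, 20), (29, 12, 32), (29,
    13, -20), (30, 12, 16), (30, 13, -104), (31, 13, -176), (31, 14, 60), (32, 13, -128), (32, 14,
    300), (33, 14, 468), (33, 15, -140), (34, 13, 12), (34, 14, 316), (34, 15, -660), (35, 14,
    56), (35, 15, -936), (35, 16, 280)], [(25, 11, -4), (26, 11, -8), (27, 11, -4), (27, 12, 56),
    (28, 12, 112), (29, 12, 36), (29, 13, -420), (30, 13, -788), (31, 13, -36), (31, 14, 2240),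
    (32, 13, 60), (32, 14, 3756), (33, 13, -56), (33, 14, -1232), (33, 15, -9520)], [(26, 11, -8),
    (28, 12, 124), (29, 12, 8), (30, 13, -1020), (31, 13, -48), (32, 13, -60), (32, 14, 5916)],
    [(13, 6, -2), (14, 6, -8), (15, 6, -8), (15, 7, 22), (16, 7, 102), (17, 7, 140), (17, 8,
    -132), (18, 7, 46), (18, 8, -660), (19, 7, -6), (19, 8, -1054), (19, 9, 572), (20, 8, -582),
    (20, 9, 2970), (21, 8, -106), (21, 9, 5124), (21, 10, -2002)], [(11, 5, -2), (12, 5, -2), (13,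
    6, 22), (14, 6, 38), (15, 6, 10), (15, 7, -132), (16, 7, -286), (17, 7, -140), (17, 8, 572),
    (18, 7, -40), (18, 8, 1386), (19, 8, 880), (19, 9, -2002)], [(0, 0, 1), (2, 1, -17), (3, 1,
    -12), (4, 1, 3), (4, 2, 153)]]

/-- Multipliers. -/
def mlB3 : List (List (ℕ × ℕ × ℤ)) :=
  [[(40, 17, 4), (41, 17, 16), (42, 17, 8), (43, 17, -16), (43, 18, 8), (44, 17, -4), (44, 18,
    36), (44, 19, -4)], [(42, 17, 16), (43, 17, 32), (44, 17, 16), (44, 18, 20)], [(44, 17, 8)],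
    [(27, 12, -4), (28, 12, -24), (29, 12, -52), (29, 13, 20), (30, 12, -52), (30, 13, 112), (31,
    12, -24), (31, 13, 220), (31, 14, -60), (32, 12, -4), (32, 13, 192), (32, 14, -300), (33, 13,
    72), (33, 14, -472), (33, 15, 140), (34, 13, 44), (34, 14, -224), (34, 15, 620)], [(25, 11,
    4), (26, 11, 12), (27, 11, 12), (27, 12, -56), (28, 11, 4), (28, 12, -156), (29, 12, -120),
    (29, 13, 420), (30, 12, -24), (30, 13, 1040), (31, 13, 416), (31, 14, -2240), (32, 13, -264),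
    (32, 14, -4736)], [(26, 11, 8), (27, 11, 8), (28, 12, -124), (29, 12, -140), (30, 12, -28),
    (30, 13, 1020), (31, 13, 1140)], [(13, 6, 2), (14, 6, 10), (15, 6, 16), (15, 7, -22), (16, 6,
    10), (16, 7, -118), (17, 6, 2), (17, 7, -218), (17, 8, 132), (18, 7, -182), (18, 8, 726), (19,
    7, -80), (19, 8, 1416), (19, 9, -572), (20, 7, -18), (20, 8, 1326), (20, 9, -3146)], [(11, 5,
    2), (12, 5, 4), (13, 5, 2), (13, 6, -22), (14, 6, -54), (15, 6, -40), (15, 7, 132), (16, 6,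
    -12), (16, 7, 352), (17, 7, 298), (17, 8, -572), (18, 7, 130), (18, 8, -1562)], [(0, 0, -1),
    (1, 0, -1), (2, 0, -1), (2, 1, 17), (3, 1, 27)]]

/-- Multipliers. -/
def mlB4 : List (List (ℕ × ℕ × ℤ)) :=
  [[(39, 17, -4), (40, 17, -12), (41, 17, 4), (41, 18, 4), (42, 17, 4), (42, 18, 8), (43, 18,
    -28), (43, 19, -4), (44, 18, -16)], [(41, 17, -16), (42, 17, -16), (43, 18, 12), (44, 18,
    -52)], [(42, 17, -8), (44, 18, 8)], [(26, 12, 4), (27, 12, 16), (28, 12, 20), (28, 13, -28),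
    (29, 12, 4), (29, 13, -112), (30, 12, -4), (30, 13, -136), (30, 14, 112), (31, 13, -36), (31,
    14, 420), (32, 13, 16), (32, 14, 416), (32, 15, -336), (33, 13, 8), (33, 14, 12), (33, 15,
    -1148), (34, 14, -60), (34, 15, -832), (34, 16, 840)], [(24, 11, -4), (25, 11, -8), (26, 11,
    -4), (26, 12, 64), (27, 12, 124), (28, 12, 56), (28, 13, -544), (29, 12, 16), (29, 13, -960),
    (30, 13, -264), (30, 14, 3264), (31, 13, -176), (31, 14, 4960), (32, 13, -56), (32, 14, -48),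
    (32, 15, -15504)], [(25, 11, -8), (27, 12, 144), (28, 12, 20), (29, 13, -1368), (30, 13,
    -224), (31, 13, -72), (31, 14, 9120)], [(12, 6, -2), (13, 6, -6), (14, 6, -4), (14, 7, 26),
    (15, 6, 2), (15, 7, 90), (16, 7, 88), (16, 8, -182), (17, 8, -676), (18, 7, -14), (18, 8,
    -780), (18, 9, 910), (19, 8, -196), (19, 9, 3484), (20, 8, 46), (20, 9, 4338), (20, 10,
    -3640)], [(10, 5, -2), (11, 5, -2), (12, 6, 26), (13, 6, 40), (14, 6, 16), (14, 7, -182), (15,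
    7, -338), (16, 7, -216), (16, 8, 910), (17, 7, -70), (17, 8, 1846), (18, 8, 1454), (18, 9,
    -3640)], [(0, 0, -1), (2, 1, 20), (3, 1, 12)]]

/-- Multipliers. -/
def mlB5 : List (List (ℕ × ℕ × ℤ)) :=
  [[(42, 18, 4), (44, 18, -12), (45, 18, 8), (45, 19, -4), (46, 19, -4)], [(44, 18, -12), (45, 18,
    -36), (46, 19, 4)], [(45, 18, -8)], [(28, 12, 4), (29, 12, 8), (30, 12, 4), (30, 13, -12),
    (31, 13, -36), (32, 13, -12), (32, 14, 16), (33, 13, -8), (33, 14, 84), (34, 14, 16), (34, 15,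
    4), (35, 14, -32), (35, 15, -176), (36, 14, -4), (36, 15, -108), (36, 16, -84)], [(28, 12,
    -12), (29, 12, -16), (30, 13, 164), (31, 13, 236), (32, 13, 48), (32, 14, -1196), (33, 14,
    -1656), (34, 14, -420), (34, 15, 6176)], [(28, 12, -12), (30, 13, 208), (31, 13, 48), (32, 14,
    -1908), (33, 14, -636)], [(14, 6, -2), (15, 6, -2), (16, 7, 18), (17, 7, 28), (18, 7, 14),
    (18, 8, -86), (19, 8, -146), (20, 8, -116), (20, 9, 284), (21, 8, -36), (21, 9, 422), (22, 9,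
    402), (22, 10, -702)], [(14, 6, -6), (16, 7, 70), (17, 7, 48), (18, 8, -444), (19, 8, -496),
    (20, 8, -156), (20, 9, 2028)], [(0, 0, 1), (2, 1, -18), (3, 1, -12), (4, 2, 171), (5, 2,
    200)]]

/-- Multipliers. -/
def mlB6 : List (List (ℕ × ℕ × ℤ)) :=
  [[(42, 18, 4), (43, 18, 24), (44, 18, 44), (44, 19, 24), (45, 19, 160)], [(44, 18, -8), (45, 18,
    -16)], [], [(28, 12, 4), (29, 12, 20), (30, 12, 40), (31, 12, 40), (31, 13, 8), (32, 12, 20),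
    (32, 13, 64), (33, 12, 4), (33, 13, 152), (33, 14, 24), (34, 13, 152), (34, 14, 112), (35, 13,
    64), (35, 14, 272)], [(29, 12, -16), (30, 12, -48), (30, 13, -8), (31, 12, -48), (31, 13,
    104), (32, 12, -16), (32, 13, 364), (32, 14, 80), (33, 13, 308), (33, 14, -352)], [(28, 12,
    -8), (29, 12, -8), (30, 12, -12), (30, 13, 96), (31, 12, -12), (31, 13, 96), (32, 13, 108),
    (32, 14, -624)], [(14, 6, -2), (15, 6, -8), (16, 6, -12), (16, 7, 12), (17, 6, -8), (17, 7,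
    50), (18, 6, -2), (18, 7, 78), (18, 8, -42), (19, 7, 62), (19, 8, -176), (20, 7, 28), (20, 8,
    -258), (20, 9, 112), (21, 7, 6), (21, 8, -154), (21, 9, 466)], [(15, 6, -6), (16, 6, -12),
    (17, 6, -6), (17, 7, 28), (18, 7, 88), (19, 7, 78), (19, 8, -78)], [(0, 0, 1), (1, 0, 3), (2,
    0, 3), (2, 1, -12), (3, 0, 1), (3, 1, -44), (4, 1, -57), (4, 2, 78)]]

/-- Multipliers. -/
def mlB7 : List (List (ℕ × ℕ × ℤ)) :=
  [[(42, 18, -4), (43, 18, -16), (44, 18, -4), (44, 19, -24), (45, 18, 28), (45, 19, -112), (46,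
    18, 4), (46, 19, -68), (46, 20, -60)], [(45, 18, 16), (46, 18, 52)], [], [(28, 12, -4), (29,
    12, -16), (30, 12, -24), (30, 13, -4), (31, 12, -16), (31, 13, -32), (32, 12, -4), (32, 13,
    -76), (33, 13, -96), (33, 14, -20), (34, 13, -56), (34, 14, -108), (35, 13, -8), (35, 14,
    -232), (36, 14, -204), (36, 15, -56)], [(28, 12, 4), (29, 12, 24), (30, 12, 36), (30, 13,
    -36), (31, 12, 16), (31, 13, -192), (32, 13, -252), (32, 14, 180), (33, 13, -72), (33, 14,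
    828), (34, 13, 16), (34, 14, 800), (34, 15, -660)], [(29, 12, 8), (30, 12, 12), (31, 13, -88),
    (32, 13, -124), (33, 14, 528)], [(14, 6, 2), (15, 6, 6), (16, 6, 6), (16, 7, -10), (17, 6, 2),
    (17, 7, -32), (18, 7, -40), (18, 8, 30), (19, 7, -22), (19, 8, 88), (20, 7, -6), (20, 8, 96),
    (20, 9, -70), (21, 8, 38), (21, 9, -180), (22, 8, 2), (22, 9, -160), (22, 10, 140)], [(14, 6,
    2), (15, 6, 8), (16, 6, 6), (16, 7, -12), (17, 7, -52), (18, 7, -66), (18, 8, 42), (19, 7,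
    -24), (19, 8, 180), (20, 8, 252), (20, 9, -112)], [(0, 0, -1), (1, 0, -2), (2, 0, -1), (2, 1,
    12), (3, 1, 32), (4, 1, 29), (4, 2, -78), (5, 1, 8), (5, 2, -240)]]

/-- Multipliers. -/
def mlB8 : List (List (ℕ × ℕ × ℤ)) :=
  [[(41, 17, 4), (42, 17, 12), (42, 18, -4), (43, 17, 4), (43, 18, 6)], [(41, 17, -4), (42, 17,
    -12), (43, 17, -12), (43, 18, -20)], [(43, 17, -8)], [(28, 12, -8), (29, 12, -22), (30, 12,
    -22), (30, 13, 8), (31, 12, -14), (31, 13, 8), (32, 12, -10), (32, 13, -56), (33, 12, -4),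
    (33, 13, -162), (33, 14, 28)], [(27, 12, -4), (28, 12, -20), (29, 12, -8), (29, 13, 40), (30,
    12, 28), (30, 13, 188), (31, 12, 36), (31, 13, 40), (31, 14, -220)], [(25, 11, -4), (26, 11,
    -8), (27, 11, -4), (27, 12, 48), (28, 12, 96), (29, 12, 40), (29, 13, -312), (30, 13, -580)],
    [(14, 6, 2), (15, 6, 3), (16, 6, 2), (16, 7, -14), (17, 6, 3), (17, 7, -26), (18, 6, 2), (18,
    8, 54), (19, 7, 10), (19, 8, 103)], [(14, 6, -2), (15, 6, 4), (16, 6, 10), (16, 7, 12), (17,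
    6, 6), (17, 7, -18)], [(0, 0, -1), (2, 1, 12)]]

/-- The certificate. -/
def certB : Cert where
  m := 9
  inp := inpB
  s := progS
  idx := [53, 213, 214, 215, 216, 217, 224, 225, 226]
  abc :=
    [(59, 19, 8), (61, 19, 8), (60, 19, 8), (59, 18, 8), (59, 19, 4), (61, 19, 8), (60, 15, 4),
      (61, 15, 4), (58, 14, 4)]
  ml := [mlB0, mlB1, mlB2, mlB3, mlB4, mlB5, mlB6, mlB7, mlB8]
  ex :=
    []

/-- Inputs. -/
def inpH : List Sp :=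
  [⟨18, [(2, 1, 1)], 0, []⟩, ⟨17, u0cp, 2, [(14, 0, 1)]⟩, ⟨22, u0b, 1, [(17, 0, 1)]⟩, ⟨29, u0L, 6,
    [(23, 0, 1)]⟩, ⟨29, u0n, 7, [(24, 0, 1)]⟩, ⟨30, u0m, 8, [(23, 0, 1)]⟩, ⟨0, [], 0, []⟩, ⟨21,
    u0G, 9, [(14, 0, 1)]⟩, ⟨18, u0g, 4, [(14, 0, 1)]⟩, ⟨18, [(1, 0, 1)], 0, []⟩, ⟨15, [(1, 0, -1),
    (3, 1, 1), (4, 1, -1), (14, 4, 1)], 0, []⟩, ⟨15, [(2, 1, -1), (3, 1, 1), (4, 2, 1), (5, 2,
    -1), (6, 3, -1), (8, 4, 1), (10, 5, -1), (12, 6, 1), (13, 4, -1), (14, 5, -1), (14, 7, -1)],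
    0, []⟩, ⟨18, u0a, 0, [(14, 0, 1)]⟩, ⟨13, [(1, 0, -1), (4, 1, -1), (14, 4, 2)], 0, []⟩, ⟨14,
    [(0, 0, 1), (3, 1, 1), (13, 4, -2), (14, 5, -1)], 0, []⟩, ⟨14, [(2, 1, -1), (4, 2, 1), (6, 3,
    -1), (8, 4, 1), (10, 5, -1), (12, 4, 2), (12, 6, 1), (13, 5, 2)], 0, []⟩, ⟨13, [(1, 0, -1),
    (14, 4, 1)], 0, []⟩, ⟨13, [(13, 4, -1)], 0, []⟩, ⟨21, u0e, 3, [(15, 0, 1)]⟩, ⟨22, u0l, 5,
    [(15, 0, 1)]⟩, ⟨13, [(12, 4, 1)], 0, []⟩, ⟨13, [(11, 4, -1)], 0, []⟩, ⟨18, [(0, 0, 1)], 0,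
    []⟩]

/-- Target precisions. -/
def hsH : List ℕ :=
  [18, 21, 16, 22, 18, 15, 22, 21, 18, 18, 18, 18, 18, 26, 20, 26, 25, 26, 21, 26, 0, 28, 29, 22,
    33, 34, 35, 35, 40, 44, 16, 0, 0, 7, 0, 0, 0, 0, 59, 30, 21, 21, 45, 44, 44, 0, 43, 43, 59,
    59, 57, 58, 58, 57, 57, 57, 57, 59, 59, 57, 58, 58, 57, 57, 57, 57]

/-- Multipliers. -/
def mlH0 : List (List (ℕ × ℕ × ℤ)) :=
  [[], [(0, 0, 1), (2, 1, -14), (3, 1, -8), (4, 2, 104), (5, 2, 104), (6, 2, 25), (6, 3, -544)],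
    [(0, 0, 1), (1, 0, 1), (2, 1, -14), (3, 1, -19), (4, 1, -8), (4, 2, 104), (5, 2, 162), (6, 2,
    114), (6, 3, -544)], [(2, 1, 2), (4, 2, -30), (5, 2, -10), (6, 3, 240)], [(1, 0, 1), (2, 1,
    4), (3, 1, -5), (4, 1, -8), (4, 2, -60), (5, 2, -50), (6, 2, 45), (6, 3, 480)], [(1, 0, 1),
    (2, 0, 1), (2, 1, 2), (3, 1, -7), (4, 1, -12), (4, 2, -30), (5, 1, -8), (5, 2, -9)], [(2, 1,
    2), (4, 2, -28), (5, 2, -14)], [(2, 1, 2), (3, 1, 10), (4, 2, -22)], [(2, 0, 1)], [(2, 0, 1),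
    (3, 0, 1), (3, 1, 6), (4, 1, 4), (4, 2, 3)]]

/-- Multipliers. -/
def mlH1 : List (List (ℕ × ℕ × ℤ)) :=
  [[], [], [], [], [], [], [], [], [(0, 0, 1)], []]

/-- Multipliers. -/
def mlH2 : List (List (ℕ × ℕ × ℤ)) :=
  [[(43, 18, 8)], [(0, 0, -1), (1, 1, -1), (2, 1, 11), (3, 1, 8), (3, 2, 17), (4, 2, -49), (5, 2,
    -85), (5, 3, -153), (6, 2, -25), (6, 3, 30)], [(0, 0, -1), (1, 0, -1), (1, 1, -1), (2, 1, 10),
    (3, 1, 14), (3, 2, 17), (4, 1, 8), (4, 2, -33), (5, 2, -63), (5, 3, -153), (6, 2, -79), (6, 3,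
    -106)], [(2, 1, -3), (3, 2, -1), (4, 2, 41), (5, 2, 17), (5, 3, 17), (6, 3, -290)], [(1, 0,
    -1), (2, 1, -7), (3, 2, -2), (4, 1, 8), (4, 2, 95), (5, 2, 128), (5, 3, 34), (6, 2, -12), (6,
    3, -666)], [(1, 0, -1), (2, 0, -1), (2, 1, -4), (3, 1, 1), (3, 2, -1), (4, 1, 6), (4, 2, 55),
    (5, 1, 8), (5, 2, 96), (5, 3, 17)], [(2, 1, -2), (3, 2, -1), (4, 2, 22), (5, 2, 14), (5, 3,
    16)], [(2, 1, -2), (3, 1, -12), (3, 2, -1), (4, 2, 5)], [(2, 0, -1)], [(2, 0, -1), (3, 0, -1),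
    (3, 1, -9), (4, 1, -12), (4, 2, -9)]]

/-- Multipliers. -/
def mlH3 : List (List (ℕ × ℕ × ℤ)) :=
  [[], [(1, 0, -3), (3, 1, 46)], [(1, 0, -3), (2, 0, -7), (3, 1, 46)], [(1, 0, -2), (3, 1, 30)],
    [(1, 0, -1), (2, 0, -7), (3, 1, 9)], [(2, 0, -5)], [(0, 0, 1), (2, 1, -17)], [(0, 0, 1), (1,
    0, 1)], [], []]

/-- Multipliers. -/
def mlH4 : List (List (ℕ × ℕ × ℤ)) :=
  [[], [(0, 0, -2), (2, 1, 34), (3, 1, 16), (4, 2, -306), (5, 2, -248), (6, 2, -50), (6, 3,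
    1938)], [(0, 0, -2), (1, 0, -2), (2, 1, 34), (3, 1, 46), (4, 1, 16), (4, 2, -306), (5, 2,
    -484), (6, 2, -284), (6, 3, 1938)], [(2, 1, -3), (4, 2, 52), (5, 2, 13), (6, 3, -477)], [(1,
    0, -2), (2, 1, -6), (3, 1, 18), (4, 1, 16), (4, 2, 104), (6, 2, -144), (6, 3, -954)], [(1, 0,
    -2), (2, 0, -2), (2, 1, -3), (3, 1, 22), (4, 1, 33), (4, 2, 52), (5, 1, 16), (5, 2, -85)],
    [(2, 1, -4), (4, 2, 68), (5, 2, 28)], [(2, 1, -4), (3, 1, -18), (4, 2, 60)], [(2, 0, -2)],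
    [(2, 0, -2), (3, 0, -2), (3, 1, -10), (4, 1, 2), (4, 2, -4)]]

/-- Multipliers. -/
def mlH5 : List (List (ℕ × ℕ × ℤ)) :=
  [[], [], [], [], [], [], [], [], [], [(0, 0, -1)]]

/-- Multipliers. -/
def mlH6 : List (List (ℕ × ℕ × ℤ)) :=
  [[], [(1, 0, -12)], [(1, 0, -12)], [(1, 0, -6)], [(1, 0, -4)], [], [(0, 0, 3)], [], [], []]

/-- Multipliers. -/
def mlH7 : List (List (ℕ × ℕ × ℤ)) :=
  [[], [], [], [], [], [], [], [(0, 0, 1)], [], []]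

/-- Multipliers. -/
def mlH8 : List (List (ℕ × ℕ × ℤ)) :=
  [[], [(1, 0, -12), (2, 0, -12)], [(1, 0, -12), (2, 0, -36)], [(1, 0, -5), (2, 0, -6)], [(1, 0,
    -4), (2, 0, -28)], [], [(0, 0, 2), (1, 0, 2)], [(0, 0, 4)], [], []]

/-- Multipliers. -/
def mlH9 : List (List (ℕ × ℕ × ℤ)) :=
  [[], [], [], [], [], [(1, 0, -1)], [], [(0, 0, -2)], [], [(0, 0, -1)]]

/-- The certificate. -/
def certH : Cert where
  m := 10
  inp := inpH
  s := progH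
  idx := [53, 80, 81, 82, 83, 84, 85, 86, 87, 88]
  abc :=
    [(58, 18, 8), (56, 16, 8), (58, 18, 8), (55, 16, 8), (58, 18, 8), (54, 16, 8), (53, 12, 4),
      (54, 12, 4), (54, 12, 8), (54, 16, 8)]
  ml := [mlH0, mlH1, mlH2, mlH3, mlH4, mlH5, mlH6, mlH7, mlH8, mlH9]
  ex :=
    [(⟨13, [(12, 5, 1)], 0, []⟩, [(44, [(0, 0, 1)])]), (⟨11, [(10, 4, 1)], 0, []⟩, [(39, [(0, 0,
      1)])]), (⟨7, [], 0, []⟩, [(56, [(0, 0, 1)])])]

end Pool.Agent.P.MP_48bde8_co_s
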