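import Pool.Agent.P.MP_48bde8_co_s.Rg
import Pool.Agent.P.MP_48bde8_co.Cplt

/-! Existence and uniqueness of solutions from a checked contraction. -/

namespace Pool.Agent.P.MP_48bde8_co_s

open MvPolynomial MP_48bde8_co

variable {R : Type} [CommRing R] {m : ℕ} {ε : R}

theorem eval_dvd {a : R} {V W : Fin m → R} (h : ∀ i, a ∣ V i - W i)
    (H : MvPolynomial (Fin m) R) : a ∣ eval V H - eval W H := by
  induction H using MvPolynomial.induction_on with
  | C c => simp
  | add p q hp hq => exact (hp.add hq).trans (dvd_of_eq (by simp only [map_add]; ring))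
  | mul_X p i hp =>
    exact ((hp.mul_right (V i)).add ((h i).mul_left (eval W p))).trans
      (dvd_of_eq (by simp only [map_mul, eval_X]; ring))

/-- The polynomials `G i` are `ε ^ a` times a unit multiple of `X i` up to higher order. -/
def Ctr (ε : R) (G : Fin m → MvPolynomial (Fin m) R) : Prop :=
  ∀ i, ∃ (u : R) (a : ℕ) (H : MvPolynomial (Fin m) R), IsUnit u ∧
    G i = C (u * ε ^ a) * (X i + C ε * H)

variable {G : Fin m → MvPolynomial (Fin m) R}

theorem Ctr.unique (h : Ctr ε G) (hs : ∀ a : R, (∀ N : ℕ, ε ^ N ∣ a) → a = 0)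
    (hr : ∀ y, ε * y = 0 → y = 0) {V W : Fin m → R} (hV : ∀ i, eval V (G i) = 0)
    (hW : ∀ i, eval W (G i) = 0) : V = W := by
  choose u a H hu hG using h
  have hp : ∀ (k : ℕ) (y : R), ε ^ k * y = 0 → y = 0 := fun k => by
    induction k with
    | zero => simp
    | succ k ih => exact fun y hy => hr y (ih _ (by rw [← hy]; ring))
  have key : ∀ V : Fin m → R, (∀ i, eval V (G i) = 0) → ∀ i, V i = -(ε * eval V (H i)) := by
    intro V hV i
    have h1 := hV i
    rw [hG, map_mul, eval_C, mul_assoc, (hu i).mul_right_eq_zero, map_add, map_mul, eval_X,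
      eval_C] at h1
    linear_combination hp _ _ h1
  have h2 : ∀ N : ℕ, ∀ i, ε ^ N ∣ V i - W i := fun N => by
    induction N with
    | zero => simp
    | succ N ih =>
      intro i
      rw [key V hV i, key W hW i, pow_succ']
      exact (mul_dvd_mul_left ε (eval_dvd ih (H i))).neg_right.trans (dvd_of_eq (by ring))
  exact funext fun i => sub_eq_zero.1 (hs _ fun N => h2 N i)

theorem Ctr.exists (h : Ctr ε G) (hC : Cpl ε) :
    ∃ V : Fin m → R, (∀ i, ε ∣ V i) ∧ ∀ i, eval V (G i) = 0 := by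
  choose u a H hu hG using h
  let f : ℕ → Fin m → R := fun N => Nat.rec 0 (fun _ V i => -(ε * eval V (H i))) N
  have hf : ∀ N i, f (N + 1) i = -(ε * eval (f N) (H i)) := fun _ _ => rfl
  have h1 : ∀ N i, ε ^ N ∣ f (N + 1) i - f N i := fun N => by
    induction N with
    | zero => simp
    | succ N ih =>
      intro i
      rw [hf (N + 1), hf N, pow_succ']
      exact (mul_dvd_mul_left ε (eval_dvd ih (H i))).neg_right.trans (dvd_of_eq (by ring))
  choose V hV using fun i => hC.2 (fun N => f N i) fun N => h1 N i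
  have h2 : ∀ i, V i + ε * eval V (H i) = 0 := fun i => hC.1 _ fun N =>
    (((pow_dvd_pow ε N.le_succ).trans (hV i (N + 1))).add
      ((eval_dvd (fun j => hV j N) (H i)).mul_left ε)).trans (dvd_of_eq (by rw [hf]; ring))
  refine ⟨V, fun i => ⟨-eval V (H i), by linear_combination h2 i⟩, fun i => ?_⟩
  rw [hG, map_mul, map_add, eval_X, eval_C, map_mul, eval_C, h2, mul_zero]

theorem Ctr.ker [IsDomain R] (h : Ctr ε G) (h0 : ε ≠ 0) (h1 : ∀ y, 1 + ε * y ≠ 0)
    {M : Matrix (Fin m) (Fin m) R} {E : Fin m → MvPolynomial (Fin m) R}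
    (hM : ∀ i, G i = ∑ k, C (M i k) * E k) {y : Fin m → R} (hy : M.mulVec y = 0) : y = 0 := by
  choose u a H hu hG using h
  let J : Matrix (Fin m) (Fin m) R := fun k j => coeff (Finsupp.single j 1) (E k)
  let K : Matrix (Fin m) (Fin m) R := fun k j => coeff (Finsupp.single j 1) (H k)
  have h2 : M * J = Matrix.diagonal (fun i => u i * ε ^ a i) * (1 + ε • K) := by
    ext i j
    have h3 := congrArg (coeff (Finsupp.single j 1)) ((hM i).symm.trans (hG i))
    rw [coeff_sum, coeff_C_mul, coeff_add, coeff_C_mul, coeff_X] at h3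
    simp only [coeff_C_mul] at h3
    rw [Matrix.mul_apply, Matrix.diagonal_mul, Matrix.add_apply, Matrix.one_apply]
    refine h3.trans ?_
    simp only [Finsupp.single_left_inj one_ne_zero, Matrix.smul_apply, smul_eq_mul, K]
  have h3 : M.det ≠ 0 := by
    intro h4
    have h5 := congrArg Matrix.det h2
    rw [Matrix.det_mul, Matrix.det_mul, h4, zero_mul, Matrix.det_diagonal,
      Matrix.det_one_add_smul] at h5
    refine mul_ne_zero (Finset.prod_ne_zero_iff.2 fun i _ =>
      mul_ne_zero (hu i).ne_zero (pow_ne_zero _ h0)) ?_ h5.symm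
    rw [add_assoc, pow_two, ← mul_assoc, ← add_mul, mul_comm]
    exact h1 _
  exact Matrix.eq_zero_of_mulVec_eq_zero h3 hy

theorem map_val {R' : Type} [CommRing R'] (ψ : R →+* R') (e1 e2 : R) (l : List (ℕ × ℕ × ℤ)) :
    ψ (val e1 e2 l) = val (ψ e1) (ψ e2) l := by
  induction l with
  | nil => simp [val]
  | cons y l ih => simpa [val] using ih

/-- The rows of the contraction check. -/
def mkRows (m : ℕ) (abc : List (ℕ × ℕ × ℤ)) (idx : List ℕ) (ml : List (List (List (ℕ × ℕ × ℤ)))) :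
    List (Sp × List (ℕ × List (ℕ × ℕ × ℤ))) :=
  (List.range m).map fun i => (⟨(abc.getD i (0, 0, 0)).1 + 1, [], i, [abc.getD i (0, 0, 0)]⟩,
    (List.range m).map fun k => (idx.getD k 0, (ml.getD i []).getD k []))

/-- The data of a system with a contraction certificate. -/
structure Cert where
  m : ℕ
  inp : List Sp
  s : List Ex
  idx : List ℕ
  abc : List (ℕ × ℕ × ℤ)
  ml : List (List (List (ℕ × ℕ × ℤ)))
  ex : List (Sp × List (ℕ × List (ℕ × ℕ × ℤ)))

/-- The check of a certificate. -/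
noncomputable def Cert.ok (T : Cert) (c : Cf) (hs : List ℕ) : Bool :=
  wf [] 0 T.inp.length T.s && T.inp.all (fun s => Nat.blt s.i T.m) &&
    T.idx.all (fun k => Nat.blt k (T.inp.length + T.s.length)) &&
    T.abc.all (fun y => y.2.2 == 4 || y.2.2 == 8) && T.abc.length == T.m && T.idx.length == T.m &&
    chk c T.inp T.s hs (mkRows T.m T.abc T.idx T.ml ++ T.ex)

/-- The description of input number `i`. -/
def Cert.sp (T : Cert) (i : ℕ) : Sp := T.inp.getD i ⟨0, [], 0, []⟩

/-- The registers for the base values `b` and the unknowns `V`. -/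
def Cert.Reg (T : Cert) (e1 e2 : R) (b V r : ℕ → R) : Prop :=
  (∀ i < T.inp.length, r i = b i + val e1 e2 (T.sp i).m * V (T.sp i).i) ∧ Cons r T.inp.length T.s

/-- The base values are as described. -/
def Cert.Base (T : Cert) (e1 e2 : R) (b : ℕ → R) : Prop :=
  ∀ i < T.inp.length, e1 ^ (T.sp i).N ∣ b i - val e1 e2 (T.sp i).l

theorem inpOK_of {e1 e2 : R} {V r : ℕ → R} (t : List Sp) : ∀ n, (∀ i < t.length,
    e1 ^ (t.getD i ⟨0, [], 0, []⟩).N ∣ r (n + i) - (t.getD i ⟨0, [], 0, []⟩).val e1 e2 V) →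
    InpOK e1 e2 V r n t := by
  induction t with
  | nil => exact fun _ _ => trivial
  | cons s t ih =>
    refine fun n h => ⟨h 0 (by simp), ih _ fun i hi => ?_⟩
    rw [add_assoc, add_comm 1]
    exact h (i + 1) (by simpa using hi)

variable {T : Cert} {c : Cf} {hs : List ℕ} {e1 e2 : R} {b V r : ℕ → R}

theorem Cert.rows (h : T.ok c hs = true) (hb : T.Base e1 e2 b) (hr : T.Reg e1 e2 b V r) :
    ∀ y ∈ mkRows T.m T.abc T.idx T.ml ++ T.ex,
      e1 ^ y.1.N ∣ cval e1 e2 r y.2 - y.1.val e1 e2 V := by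
  simp only [Cert.ok, Bool.and_eq_true] at h
  refine chk_ok h.2 (inpOK_of _ _ fun i hi => ?_) hr.2
  rw [zero_add, hr.1 i hi]
  exact (hb i hi).trans (dvd_of_eq (by simp only [Sp.val, Cert.sp]; ring))

theorem Cert.extra (h : T.ok c hs = true) (hb : T.Base e1 e2 b) (hr : T.Reg e1 e2 b V r) :
    ∀ y ∈ T.ex, e1 ^ y.1.N ∣ cval e1 e2 r y.2 - y.1.val e1 e2 V :=
  fun y hy => Cert.rows h hb hr y (List.mem_append_right _ hy)

theorem Cert.main (h : T.ok c hs = true) (hb : T.Base e1 e2 b) (h2 : IsUnit (2 : R))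
    (he : IsUnit e2) : ∃ (E G : Fin T.m → MvPolynomial (Fin T.m) R)
      (M : Matrix (Fin T.m) (Fin T.m) R), Ctr e1 G ∧ (∀ i, G i = ∑ k, C (M i k) * E k) ∧
      ∀ V r, T.Reg e1 e2 b V r → ∀ k : Fin T.m,
        eval (fun j : Fin T.m => V j) (E k) = r (T.idx.getD k 0) := by
  have h' := h
  simp only [Cert.ok, Bool.and_eq_true, List.all_eq_true, Nat.blt_eq, beq_iff_eq,
    Bool.or_eq_true] at h'
  obtain ⟨⟨⟨⟨⟨⟨w1, w2⟩, w3⟩, w4⟩, w5⟩, w6⟩, -⟩ := h'
  let Xn : ℕ → MvPolynomial (Fin T.m) R := fun k => if hk : k < T.m then X ⟨k, hk⟩ else 0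
  obtain ⟨ρ, r1, r2⟩ := exists_cons w1 fun i =>
    C (b i) + val (C e1) (C e2) (T.sp i).m * Xn (T.sp i).i
  have h3 := Cert.rows (b := fun i => C (b i)) (V := Xn) h (fun i hi => by
    rw [← map_val, ← map_pow, ← map_sub]
    exact map_dvd _ (hb i hi)) ⟨r1, r2⟩
  refine ⟨fun k => ρ (T.idx.getD k 0), fun i => ∑ k : Fin T.m,
    C (val e1 e2 ((T.ml.getD i []).getD k [])) * ρ (T.idx.getD k 0),
    fun i k => val e1 e2 ((T.ml.getD i []).getD k []), fun i => ?_, fun _ => rfl,
    fun V r hr k => ?_⟩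
  · obtain ⟨H, hH⟩ := h3 _ (List.mem_append_left _ (List.mem_map.2 ⟨i, List.mem_range.2 i.2, rfl⟩))
    have h4 : T.abc.getD i (0, 0, 0) ∈ T.abc := by
      rw [List.getD_eq_getElem _ _ (by omega)]
      exact List.getElem_mem _
    generalize T.abc.getD i (0, 0, 0) = y at hH h4
    have h5 : IsUnit ((y.2.2 : R) * e2 ^ y.2.1) := by
      refine IsUnit.mul ?_ (he.pow _)
      rcases w4 y h4 with h6 | h6 <;> rw [h6]
      · exact (show (2 : R) ^ 2 = ((4 : ℤ) : R) by norm_num) ▸ h2.pow 2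
      · exact (show (2 : R) ^ 3 = ((8 : ℤ) : R) by norm_num) ▸ h2.pow 3
    obtain ⟨u', hu'⟩ := h5.exists_right_inv
    refine ⟨_, y.1, C u' * H, h5, ?_⟩
    have h7 : cval (C e1) (C e2) ρ ((List.range T.m).map fun k =>
        (T.idx.getD k 0, (T.ml.getD i []).getD k [])) = ∑ k : Fin T.m,
        C (val e1 e2 ((T.ml.getD i []).getD k [])) * ρ (T.idx.getD k 0) := by
      rw [cval, List.map_map, ← Finset.sum_range fun k =>
        C (val e1 e2 ((T.ml.getD i []).getD k [])) * ρ (T.idx.getD k 0)]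
      simp only [map_val]
      rfl
    have h8 := congrArg (C (σ := Fin T.m)) hu'
    rw [h7] at hH
    beta_reduce
    generalize ∑ k : Fin T.m, C (val e1 e2 ((T.ml.getD i []).getD k [])) * ρ (T.idx.getD k 0) = Z
      at hH ⊢
    simp only [Sp.val, val, List.map_nil, List.sum_nil, List.map_cons, List.sum_cons, Xn,
      dif_pos i.2] at hH
    simp only [map_mul, map_pow, map_intCast, map_one] at h8 ⊢
    linear_combination hH - C e1 ^ (y.1 + 1) * H * h8
  · have h4 : T.idx.getD k 0 ∈ T.idx := by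
      rw [List.getD_eq_getElem _ _ (by omega)]
      exact List.getElem_mem _
    refine Cons.agree w1 (r2.map (eval fun j : Fin T.m => V j)) hr.2 (by simp) (fun i _ hi => ?_)
      _ (Nat.zero_le _) (w3 _ h4)
    have h5 : (T.sp i).i < T.m := w2 _ (by
      rw [Cert.sp, List.getD_eq_getElem _ _ hi]
      exact List.getElem_mem _)
    simp only [r1 i hi, hr.1 i hi, map_add, map_mul, map_val, eval_C, Xn, dif_pos h5, eval_X]

theorem Cert.unique (h : T.ok c hs = true) (hb : T.Base e1 e2 b) (h2 : IsUnit (2 : R))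
    (he : IsUnit e2) (hs : ∀ a : R, (∀ N : ℕ, e1 ^ N ∣ a) → a = 0)
    (hr : ∀ y, e1 * y = 0 → y = 0) {W r' : ℕ → R} (h3 : T.Reg e1 e2 b V r)
    (h4 : T.Reg e1 e2 b W r') (h5 : ∀ k ∈ T.idx, r k = 0) (h6 : ∀ k ∈ T.idx, r' k = 0) :
    ∀ k < T.m, V k = W k := by
  obtain ⟨E, G, M, k1, k2, k3⟩ := Cert.main h hb h2 he
  simp only [Cert.ok, Bool.and_eq_true, beq_iff_eq] at h
  have key : ∀ V r, T.Reg e1 e2 b V r → (∀ k ∈ T.idx, r k = 0) → ∀ i,
      eval (fun j : Fin T.m => V j) (G i) = 0 := fun V r a1 a2 i => by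
    rw [k2, map_sum]
    refine Finset.sum_eq_zero fun k _ => ?_
    rw [map_mul, k3 V r a1, a2, mul_zero]
    rw [List.getD_eq_getElem _ _ (by omega)]
    exact List.getElem_mem _
  exact fun k hk => congrFun (k1.unique hs hr (key V r h3 h5) (key W r' h4 h6)) ⟨k, hk⟩

theorem Cert.exists [IsDomain R] (h : T.ok c hs = true) (hb : T.Base e1 e2 b)
    (h2 : IsUnit (2 : R)) (he : IsUnit e2) (hC : Cpl e1) (h0 : e1 ≠ 0) :
    ∃ V r, (∀ k, e1 ∣ V k) ∧ T.Reg e1 e2 b V r ∧ ∀ k ∈ T.idx, r k = 0 := by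
  obtain ⟨E, G, M, k1, k2, k3⟩ := Cert.main h hb h2 he
  simp only [Cert.ok, Bool.and_eq_true, beq_iff_eq] at h
  obtain ⟨V, v1, v2⟩ := k1.exists hC
  let V' : ℕ → R := fun k => if hk : k < T.m then V ⟨k, hk⟩ else 0
  have hV : (fun j : Fin T.m => V' j) = V := funext fun j => dif_pos j.2
  obtain ⟨r, hr⟩ : ∃ r, T.Reg e1 e2 b V' r := exists_cons h.1.1.1.1.1.1 _
  have h3 := k1.ker h0 (fun y => (hC.isUnit y).ne_zero) k2 (y := fun k => eval V (E k))
    (funext fun i => by
      have := v2 i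
      rw [k2, map_sum] at this
      simp only [map_mul, eval_C] at this
      exact this)
  refine ⟨V', r, fun k => ?_, hr, fun k hk => ?_⟩
  · simp only [V']
    split_ifs
    exacts [v1 _, dvd_zero _]
  · obtain ⟨j, hj, rfl⟩ := List.getElem_of_mem hk
    have h4 := k3 V' r hr ⟨j, by omega⟩
    rw [hV, congrFun h3, List.getD_eq_getElem _ _ hj] at h4
    exact h4.symm

end Pool.Agent.P.MP_48bde8_co_s
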