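import Pool.Agent.P.MP_48bde8_co_s.Ex

/-! The constant of the curve along the parametrisation. -/

namespace Pool.Agent.P.MP_48bde8_co_s

open Ex

/-- A coefficient. -/
def kap00 : Ex :=
  add (mul (add (mul (add (mul (add (mul (mul (mul (mul (mul (sub (mul (mul (sub (sm 128 (v 9))
    (sm 64 (mul (v 0) (v 0)))) (v 0)) (v 0)) (sm 64 (v 9))) (v 0)) (v 0)) (v 0)) (v 0)) (v 7))
    (mul (add (mul (mul (sub (mul (mul (sub (mul (mul (add (mul (mul (sub (sm 64 (mul (v 0) (v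
    0))) (sm 320 (v 9))) (v 0)) (v 0)) (sm 512 (v 9))) (v 0)) (v 0)) (sm 256 (v 9))) (v 0)) (v 0))
    (sm 64 (v 9))) (v 0)) (v 0)) (sm 64 (v 9))) (v 8))) (v 7)) (mul (mul (sub (mul (mul (add (mul
    (mul (sub (mul (mul (add (mul (mul (sub (sm 64 (mul (v 0) (v 0))) (sm 320 (v 9))) (v 0)) (v
    0)) (sm 640 (v 9))) (v 0)) (v 0)) (sm 640 (v 9))) (v 0)) (v 0)) (sm 320 (v 9))) (v 0)) (v 0))
    (sm 64 (v 9))) (v 8)) (v 8))) (v 5)) (add (mul (add (mul (add (mul (mul (mul (mul (mul (sub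
    (mul (mul (sub (sm 256 (v 9)) (sm 128 (mul (v 0) (v 0)))) (v 0)) (v 0)) (sm 128 (v 9))) (v 0))
    (v 0)) (v 0)) (v 0)) (v 7)) (mul (sub (mul (mul (add (mul (mul (sub (mul (mul (add (mul (mul
    (sub (sm 128 (v 9)) (sm 128 (mul (v 0) (v 0)))) (v 0)) (v 0)) (sm 512 (v 9))) (v 0)) (v 0))
    (sm 1024 (v 9))) (v 0)) (v 0)) (sm 640 (v 9))) (v 0)) (v 0)) (sm 128 (v 9))) (v 8))) (v 7))
    (mul (mul (sub (mul (mul (add (mul (mul (sub (mul (mul (sub (mul (mul (sub (sm 384 (v 9)) (sm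
    128 (mul (v 0) (v 0)))) (v 0)) (v 0)) (sm 256 (v 9))) (v 0)) (v 0)) (sm 256 (v 9))) (v 0)) (v
    0)) (sm 384 (v 9))) (v 0)) (v 0)) (sm 128 (v 9))) (v 8)) (v 8))) (v 6)) (add (mul (add (mul
    (add (mul (mul (mul (mul (mul (sub (sm 512 (v 9)) (sm 512 (mul (v 0) (v 0)))) (v 0)) (v 0)) (v
    0)) (v 0)) (v 7)) (mul (mul (sub (mul (sub (mul (add (mul (add (mul (sub (sm 512 (v 9)) (mul
    (add (mul (add (sm 256 (v 0)) (sm 512 (v 9))) (v 0)) (sm 1280 (v 9))) (v 0))) (v 0)) (sm 2304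
    (v 9))) (v 0)) (sm 512 (v 9))) (v 0)) (sm 768 (v 9))) (v 0)) (sm 512 (v 9))) (v 0)) (v 8))) (v
    7)) (mul (mul (mul (sub (mul (sub (mul (mul (add (mul (sub (sm 1536 (v 9)) (mul (add (mul (add
    (sm 512 (v 0)) (sm 1024 (v 9))) (v 0)) (sm 1024 (v 9))) (v 0))) (v 0)) (sm 3072 (v 9))) (v 0))
    (v 0)) (sm 1536 (v 9))) (v 0)) (sm 512 (v 9))) (v 0)) (v 8)) (v 8))) (v 7)) (mul (mul (mul
    (mul (mul (sub (mul (sub (mul (add (mul (sub (sm 1024 (v 9)) (mul (add (mul (add (sm 256 (v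
    0)) (sm 512 (v 9))) (v 0)) (sm 256 (v 9))) (v 0))) (v 0)) (sm 1280 (v 9))) (v 0)) (sm 512 (v
    9))) (v 0)) (sm 768 (v 9))) (v 0)) (v 0)) (v 8)) (v 8)) (v 8))))) (v 5)) (add (mul (add (mul
    (add (mul (add (mul (mul (mul (mul (mul (sub (mul (mul (sub (sm 128 (v 9)) (sm 64 (mul (v 0)
    (v 0)))) (v 0)) (v 0)) (sm 64 (v 9))) (v 0)) (v 0)) (v 0)) (v 0)) (v 7)) (mul (add (mul (mul
    (sub (mul (mul (sub (mul (mul (add (mul (mul (sub (sm 64 (mul (v 0) (v 0))) (sm 320 (v 9))) (v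
    0)) (v 0)) (sm 512 (v 9))) (v 0)) (v 0)) (sm 256 (v 9))) (v 0)) (v 0)) (sm 64 (v 9))) (v 0))
    (v 0)) (sm 64 (v 9))) (v 8))) (v 7)) (mul (mul (sub (mul (mul (add (mul (mul (sub (mul (mul
    (add (mul (mul (sub (sm 64 (mul (v 0) (v 0))) (sm 320 (v 9))) (v 0)) (v 0)) (sm 640 (v 9))) (v
    0)) (v 0)) (sm 640 (v 9))) (v 0)) (v 0)) (sm 320 (v 9))) (v 0)) (v 0)) (sm 64 (v 9))) (v 8))
    (v 8))) (v 6)) (add (mul (add (mul (add (mul (mul (mul (mul (mul (sub (sm 512 (v 9)) (sm 512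
    (mul (v 0) (v 0)))) (v 0)) (v 0)) (v 0)) (v 0)) (v 7)) (mul (mul (add (mul (sub (mul (sub (mul
    (add (mul (sub (mul (sub (mul (sub (sm 512 (v 9)) (sm 256 (v 0))) (v 0)) (sm 1280 (v 9))) (v
    0)) (sm 512 (v 9))) (v 0)) (sm 2304 (v 9))) (v 0)) (sm 512 (v 9))) (v 0)) (sm 768 (v 9))) (v
    0)) (sm 512 (v 9))) (v 0)) (v 8))) (v 7)) (mul (mul (mul (add (mul (sub (mul (mul (add (mul
    (sub (mul (sub (mul (sub (sm 1024 (v 9)) (sm 512 (v 0))) (v 0)) (sm 1024 (v 9))) (v 0)) (sm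
    1536 (v 9))) (v 0)) (sm 3072 (v 9))) (v 0)) (v 0)) (sm 1536 (v 9))) (v 0)) (sm 512 (v 9))) (v
    0)) (v 8)) (v 8))) (v 7)) (mul (mul (mul (mul (mul (sub (mul (add (mul (add (mul (sub (mul
    (sub (mul (sub (sm 512 (v 9)) (sm 256 (v 0))) (v 0)) (sm 256 (v 9))) (v 0)) (sm 1024 (v 9)))
    (v 0)) (sm 1280 (v 9))) (v 0)) (sm 512 (v 9))) (v 0)) (sm 768 (v 9))) (v 0)) (v 0)) (v 8)) (v
    8)) (v 8)))) (v 6)) (add (mul (add (mul (add (mul (add (mul (neg (sm 1024 (mul (mul (mul (v 0)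
    (v 0)) (v 0)) (v 0)))) (v 7)) (mul (mul (mul (add (mul (mul (sub (sm 512 (mul (v 0) (v 0)))
    (sm 3072 (v 9))) (v 0)) (v 0)) (sm 512 (v 9))) (v 0)) (v 0)) (v 8))) (v 7)) (mul (mul (mul
    (mul (add (mul (mul (sub (sm 1280 (mul (v 0) (v 0))) (sm 2560 (v 9))) (v 0)) (v 0)) (sm 1280
    (v 9))) (v 0)) (v 0)) (v 8)) (v 8))) (v 7)) (mul (mul (mul (mul (mul (add (sm 1024 (mul (mul
    (mul (v 0) (v 0)) (v 0)) (v 0))) (sm 1024 (v 9))) (v 0)) (v 0)) (v 8)) (v 8)) (v 8))) (v 7))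
    (mul (mul (mul (mul (mul (mul (add (mul (mul (add (sm 256 (mul (v 0) (v 0))) (sm 512 (v 9)))
    (v 0)) (v 0)) (sm 256 (v 9))) (v 0)) (v 0)) (v 8)) (v 8)) (v 8)) (v 8))))

/-- A coefficient. -/
def kap01 : Ex :=
  add (mul (add (mul (add (mul (add (mul (mul (mul (mul (sub (mul (sub (mul (add (mul (sub (sm 384
    (v 9)) (mul (add (sm 128 (v 0)) (sm 256 (v 9))) (v 0))) (v 0)) (sm 384 (v 9))) (v 0)) (sm 256
    (v 9))) (v 0)) (sm 128 (v 9))) (v 0)) (v 0)) (v 0)) (v 7)) (mul (add (mul (add (mul (sub (mul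
    (sub (mul (sub (mul (add (mul (add (mul (sub (mul (sub (mul (add (sm 64 (v 0)) (sm 192 (v 9)))
    (v 0)) (sm 512 (v 9))) (v 0)) (sm 768 (v 9))) (v 0)) (sm 1024 (v 9))) (v 0)) (sm 1024 (v 9)))
    (v 0)) (sm 512 (v 9))) (v 0)) (sm 512 (v 9))) (v 0)) (sm 320 (v 9))) (v 0)) (sm 64 (v 9))) (v
    0)) (sm 256 (v 9))) (v 8))) (v 7)) (mul (mul (sub (mul (add (mul (add (mul (sub (mul (sub (mul
    (add (mul (add (mul (sub (mul (sub (mul (add (sm 64 (v 0)) (sm 64 (v 9))) (v 0)) (sm 384 (v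
    9))) (v 0)) (sm 256 (v 9))) (v 0)) (sm 896 (v 9))) (v 0)) (sm 384 (v 9))) (v 0)) (sm 1024 (v
    9))) (v 0)) (sm 256 (v 9))) (v 0)) (sm 576 (v 9))) (v 0)) (sm 64 (v 9))) (v 0)) (sm 128 (v
    9))) (v 8)) (v 8))) (v 5)) (add (mul (add (mul (add (mul (mul (mul (mul (sub (mul (add (mul
    (sub (sm 1792 (v 9)) (mul (add (mul (add (sm 256 (v 0)) (sm 1536 (v 9))) (v 0)) (sm 256 (v
    9))) (v 0))) (v 0)) (sm 512 (v 9))) (v 0)) (sm 256 (v 9))) (v 0)) (v 0)) (v 0)) (v 7)) (mul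
    (sub (mul (sub (mul (sub (mul (sub (mul (add (mul (add (mul (sub (sm 1536 (v 9)) (mul (add
    (mul (add (mul (add (sm 128 (v 0)) (sm 1408 (v 9))) (v 0)) (sm 2048 (v 9))) (v 0)) (sm 1536 (v
    9))) (v 0))) (v 0)) (sm 5632 (v 9))) (v 0)) (sm 2048 (v 9))) (v 0)) (sm 2048 (v 9))) (v 0))
    (sm 896 (v 9))) (v 0)) (sm 640 (v 9))) (v 0)) (sm 512 (v 9))) (v 8))) (v 7)) (mul (mul (sub
    (mul (sub (mul (sub (mul (sub (mul (add (mul (add (mul (sub (sm 2304 (v 9)) (mul (add (mul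
    (add (mul (add (sm 128 (v 0)) (sm 1152 (v 9))) (v 0)) (sm 1792 (v 9))) (v 0)) (sm 512 (v 9)))
    (v 0))) (v 0)) (sm 4352 (v 9))) (v 0)) (sm 1024 (v 9))) (v 0)) (sm 2560 (v 9))) (v 0)) (sm
    1152 (v 9))) (v 0)) (sm 128 (v 9))) (v 0)) (sm 256 (v 9))) (v 8)) (v 8))) (v 6)) (add (mul
    (add (mul (add (mul (mul (mul (mul (add (mul (sub (sm 1280 (v 9)) (mul (add (sm 768 (v 0)) (sm
    1280 (v 9))) (v 0))) (v 0)) (sm 768 (v 9))) (v 0)) (v 0)) (v 0)) (v 7)) (mul (mul (sub (mul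
    (sub (mul (add (mul (sub (sm 4608 (v 9)) (mul (add (mul (add (sm 768 (v 0)) (sm 3072 (v 9)))
    (v 0)) (sm 1280 (v 9))) (v 0))) (v 0)) (sm 3328 (v 9))) (v 0)) (sm 1536 (v 9))) (v 0)) (sm
    1280 (v 9))) (v 0)) (v 8))) (v 7)) (mul (mul (mul (sub (mul (sub (mul (add (mul (add (mul (sub
    (sm 1280 (v 9)) (mul (add (sm 1536 (v 0)) (sm 2816 (v 9))) (v 0))) (v 0)) (sm 4352 (v 9))) (v
    0)) (sm 2304 (v 9))) (v 0)) (sm 2048 (v 9))) (v 0)) (sm 1536 (v 9))) (v 0)) (v 8)) (v 8))) (v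
    7)) (mul (mul (mul (mul (sub (mul (sub (mul (sub (mul (add (mul (sub (sm 1280 (v 9)) (mul (add
    (sm 768 (v 0)) (sm 512 (v 9))) (v 0))) (v 0)) (sm 1024 (v 9))) (v 0)) (sm 256 (v 9))) (v 0))
    (sm 512 (v 9))) (v 0)) (sm 256 (v 9))) (v 0)) (v 8)) (v 8)) (v 8))))) (v 5)) (add (mul (add
    (mul (add (mul (add (mul (mul (mul (mul (sub (mul (add (mul (sub (sm 1408 (v 9)) (mul (add
    (mul (add (sm 128 (v 0)) (sm 1280 (v 9))) (v 0)) (sm 640 (v 9))) (v 0))) (v 0)) (sm 768 (v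
    9))) (v 0)) (sm 128 (v 9))) (v 0)) (v 0)) (v 0)) (v 7)) (mul (add (mul (add (mul (sub (mul
    (sub (mul (add (mul (add (mul (sub (mul (sub (mul (sub (mul (sub (sm 64 (v 0)) (sm 832 (v 9)))
    (v 0)) (sm 512 (v 9))) (v 0)) (sm 768 (v 9))) (v 0)) (sm 1024 (v 9))) (v 0)) (sm 4096 (v 9)))
    (v 0)) (sm 2560 (v 9))) (v 0)) (sm 3584 (v 9))) (v 0)) (sm 1344 (v 9))) (v 0)) (sm 1088 (v
    9))) (v 0)) (sm 256 (v 9))) (v 8))) (v 7)) (mul (mul (sub (mul (add (mul (sub (mul (sub (mul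
    (add (mul (add (mul (sub (mul (add (mul (sub (mul (sub (sm 64 (v 0)) (sm 960 (v 9))) (v 0))
    (sm 384 (v 9))) (v 0)) (sm 768 (v 9))) (v 0)) (sm 1152 (v 9))) (v 0)) (sm 1408 (v 9))) (v 0))
    (sm 3072 (v 9))) (v 0)) (sm 1280 (v 9))) (v 0)) (sm 1472 (v 9))) (v 0)) (sm 64 (v 9))) (v 0))
    (sm 128 (v 9))) (v 8)) (v 8))) (v 6)) (add (mul (add (mul (add (mul (mul (mul (mul (sub (sm
    768 (v 9)) (mul (add (mul (add (sm 768 (v 0)) (sm 5376 (v 9))) (v 0)) (sm 2816 (v 9))) (v 0)))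
    (v 0)) (v 0)) (v 0)) (v 7)) (mul (mul (add (mul (add (mul (add (mul (sub (mul (sub (mul (sub
    (sm 2304 (v 0)) (sm 2048 (v 9))) (v 0)) (sm 11520 (v 9))) (v 0)) (sm 7680 (v 9))) (v 0)) (sm
    256 (v 9))) (v 0)) (sm 1536 (v 9))) (v 0)) (sm 768 (v 9))) (v 0)) (v 8))) (v 7)) (mul (mul
    (mul (add (mul (add (mul (sub (mul (sub (mul (sub (mul (sub (sm 3584 (v 0)) (sm 3840 (v 9)))
    (v 0)) (sm 4864 (v 9))) (v 0)) (sm 3840 (v 9))) (v 0)) (sm 2816 (v 9))) (v 0)) (sm 3072 (v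
    9))) (v 0)) (sm 512 (v 9))) (v 0)) (v 8)) (v 8))) (v 7)) (mul (mul (mul (mul (sub (mul (add
    (mul (sub (mul (add (mul (add (mul (sub (sm 1280 (v 0)) (sm 2560 (v 9))) (v 0)) (sm 1280 (v
    9))) (v 0)) (sm 1024 (v 9))) (v 0)) (sm 2304 (v 9))) (v 0)) (sm 1536 (v 9))) (v 0)) (sm 256 (v
    9))) (v 0)) (v 8)) (v 8)) (v 8)))) (v 6)) (mul (add (mul (add (mul (add (mul (neg (mul (mul
    (mul (add (sm 1024 (v 0)) (sm 1024 (v 9))) (v 0)) (v 0)) (v 0))) (v 7)) (mul (mul (mul (add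
    (mul (sub (mul (sub (sm 512 (v 0)) (sm 1536 (v 9))) (v 0)) (sm 1536 (v 9))) (v 0)) (sm 512 (v
    9))) (v 0)) (v 0)) (v 8))) (v 7)) (mul (mul (mul (mul (add (sm 1024 (mul (mul (v 0) (v 0)) (v
    0))) (sm 1024 (v 9))) (v 0)) (v 0)) (v 8)) (v 8))) (v 7)) (mul (mul (mul (mul (mul (add (mul
    (add (mul (add (sm 512 (v 0)) (sm 512 (v 9))) (v 0)) (sm 512 (v 9))) (v 0)) (sm 512 (v 9))) (v
    0)) (v 0)) (v 8)) (v 8)) (v 8))) (v 7)))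

/-- A coefficient. -/
def kap02 : Ex :=
  add (mul (add (mul (add (mul (add (mul (mul (mul (mul (sub (mul (sub (mul (add (mul (add (mul
    (sub (sm 256 (v 9)) (mul (add (sm 256 (v 0)) (sm 512 (v 9))) (v 0))) (v 0)) (sm 1024 (v 9)))
    (v 0)) (sm 256 (v 9))) (v 0)) (sm 512 (v 9))) (v 0)) (sm 256 (v 9))) (v 0)) (v 0)) (v 0)) (v
    7)) (mul (mul (add (mul (add (mul (sub (mul (sub (mul (add (mul (add (mul (add (mul (sub (mul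
    (sub (sm 128 (mul (v 0) (v 0))) (sm 640 (v 9))) (v 0)) (sm 512 (v 9))) (v 0)) (sm 768 (v 9)))
    (v 0)) (sm 1536 (v 9))) (v 0)) (sm 256 (v 9))) (v 0)) (sm 1536 (v 9))) (v 0)) (sm 896 (v 9)))
    (v 0)) (sm 512 (v 9))) (v 0)) (sm 384 (v 9))) (v 0)) (v 8))) (v 6)) (add (mul (add (mul (mul
    (mul (sub (mul (sub (mul (mul (sub (sm 896 (v 9)) (mul (mul (add (sm 64 (v 0)) (sm 384 (v 9)))
    (v 0)) (v 0))) (v 0)) (v 0)) (sm 384 (v 9))) (v 0)) (sm 64 (v 9))) (v 0)) (v 0)) (v 7)) (mul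
    (add (mul (add (mul (sub (mul (sub (mul (add (mul (add (mul (mul (sub (sm 192 (mul (v 0) (v
    0))) (sm 1024 (v 9))) (v 0)) (v 0)) (sm 1408 (v 9))) (v 0)) (sm 640 (v 9))) (v 0)) (sm 768 (v
    9))) (v 0)) (sm 1024 (v 9))) (v 0)) (sm 192 (v 9))) (v 0)) (sm 384 (v 9))) (v 8))) (v 7)) (mul
    (mul (sub (mul (add (mul (add (mul (add (mul (sub (mul (sub (mul (add (mul (sub (mul (sub (sm
    192 (v 0)) (sm 448 (v 9))) (v 0)) (sm 128 (v 9))) (v 0)) (sm 896 (v 9))) (v 0)) (sm 256 (v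
    9))) (v 0)) (sm 512 (v 9))) (v 0)) (sm 128 (v 9))) (v 0)) (sm 128 (v 9))) (v 0)) (sm 64 (v
    9))) (v 0)) (sm 64 (v 9))) (v 8)) (v 8)))) (v 5)) (add (mul (add (mul (add (mul (mul (mul (mul
    (sub (mul (sub (mul (add (mul (add (mul (sub (sm 512 (v 9)) (mul (add (sm 512 (v 0)) (sm 1024
    (v 9))) (v 0))) (v 0)) (sm 2048 (v 9))) (v 0)) (sm 512 (v 9))) (v 0)) (sm 1024 (v 9))) (v 0))
    (sm 512 (v 9))) (v 0)) (v 0)) (v 0)) (v 7)) (mul (mul (add (mul (sub (mul (sub (mul (sub (mul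
    (add (mul (add (mul (sub (sm 4608 (v 9)) (mul (add (mul (add (mul (add (sm 256 (v 0)) (sm 2048
    (v 9))) (v 0)) (sm 3840 (v 9))) (v 0)) (sm 1024 (v 9))) (v 0))) (v 0)) (sm 7168 (v 9))) (v 0))
    (sm 3584 (v 9))) (v 0)) (sm 3072 (v 9))) (v 0)) (sm 4352 (v 9))) (v 0)) (sm 1024 (v 9))) (v
    0)) (sm 256 (v 9))) (v 0)) (v 8))) (v 6)) (add (mul (add (mul (mul (mul (sub (mul (add (mul
    (add (mul (sub (sm 1792 (v 9)) (mul (add (mul (add (sm 128 (v 0)) (sm 3584 (v 9))) (v 0)) (sm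
    6656 (v 9))) (v 0))) (v 0)) (sm 6656 (v 9))) (v 0)) (sm 2048 (v 9))) (v 0)) (sm 128 (v 9))) (v
    0)) (v 0)) (v 7)) (mul (sub (mul (sub (mul (sub (mul (add (mul (add (mul (sub (sm 9728 (v 9))
    (mul (add (mul (add (mul (add (sm 128 (v 0)) (sm 2048 (v 9))) (v 0)) (sm 9728 (v 9))) (v 0))
    (sm 6656 (v 9))) (v 0))) (v 0)) (sm 12544 (v 9))) (v 0)) (sm 2048 (v 9))) (v 0)) (sm 3072 (v
    9))) (v 0)) (sm 1920 (v 9))) (v 0)) (sm 768 (v 9))) (v 8))) (v 7)) (mul (mul (sub (mul (sub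
    (mul (sub (mul (sub (mul (add (mul (add (mul (sub (sm 768 (v 9)) (mul (add (mul (add (sm 128
    (v 0)) (sm 2432 (v 9))) (v 0)) (sm 6144 (v 9))) (v 0))) (v 0)) (sm 9472 (v 9))) (v 0)) (sm
    3584 (v 9))) (v 0)) (sm 2048 (v 9))) (v 0)) (sm 1792 (v 9))) (v 0)) (sm 1152 (v 9))) (v 0))
    (sm 128 (v 9))) (v 8)) (v 8)))) (v 6)) (add (mul (add (mul (add (mul (mul (mul (add (mul (sub
    (sm 1280 (v 9)) (mul (mul (add (sm 256 (v 0)) (sm 1280 (v 9))) (v 0)) (v 0))) (v 0)) (sm 256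
    (v 9))) (v 0)) (v 0)) (v 7)) (mul (mul (sub (mul (sub (mul (add (mul (sub (sm 2560 (v 9)) (mul
    (add (mul (add (sm 256 (v 0)) (sm 1280 (v 9))) (v 0)) (sm 2816 (v 9))) (v 0))) (v 0)) (sm 4096
    (v 9))) (v 0)) (sm 1280 (v 9))) (v 0)) (sm 1024 (v 9))) (v 0)) (v 8))) (v 7)) (mul (mul (mul
    (sub (mul (sub (mul (add (mul (sub (sm 2560 (v 9)) (mul (add (mul (add (sm 384 (v 0)) (sm 512
    (v 9))) (v 0)) (sm 1920 (v 9))) (v 0))) (v 0)) (sm 2432 (v 9))) (v 0)) (sm 1024 (v 9))) (v 0))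
    (sm 1152 (v 9))) (v 0)) (v 8)) (v 8))) (v 7)) (mul (mul (mul (mul (sub (mul (mul (sub (mul
    (sub (sm 1024 (v 9)) (mul (add (sm 128 (mul (v 0) (v 0))) (sm 384 (v 9))) (v 0))) (v 0)) (sm
    384 (v 9))) (v 0)) (v 0)) (sm 128 (v 9))) (v 0)) (v 8)) (v 8)) (v 8))))) (v 5)) (add (mul (add
    (mul (add (mul (add (mul (mul (mul (mul (sub (mul (sub (mul (add (mul (add (mul (sub (sm 256
    (v 9)) (mul (add (sm 256 (v 0)) (sm 512 (v 9))) (v 0))) (v 0)) (sm 1024 (v 9))) (v 0)) (sm 256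
    (v 9))) (v 0)) (sm 512 (v 9))) (v 0)) (sm 256 (v 9))) (v 0)) (v 0)) (v 0)) (v 7)) (mul (mul
    (add (mul (add (mul (sub (mul (sub (mul (add (mul (add (mul (add (mul (sub (mul (sub (sm 128
    (mul (v 0) (v 0))) (sm 640 (v 9))) (v 0)) (sm 512 (v 9))) (v 0)) (sm 768 (v 9))) (v 0)) (sm
    1536 (v 9))) (v 0)) (sm 256 (v 9))) (v 0)) (sm 1536 (v 9))) (v 0)) (sm 896 (v 9))) (v 0)) (sm
    512 (v 9))) (v 0)) (sm 384 (v 9))) (v 0)) (v 8))) (v 6)) (add (mul (add (mul (mul (mul (sub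
    (mul (add (mul (sub (sm 2560 (v 9)) (mul (add (mul (add (mul (add (sm 64 (v 0)) (sm 3200 (v
    9))) (v 0)) (sm 10752 (v 9))) (v 0)) (sm 7296 (v 9))) (v 0))) (v 0)) (sm 2432 (v 9))) (v 0))
    (sm 64 (v 9))) (v 0)) (v 0)) (v 7)) (mul (add (mul (add (mul (mul (sub (mul (sub (mul (sub
    (mul (sub (mul (sub (mul (sub (sm 1536 (v 9)) (sm 64 (v 0))) (v 0)) (sm 6656 (v 9))) (v 0))
    (sm 16896 (v 9))) (v 0)) (sm 9600 (v 9))) (v 0)) (sm 1408 (v 9))) (v 0)) (sm 1280 (v 9))) (v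
    0)) (v 0)) (sm 1216 (v 9))) (v 0)) (sm 384 (v 9))) (v 8))) (v 7)) (mul (mul (sub (mul (sub
    (mul (add (mul (sub (mul (sub (mul (add (mul (sub (mul (sub (mul (sub (sm 1600 (v 9)) (sm 64
    (v 0))) (v 0)) (sm 6016 (v 9))) (v 0)) (sm 7808 (v 9))) (v 0)) (sm 1024 (v 9))) (v 0)) (sm
    3584 (v 9))) (v 0)) (sm 2176 (v 9))) (v 0)) (sm 1664 (v 9))) (v 0)) (sm 960 (v 9))) (v 0)) (sm
    64 (v 9))) (v 8)) (v 8)))) (v 6)) (add (mul (add (mul (add (mul (mul (mul (sub (sm 256 (v 9))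
    (mul (add (mul (add (mul (add (sm 256 (v 0)) (sm 6400 (v 9))) (v 0)) (sm 10240 (v 9))) (v 0))
    (sm 3840 (v 9))) (v 0))) (v 0)) (v 0)) (v 7)) (mul (mul (add (mul (add (mul (sub (mul (sub
    (mul (sub (mul (add (sm 256 (v 0)) (sm 1280 (v 9))) (v 0)) (sm 6400 (v 9))) (v 0)) (sm 12800
    (v 9))) (v 0)) (sm 6656 (v 9))) (v 0)) (sm 3328 (v 9))) (v 0)) (sm 512 (v 9))) (v 0)) (v 8)))
    (v 7)) (mul (mul (mul (add (mul (add (mul (add (mul (sub (mul (add (sm 384 (mul (v 0) (v 0)))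
    (sm 4480 (v 9))) (v 0)) (sm 4608 (v 9))) (v 0)) (sm 1664 (v 9))) (v 0)) (sm 1536 (v 9))) (v
    0)) (sm 640 (v 9))) (v 0)) (v 8)) (v 8))) (v 7)) (mul (mul (mul (mul (add (mul (sub (mul (add
    (mul (sub (mul (add (mul (sub (sm 128 (v 0)) (sm 1024 (v 9))) (v 0)) (sm 4480 (v 9))) (v 0))
    (sm 3072 (v 9))) (v 0)) (sm 4480 (v 9))) (v 0)) (sm 1024 (v 9))) (v 0)) (sm 128 (v 9))) (v 0))
    (v 8)) (v 8)) (v 8)))) (v 6)) (mul (mul (add (mul (add (mul (neg (mul (mul (add (mul (add (sm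
    256 (v 0)) (sm 512 (v 9))) (v 0)) (sm 256 (v 9))) (v 0)) (v 0))) (v 7)) (mul (mul (mul (sub
    (mul (sub (sm 1024 (v 9)) (sm 512 (v 0))) (v 0)) (sm 512 (v 9))) (v 0)) (v 0)) (v 8))) (v 7))
    (mul (mul (mul (mul (sub (mul (sub (sm 1536 (v 9)) (sm 256 (v 0))) (v 0)) (sm 256 (v 9))) (v
    0)) (v 0)) (v 8)) (v 8))) (v 7)) (v 7)))

/-- A coefficient. -/
def kap03 : Ex :=
  add (mul (add (mul (add (mul (add (mul (mul (mul (sub (mul (sub (mul (sub (mul (add (mul (sub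
    (sm 2304 (v 9)) (mul (add (mul (add (sm 256 (v 0)) (sm 1280 (v 9))) (v 0)) (sm 768 (v 9))) (v
    0))) (v 0)) (sm 2304 (v 9))) (v 0)) (sm 768 (v 9))) (v 0)) (sm 1280 (v 9))) (v 0)) (sm 256 (v
    9))) (v 0)) (v 0)) (v 7)) (mul (mul (add (mul (add (mul (sub (mul (sub (mul (add (mul (add
    (mul (add (mul (sub (mul (sub (sm 384 (v 0)) (sm 384 (v 9))) (v 0)) (sm 1792 (v 9))) (v 0))
    (sm 256 (v 9))) (v 0)) (sm 3072 (v 9))) (v 0)) (sm 1536 (v 9))) (v 0)) (sm 2304 (v 9))) (v 0))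
    (sm 2304 (v 9))) (v 0)) (sm 640 (v 9))) (v 0)) (sm 896 (v 9))) (v 0)) (v 8))) (v 6)) (add (mul
    (add (mul (mul (mul (sub (mul (sub (mul (add (mul (sub (sm 384 (v 9)) (mul (add (sm 128 (v 0))
    (sm 256 (v 9))) (v 0))) (v 0)) (sm 384 (v 9))) (v 0)) (sm 256 (v 9))) (v 0)) (sm 128 (v 9)))
    (v 0)) (v 0)) (v 7)) (mul (add (mul (add (mul (sub (mul (add (mul (add (mul (add (mul (sub
    (mul (sub (sm 192 (v 0)) (sm 192 (v 9))) (v 0)) (sm 576 (v 9))) (v 0)) (sm 64 (v 9))) (v 0))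
    (sm 1216 (v 9))) (v 0)) (sm 320 (v 9))) (v 0)) (sm 1600 (v 9))) (v 0)) (sm 320 (v 9))) (v 0))
    (sm 256 (v 9))) (v 8))) (v 7)) (mul (mul (mul (add (mul (sub (mul (add (mul (sub (mul (sub
    (mul (add (mul (sub (sm 192 (v 0)) (sm 832 (v 9))) (v 0)) (sm 1216 (v 9))) (v 0)) (sm 320 (v
    9))) (v 0)) (sm 960 (v 9))) (v 0)) (sm 1088 (v 9))) (v 0)) (sm 448 (v 9))) (v 0)) (sm 64 (v
    9))) (v 0)) (v 8)) (v 8)))) (v 5)) (add (mul (add (mul (add (mul (mul (mul (sub (mul (mul (add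
    (mul (sub (sm 9728 (v 9)) (mul (add (mul (add (mul (add (sm 512 (v 0)) (sm 5120 (v 9))) (v 0))
    (sm 9216 (v 9))) (v 0)) (sm 512 (v 9))) (v 0))) (v 0)) (sm 6144 (v 9))) (v 0)) (v 0)) (sm 512
    (v 9))) (v 0)) (v 0)) (v 7)) (mul (mul (add (mul (sub (mul (sub (mul (add (mul (add (mul (sub
    (sm 8704 (v 9)) (mul (add (mul (add (mul (add (sm 256 (v 0)) (sm 2816 (v 9))) (v 0)) (sm 9216
    (v 9))) (v 0)) (sm 8192 (v 9))) (v 0))) (v 0)) (sm 16896 (v 9))) (v 0)) (sm 3072 (v 9))) (v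
    0)) (sm 6144 (v 9))) (v 0)) (sm 2304 (v 9))) (v 0)) (sm 256 (v 9))) (v 0)) (v 8))) (v 6)) (add
    (mul (add (mul (mul (mul (add (mul (add (mul (sub (sm 6144 (v 9)) (mul (add (mul (add (sm 1536
    (v 0)) (sm 7168 (v 9))) (v 0)) (sm 4608 (v 9))) (v 0))) (v 0)) (sm 6144 (v 9))) (v 0)) (sm
    1024 (v 9))) (v 0)) (v 0)) (v 7)) (mul (sub (mul (sub (mul (add (mul (add (mul (add (mul (sub
    (sm 3200 (v 9)) (mul (add (mul (add (sm 640 (v 0)) (sm 3968 (v 9))) (v 0)) (sm 9344 (v 9))) (v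
    0))) (v 0)) (sm 9344 (v 9))) (v 0)) (sm 3968 (v 9))) (v 0)) (sm 128 (v 9))) (v 0)) (sm 2176 (v
    9))) (v 0)) (sm 512 (v 9))) (v 8))) (v 7)) (mul (mul (mul (sub (mul (sub (mul (sub (mul (add
    (mul (sub (sm 4480 (v 9)) (mul (add (mul (add (sm 384 (v 0)) (sm 2176 (v 9))) (v 0)) (sm 2944
    (v 9))) (v 0))) (v 0)) (sm 3968 (v 9))) (v 0)) (sm 1408 (v 9))) (v 0)) (sm 640 (v 9))) (v 0))
    (sm 896 (v 9))) (v 0)) (v 8)) (v 8)))) (v 6)) (mul (add (mul (add (mul (mul (mul (add (mul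
    (sub (sm 256 (v 9)) (mul (add (sm 256 (v 0)) (sm 256 (v 9))) (v 0))) (v 0)) (sm 256 (v 9))) (v
    0)) (v 0)) (v 7)) (mul (mul (sub (mul (sub (mul (sub (sm 3072 (v 9)) (mul (add (mul (add (sm
    256 (v 0)) (sm 768 (v 9))) (v 0)) (sm 512 (v 9))) (v 0))) (v 0)) (sm 1280 (v 9))) (v 0)) (sm
    256 (v 9))) (v 0)) (v 8))) (v 7)) (mul (mul (mul (sub (mul (sub (mul (add (mul (sub (mul (sub
    (sm 512 (v 9)) (sm 256 (v 0))) (v 0)) (sm 1280 (v 9))) (v 0)) (sm 1792 (v 9))) (v 0)) (sm 512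
    (v 9))) (v 0)) (sm 256 (v 9))) (v 0)) (v 8)) (v 8))) (v 7)))) (v 5)) (mul (add (mul (add (mul
    (add (mul (mul (mul (sub (mul (add (mul (add (mul (sub (sm 7424 (v 9)) (mul (add (mul (add
    (mul (add (sm 256 (v 0)) (sm 3840 (v 9))) (v 0)) (sm 8448 (v 9))) (v 0)) (sm 2816 (v 9))) (v
    0))) (v 0)) (sm 6912 (v 9))) (v 0)) (sm 1280 (v 9))) (v 0)) (sm 256 (v 9))) (v 0)) (v 0)) (v
    7)) (mul (mul (sub (mul (sub (mul (add (mul (add (mul (add (mul (sub (mul (sub (mul (sub (mul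
    (sub (sm 128 (v 9)) (sm 128 (v 0))) (v 0)) (sm 3328 (v 9))) (v 0)) (sm 8448 (v 9))) (v 0)) (sm
    1536 (v 9))) (v 0)) (sm 8192 (v 9))) (v 0)) (sm 5376 (v 9))) (v 0)) (sm 256 (v 9))) (v 0)) (sm
    384 (v 9))) (v 0)) (sm 128 (v 9))) (v 0)) (v 8))) (v 6)) (add (mul (add (mul (mul (mul (sub
    (sm 1152 (v 9)) (mul (add (mul (add (mul (add (mul (add (sm 1408 (v 0)) (sm 15104 (v 9))) (v
    0)) (sm 29568 (v 9))) (v 0)) (sm 18816 (v 9))) (v 0)) (sm 1792 (v 9))) (v 0))) (v 0)) (v 0))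
    (v 7)) (mul (add (mul (add (mul (add (mul (sub (mul (sub (mul (sub (mul (sub (mul (sub (sm 448
    (v 0)) (sm 1984 (v 9))) (v 0)) (sm 12608 (v 9))) (v 0)) (sm 25792 (v 9))) (v 0)) (sm 23872 (v
    9))) (v 0)) (sm 5312 (v 9))) (v 0)) (sm 2496 (v 9))) (v 0)) (sm 832 (v 9))) (v 0)) (sm 256 (v
    9))) (v 8))) (v 7)) (mul (mul (mul (sub (mul (sub (mul (add (mul (sub (mul (sub (mul (add (mul
    (sub (sm 192 (v 0)) (sm 2112 (v 9))) (v 0)) (sm 3776 (v 9))) (v 0)) (sm 3136 (v 9))) (v 0))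
    (sm 3008 (v 9))) (v 0)) (sm 5440 (v 9))) (v 0)) (sm 960 (v 9))) (v 0)) (sm 192 (v 9))) (v 0))
    (v 8)) (v 8)))) (v 6)) (mul (add (mul (add (mul (neg (mul (mul (add (mul (add (mul (add (sm
    1792 (v 0)) (sm 4864 (v 9))) (v 0)) (sm 4352 (v 9))) (v 0)) (sm 1280 (v 9))) (v 0)) (v 0))) (v
    7)) (mul (mul (add (mul (sub (mul (mul (add (mul (sub (sm 256 (v 0)) (sm 2304 (v 9))) (v 0))
    (sm 2560 (v 9))) (v 0)) (v 0)) (sm 768 (v 9))) (v 0)) (sm 256 (v 9))) (v 0)) (v 8))) (v 7))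
    (mul (mul (mul (add (mul (sub (mul (add (mul (add (mul (sub (sm 256 (v 0)) (sm 1536 (v 9))) (v
    0)) (sm 4352 (v 9))) (v 0)) (sm 1280 (v 9))) (v 0)) (sm 512 (v 9))) (v 0)) (sm 256 (v 9))) (v
    0)) (v 8)) (v 8))) (v 7))) (v 6))

/-- A coefficient. -/
def kap04 : Ex :=
  add (mul (add (mul (add (mul (add (mul (mul (mul (sub (mul (sub (mul (sub (mul (add (mul (add
    (mul (sub (sm 1024 (v 9)) (mul (add (mul (add (sm 256 (v 0)) (sm 1024 (v 9))) (v 0)) (sm 1024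
    (v 9))) (v 0))) (v 0)) (sm 2560 (v 9))) (v 0)) (sm 1024 (v 9))) (v 0)) (sm 1024 (v 9))) (v 0))
    (sm 1024 (v 9))) (v 0)) (sm 256 (v 9))) (v 0)) (v 0)) (v 6)) (add (mul (mul (mul (sub (mul
    (sub (mul (add (mul (add (mul (sub (sm 512 (v 9)) (mul (add (sm 512 (v 0)) (sm 1280 (v 9))) (v
    0))) (v 0)) (sm 2560 (v 9))) (v 0)) (sm 512 (v 9))) (v 0)) (sm 1280 (v 9))) (v 0)) (sm 512 (v
    9))) (v 0)) (v 0)) (v 7)) (mul (mul (add (mul (add (mul (sub (mul (sub (mul (add (mul (add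
    (mul (sub (mul (sub (sm 384 (v 0)) (sm 512 (v 9))) (v 0)) (sm 1792 (v 9))) (v 0)) (sm 1536 (v
    9))) (v 0)) (sm 3072 (v 9))) (v 0)) (sm 1536 (v 9))) (v 0)) (sm 2304 (v 9))) (v 0)) (sm 512 (v
    9))) (v 0)) (sm 640 (v 9))) (v 0)) (v 8)))) (v 6)) (add (mul (add (mul (mul (mul (sub (mul
    (mul (sub (sm 128 (v 9)) (sm 64 (mul (v 0) (v 0)))) (v 0)) (v 0)) (sm 64 (v 9))) (v 0)) (v 0))
    (v 7)) (mul (add (mul (add (mul (sub (mul (add (mul (add (mul (sub (mul (add (sm 64 (v 0)) (sm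
    64 (v 9))) (v 0)) (sm 576 (v 9))) (v 0)) (sm 192 (v 9))) (v 0)) (sm 1216 (v 9))) (v 0)) (sm
    1344 (v 9))) (v 0)) (sm 320 (v 9))) (v 0)) (sm 64 (v 9))) (v 8))) (v 7)) (mul (mul (mul (add
    (mul (sub (mul (add (mul (sub (mul (add (mul (sub (sm 64 (v 0)) (sm 384 (v 9))) (v 0)) (sm 960
    (v 9))) (v 0)) (sm 1280 (v 9))) (v 0)) (sm 960 (v 9))) (v 0)) (sm 384 (v 9))) (v 0)) (sm 64 (v
    9))) (v 0)) (v 8)) (v 8)))) (v 5)) (add (mul (add (mul (add (mul (mul (mul (sub (mul (sub (mul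
    (sub (mul (add (mul (add (mul (sub (sm 2048 (v 9)) (mul (add (mul (add (sm 512 (v 0)) (sm 2048
    (v 9))) (v 0)) (sm 2048 (v 9))) (v 0))) (v 0)) (sm 5120 (v 9))) (v 0)) (sm 2048 (v 9))) (v 0))
    (sm 2048 (v 9))) (v 0)) (sm 2048 (v 9))) (v 0)) (sm 512 (v 9))) (v 0)) (v 0)) (v 6)) (add (mul
    (mul (mul (add (mul (add (mul (add (mul (sub (sm 5120 (v 9)) (mul (add (mul (add (sm 3072 (v
    0)) (sm 13312 (v 9))) (v 0)) (sm 14336 (v 9))) (v 0))) (v 0)) (sm 16384 (v 9))) (v 0)) (sm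
    8192 (v 9))) (v 0)) (sm 1024 (v 9))) (v 0)) (v 0)) (v 7)) (mul (mul (sub (mul (mul (sub (mul
    (add (mul (sub (sm 10752 (v 9)) (mul (mul (add (mul (add (sm 256 (v 0)) (sm 4096 (v 9))) (v
    0)) (sm 9216 (v 9))) (v 0)) (v 0))) (v 0)) (sm 4096 (v 9))) (v 0)) (sm 1024 (v 9))) (v 0)) (v
    0)) (sm 256 (v 9))) (v 0)) (v 8)))) (v 6)) (add (mul (add (mul (mul (mul (add (mul (add (mul
    (sub (sm 256 (v 9)) (mul (add (sm 1408 (v 0)) (sm 2560 (v 9))) (v 0))) (v 0)) (sm 2560 (v 9)))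
    (v 0)) (sm 1152 (v 9))) (v 0)) (v 0)) (v 7)) (mul (sub (mul (sub (mul (add (mul (add (mul (sub
    (sm 4224 (v 9)) (mul (add (mul (add (sm 640 (v 0)) (sm 2688 (v 9))) (v 0)) (sm 896 (v 9))) (v
    0))) (v 0)) (sm 640 (v 9))) (v 0)) (sm 640 (v 9))) (v 0)) (sm 1152 (v 9))) (v 0)) (sm 128 (v
    9))) (v 8))) (v 7)) (mul (mul (mul (sub (mul (sub (mul (add (mul (sub (mul (sub (sm 1152 (v
    9)) (mul (add (sm 128 (v 0)) (sm 768 (v 9))) (v 0))) (v 0)) (sm 512 (v 9))) (v 0)) (sm 1152 (v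
    9))) (v 0)) (sm 768 (v 9))) (v 0)) (sm 128 (v 9))) (v 0)) (v 8)) (v 8)))) (v 6)) (mul (mul
    (mul (mul (mul (sub (mul (sub (sm 1024 (v 9)) (sm 512 (v 0))) (v 0)) (sm 512 (v 9))) (v 0)) (v
    0)) (v 8)) (v 7)) (v 7)))) (v 5)) (mul (add (mul (add (mul (add (mul (mul (mul (sub (mul (sub
    (mul (sub (mul (add (mul (add (mul (sub (sm 1024 (v 9)) (mul (add (mul (add (sm 256 (v 0)) (sm
    1024 (v 9))) (v 0)) (sm 1024 (v 9))) (v 0))) (v 0)) (sm 2560 (v 9))) (v 0)) (sm 1024 (v 9)))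
    (v 0)) (sm 1024 (v 9))) (v 0)) (sm 1024 (v 9))) (v 0)) (sm 256 (v 9))) (v 0)) (v 0)) (v 6))
    (add (mul (mul (mul (add (mul (sub (sm 5376 (v 9)) (mul (add (mul (add (mul (add (mul (add (sm
    2560 (v 0)) (sm 16128 (v 9))) (v 0)) (sm 31232 (v 9))) (v 0)) (sm 22016 (v 9))) (v 0)) (sm 512
    (v 9))) (v 0))) (v 0)) (sm 1536 (v 9))) (v 0)) (v 0)) (v 7)) (mul (neg (mul (add (mul (add
    (mul (add (mul (add (mul (add (mul (add (mul (add (mul (add (sm 128 (v 0)) (sm 3584 (v 9))) (v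
    0)) (sm 9472 (v 9))) (v 0)) (sm 17920 (v 9))) (v 0)) (sm 22016 (v 9))) (v 0)) (sm 10752 (v
    9))) (v 0)) (sm 768 (v 9))) (v 0)) (sm 512 (v 9))) (v 0)) (sm 384 (v 9))) (v 0))) (v 8)))) (v
    6)) (add (mul (add (mul (neg (mul (mul (add (mul (add (mul (add (mul (add (sm 4672 (v 0)) (sm
    15872 (v 9))) (v 0)) (sm 19840 (v 9))) (v 0)) (sm 10752 (v 9))) (v 0)) (sm 2112 (v 9))) (v 0))
    (v 0))) (v 7)) (mul (add (mul (add (mul (sub (mul (sub (mul (add (mul (sub (mul (sub (sm 576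
    (v 0)) (sm 3520 (v 9))) (v 0)) (sm 2624 (v 9))) (v 0)) (sm 7872 (v 9))) (v 0)) (sm 1856 (v
    9))) (v 0)) (sm 1344 (v 9))) (v 0)) (sm 832 (v 9))) (v 0)) (sm 64 (v 9))) (v 8))) (v 7)) (mul
    (mul (mul (add (mul (add (mul (sub (mul (add (mul (sub (mul (add (sm 64 (v 0)) (sm 128 (v 9)))
    (v 0)) (sm 2112 (v 9))) (v 0)) (sm 7936 (v 9))) (v 0)) (sm 2112 (v 9))) (v 0)) (sm 128 (v 9)))
    (v 0)) (sm 64 (v 9))) (v 0)) (v 8)) (v 8)))) (v 6)) (mul (mul (mul (mul (mul (add (mul (sub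
    (sm 512 (v 0)) (sm 1024 (v 9))) (v 0)) (sm 512 (v 9))) (v 0)) (v 0)) (v 8)) (v 7)) (v 7))) (v
    6))

/-- A coefficient. -/
def kap05 : Ex :=
  add (mul (add (mul (add (mul (add (mul (mul (mul (sub (mul (sub (mul (sub (mul (add (mul (sub
    (sm 2560 (v 9)) (mul (add (mul (add (sm 512 (v 0)) (sm 1536 (v 9))) (v 0)) (sm 512 (v 9))) (v
    0))) (v 0)) (sm 2560 (v 9))) (v 0)) (sm 512 (v 9))) (v 0)) (sm 1536 (v 9))) (v 0)) (sm 512 (v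
    9))) (v 0)) (v 0)) (v 6)) (add (mul (mul (mul (sub (mul (sub (mul (add (mul (sub (sm 512 (v
    9)) (mul (add (sm 256 (v 0)) (sm 256 (v 9))) (v 0))) (v 0)) (sm 512 (v 9))) (v 0)) (sm 256 (v
    9))) (v 0)) (sm 256 (v 9))) (v 0)) (v 0)) (v 7)) (mul (mul (add (mul (add (mul (sub (mul (add
    (mul (add (mul (sub (mul (add (sm 128 (v 0)) (sm 128 (v 9))) (v 0)) (sm 1664 (v 9))) (v 0))
    (sm 1920 (v 9))) (v 0)) (sm 896 (v 9))) (v 0)) (sm 2176 (v 9))) (v 0)) (sm 640 (v 9))) (v 0))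
    (sm 128 (v 9))) (v 0)) (v 8)))) (v 6)) (mul (mul (mul (add (mul (sub (mul (add (mul (sub (sm
    128 (v 0)) (sm 512 (v 9))) (v 0)) (sm 768 (v 9))) (v 0)) (sm 512 (v 9))) (v 0)) (sm 128 (v
    9))) (v 0)) (v 8)) (v 7))) (v 5)) (mul (add (mul (add (mul (mul (mul (mul (add (mul (add (mul
    (sub (sm 10240 (v 9)) (mul (mul (add (mul (add (sm 2048 (v 0)) (sm 8192 (v 9))) (v 0)) (sm
    10240 (v 9))) (v 0)) (v 0))) (v 0)) (sm 8192 (v 9))) (v 0)) (sm 2048 (v 9))) (v 0)) (v 0)) (v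
    0)) (v 6)) (add (mul (mul (mul (add (mul (add (mul (sub (sm 5120 (v 9)) (mul (add (mul (add
    (sm 2560 (v 0)) (sm 6656 (v 9))) (v 0)) (sm 3072 (v 9))) (v 0))) (v 0)) (sm 5632 (v 9))) (v
    0)) (sm 1536 (v 9))) (v 0)) (v 0)) (v 7)) (mul (mul (sub (mul (sub (mul (add (mul (add (mul
    (sub (sm 2304 (v 9)) (mul (add (mul (add (sm 256 (v 0)) (sm 2304 (v 9))) (v 0)) (sm 1792 (v
    9))) (v 0))) (v 0)) (sm 2304 (v 9))) (v 0)) (sm 256 (v 9))) (v 0)) (sm 256 (v 9))) (v 0)) (sm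
    256 (v 9))) (v 0)) (v 8)))) (v 6)) (mul (mul (mul (sub (mul (mul (sub (mul (sub (sm 2048 (v
    9)) (sm 1280 (v 0))) (v 0)) (sm 512 (v 9))) (v 0)) (v 0)) (sm 256 (v 9))) (v 0)) (v 8)) (v
    7))) (v 6))) (v 5)) (mul (mul (add (mul (add (mul (mul (mul (add (mul (add (mul (add (mul (sub
    (sm 7680 (v 9)) (mul (add (mul (add (mul (add (sm 1536 (v 0)) (sm 6656 (v 9))) (v 0)) (sm 9728
    (v 9))) (v 0)) (sm 2560 (v 9))) (v 0))) (v 0)) (sm 8704 (v 9))) (v 0)) (sm 3584 (v 9))) (v 0))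
    (sm 512 (v 9))) (v 0)) (v 0)) (v 6)) (add (mul (neg (mul (mul (add (mul (add (mul (add (mul
    (add (mul (add (sm 5376 (v 0)) (sm 21760 (v 9))) (v 0)) (sm 34304 (v 9))) (v 0)) (sm 26112 (v
    9))) (v 0)) (sm 9472 (v 9))) (v 0)) (sm 1280 (v 9))) (v 0)) (v 0))) (v 7)) (mul (mul (add (mul
    (sub (mul (sub (mul (add (mul (add (mul (sub (mul (sub (sm 128 (v 0)) (sm 1920 (v 9))) (v 0))
    (sm 4736 (v 9))) (v 0)) (sm 3968 (v 9))) (v 0)) (sm 4992 (v 9))) (v 0)) (sm 2176 (v 9))) (v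
    0)) (sm 384 (v 9))) (v 0)) (sm 128 (v 9))) (v 0)) (v 8)))) (v 6)) (mul (mul (mul (add (mul
    (add (mul (sub (mul (sub (sm 1152 (v 0)) (sm 1536 (v 9))) (v 0)) (sm 256 (v 9))) (v 0)) (sm
    512 (v 9))) (v 0)) (sm 128 (v 9))) (v 0)) (v 8)) (v 7))) (v 6)) (v 6))

/-- A coefficient. -/
def kap06 : Ex :=
  add (mul (add (mul (mul (add (mul (mul (mul (sub (mul (sub (mul (add (mul (add (mul (sub (sm 256
    (v 9)) (mul (add (sm 256 (v 0)) (sm 512 (v 9))) (v 0))) (v 0)) (sm 1024 (v 9))) (v 0)) (sm 256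
    (v 9))) (v 0)) (sm 512 (v 9))) (v 0)) (sm 256 (v 9))) (v 0)) (v 0)) (v 6)) (mul (mul (mul (add
    (mul (sub (mul (add (mul (sub (sm 256 (v 0)) (sm 1024 (v 9))) (v 0)) (sm 1536 (v 9))) (v 0))
    (sm 1024 (v 9))) (v 0)) (sm 256 (v 9))) (v 0)) (v 0)) (v 8))) (v 6)) (v 5)) (mul (mul (add
    (mul (mul (mul (add (mul (add (mul (add (mul (sub (sm 2048 (v 9)) (mul (add (mul (add (sm 1536
    (v 0)) (sm 5120 (v 9))) (v 0)) (sm 4608 (v 9))) (v 0))) (v 0)) (sm 5632 (v 9))) (v 0)) (sm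
    3072 (v 9))) (v 0)) (sm 512 (v 9))) (v 0)) (v 0)) (v 6)) (mul (mul (mul (sub (mul (mul (sub
    (sm 1024 (v 9)) (sm 512 (mul (v 0) (v 0)))) (v 0)) (v 0)) (sm 512 (v 9))) (v 0)) (v 0)) (v
    8))) (v 6)) (v 6))) (v 5)) (mul (mul (mul (add (mul (neg (mul (mul (add (mul (add (mul (add
    (mul (add (mul (add (mul (add (sm 2304 (v 0)) (sm 10752 (v 9))) (v 0)) (sm 20224 (v 9))) (v
    0)) (sm 19456 (v 9))) (v 0)) (sm 9984 (v 9))) (v 0)) (sm 2560 (v 9))) (v 0)) (sm 256 (v 9)))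
    (v 0)) (v 0))) (v 6)) (mul (mul (mul (add (mul (add (mul (sub (mul (add (sm 256 (v 0)) (sm
    1024 (v 9))) (v 0)) (sm 2560 (v 9))) (v 0)) (sm 1024 (v 9))) (v 0)) (sm 256 (v 9))) (v 0)) (v
    0)) (v 8))) (v 6)) (v 6)) (v 6))

/-- A coefficient. -/
def kap10 : Ex :=
  add (mul (add (mul (add (mul (add (mul (mul (mul (mul (sub (mul (sub (mul (add (mul (add (mul
    (sub (sm 128 (v 0)) (sm 1280 (v 9))) (v 0)) (sm 640 (v 9))) (v 0)) (sm 1408 (v 9))) (v 0)) (sm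
    768 (v 9))) (v 0)) (sm 128 (v 9))) (v 0)) (v 0)) (v 0)) (v 7)) (mul (sub (mul (add (mul (add
    (mul (sub (mul (sub (mul (add (mul (add (mul (sub (mul (sub (sm 512 (v 9)) (mul (add (sm 64 (v
    0)) (sm 832 (v 9))) (v 0))) (v 0)) (sm 768 (v 9))) (v 0)) (sm 1024 (v 9))) (v 0)) (sm 4096 (v
    9))) (v 0)) (sm 2560 (v 9))) (v 0)) (sm 3584 (v 9))) (v 0)) (sm 1344 (v 9))) (v 0)) (sm 1088
    (v 9))) (v 0)) (sm 256 (v 9))) (v 8))) (v 7)) (mul (mul (add (mul (add (mul (add (mul (sub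
    (mul (sub (mul (add (mul (add (mul (add (mul (sub (sm 384 (v 9)) (mul (add (sm 64 (v 0)) (sm
    960 (v 9))) (v 0))) (v 0)) (sm 768 (v 9))) (v 0)) (sm 1152 (v 9))) (v 0)) (sm 1408 (v 9))) (v
    0)) (sm 3072 (v 9))) (v 0)) (sm 1280 (v 9))) (v 0)) (sm 1472 (v 9))) (v 0)) (sm 64 (v 9))) (v
    0)) (sm 128 (v 9))) (v 8)) (v 8))) (v 5)) (add (mul (add (mul (add (mul (mul (mul (mul (sub
    (mul (sub (mul (add (mul (add (mul (sub (sm 256 (v 0)) (sm 1536 (v 9))) (v 0)) (sm 256 (v 9)))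
    (v 0)) (sm 1792 (v 9))) (v 0)) (sm 512 (v 9))) (v 0)) (sm 256 (v 9))) (v 0)) (v 0)) (v 0)) (v
    7)) (mul (add (mul (sub (mul (add (mul (sub (mul (sub (mul (add (mul (sub (mul (sub (mul (add
    (mul (sub (sm 128 (v 0)) (sm 1408 (v 9))) (v 0)) (sm 2048 (v 9))) (v 0)) (sm 1536 (v 9))) (v
    0)) (sm 1536 (v 9))) (v 0)) (sm 5632 (v 9))) (v 0)) (sm 2048 (v 9))) (v 0)) (sm 2048 (v 9)))
    (v 0)) (sm 896 (v 9))) (v 0)) (sm 640 (v 9))) (v 0)) (sm 512 (v 9))) (v 8))) (v 7)) (mul (mul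
    (add (mul (sub (mul (add (mul (sub (mul (sub (mul (add (mul (sub (mul (sub (mul (add (mul (sub
    (sm 128 (v 0)) (sm 1152 (v 9))) (v 0)) (sm 1792 (v 9))) (v 0)) (sm 512 (v 9))) (v 0)) (sm 2304
    (v 9))) (v 0)) (sm 4352 (v 9))) (v 0)) (sm 1024 (v 9))) (v 0)) (sm 2560 (v 9))) (v 0)) (sm
    1152 (v 9))) (v 0)) (sm 128 (v 9))) (v 0)) (sm 256 (v 9))) (v 8)) (v 8))) (v 6)) (add (mul
    (add (mul (add (mul (mul (mul (mul (add (mul (add (mul (sub (sm 768 (v 0)) (sm 5376 (v 9))) (v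
    0)) (sm 2816 (v 9))) (v 0)) (sm 768 (v 9))) (v 0)) (v 0)) (v 0)) (v 7)) (mul (mul (add (mul
    (sub (mul (add (mul (add (mul (sub (mul (add (sm 2304 (v 0)) (sm 2048 (v 9))) (v 0)) (sm 11520
    (v 9))) (v 0)) (sm 7680 (v 9))) (v 0)) (sm 256 (v 9))) (v 0)) (sm 1536 (v 9))) (v 0)) (sm 768
    (v 9))) (v 0)) (v 8))) (v 7)) (mul (mul (mul (add (mul (sub (mul (sub (mul (add (mul (sub (mul
    (add (sm 3584 (v 0)) (sm 3840 (v 9))) (v 0)) (sm 4864 (v 9))) (v 0)) (sm 3840 (v 9))) (v 0))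
    (sm 2816 (v 9))) (v 0)) (sm 3072 (v 9))) (v 0)) (sm 512 (v 9))) (v 0)) (v 8)) (v 8))) (v 7))
    (mul (mul (mul (mul (sub (mul (sub (mul (sub (mul (sub (mul (add (mul (add (sm 1280 (v 0)) (sm
    2560 (v 9))) (v 0)) (sm 1280 (v 9))) (v 0)) (sm 1024 (v 9))) (v 0)) (sm 2304 (v 9))) (v 0))
    (sm 1536 (v 9))) (v 0)) (sm 256 (v 9))) (v 0)) (v 8)) (v 8)) (v 8))))) (v 5)) (add (mul (add
    (mul (add (mul (add (mul (mul (mul (mul (sub (mul (add (mul (add (mul (sub (mul (sub (sm 128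
    (v 0)) (sm 256 (v 9))) (v 0)) (sm 384 (v 9))) (v 0)) (sm 384 (v 9))) (v 0)) (sm 256 (v 9))) (v
    0)) (sm 128 (v 9))) (v 0)) (v 0)) (v 0)) (v 7)) (mul (sub (mul (add (mul (add (mul (sub (mul
    (add (mul (add (mul (sub (mul (sub (mul (add (mul (sub (sm 192 (v 9)) (sm 64 (v 0))) (v 0))
    (sm 512 (v 9))) (v 0)) (sm 768 (v 9))) (v 0)) (sm 1024 (v 9))) (v 0)) (sm 1024 (v 9))) (v 0))
    (sm 512 (v 9))) (v 0)) (sm 512 (v 9))) (v 0)) (sm 320 (v 9))) (v 0)) (sm 64 (v 9))) (v 0)) (sm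
    256 (v 9))) (v 8))) (v 7)) (mul (mul (add (mul (add (mul (sub (mul (sub (mul (add (mul (add
    (mul (sub (mul (sub (mul (add (mul (sub (sm 64 (v 9)) (sm 64 (v 0))) (v 0)) (sm 384 (v 9))) (v
    0)) (sm 256 (v 9))) (v 0)) (sm 896 (v 9))) (v 0)) (sm 384 (v 9))) (v 0)) (sm 1024 (v 9))) (v
    0)) (sm 256 (v 9))) (v 0)) (sm 576 (v 9))) (v 0)) (sm 64 (v 9))) (v 0)) (sm 128 (v 9))) (v 8))
    (v 8))) (v 6)) (add (mul (add (mul (add (mul (mul (mul (mul (add (mul (sub (mul (sub (sm 768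
    (v 0)) (sm 1280 (v 9))) (v 0)) (sm 1280 (v 9))) (v 0)) (sm 768 (v 9))) (v 0)) (v 0)) (v 0)) (v
    7)) (mul (mul (sub (mul (add (mul (add (mul (sub (mul (sub (mul (sub (sm 3072 (v 9)) (sm 768
    (v 0))) (v 0)) (sm 1280 (v 9))) (v 0)) (sm 4608 (v 9))) (v 0)) (sm 3328 (v 9))) (v 0)) (sm
    1536 (v 9))) (v 0)) (sm 1280 (v 9))) (v 0)) (v 8))) (v 7)) (mul (mul (mul (sub (mul (add (mul
    (add (mul (sub (mul (add (mul (sub (sm 2816 (v 9)) (sm 1536 (v 0))) (v 0)) (sm 1280 (v 9))) (v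
    0)) (sm 4352 (v 9))) (v 0)) (sm 2304 (v 9))) (v 0)) (sm 2048 (v 9))) (v 0)) (sm 1536 (v 9)))
    (v 0)) (v 8)) (v 8))) (v 7)) (mul (mul (mul (mul (sub (mul (add (mul (sub (mul (sub (mul (add
    (mul (sub (sm 512 (v 9)) (sm 768 (v 0))) (v 0)) (sm 1280 (v 9))) (v 0)) (sm 1024 (v 9))) (v
    0)) (sm 256 (v 9))) (v 0)) (sm 512 (v 9))) (v 0)) (sm 256 (v 9))) (v 0)) (v 8)) (v 8)) (v
    8)))) (v 6)) (mul (add (mul (add (mul (add (mul (mul (mul (mul (sub (sm 1024 (v 0)) (sm 1024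
    (v 9))) (v 0)) (v 0)) (v 0)) (v 7)) (mul (mul (mul (sub (mul (sub (mul (add (sm 512 (v 0)) (sm
    1536 (v 9))) (v 0)) (sm 1536 (v 9))) (v 0)) (sm 512 (v 9))) (v 0)) (v 0)) (v 8))) (v 7)) (mul
    (mul (mul (mul (sub (sm 1024 (mul (mul (v 0) (v 0)) (v 0))) (sm 1024 (v 9))) (v 0)) (v 0)) (v
    8)) (v 8))) (v 7)) (mul (mul (mul (mul (mul (sub (mul (add (mul (sub (sm 512 (v 0)) (sm 512 (v
    9))) (v 0)) (sm 512 (v 9))) (v 0)) (sm 512 (v 9))) (v 0)) (v 0)) (v 8)) (v 8)) (v 8))) (v 7)))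

/-- A coefficient. -/
def kap11 : Ex :=
  add (mul (add (mul (add (mul (add (mul (mul (mul (mul (mul (sub (mul (mul (sub (sm 4096 (v 9))
    (sm 2048 (mul (v 0) (v 0)))) (v 0)) (v 0)) (sm 2048 (v 9))) (v 0)) (v 0)) (v 0)) (v 0)) (v 7))
    (mul (mul (mul (add (mul (mul (sub (mul (mul (add (mul (mul (sub (sm 2048 (v 9)) (sm 2048 (mul
    (v 0) (v 0)))) (v 0)) (v 0)) (sm 6144 (v 9))) (v 0)) (v 0)) (sm 10240 (v 9))) (v 0)) (v 0))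
    (sm 4096 (v 9))) (v 0)) (v 0)) (v 8))) (v 6)) (add (mul (add (mul (mul (mul (sub (mul (sub
    (mul (add (mul (add (mul (sub (mul (sub (sm 128 (v 0)) (sm 1280 (v 9))) (v 0)) (sm 2560 (v
    9))) (v 0)) (sm 4608 (v 9))) (v 0)) (sm 512 (v 9))) (v 0)) (sm 1280 (v 9))) (v 0)) (sm 128 (v
    9))) (v 0)) (v 0)) (v 7)) (mul (sub (mul (add (mul (add (mul (sub (mul (sub (mul (add (mul
    (sub (sm 2304 (v 9)) (mul (add (mul (add (sm 256 (v 0)) (sm 1536 (v 9))) (v 0)) (sm 2048 (v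
    9))) (v 0))) (v 0)) (sm 9472 (v 9))) (v 0)) (sm 3584 (v 9))) (v 0)) (sm 7680 (v 9))) (v 0))
    (sm 1280 (v 9))) (v 0)) (sm 2560 (v 9))) (v 0)) (sm 512 (v 9))) (v 8))) (v 7)) (mul (mul (add
    (mul (add (mul (add (mul (sub (mul (sub (mul (add (mul (add (mul (sub (sm 1280 (v 9)) (mul
    (add (sm 256 (v 0)) (sm 2176 (v 9))) (v 0))) (v 0)) (sm 3328 (v 9))) (v 0)) (sm 2816 (v 9)))
    (v 0)) (sm 4096 (v 9))) (v 0)) (sm 4352 (v 9))) (v 0)) (sm 2816 (v 9))) (v 0)) (sm 512 (v 9)))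
    (v 0)) (sm 128 (v 9))) (v 8)) (v 8)))) (v 5)) (add (mul (add (mul (add (mul (mul (mul (mul
    (mul (sub (mul (mul (sub (sm 4096 (v 9)) (sm 2048 (mul (v 0) (v 0)))) (v 0)) (v 0)) (sm 2048
    (v 9))) (v 0)) (v 0)) (v 0)) (v 0)) (v 7)) (mul (mul (mul (add (mul (mul (sub (mul (mul (add
    (mul (mul (sub (sm 2048 (v 9)) (sm 2048 (mul (v 0) (v 0)))) (v 0)) (v 0)) (sm 6144 (v 9))) (v
    0)) (v 0)) (sm 10240 (v 9))) (v 0)) (v 0)) (sm 4096 (v 9))) (v 0)) (v 0)) (v 8))) (v 6)) (add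
    (mul (add (mul (mul (mul (sub (mul (mul (add (mul (mul (sub (sm 256 (mul (v 0) (v 0))) (sm
    21504 (v 9))) (v 0)) (v 0)) (sm 17408 (v 9))) (v 0)) (v 0)) (sm 256 (v 9))) (v 0)) (v 0)) (v
    7)) (mul (add (mul (mul (sub (mul (mul (add (mul (mul (sub (sm 4096 (mul (v 0) (v 0))) (sm
    27136 (v 9))) (v 0)) (v 0)) (sm 20480 (v 9))) (v 0)) (v 0)) (sm 2560 (v 9))) (v 0)) (v 0)) (sm
    1024 (v 9))) (v 8))) (v 7)) (mul (mul (add (mul (mul (sub (mul (mul (sub (mul (mul (add (sm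
    2816 (mul (v 0) (v 0))) (sm 1536 (v 9))) (v 0)) (v 0)) (sm 3072 (v 9))) (v 0)) (v 0)) (sm 1536
    (v 9))) (v 0)) (v 0)) (sm 256 (v 9))) (v 8)) (v 8)))) (v 6)) (add (mul (add (mul (add (mul
    (mul (mul (add (mul (add (mul (sub (mul (sub (sm 512 (v 0)) (sm 3072 (v 9))) (v 0)) (sm 4096
    (v 9))) (v 0)) (sm 3072 (v 9))) (v 0)) (sm 512 (v 9))) (v 0)) (v 0)) (v 7)) (mul (mul (add
    (mul (sub (mul (add (mul (sub (mul (sub (mul (add (sm 512 (v 0)) (sm 4096 (v 9))) (v 0)) (sm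
    1536 (v 9))) (v 0)) (sm 2048 (v 9))) (v 0)) (sm 512 (v 9))) (v 0)) (sm 1024 (v 9))) (v 0)) (sm
    512 (v 9))) (v 0)) (v 8))) (v 7)) (mul (mul (mul (add (mul (sub (mul (sub (mul (add (mul (add
    (mul (add (sm 768 (v 0)) (sm 4608 (v 9))) (v 0)) (sm 2816 (v 9))) (v 0)) (sm 2048 (v 9))) (v
    0)) (sm 3840 (v 9))) (v 0)) (sm 4608 (v 9))) (v 0)) (sm 256 (v 9))) (v 0)) (v 8)) (v 8))) (v
    7)) (mul (mul (mul (mul (sub (mul (sub (mul (sub (mul (mul (add (mul (add (sm 256 (v 0)) (sm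
    1024 (v 9))) (v 0)) (sm 1280 (v 9))) (v 0)) (v 0)) (sm 1280 (v 9))) (v 0)) (sm 1024 (v 9))) (v
    0)) (sm 256 (v 9))) (v 0)) (v 8)) (v 8)) (v 8))))) (v 5)) (add (mul (add (mul (add (mul (add
    (mul (mul (mul (sub (mul (add (mul (add (mul (sub (mul (sub (mul (add (sm 128 (v 0)) (sm 1280
    (v 9))) (v 0)) (sm 2560 (v 9))) (v 0)) (sm 4608 (v 9))) (v 0)) (sm 512 (v 9))) (v 0)) (sm 1280
    (v 9))) (v 0)) (sm 128 (v 9))) (v 0)) (v 0)) (v 7)) (mul (sub (mul (sub (mul (add (mul (add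
    (mul (sub (mul (sub (mul (add (mul (add (mul (sub (sm 256 (v 0)) (sm 1536 (v 9))) (v 0)) (sm
    2048 (v 9))) (v 0)) (sm 2304 (v 9))) (v 0)) (sm 9472 (v 9))) (v 0)) (sm 3584 (v 9))) (v 0))
    (sm 7680 (v 9))) (v 0)) (sm 1280 (v 9))) (v 0)) (sm 2560 (v 9))) (v 0)) (sm 512 (v 9))) (v
    8))) (v 7)) (mul (mul (add (mul (sub (mul (add (mul (add (mul (sub (mul (sub (mul (add (mul
    (sub (mul (sub (sm 256 (v 0)) (sm 2176 (v 9))) (v 0)) (sm 1280 (v 9))) (v 0)) (sm 3328 (v 9)))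
    (v 0)) (sm 2816 (v 9))) (v 0)) (sm 4096 (v 9))) (v 0)) (sm 4352 (v 9))) (v 0)) (sm 2816 (v
    9))) (v 0)) (sm 512 (v 9))) (v 0)) (sm 128 (v 9))) (v 8)) (v 8))) (v 6)) (add (mul (add (mul
    (add (mul (mul (mul (add (mul (sub (mul (sub (mul (add (sm 512 (v 0)) (sm 3072 (v 9))) (v 0))
    (sm 4096 (v 9))) (v 0)) (sm 3072 (v 9))) (v 0)) (sm 512 (v 9))) (v 0)) (v 0)) (v 7)) (mul (mul
    (sub (mul (sub (mul (sub (mul (sub (mul (add (mul (sub (sm 4096 (v 9)) (sm 512 (v 0))) (v 0))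
    (sm 1536 (v 9))) (v 0)) (sm 2048 (v 9))) (v 0)) (sm 512 (v 9))) (v 0)) (sm 1024 (v 9))) (v 0))
    (sm 512 (v 9))) (v 0)) (v 8))) (v 7)) (mul (mul (mul (sub (mul (sub (mul (add (mul (add (mul
    (sub (mul (sub (sm 4608 (v 9)) (sm 768 (v 0))) (v 0)) (sm 2816 (v 9))) (v 0)) (sm 2048 (v 9)))
    (v 0)) (sm 3840 (v 9))) (v 0)) (sm 4608 (v 9))) (v 0)) (sm 256 (v 9))) (v 0)) (v 8)) (v 8)))
    (v 7)) (mul (mul (mul (mul (add (mul (sub (mul (add (mul (mul (sub (mul (sub (sm 1024 (v 9))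
    (sm 256 (v 0))) (v 0)) (sm 1280 (v 9))) (v 0)) (v 0)) (sm 1280 (v 9))) (v 0)) (sm 1024 (v 9)))
    (v 0)) (sm 256 (v 9))) (v 0)) (v 8)) (v 8)) (v 8)))) (v 6)) (mul (mul (add (mul (add (mul (mul
    (mul (sub (sm 512 (mul (v 0) (v 0))) (sm 512 (v 9))) (v 0)) (v 0)) (v 7)) (mul (mul (mul (sub
    (sm 1024 (mul (v 0) (v 0))) (sm 1024 (v 9))) (v 0)) (v 0)) (v 8))) (v 7)) (mul (mul (mul (mul
    (sub (sm 512 (mul (v 0) (v 0))) (sm 512 (v 9))) (v 0)) (v 0)) (v 8)) (v 8))) (v 7)) (v 7)))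

/-- A coefficient. -/
def kap12 : Ex :=
  add (mul (add (mul (add (mul (add (mul (mul (mul (sub (mul (sub (mul (sub (mul (add (mul (add
    (mul (sub (mul (sub (sm 256 (v 0)) (sm 4864 (v 9))) (v 0)) (sm 8960 (v 9))) (v 0)) (sm 9472 (v
    9))) (v 0)) (sm 13056 (v 9))) (v 0)) (sm 4352 (v 9))) (v 0)) (sm 4352 (v 9))) (v 0)) (sm 256
    (v 9))) (v 0)) (v 0)) (v 7)) (mul (mul (add (mul (add (mul (sub (mul (sub (mul (add (mul (add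
    (mul (sub (sm 5376 (v 9)) (mul (add (mul (add (sm 128 (v 0)) (sm 4224 (v 9))) (v 0)) (sm 4352
    (v 9))) (v 0))) (v 0)) (sm 14848 (v 9))) (v 0)) (sm 2048 (v 9))) (v 0)) (sm 16128 (v 9))) (v
    0)) (sm 3328 (v 9))) (v 0)) (sm 5760 (v 9))) (v 0)) (sm 128 (v 9))) (v 0)) (v 8))) (v 6)) (add
    (mul (add (mul (mul (mul (sub (mul (sub (mul (add (mul (sub (sm 384 (v 9)) (mul (add (sm 128
    (v 0)) (sm 2304 (v 9))) (v 0))) (v 0)) (sm 3200 (v 9))) (v 0)) (sm 768 (v 9))) (v 0)) (sm 384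
    (v 9))) (v 0)) (v 0)) (v 7)) (mul (sub (mul (add (mul (add (mul (sub (mul (sub (mul (sub (sm
    13760 (v 9)) (mul (add (mul (add (sm 320 (v 0)) (sm 1600 (v 9))) (v 0)) (sm 4416 (v 9))) (v
    0))) (v 0)) (sm 1600 (v 9))) (v 0)) (sm 9536 (v 9))) (v 0)) (sm 2496 (v 9))) (v 0)) (sm 1472
    (v 9))) (v 0)) (sm 256 (v 9))) (v 8))) (v 7)) (mul (mul (mul (add (mul (add (mul (sub (mul
    (sub (mul (add (mul (sub (sm 1984 (v 9)) (mul (add (sm 320 (v 0)) (sm 1728 (v 9))) (v 0))) (v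
    0)) (sm 4160 (v 9))) (v 0)) (sm 3008 (v 9))) (v 0)) (sm 3136 (v 9))) (v 0)) (sm 1344 (v 9)))
    (v 0)) (sm 704 (v 9))) (v 0)) (v 8)) (v 8)))) (v 5)) (add (mul (add (mul (add (mul (mul (mul
    (sub (mul (sub (mul (add (mul (add (mul (sub (mul (sub (mul (sub (sm 512 (v 0)) (sm 5120 (v
    9))) (v 0)) (sm 27648 (v 9))) (v 0)) (sm 8704 (v 9))) (v 0)) (sm 31232 (v 9))) (v 0)) (sm
    14336 (v 9))) (v 0)) (sm 4096 (v 9))) (v 0)) (sm 512 (v 9))) (v 0)) (v 0)) (v 7)) (mul (mul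
    (sub (mul (add (mul (add (mul (add (mul (add (mul (sub (sm 4608 (v 9)) (mul (add (mul (add
    (mul (add (sm 256 (v 0)) (sm 1280 (v 9))) (v 0)) (sm 9216 (v 9))) (v 0)) (sm 12288 (v 9))) (v
    0))) (v 0)) (sm 11776 (v 9))) (v 0)) (sm 3072 (v 9))) (v 0)) (sm 2048 (v 9))) (v 0)) (sm 1792
    (v 9))) (v 0)) (sm 256 (v 9))) (v 0)) (v 8))) (v 6)) (add (mul (add (mul (mul (mul (add (mul
    (add (mul (add (mul (sub (mul (sub (sm 1536 (v 0)) (sm 17408 (v 9))) (v 0)) (sm 28160 (v 9)))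
    (v 0)) (sm 6144 (v 9))) (v 0)) (sm 14336 (v 9))) (v 0)) (sm 1024 (v 9))) (v 0)) (v 0)) (v 7))
    (mul (add (mul (add (mul (sub (mul (add (mul (sub (mul (sub (mul (sub (mul (add (sm 896 (v 0))
    (sm 10112 (v 9))) (v 0)) (sm 11392 (v 9))) (v 0)) (sm 6784 (v 9))) (v 0)) (sm 8576 (v 9))) (v
    0)) (sm 13440 (v 9))) (v 0)) (sm 4992 (v 9))) (v 0)) (sm 640 (v 9))) (v 0)) (sm 512 (v 9))) (v
    8))) (v 7)) (mul (mul (mul (sub (mul (sub (mul (sub (mul (sub (mul (add (mul (add (mul (add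
    (sm 640 (v 0)) (sm 2688 (v 9))) (v 0)) (sm 4736 (v 9))) (v 0)) (sm 13952 (v 9))) (v 0)) (sm
    6272 (v 9))) (v 0)) (sm 4224 (v 9))) (v 0)) (sm 3200 (v 9))) (v 0)) (sm 128 (v 9))) (v 0)) (v
    8)) (v 8)))) (v 6)) (mul (add (mul (add (mul (mul (mul (sub (sm 768 (v 9)) (mul (add (mul (add
    (sm 256 (v 0)) (sm 1792 (v 9))) (v 0)) (sm 768 (v 9))) (v 0))) (v 0)) (v 0)) (v 7)) (mul (mul
    (sub (mul (add (mul (sub (mul (add (mul (add (sm 256 (v 0)) (sm 1280 (v 9))) (v 0)) (sm 5632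
    (v 9))) (v 0)) (sm 5120 (v 9))) (v 0)) (sm 256 (v 9))) (v 0)) (sm 256 (v 9))) (v 0)) (v 8)))
    (v 7)) (mul (mul (mul (sub (mul (sub (mul (sub (mul (add (mul (add (sm 256 (v 0)) (sm 2560 (v
    9))) (v 0)) (sm 256 (v 9))) (v 0)) (sm 1280 (v 9))) (v 0)) (sm 1536 (v 9))) (v 0)) (sm 256 (v
    9))) (v 0)) (v 8)) (v 8))) (v 7)))) (v 5)) (mul (add (mul (add (mul (add (mul (mul (mul (sub
    (mul (add (mul (add (mul (add (mul (sub (mul (sub (mul (sub (sm 256 (v 0)) (sm 256 (v 9))) (v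
    0)) (sm 2304 (v 9))) (v 0)) (sm 1792 (v 9))) (v 0)) (sm 1792 (v 9))) (v 0)) (sm 2304 (v 9)))
    (v 0)) (sm 256 (v 9))) (v 0)) (sm 256 (v 9))) (v 0)) (v 0)) (v 7)) (mul (mul (sub (mul (sub
    (mul (add (mul (add (mul (add (mul (sub (mul (sub (mul (sub (mul (add (sm 384 (v 0)) (sm 384
    (v 9))) (v 0)) (sm 768 (v 9))) (v 0)) (sm 1280 (v 9))) (v 0)) (sm 1024 (v 9))) (v 0)) (sm 512
    (v 9))) (v 0)) (sm 2816 (v 9))) (v 0)) (sm 1280 (v 9))) (v 0)) (sm 1408 (v 9))) (v 0)) (sm 896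
    (v 9))) (v 0)) (v 8))) (v 6)) (add (mul (add (mul (mul (mul (add (mul (sub (mul (sub (mul (sub
    (mul (add (sm 1664 (v 0)) (sm 1280 (v 9))) (v 0)) (sm 12160 (v 9))) (v 0)) (sm 13440 (v 9)))
    (v 0)) (sm 1280 (v 9))) (v 0)) (sm 1408 (v 9))) (v 0)) (v 0)) (v 7)) (mul (sub (mul (sub (mul
    (sub (mul (add (mul (sub (mul (sub (mul (add (mul (sub (sm 5824 (v 9)) (sm 576 (v 0))) (v 0))
    (sm 1472 (v 9))) (v 0)) (sm 9024 (v 9))) (v 0)) (sm 3136 (v 9))) (v 0)) (sm 1216 (v 9))) (v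
    0)) (sm 576 (v 9))) (v 0)) (sm 1088 (v 9))) (v 0)) (sm 256 (v 9))) (v 8))) (v 7)) (mul (mul
    (mul (add (mul (sub (mul (add (mul (add (mul (sub (mul (sub (mul (sub (sm 4160 (v 9)) (sm 320
    (v 0))) (v 0)) (sm 576 (v 9))) (v 0)) (sm 2752 (v 9))) (v 0)) (sm 9280 (v 9))) (v 0)) (sm 2240
    (v 9))) (v 0)) (sm 4288 (v 9))) (v 0)) (sm 448 (v 9))) (v 0)) (v 8)) (v 8)))) (v 6)) (mul (add
    (mul (add (mul (mul (mul (sub (mul (sub (mul (add (sm 2304 (v 0)) (sm 768 (v 9))) (v 0)) (sm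
    3328 (v 9))) (v 0)) (sm 1792 (v 9))) (v 0)) (v 0)) (v 7)) (mul (mul (add (mul (sub (mul (sub
    (mul (add (mul (sub (sm 1792 (v 9)) (sm 256 (v 0))) (v 0)) (sm 4608 (v 9))) (v 0)) (sm 2048 (v
    9))) (v 0)) (sm 2304 (v 9))) (v 0)) (sm 256 (v 9))) (v 0)) (v 8))) (v 7)) (mul (mul (mul (add
    (mul (add (mul (sub (mul (sub (sm 6912 (v 9)) (mul (add (sm 256 (v 0)) (sm 1536 (v 9))) (v
    0))) (v 0)) (sm 5888 (v 9))) (v 0)) (sm 512 (v 9))) (v 0)) (sm 256 (v 9))) (v 0)) (v 8)) (v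
    8))) (v 7))) (v 6))

/-- A coefficient. -/
def kap13 : Ex :=
  add (mul (add (mul (add (mul (add (mul (mul (mul (mul (sub (mul (sub (mul (add (mul (add (mul
    (sub (sm 4096 (v 9)) (mul (add (sm 4096 (v 0)) (sm 8192 (v 9))) (v 0))) (v 0)) (sm 16384 (v
    9))) (v 0)) (sm 4096 (v 9))) (v 0)) (sm 8192 (v 9))) (v 0)) (sm 4096 (v 9))) (v 0)) (v 0)) (v
    0)) (v 6)) (add (mul (mul (mul (sub (mul (sub (mul (add (mul (sub (sm 13312 (v 9)) (mul (add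
    (mul (add (sm 1024 (v 0)) (sm 9216 (v 9))) (v 0)) (sm 4096 (v 9))) (v 0))) (v 0)) (sm 6144 (v
    9))) (v 0)) (sm 4096 (v 9))) (v 0)) (sm 1024 (v 9))) (v 0)) (v 0)) (v 7)) (mul (mul (add (mul
    (add (mul (add (mul (sub (mul (add (mul (sub (sm 22528 (v 9)) (mul (add (mul (add (sm 256 (v
    0)) (sm 4096 (v 9))) (v 0)) (sm 9728 (v 9))) (v 0))) (v 0)) (sm 8192 (v 9))) (v 0)) (sm 20480
    (v 9))) (v 0)) (sm 1536 (v 9))) (v 0)) (sm 2048 (v 9))) (v 0)) (sm 256 (v 9))) (v 0)) (v 8))))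
    (v 6)) (add (mul (add (mul (mul (mul (sub (mul (add (mul (sub (sm 512 (v 9)) (mul (add (sm 256
    (v 0)) (sm 512 (v 9))) (v 0))) (v 0)) (sm 512 (v 9))) (v 0)) (sm 256 (v 9))) (v 0)) (v 0)) (v
    7)) (mul (mul (add (mul (add (mul (sub (mul (sub (sm 7680 (v 9)) (mul (add (mul (add (sm 128
    (v 0)) (sm 1280 (v 9))) (v 0)) (sm 128 (v 9))) (v 0))) (v 0)) (sm 9088 (v 9))) (v 0)) (sm 2816
    (v 9))) (v 0)) (sm 128 (v 9))) (v 0)) (v 8))) (v 7)) (mul (mul (mul (add (mul (add (mul (sub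
    (mul (mul (sub (sm 1408 (v 9)) (mul (add (sm 128 (v 0)) (sm 512 (v 9))) (v 0))) (v 0)) (v 0))
    (sm 1408 (v 9))) (v 0)) (sm 512 (v 9))) (v 0)) (sm 128 (v 9))) (v 0)) (v 8)) (v 8)))) (v 5))
    (add (mul (add (mul (add (mul (mul (mul (mul (sub (mul (sub (mul (add (mul (add (mul (sub (sm
    4096 (v 9)) (mul (add (sm 4096 (v 0)) (sm 8192 (v 9))) (v 0))) (v 0)) (sm 16384 (v 9))) (v 0))
    (sm 4096 (v 9))) (v 0)) (sm 8192 (v 9))) (v 0)) (sm 4096 (v 9))) (v 0)) (v 0)) (v 0)) (v 6))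
    (add (mul (mul (mul (mul (add (mul (sub (sm 40960 (v 9)) (mul (add (mul (add (sm 32768 (v 0))
    (sm 61440 (v 9))) (v 0)) (sm 6144 (v 9))) (v 0))) (v 0)) (sm 18432 (v 9))) (v 0)) (v 0)) (v
    0)) (v 7)) (mul (mul (sub (mul (sub (mul (add (mul (sub (mul (sub (mul (sub (mul (sub (mul
    (add (sm 512 (v 0)) (sm 2048 (v 9))) (v 0)) (sm 15360 (v 9))) (v 0)) (sm 10240 (v 9))) (v 0))
    (sm 8192 (v 9))) (v 0)) (sm 6144 (v 9))) (v 0)) (sm 7168 (v 9))) (v 0)) (sm 2048 (v 9))) (v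
    0)) (sm 512 (v 9))) (v 0)) (v 8)))) (v 6)) (add (mul (add (mul (mul (mul (add (mul (sub (sm
    1024 (v 9)) (mul (add (mul (add (sm 2560 (v 0)) (sm 11264 (v 9))) (v 0)) (sm 10240 (v 9))) (v
    0))) (v 0)) (sm 2560 (v 9))) (v 0)) (v 0)) (v 7)) (mul (mul (sub (mul (sub (mul (sub (mul (mul
    (add (mul (add (sm 256 (v 0)) (sm 1536 (v 9))) (v 0)) (sm 14592 (v 9))) (v 0)) (v 0)) (sm 2304
    (v 9))) (v 0)) (sm 1536 (v 9))) (v 0)) (sm 256 (v 9))) (v 0)) (v 8))) (v 7)) (mul (mul (mul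
    (sub (mul (sub (mul (sub (mul (mul (add (mul (add (sm 256 (v 0)) (sm 2048 (v 9))) (v 0)) (sm
    3328 (v 9))) (v 0)) (v 0)) (sm 3328 (v 9))) (v 0)) (sm 2048 (v 9))) (v 0)) (sm 256 (v 9))) (v
    0)) (v 8)) (v 8)))) (v 6)) (mul (mul (mul (mul (mul (sub (sm 1024 (mul (v 0) (v 0))) (sm 1024
    (v 9))) (v 0)) (v 0)) (v 8)) (v 7)) (v 7)))) (v 5)) (mul (add (mul (add (mul (add (mul (mul
    (mul (add (mul (add (mul (sub (mul (sub (mul (sub (mul (sub (sm 1024 (v 0)) (sm 3072 (v 9)))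
    (v 0)) (sm 16384 (v 9))) (v 0)) (sm 19456 (v 9))) (v 0)) (sm 6144 (v 9))) (v 0)) (sm 2048 (v
    9))) (v 0)) (sm 1024 (v 9))) (v 0)) (v 0)) (v 7)) (mul (mul (add (mul (mul (sub (mul (sub (mul
    (sub (mul (sub (mul (add (mul (sub (sm 2048 (v 9)) (sm 256 (v 0))) (v 0)) (sm 512 (v 9))) (v
    0)) (sm 12288 (v 9))) (v 0)) (sm 16384 (v 9))) (v 0)) (sm 6144 (v 9))) (v 0)) (sm 512 (v 9)))
    (v 0)) (v 0)) (sm 256 (v 9))) (v 0)) (v 8))) (v 6)) (add (mul (add (mul (mul (mul (sub (mul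
    (sub (mul (sub (mul (sub (sm 2816 (v 0)) (sm 512 (v 9))) (v 0)) (sm 10752 (v 9))) (v 0)) (sm
    9728 (v 9))) (v 0)) (sm 2304 (v 9))) (v 0)) (v 0)) (v 7)) (mul (mul (add (mul (sub (mul (sub
    (mul (add (mul (sub (sm 10112 (v 9)) (mul (add (sm 128 (v 0)) (sm 256 (v 9))) (v 0))) (v 0))
    (sm 8704 (v 9))) (v 0)) (sm 4992 (v 9))) (v 0)) (sm 1280 (v 9))) (v 0)) (sm 128 (v 9))) (v 0))
    (v 8))) (v 7)) (mul (mul (mul (add (mul (add (mul (sub (mul (mul (sub (sm 3456 (v 9)) (mul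
    (add (sm 128 (v 0)) (sm 1536 (v 9))) (v 0))) (v 0)) (v 0)) (sm 3456 (v 9))) (v 0)) (sm 1536 (v
    9))) (v 0)) (sm 128 (v 9))) (v 0)) (v 8)) (v 8)))) (v 6)) (mul (mul (mul (mul (mul (sub (sm
    1024 (v 9)) (sm 1024 (mul (v 0) (v 0)))) (v 0)) (v 0)) (v 8)) (v 7)) (v 7))) (v 6))

/-- A coefficient. -/
def kap14 : Ex :=
  add (mul (add (mul (add (mul (add (mul (mul (mul (sub (mul (sub (mul (sub (mul (add (mul (sub
    (sm 10752 (v 9)) (mul (add (mul (add (sm 1536 (v 0)) (sm 9728 (v 9))) (v 0)) (sm 9728 (v 9)))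
    (v 0))) (v 0)) (sm 15872 (v 9))) (v 0)) (sm 512 (v 9))) (v 0)) (sm 4608 (v 9))) (v 0)) (sm 512
    (v 9))) (v 0)) (v 0)) (v 6)) (add (mul (mul (mul (sub (mul (add (mul (add (mul (sub (sm 512 (v
    9)) (mul (add (sm 1280 (v 0)) (sm 2816 (v 9))) (v 0))) (v 0)) (sm 3584 (v 9))) (v 0)) (sm 768
    (v 9))) (v 0)) (sm 768 (v 9))) (v 0)) (v 0)) (v 7)) (mul (mul (add (mul (add (mul (add (mul
    (sub (mul (sub (sm 17280 (v 9)) (mul (add (mul (add (sm 128 (v 0)) (sm 2432 (v 9))) (v 0)) (sm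
    2944 (v 9))) (v 0))) (v 0)) (sm 14208 (v 9))) (v 0)) (sm 1408 (v 9))) (v 0)) (sm 896 (v 9)))
    (v 0)) (sm 128 (v 9))) (v 0)) (v 8)))) (v 6)) (mul (mul (mul (add (mul (mul (sub (mul (sub (sm
    1024 (v 9)) (sm 384 (v 0))) (v 0)) (sm 768 (v 9))) (v 0)) (v 0)) (sm 128 (v 9))) (v 0)) (v 8))
    (v 7))) (v 5)) (mul (add (mul (add (mul (mul (mul (mul (add (mul (add (mul (sub (sm 34816 (v
    9)) (mul (add (mul (add (mul (add (sm 2048 (v 0)) (sm 20480 (v 9))) (v 0)) (sm 38912 (v 9)))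
    (v 0)) (sm 8192 (v 9))) (v 0))) (v 0)) (sm 28672 (v 9))) (v 0)) (sm 6144 (v 9))) (v 0)) (v 0))
    (v 0)) (v 6)) (add (mul (mul (mul (add (mul (sub (sm 5632 (v 9)) (mul (add (mul (add (mul (add
    (sm 6656 (v 0)) (sm 26112 (v 9))) (v 0)) (sm 31744 (v 9))) (v 0)) (sm 9216 (v 9))) (v 0))) (v
    0)) (sm 2560 (v 9))) (v 0)) (v 0)) (v 7)) (mul (mul (sub (mul (sub (mul (sub (mul (add (mul
    (add (mul (add (mul (sub (sm 256 (v 0)) (sm 1280 (v 9))) (v 0)) (sm 4864 (v 9))) (v 0)) (sm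
    12544 (v 9))) (v 0)) (sm 3840 (v 9))) (v 0)) (sm 2816 (v 9))) (v 0)) (sm 768 (v 9))) (v 0))
    (sm 256 (v 9))) (v 0)) (v 8)))) (v 6)) (mul (mul (mul (sub (mul (sub (mul (sub (mul (add (sm
    1792 (v 0)) (sm 3072 (v 9))) (v 0)) (sm 3584 (v 9))) (v 0)) (sm 1024 (v 9))) (v 0)) (sm 256 (v
    9))) (v 0)) (v 8)) (v 7))) (v 6))) (v 5)) (mul (mul (add (mul (add (mul (mul (mul (add (mul
    (add (mul (add (mul (sub (sm 2560 (v 9)) (mul (add (mul (add (mul (add (sm 512 (v 0)) (sm 2560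
    (v 9))) (v 0)) (sm 4608 (v 9))) (v 0)) (sm 2560 (v 9))) (v 0))) (v 0)) (sm 4608 (v 9))) (v 0))
    (sm 2560 (v 9))) (v 0)) (sm 512 (v 9))) (v 0)) (v 0)) (v 6)) (add (mul (neg (mul (mul (add
    (mul (add (mul (add (mul (add (mul (add (sm 256 (v 0)) (sm 7936 (v 9))) (v 0)) (sm 22016 (v
    9))) (v 0)) (sm 23040 (v 9))) (v 0)) (sm 10496 (v 9))) (v 0)) (sm 1792 (v 9))) (v 0)) (v 0)))
    (v 7)) (mul (mul (add (mul (sub (mul (sub (mul (add (mul (add (mul (sub (sm 6272 (v 9)) (mul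
    (add (sm 128 (v 0)) (sm 384 (v 9))) (v 0))) (v 0)) (sm 11136 (v 9))) (v 0)) (sm 2176 (v 9)))
    (v 0)) (sm 2688 (v 9))) (v 0)) (sm 128 (v 9))) (v 0)) (sm 128 (v 9))) (v 0)) (v 8)))) (v 6))
    (mul (mul (mul (add (mul (add (mul (sub (sm 4352 (v 9)) (mul (add (sm 1408 (v 0)) (sm 4096 (v
    9))) (v 0))) (v 0)) (sm 1024 (v 9))) (v 0)) (sm 128 (v 9))) (v 0)) (v 8)) (v 7))) (v 6)) (v
    6))

/-- A coefficient. -/
def kap15 : Ex :=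
  add (mul (add (mul (mul (add (mul (mul (mul (sub (mul (mul (add (mul (sub (sm 4096 (v 9)) (mul
    (add (mul (add (sm 1536 (v 0)) (sm 4096 (v 9))) (v 0)) (sm 1536 (v 9))) (v 0))) (v 0)) (sm
    3584 (v 9))) (v 0)) (v 0)) (sm 512 (v 9))) (v 0)) (v 0)) (v 6)) (mul (mul (mul (add (mul (sub
    (mul (mul (sub (sm 1024 (v 9)) (sm 512 (v 0))) (v 0)) (v 0)) (sm 1024 (v 9))) (v 0)) (sm 512
    (v 9))) (v 0)) (v 0)) (v 8))) (v 6)) (v 5)) (mul (mul (add (mul (mul (mul (add (mul (add (mul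
    (sub (sm 1024 (v 9)) (mul (add (mul (add (mul (add (sm 5120 (v 0)) (sm 20480 (v 9))) (v 0))
    (sm 29696 (v 9))) (v 0)) (sm 16384 (v 9))) (v 0))) (v 0)) (sm 4096 (v 9))) (v 0)) (sm 1024 (v
    9))) (v 0)) (v 0)) (v 6)) (mul (mul (mul (sub (mul (sub (mul (mul (add (sm 1024 (v 0)) (sm
    2048 (v 9))) (v 0)) (v 0)) (sm 2048 (v 9))) (v 0)) (sm 1024 (v 9))) (v 0)) (v 0)) (v 8))) (v
    6)) (v 6))) (v 5)) (mul (mul (mul (add (mul (neg (mul (mul (add (mul (add (mul (add (mul (add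
    (mul (add (mul (add (sm 1536 (v 0)) (sm 8192 (v 9))) (v 0)) (sm 17920 (v 9))) (v 0)) (sm 20480
    (v 9))) (v 0)) (sm 12800 (v 9))) (v 0)) (sm 4096 (v 9))) (v 0)) (sm 512 (v 9))) (v 0)) (v 0)))
    (v 6)) (mul (mul (mul (add (mul (sub (sm 3072 (v 9)) (mul (mul (add (sm 512 (v 0)) (sm 3072 (v
    9))) (v 0)) (v 0))) (v 0)) (sm 512 (v 9))) (v 0)) (v 0)) (v 8))) (v 6)) (v 6)) (v 6))

/-- A coefficient. -/
def kap20 : Ex :=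
  add (mul (add (mul (add (mul (add (mul (mul (mul (mul (add (mul (sub (mul (sub (mul (add (mul
    (sub (mul (sub (sm 256 (v 0)) (sm 512 (v 9))) (v 0)) (sm 256 (v 9))) (v 0)) (sm 1024 (v 9)))
    (v 0)) (sm 256 (v 9))) (v 0)) (sm 512 (v 9))) (v 0)) (sm 256 (v 9))) (v 0)) (v 0)) (v 0)) (v
    7)) (mul (mul (sub (mul (add (mul (add (mul (sub (mul (sub (mul (add (mul (sub (mul (sub (mul
    (sub (sm 640 (v 9)) (sm 128 (mul (v 0) (v 0)))) (v 0)) (sm 512 (v 9))) (v 0)) (sm 768 (v 9)))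
    (v 0)) (sm 1536 (v 9))) (v 0)) (sm 256 (v 9))) (v 0)) (sm 1536 (v 9))) (v 0)) (sm 896 (v 9)))
    (v 0)) (sm 512 (v 9))) (v 0)) (sm 384 (v 9))) (v 0)) (v 8))) (v 5)) (add (mul (add (mul (mul
    (mul (mul (add (mul (sub (mul (sub (mul (add (mul (sub (mul (sub (sm 512 (v 0)) (sm 1024 (v
    9))) (v 0)) (sm 512 (v 9))) (v 0)) (sm 2048 (v 9))) (v 0)) (sm 512 (v 9))) (v 0)) (sm 1024 (v
    9))) (v 0)) (sm 512 (v 9))) (v 0)) (v 0)) (v 0)) (v 7)) (mul (mul (sub (mul (sub (mul (add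
    (mul (sub (mul (sub (mul (add (mul (sub (mul (sub (mul (add (mul (sub (sm 256 (v 0)) (sm 2048
    (v 9))) (v 0)) (sm 3840 (v 9))) (v 0)) (sm 1024 (v 9))) (v 0)) (sm 4608 (v 9))) (v 0)) (sm
    7168 (v 9))) (v 0)) (sm 3584 (v 9))) (v 0)) (sm 3072 (v 9))) (v 0)) (sm 4352 (v 9))) (v 0))
    (sm 1024 (v 9))) (v 0)) (sm 256 (v 9))) (v 0)) (v 8))) (v 6)) (add (mul (add (mul (mul (mul
    (sub (mul (sub (mul (add (mul (add (mul (sub (mul (sub (sm 3200 (v 9)) (sm 64 (v 0))) (v 0))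
    (sm 10752 (v 9))) (v 0)) (sm 7296 (v 9))) (v 0)) (sm 2560 (v 9))) (v 0)) (sm 2432 (v 9))) (v
    0)) (sm 64 (v 9))) (v 0)) (v 0)) (v 7)) (mul (add (mul (sub (mul (mul (add (mul (sub (mul (add
    (mul (sub (mul (add (mul (add (sm 64 (v 0)) (sm 1536 (v 9))) (v 0)) (sm 6656 (v 9))) (v 0))
    (sm 16896 (v 9))) (v 0)) (sm 9600 (v 9))) (v 0)) (sm 1408 (v 9))) (v 0)) (sm 1280 (v 9))) (v
    0)) (v 0)) (sm 1216 (v 9))) (v 0)) (sm 384 (v 9))) (v 8))) (v 7)) (mul (mul (sub (mul (add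
    (mul (add (mul (add (mul (sub (mul (sub (mul (sub (mul (add (mul (add (sm 64 (v 0)) (sm 1600
    (v 9))) (v 0)) (sm 6016 (v 9))) (v 0)) (sm 7808 (v 9))) (v 0)) (sm 1024 (v 9))) (v 0)) (sm
    3584 (v 9))) (v 0)) (sm 2176 (v 9))) (v 0)) (sm 1664 (v 9))) (v 0)) (sm 960 (v 9))) (v 0)) (sm
    64 (v 9))) (v 8)) (v 8))))) (v 5)) (add (mul (add (mul (add (mul (mul (mul (mul (add (mul (sub
    (mul (sub (mul (add (mul (sub (mul (sub (sm 256 (v 0)) (sm 512 (v 9))) (v 0)) (sm 256 (v 9)))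
    (v 0)) (sm 1024 (v 9))) (v 0)) (sm 256 (v 9))) (v 0)) (sm 512 (v 9))) (v 0)) (sm 256 (v 9)))
    (v 0)) (v 0)) (v 0)) (v 7)) (mul (mul (sub (mul (add (mul (add (mul (sub (mul (sub (mul (add
    (mul (sub (mul (sub (mul (sub (sm 640 (v 9)) (sm 128 (mul (v 0) (v 0)))) (v 0)) (sm 512 (v
    9))) (v 0)) (sm 768 (v 9))) (v 0)) (sm 1536 (v 9))) (v 0)) (sm 256 (v 9))) (v 0)) (sm 1536 (v
    9))) (v 0)) (sm 896 (v 9))) (v 0)) (sm 512 (v 9))) (v 0)) (sm 384 (v 9))) (v 0)) (v 8))) (v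
    6)) (add (mul (add (mul (mul (mul (sub (mul (sub (mul (add (mul (sub (mul (sub (mul (sub (sm
    3584 (v 9)) (sm 128 (v 0))) (v 0)) (sm 6656 (v 9))) (v 0)) (sm 1792 (v 9))) (v 0)) (sm 6656 (v
    9))) (v 0)) (sm 2048 (v 9))) (v 0)) (sm 128 (v 9))) (v 0)) (v 0)) (v 7)) (mul (sub (mul (add
    (mul (sub (mul (sub (mul (add (mul (sub (mul (sub (mul (add (mul (sub (sm 128 (v 0)) (sm 2048
    (v 9))) (v 0)) (sm 9728 (v 9))) (v 0)) (sm 6656 (v 9))) (v 0)) (sm 9728 (v 9))) (v 0)) (sm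
    12544 (v 9))) (v 0)) (sm 2048 (v 9))) (v 0)) (sm 3072 (v 9))) (v 0)) (sm 1920 (v 9))) (v 0))
    (sm 768 (v 9))) (v 8))) (v 7)) (mul (mul (sub (mul (add (mul (sub (mul (add (mul (add (mul
    (sub (mul (add (mul (add (mul (sub (sm 128 (v 0)) (sm 2432 (v 9))) (v 0)) (sm 6144 (v 9))) (v
    0)) (sm 768 (v 9))) (v 0)) (sm 9472 (v 9))) (v 0)) (sm 3584 (v 9))) (v 0)) (sm 2048 (v 9))) (v
    0)) (sm 1792 (v 9))) (v 0)) (sm 1152 (v 9))) (v 0)) (sm 128 (v 9))) (v 8)) (v 8)))) (v 6))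
    (add (mul (add (mul (add (mul (mul (mul (add (mul (add (mul (sub (mul (sub (sm 6400 (v 9)) (sm
    256 (v 0))) (v 0)) (sm 10240 (v 9))) (v 0)) (sm 3840 (v 9))) (v 0)) (sm 256 (v 9))) (v 0)) (v
    0)) (v 7)) (mul (mul (sub (mul (add (mul (add (mul (sub (mul (add (mul (sub (sm 1280 (v 9))
    (sm 256 (v 0))) (v 0)) (sm 6400 (v 9))) (v 0)) (sm 12800 (v 9))) (v 0)) (sm 6656 (v 9))) (v
    0)) (sm 3328 (v 9))) (v 0)) (sm 512 (v 9))) (v 0)) (v 8))) (v 7)) (mul (mul (mul (sub (mul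
    (sub (sm 1536 (v 9)) (mul (add (mul (add (mul (add (sm 384 (mul (v 0) (v 0))) (sm 4480 (v 9)))
    (v 0)) (sm 4608 (v 9))) (v 0)) (sm 1664 (v 9))) (v 0))) (v 0)) (sm 640 (v 9))) (v 0)) (v 8))
    (v 8))) (v 7)) (mul (mul (mul (neg (mul (add (mul (add (mul (add (mul (add (mul (add (mul (add
    (sm 128 (v 0)) (sm 1024 (v 9))) (v 0)) (sm 4480 (v 9))) (v 0)) (sm 3072 (v 9))) (v 0)) (sm
    4480 (v 9))) (v 0)) (sm 1024 (v 9))) (v 0)) (sm 128 (v 9))) (v 0))) (v 8)) (v 8)) (v 8))))) (v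
    5)) (add (mul (add (mul (add (mul (add (mul (mul (mul (sub (mul (add (mul (mul (sub (mul (mul
    (sub (sm 384 (v 9)) (sm 64 (v 0))) (v 0)) (v 0)) (sm 896 (v 9))) (v 0)) (v 0)) (sm 384 (v 9)))
    (v 0)) (sm 64 (v 9))) (v 0)) (v 0)) (v 7)) (mul (add (mul (sub (mul (sub (mul (add (mul (add
    (mul (sub (mul (mul (sub (sm 1024 (v 9)) (sm 192 (mul (v 0) (v 0)))) (v 0)) (v 0)) (sm 1408 (v
    9))) (v 0)) (sm 640 (v 9))) (v 0)) (sm 768 (v 9))) (v 0)) (sm 1024 (v 9))) (v 0)) (sm 192 (v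
    9))) (v 0)) (sm 384 (v 9))) (v 8))) (v 7)) (mul (mul (sub (mul (sub (mul (add (mul (sub (mul
    (sub (mul (add (mul (add (mul (sub (sm 128 (v 9)) (mul (add (sm 192 (v 0)) (sm 448 (v 9))) (v
    0))) (v 0)) (sm 896 (v 9))) (v 0)) (sm 256 (v 9))) (v 0)) (sm 512 (v 9))) (v 0)) (sm 128 (v
    9))) (v 0)) (sm 128 (v 9))) (v 0)) (sm 64 (v 9))) (v 0)) (sm 64 (v 9))) (v 8)) (v 8))) (v 6))
    (add (mul (add (mul (add (mul (mul (mul (add (mul (sub (mul (mul (sub (sm 1280 (v 9)) (sm 256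
    (v 0))) (v 0)) (v 0)) (sm 1280 (v 9))) (v 0)) (sm 256 (v 9))) (v 0)) (v 0)) (v 7)) (mul (mul
    (add (mul (sub (mul (sub (mul (add (mul (add (mul (sub (sm 256 (v 0)) (sm 1280 (v 9))) (v 0))
    (sm 2816 (v 9))) (v 0)) (sm 2560 (v 9))) (v 0)) (sm 4096 (v 9))) (v 0)) (sm 1280 (v 9))) (v
    0)) (sm 1024 (v 9))) (v 0)) (v 8))) (v 7)) (mul (mul (mul (add (mul (sub (mul (sub (mul (add
    (mul (add (mul (sub (sm 384 (v 0)) (sm 512 (v 9))) (v 0)) (sm 1920 (v 9))) (v 0)) (sm 2560 (v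
    9))) (v 0)) (sm 2432 (v 9))) (v 0)) (sm 1024 (v 9))) (v 0)) (sm 1152 (v 9))) (v 0)) (v 8)) (v
    8))) (v 7)) (mul (mul (mul (mul (add (mul (mul (add (mul (add (mul (add (sm 128 (mul (v 0) (v
    0))) (sm 384 (v 9))) (v 0)) (sm 1024 (v 9))) (v 0)) (sm 384 (v 9))) (v 0)) (v 0)) (sm 128 (v
    9))) (v 0)) (v 8)) (v 8)) (v 8)))) (v 6)) (mul (mul (add (mul (add (mul (mul (mul (sub (mul
    (sub (sm 512 (v 9)) (sm 256 (v 0))) (v 0)) (sm 256 (v 9))) (v 0)) (v 0)) (v 7)) (mul (neg (mul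
    (mul (add (mul (add (sm 512 (v 0)) (sm 1024 (v 9))) (v 0)) (sm 512 (v 9))) (v 0)) (v 0))) (v
    8))) (v 7)) (mul (mul (neg (mul (mul (add (mul (add (sm 256 (v 0)) (sm 1536 (v 9))) (v 0)) (sm
    256 (v 9))) (v 0)) (v 0))) (v 8)) (v 8))) (v 7)) (v 7)))

/-- A coefficient. -/
def kap21 : Ex :=
  add (mul (add (mul (add (mul (add (mul (mul (mul (add (mul (add (mul (sub (mul (add (mul (add
    (mul (sub (mul (add (sm 256 (v 0)) (sm 256 (v 9))) (v 0)) (sm 2304 (v 9))) (v 0)) (sm 1792 (v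
    9))) (v 0)) (sm 1792 (v 9))) (v 0)) (sm 2304 (v 9))) (v 0)) (sm 256 (v 9))) (v 0)) (sm 256 (v
    9))) (v 0)) (v 0)) (v 7)) (mul (mul (sub (mul (add (mul (add (mul (sub (mul (add (mul (add
    (mul (sub (mul (add (mul (sub (sm 384 (v 9)) (sm 384 (v 0))) (v 0)) (sm 768 (v 9))) (v 0)) (sm
    1280 (v 9))) (v 0)) (sm 1024 (v 9))) (v 0)) (sm 512 (v 9))) (v 0)) (sm 2816 (v 9))) (v 0)) (sm
    1280 (v 9))) (v 0)) (sm 1408 (v 9))) (v 0)) (sm 896 (v 9))) (v 0)) (v 8))) (v 5)) (add (mul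
    (add (mul (mul (mul (add (mul (sub (mul (sub (mul (add (mul (add (mul (sub (mul (add (sm 512
    (v 0)) (sm 5120 (v 9))) (v 0)) (sm 27648 (v 9))) (v 0)) (sm 8704 (v 9))) (v 0)) (sm 31232 (v
    9))) (v 0)) (sm 14336 (v 9))) (v 0)) (sm 4096 (v 9))) (v 0)) (sm 512 (v 9))) (v 0)) (v 0)) (v
    7)) (mul (mul (sub (mul (sub (mul (add (mul (sub (mul (add (mul (sub (mul (sub (mul (add (mul
    (sub (sm 256 (v 0)) (sm 1280 (v 9))) (v 0)) (sm 9216 (v 9))) (v 0)) (sm 12288 (v 9))) (v 0))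
    (sm 4608 (v 9))) (v 0)) (sm 11776 (v 9))) (v 0)) (sm 3072 (v 9))) (v 0)) (sm 2048 (v 9))) (v
    0)) (sm 1792 (v 9))) (v 0)) (sm 256 (v 9))) (v 0)) (v 8))) (v 6)) (add (mul (add (mul (mul
    (mul (sub (mul (sub (mul (add (mul (sub (mul (sub (sm 1664 (v 0)) (sm 1280 (v 9))) (v 0)) (sm
    12160 (v 9))) (v 0)) (sm 13440 (v 9))) (v 0)) (sm 1280 (v 9))) (v 0)) (sm 1408 (v 9))) (v 0))
    (v 0)) (v 7)) (mul (add (mul (sub (mul (add (mul (add (mul (add (mul (sub (mul (sub (mul (add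
    (sm 576 (v 0)) (sm 5824 (v 9))) (v 0)) (sm 1472 (v 9))) (v 0)) (sm 9024 (v 9))) (v 0)) (sm
    3136 (v 9))) (v 0)) (sm 1216 (v 9))) (v 0)) (sm 576 (v 9))) (v 0)) (sm 1088 (v 9))) (v 0)) (sm
    256 (v 9))) (v 8))) (v 7)) (mul (mul (mul (add (mul (add (mul (add (mul (sub (mul (sub (mul
    (add (mul (add (sm 320 (v 0)) (sm 4160 (v 9))) (v 0)) (sm 576 (v 9))) (v 0)) (sm 2752 (v 9)))
    (v 0)) (sm 9280 (v 9))) (v 0)) (sm 2240 (v 9))) (v 0)) (sm 4288 (v 9))) (v 0)) (sm 448 (v 9)))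
    (v 0)) (v 8)) (v 8))))) (v 5)) (add (mul (add (mul (add (mul (mul (mul (add (mul (sub (mul
    (add (mul (add (mul (sub (mul (sub (mul (add (sm 256 (v 0)) (sm 4864 (v 9))) (v 0)) (sm 8960
    (v 9))) (v 0)) (sm 9472 (v 9))) (v 0)) (sm 13056 (v 9))) (v 0)) (sm 4352 (v 9))) (v 0)) (sm
    4352 (v 9))) (v 0)) (sm 256 (v 9))) (v 0)) (v 0)) (v 7)) (mul (mul (add (mul (sub (mul (sub
    (mul (add (mul (add (mul (sub (mul (add (mul (add (mul (sub (sm 128 (v 0)) (sm 4224 (v 9))) (v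
    0)) (sm 4352 (v 9))) (v 0)) (sm 5376 (v 9))) (v 0)) (sm 14848 (v 9))) (v 0)) (sm 2048 (v 9)))
    (v 0)) (sm 16128 (v 9))) (v 0)) (sm 3328 (v 9))) (v 0)) (sm 5760 (v 9))) (v 0)) (sm 128 (v
    9))) (v 0)) (v 8))) (v 6)) (add (mul (add (mul (mul (mul (sub (mul (add (mul (sub (mul (sub
    (mul (add (sm 1536 (v 0)) (sm 17408 (v 9))) (v 0)) (sm 28160 (v 9))) (v 0)) (sm 6144 (v 9)))
    (v 0)) (sm 14336 (v 9))) (v 0)) (sm 1024 (v 9))) (v 0)) (v 0)) (v 7)) (mul (sub (mul (add (mul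
    (add (mul (add (mul (add (mul (sub (mul (add (mul (sub (sm 10112 (v 9)) (sm 896 (v 0))) (v 0))
    (sm 11392 (v 9))) (v 0)) (sm 6784 (v 9))) (v 0)) (sm 8576 (v 9))) (v 0)) (sm 13440 (v 9))) (v
    0)) (sm 4992 (v 9))) (v 0)) (sm 640 (v 9))) (v 0)) (sm 512 (v 9))) (v 8))) (v 7)) (mul (mul
    (mul (sub (mul (add (mul (sub (mul (add (mul (add (mul (sub (mul (sub (sm 2688 (v 9)) (sm 640
    (v 0))) (v 0)) (sm 4736 (v 9))) (v 0)) (sm 13952 (v 9))) (v 0)) (sm 6272 (v 9))) (v 0)) (sm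
    4224 (v 9))) (v 0)) (sm 3200 (v 9))) (v 0)) (sm 128 (v 9))) (v 0)) (v 8)) (v 8)))) (v 6)) (mul
    (add (mul (add (mul (mul (mul (add (mul (sub (mul (sub (sm 2304 (v 0)) (sm 768 (v 9))) (v 0))
    (sm 3328 (v 9))) (v 0)) (sm 1792 (v 9))) (v 0)) (v 0)) (v 7)) (mul (mul (add (mul (add (mul
    (sub (mul (sub (mul (add (sm 256 (v 0)) (sm 1792 (v 9))) (v 0)) (sm 4608 (v 9))) (v 0)) (sm
    2048 (v 9))) (v 0)) (sm 2304 (v 9))) (v 0)) (sm 256 (v 9))) (v 0)) (v 8))) (v 7)) (mul (mul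
    (mul (add (mul (sub (mul (sub (mul (sub (mul (sub (sm 256 (v 0)) (sm 1536 (v 9))) (v 0)) (sm
    6912 (v 9))) (v 0)) (sm 5888 (v 9))) (v 0)) (sm 512 (v 9))) (v 0)) (sm 256 (v 9))) (v 0)) (v
    8)) (v 8))) (v 7)))) (v 5)) (mul (add (mul (add (mul (add (mul (mul (mul (add (mul (sub (mul
    (sub (mul (add (mul (sub (sm 2304 (v 9)) (sm 128 (v 0))) (v 0)) (sm 384 (v 9))) (v 0)) (sm
    3200 (v 9))) (v 0)) (sm 768 (v 9))) (v 0)) (sm 384 (v 9))) (v 0)) (v 0)) (v 7)) (mul (add (mul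
    (add (mul (sub (mul (sub (mul (add (mul (add (mul (add (mul (sub (sm 320 (v 0)) (sm 1600 (v
    9))) (v 0)) (sm 4416 (v 9))) (v 0)) (sm 13760 (v 9))) (v 0)) (sm 1600 (v 9))) (v 0)) (sm 9536
    (v 9))) (v 0)) (sm 2496 (v 9))) (v 0)) (sm 1472 (v 9))) (v 0)) (sm 256 (v 9))) (v 8))) (v 7))
    (mul (mul (mul (add (mul (sub (mul (sub (mul (add (mul (add (mul (sub (mul (sub (sm 320 (v 0))
    (sm 1728 (v 9))) (v 0)) (sm 1984 (v 9))) (v 0)) (sm 4160 (v 9))) (v 0)) (sm 3008 (v 9))) (v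
    0)) (sm 3136 (v 9))) (v 0)) (sm 1344 (v 9))) (v 0)) (sm 704 (v 9))) (v 0)) (v 8)) (v 8))) (v
    6)) (mul (add (mul (add (mul (mul (mul (sub (mul (sub (mul (sub (sm 1792 (v 9)) (sm 256 (v
    0))) (v 0)) (sm 768 (v 9))) (v 0)) (sm 768 (v 9))) (v 0)) (v 0)) (v 7)) (mul (mul (sub (mul
    (sub (mul (sub (mul (sub (mul (sub (sm 1280 (v 9)) (sm 256 (v 0))) (v 0)) (sm 5632 (v 9))) (v
    0)) (sm 5120 (v 9))) (v 0)) (sm 256 (v 9))) (v 0)) (sm 256 (v 9))) (v 0)) (v 8))) (v 7)) (mul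
    (mul (mul (sub (mul (add (mul (sub (mul (sub (mul (sub (sm 2560 (v 9)) (sm 256 (v 0))) (v 0))
    (sm 256 (v 9))) (v 0)) (sm 1280 (v 9))) (v 0)) (sm 1536 (v 9))) (v 0)) (sm 256 (v 9))) (v 0))
    (v 8)) (v 8))) (v 7))) (v 6))

/-- A coefficient. -/
def kap22 : Ex :=
  add (mul (add (mul (add (mul (add (mul (mul (mul (add (mul (mul (sub (mul (mul (add (mul (mul
    (sub (sm 512 (mul (v 0) (v 0))) (sm 2048 (v 9))) (v 0)) (v 0)) (sm 3072 (v 9))) (v 0)) (v 0))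
    (sm 2048 (v 9))) (v 0)) (v 0)) (sm 512 (v 9))) (v 0)) (v 0)) (v 6)) (add (mul (mul (mul (add
    (mul (sub (mul (sub (mul (add (mul (sub (mul (sub (sm 512 (v 0)) (sm 768 (v 9))) (v 0)) (sm
    1536 (v 9))) (v 0)) (sm 3584 (v 9))) (v 0)) (sm 1536 (v 9))) (v 0)) (sm 768 (v 9))) (v 0)) (sm
    512 (v 9))) (v 0)) (v 0)) (v 7)) (mul (mul (sub (mul (add (mul (add (mul (sub (mul (sub (mul
    (add (mul (sub (mul (sub (sm 512 (v 9)) (sm 384 (v 0))) (v 0)) (sm 256 (v 9))) (v 0)) (sm 1536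
    (v 9))) (v 0)) (sm 1024 (v 9))) (v 0)) (sm 2560 (v 9))) (v 0)) (sm 2304 (v 9))) (v 0)) (sm 512
    (v 9))) (v 0)) (sm 640 (v 9))) (v 0)) (v 8)))) (v 5)) (add (mul (add (mul (mul (mul (add (mul
    (mul (sub (mul (mul (add (mul (mul (sub (sm 1024 (mul (v 0) (v 0))) (sm 20480 (v 9))) (v 0))
    (v 0)) (sm 38912 (v 9))) (v 0)) (v 0)) (sm 20480 (v 9))) (v 0)) (v 0)) (sm 1024 (v 9))) (v 0))
    (v 0)) (v 6)) (add (mul (mul (mul (sub (mul (sub (mul (add (mul (add (mul (sub (mul (sub (sm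
    5632 (v 0)) (sm 8960 (v 9))) (v 0)) (sm 35328 (v 9))) (v 0)) (sm 19968 (v 9))) (v 0)) (sm
    26112 (v 9))) (v 0)) (sm 8960 (v 9))) (v 0)) (sm 2560 (v 9))) (v 0)) (v 0)) (v 7)) (mul (mul
    (sub (mul (sub (mul (sub (mul (add (mul (sub (mul (add (mul (sub (mul (add (sm 128 (v 0)) (sm
    7680 (v 9))) (v 0)) (sm 6400 (v 9))) (v 0)) (sm 14848 (v 9))) (v 0)) (sm 22528 (v 9))) (v 0))
    (sm 10752 (v 9))) (v 0)) (sm 3840 (v 9))) (v 0)) (sm 512 (v 9))) (v 0)) (sm 128 (v 9))) (v 0))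
    (v 8)))) (v 6)) (add (mul (add (mul (mul (mul (sub (mul (add (mul (sub (mul (sub (sm 1152 (v
    0)) (sm 3584 (v 9))) (v 0)) (sm 768 (v 9))) (v 0)) (sm 3584 (v 9))) (v 0)) (sm 1408 (v 9))) (v
    0)) (v 0)) (v 7)) (mul (sub (mul (add (mul (sub (mul (add (mul (sub (mul (mul (add (sm 512 (v
    0)) (sm 2944 (v 9))) (v 0)) (v 0)) (sm 8064 (v 9))) (v 0)) (sm 5120 (v 9))) (v 0)) (sm 896 (v
    9))) (v 0)) (sm 512 (v 9))) (v 0)) (sm 128 (v 9))) (v 8))) (v 7)) (mul (mul (mul (mul (add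
    (mul (sub (mul (sub (mul (sub (sm 2304 (v 0)) (sm 1024 (v 9))) (v 0)) (sm 2560 (v 9))) (v 0))
    (sm 1024 (v 9))) (v 0)) (sm 2304 (v 9))) (v 0)) (v 0)) (v 8)) (v 8))))) (v 5)) (add (mul (add
    (mul (add (mul (mul (mul (add (mul (mul (sub (mul (mul (add (mul (mul (sub (sm 512 (mul (v 0)
    (v 0))) (sm 2048 (v 9))) (v 0)) (v 0)) (sm 3072 (v 9))) (v 0)) (v 0)) (sm 2048 (v 9))) (v 0))
    (v 0)) (sm 512 (v 9))) (v 0)) (v 0)) (v 6)) (add (mul (mul (mul (sub (mul (add (mul (add (mul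
    (sub (mul (sub (mul (add (sm 5632 (v 0)) (sm 8960 (v 9))) (v 0)) (sm 35328 (v 9))) (v 0)) (sm
    19968 (v 9))) (v 0)) (sm 26112 (v 9))) (v 0)) (sm 8960 (v 9))) (v 0)) (sm 2560 (v 9))) (v 0))
    (v 0)) (v 7)) (mul (mul (add (mul (sub (mul (add (mul (add (mul (add (mul (add (mul (add (mul
    (sub (sm 7680 (v 9)) (sm 128 (v 0))) (v 0)) (sm 6400 (v 9))) (v 0)) (sm 14848 (v 9))) (v 0))
    (sm 22528 (v 9))) (v 0)) (sm 10752 (v 9))) (v 0)) (sm 3840 (v 9))) (v 0)) (sm 512 (v 9))) (v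
    0)) (sm 128 (v 9))) (v 0)) (v 8)))) (v 6)) (add (mul (add (mul (mul (mul (add (mul (mul (sub
    (sm 9984 (mul (v 0) (v 0))) (sm 16896 (v 9))) (v 0)) (v 0)) (sm 4864 (v 9))) (v 0)) (v 0)) (v
    7)) (mul (add (mul (mul (add (mul (mul (sub (sm 6400 (mul (v 0) (v 0))) (sm 8448 (v 9))) (v
    0)) (v 0)) (sm 5888 (v 9))) (v 0)) (v 0)) (sm 256 (v 9))) (v 8))) (v 7)) (mul (mul (neg (mul
    (mul (add (mul (mul (add (sm 2560 (mul (v 0) (v 0))) (sm 23552 (v 9))) (v 0)) (v 0)) (sm 2560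
    (v 9))) (v 0)) (v 0))) (v 8)) (v 8)))) (v 6)) (mul (mul (mul (neg (sm 2048 (mul (mul (v 0) (v
    0)) (v 0)))) (v 8)) (v 7)) (v 7)))) (v 5)) (mul (add (mul (add (mul (add (mul (mul (mul (add
    (mul (add (mul (sub (mul (sub (mul (sub (mul (add (sm 512 (v 0)) (sm 768 (v 9))) (v 0)) (sm
    1536 (v 9))) (v 0)) (sm 3584 (v 9))) (v 0)) (sm 1536 (v 9))) (v 0)) (sm 768 (v 9))) (v 0)) (sm
    512 (v 9))) (v 0)) (v 0)) (v 7)) (mul (mul (add (mul (add (mul (sub (mul (sub (mul (add (mul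
    (add (mul (add (mul (add (sm 384 (v 0)) (sm 512 (v 9))) (v 0)) (sm 256 (v 9))) (v 0)) (sm 1536
    (v 9))) (v 0)) (sm 1024 (v 9))) (v 0)) (sm 2560 (v 9))) (v 0)) (sm 2304 (v 9))) (v 0)) (sm 512
    (v 9))) (v 0)) (sm 640 (v 9))) (v 0)) (v 8))) (v 6)) (add (mul (add (mul (mul (mul (sub (mul
    (sub (mul (sub (mul (add (sm 1152 (v 0)) (sm 3584 (v 9))) (v 0)) (sm 768 (v 9))) (v 0)) (sm
    3584 (v 9))) (v 0)) (sm 1408 (v 9))) (v 0)) (v 0)) (v 7)) (mul (sub (mul (sub (mul (sub (mul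
    (sub (mul (sub (mul (mul (sub (sm 2944 (v 9)) (sm 512 (v 0))) (v 0)) (v 0)) (sm 8064 (v 9)))
    (v 0)) (sm 5120 (v 9))) (v 0)) (sm 896 (v 9))) (v 0)) (sm 512 (v 9))) (v 0)) (sm 128 (v 9)))
    (v 8))) (v 7)) (mul (mul (mul (mul (add (mul (add (mul (sub (mul (add (sm 2304 (v 0)) (sm 1024
    (v 9))) (v 0)) (sm 2560 (v 9))) (v 0)) (sm 1024 (v 9))) (v 0)) (sm 2304 (v 9))) (v 0)) (v 0))
    (v 8)) (v 8)))) (v 6)) (mul (mul (mul (sm 2048 (mul (mul (v 0) (v 0)) (v 0))) (v 8)) (v 7)) (v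
    7))) (v 6))

/-- A coefficient. -/
def kap23 : Ex :=
  add (mul (add (mul (add (mul (add (mul (mul (mul (add (mul (sub (mul (sub (mul (add (mul (add
    (mul (sub (mul (sub (sm 1024 (v 0)) (sm 1024 (v 9))) (v 0)) (sm 3072 (v 9))) (v 0)) (sm 3072
    (v 9))) (v 0)) (sm 3072 (v 9))) (v 0)) (sm 3072 (v 9))) (v 0)) (sm 1024 (v 9))) (v 0)) (sm
    1024 (v 9))) (v 0)) (v 0)) (v 6)) (add (mul (mul (mul (add (mul (sub (mul (add (mul (add (mul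
    (sub (sm 256 (v 0)) (sm 768 (v 9))) (v 0)) (sm 512 (v 9))) (v 0)) (sm 512 (v 9))) (v 0)) (sm
    768 (v 9))) (v 0)) (sm 256 (v 9))) (v 0)) (v 0)) (v 7)) (mul (mul (sub (mul (sub (mul (add
    (mul (sub (mul (add (mul (sub (sm 640 (v 9)) (mul (add (sm 128 (v 0)) (sm 128 (v 9))) (v 0)))
    (v 0)) (sm 1152 (v 9))) (v 0)) (sm 3968 (v 9))) (v 0)) (sm 3200 (v 9))) (v 0)) (sm 640 (v 9)))
    (v 0)) (sm 128 (v 9))) (v 0)) (v 8)))) (v 5)) (add (mul (add (mul (mul (mul (mul (sub (mul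
    (add (mul (add (mul (add (mul (sub (mul (sub (sm 4096 (v 0)) (sm 12288 (v 9))) (v 0)) (sm
    32768 (v 9))) (v 0)) (sm 8192 (v 9))) (v 0)) (sm 36864 (v 9))) (v 0)) (sm 4096 (v 9))) (v 0))
    (sm 8192 (v 9))) (v 0)) (v 0)) (v 0)) (v 6)) (add (mul (mul (mul (sub (mul (add (mul (add (mul
    (sub (mul (sub (sm 2816 (v 0)) (sm 10496 (v 9))) (v 0)) (sm 10752 (v 9))) (v 0)) (sm 9728 (v
    9))) (v 0)) (sm 3840 (v 9))) (v 0)) (sm 3328 (v 9))) (v 0)) (v 0)) (v 7)) (mul (mul (add (mul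
    (add (mul (add (mul (sub (mul (add (mul (add (mul (add (sm 128 (v 0)) (sm 2688 (v 9))) (v 0))
    (sm 2944 (v 9))) (v 0)) (sm 1920 (v 9))) (v 0)) (sm 11392 (v 9))) (v 0)) (sm 3456 (v 9))) (v
    0)) (sm 128 (v 9))) (v 0)) (sm 128 (v 9))) (v 0)) (v 8)))) (v 6)) (mul (mul (mul (sub (mul
    (add (mul (sub (mul (sub (sm 1280 (v 0)) (sm 1536 (v 9))) (v 0)) (sm 1024 (v 9))) (v 0)) (sm
    1536 (v 9))) (v 0)) (sm 256 (v 9))) (v 0)) (v 8)) (v 7)))) (v 5)) (mul (add (mul (add (mul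
    (mul (mul (sub (mul (add (mul (add (mul (add (mul (sub (mul (sub (mul (sub (sm 3072 (v 0)) (sm
    3072 (v 9))) (v 0)) (sm 21504 (v 9))) (v 0)) (sm 11264 (v 9))) (v 0)) (sm 17408 (v 9))) (v 0))
    (sm 15360 (v 9))) (v 0)) (sm 1024 (v 9))) (v 0)) (sm 1024 (v 9))) (v 0)) (v 0)) (v 6)) (add
    (mul (mul (mul (add (mul (add (mul (sub (mul (sub (mul (add (sm 12032 (v 0)) (sm 768 (v 9)))
    (v 0)) (sm 29184 (v 9))) (v 0)) (sm 12800 (v 9))) (v 0)) (sm 8960 (v 9))) (v 0)) (sm 3840 (v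
    9))) (v 0)) (v 0)) (v 7)) (mul (mul (add (mul (sub (mul (sub (mul (sub (mul (add (mul (add
    (mul (add (sm 128 (v 0)) (sm 3200 (v 9))) (v 0)) (sm 6528 (v 9))) (v 0)) (sm 9088 (v 9))) (v
    0)) (sm 2176 (v 9))) (v 0)) (sm 128 (v 9))) (v 0)) (sm 384 (v 9))) (v 0)) (sm 128 (v 9))) (v
    0)) (v 8)))) (v 6)) (mul (mul (mul (sub (sm 512 (v 9)) (mul (add (mul (add (mul (add (sm 512
    (v 0)) (sm 3072 (v 9))) (v 0)) (sm 4096 (v 9))) (v 0)) (sm 1024 (v 9))) (v 0))) (v 0)) (v 8))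
    (v 7))) (v 6))) (v 5)) (mul (mul (add (mul (add (mul (mul (mul (sub (mul (sub (mul (sub (mul
    (sub (mul (add (sm 1280 (v 0)) (sm 2304 (v 9))) (v 0)) (sm 1536 (v 9))) (v 0)) (sm 5632 (v
    9))) (v 0)) (sm 3840 (v 9))) (v 0)) (sm 768 (v 9))) (v 0)) (v 0)) (v 7)) (mul (mul (sub (mul
    (add (mul (add (mul (add (mul (add (mul (add (mul (sub (sm 2432 (v 9)) (sm 128 (v 0))) (v 0))
    (sm 6272 (v 9))) (v 0)) (sm 4224 (v 9))) (v 0)) (sm 1152 (v 9))) (v 0)) (sm 1664 (v 9))) (v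
    0)) (sm 896 (v 9))) (v 0)) (sm 128 (v 9))) (v 0)) (v 8))) (v 6)) (mul (mul (mul (sub (mul (sub
    (mul (add (mul (sub (sm 4608 (v 9)) (sm 768 (v 0))) (v 0)) (sm 5120 (v 9))) (v 0)) (sm 512 (v
    9))) (v 0)) (sm 256 (v 9))) (v 0)) (v 8)) (v 7))) (v 6)) (v 6))

/-- A coefficient. -/
def kap24 : Ex :=
  add (mul (add (mul (add (mul (add (mul (mul (mul (add (mul (sub (mul (sub (mul (add (mul (sub
    (mul (sub (sm 512 (v 0)) (sm 1024 (v 9))) (v 0)) (sm 512 (v 9))) (v 0)) (sm 2048 (v 9))) (v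
    0)) (sm 512 (v 9))) (v 0)) (sm 1024 (v 9))) (v 0)) (sm 512 (v 9))) (v 0)) (v 0)) (v 6)) (mul
    (mul (mul (sub (mul (add (mul (sub (mul (sub (sm 1024 (v 9)) (sm 256 (v 0))) (v 0)) (sm 1536
    (v 9))) (v 0)) (sm 1024 (v 9))) (v 0)) (sm 256 (v 9))) (v 0)) (v 0)) (v 8))) (v 5)) (mul (add
    (mul (mul (mul (sub (mul (sub (mul (add (mul (add (mul (sub (mul (sub (sm 768 (v 0)) (sm 9728
    (v 9))) (v 0)) (sm 15104 (v 9))) (v 0)) (sm 3072 (v 9))) (v 0)) (sm 7424 (v 9))) (v 0)) (sm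
    1536 (v 9))) (v 0)) (sm 1280 (v 9))) (v 0)) (v 0)) (v 6)) (mul (mul (mul (add (mul (add (mul
    (sub (mul (add (sm 512 (v 0)) (sm 2048 (v 9))) (v 0)) (sm 5120 (v 9))) (v 0)) (sm 2048 (v 9)))
    (v 0)) (sm 512 (v 9))) (v 0)) (v 0)) (v 8))) (v 6))) (v 5)) (mul (mul (add (mul (mul (mul (add
    (mul (add (mul (add (mul (sub (mul (sub (mul (sub (sm 3072 (v 0)) (sm 4096 (v 9))) (v 0)) (sm
    21504 (v 9))) (v 0)) (sm 16384 (v 9))) (v 0)) (sm 1024 (v 9))) (v 0)) (sm 4096 (v 9))) (v 0))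
    (sm 1024 (v 9))) (v 0)) (v 0)) (v 6)) (mul (mul (mul (sub (mul (sub (mul (sub (sm 2560 (v 9))
    (mul (add (sm 256 (v 0)) (sm 5120 (v 9))) (v 0))) (v 0)) (sm 5120 (v 9))) (v 0)) (sm 256 (v
    9))) (v 0)) (v 0)) (v 8))) (v 6)) (v 6))) (v 5)) (mul (mul (mul (add (mul (neg (mul (mul (add
    (mul (add (mul (add (mul (add (mul (add (mul (add (sm 256 (v 0)) (sm 1536 (v 9))) (v 0)) (sm
    3840 (v 9))) (v 0)) (sm 5120 (v 9))) (v 0)) (sm 3840 (v 9))) (v 0)) (sm 1536 (v 9))) (v 0))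
    (sm 256 (v 9))) (v 0)) (v 0))) (v 6)) (mul (mul (mul (mul (add (mul (add (sm 2048 (v 0)) (sm
    4096 (v 9))) (v 0)) (sm 2048 (v 9))) (v 0)) (v 0)) (v 0)) (v 8))) (v 6)) (v 6)) (v 6))

/-- A coefficient. -/
def kap30 : Ex :=
  add (mul (add (mul (add (mul (add (mul (mul (mul (add (mul (add (mul (sub (mul (add (mul (add
    (mul (sub (mul (sub (sm 3840 (v 9)) (sm 256 (v 0))) (v 0)) (sm 8448 (v 9))) (v 0)) (sm 2816 (v
    9))) (v 0)) (sm 7424 (v 9))) (v 0)) (sm 6912 (v 9))) (v 0)) (sm 1280 (v 9))) (v 0)) (sm 256 (v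
    9))) (v 0)) (v 0)) (v 7)) (mul (mul (sub (mul (add (mul (add (mul (sub (mul (add (mul (add
    (mul (sub (mul (add (mul (add (sm 128 (v 0)) (sm 128 (v 9))) (v 0)) (sm 3328 (v 9))) (v 0))
    (sm 8448 (v 9))) (v 0)) (sm 1536 (v 9))) (v 0)) (sm 8192 (v 9))) (v 0)) (sm 5376 (v 9))) (v
    0)) (sm 256 (v 9))) (v 0)) (sm 384 (v 9))) (v 0)) (sm 128 (v 9))) (v 0)) (v 8))) (v 5)) (add
    (mul (add (mul (mul (mul (add (mul (mul (sub (mul (add (mul (add (mul (sub (mul (sub (sm 5120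
    (v 9)) (sm 512 (v 0))) (v 0)) (sm 9216 (v 9))) (v 0)) (sm 512 (v 9))) (v 0)) (sm 9728 (v 9)))
    (v 0)) (sm 6144 (v 9))) (v 0)) (v 0)) (sm 512 (v 9))) (v 0)) (v 0)) (v 7)) (mul (mul (add (mul
    (add (mul (sub (mul (sub (mul (add (mul (sub (mul (sub (mul (add (mul (sub (sm 256 (v 0)) (sm
    2816 (v 9))) (v 0)) (sm 9216 (v 9))) (v 0)) (sm 8192 (v 9))) (v 0)) (sm 8704 (v 9))) (v 0))
    (sm 16896 (v 9))) (v 0)) (sm 3072 (v 9))) (v 0)) (sm 6144 (v 9))) (v 0)) (sm 2304 (v 9))) (v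
    0)) (sm 256 (v 9))) (v 0)) (v 8))) (v 6)) (add (mul (add (mul (mul (mul (sub (mul (sub (mul
    (add (mul (sub (mul (sub (sm 15104 (v 9)) (sm 1408 (v 0))) (v 0)) (sm 29568 (v 9))) (v 0)) (sm
    18816 (v 9))) (v 0)) (sm 1792 (v 9))) (v 0)) (sm 1152 (v 9))) (v 0)) (v 0)) (v 7)) (mul (sub
    (mul (add (mul (sub (mul (sub (mul (add (mul (sub (mul (sub (sm 12608 (v 9)) (mul (add (sm 448
    (v 0)) (sm 1984 (v 9))) (v 0))) (v 0)) (sm 25792 (v 9))) (v 0)) (sm 23872 (v 9))) (v 0)) (sm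
    5312 (v 9))) (v 0)) (sm 2496 (v 9))) (v 0)) (sm 832 (v 9))) (v 0)) (sm 256 (v 9))) (v 8))) (v
    7)) (mul (mul (mul (sub (mul (add (mul (add (mul (sub (sm 3008 (v 9)) (mul (add (mul (add (mul
    (add (sm 192 (v 0)) (sm 2112 (v 9))) (v 0)) (sm 3776 (v 9))) (v 0)) (sm 3136 (v 9))) (v 0)))
    (v 0)) (sm 5440 (v 9))) (v 0)) (sm 960 (v 9))) (v 0)) (sm 192 (v 9))) (v 0)) (v 8)) (v 8)))))
    (v 5)) (add (mul (add (mul (add (mul (mul (mul (add (mul (sub (mul (add (mul (add (mul (sub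
    (mul (sub (mul (sub (sm 1280 (v 9)) (sm 256 (v 0))) (v 0)) (sm 768 (v 9))) (v 0)) (sm 2304 (v
    9))) (v 0)) (sm 2304 (v 9))) (v 0)) (sm 768 (v 9))) (v 0)) (sm 1280 (v 9))) (v 0)) (sm 256 (v
    9))) (v 0)) (v 0)) (v 7)) (mul (mul (add (mul (sub (mul (sub (mul (add (mul (add (mul (sub
    (mul (add (mul (sub (sm 1792 (v 9)) (mul (add (sm 384 (v 0)) (sm 384 (v 9))) (v 0))) (v 0))
    (sm 256 (v 9))) (v 0)) (sm 3072 (v 9))) (v 0)) (sm 1536 (v 9))) (v 0)) (sm 2304 (v 9))) (v 0))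
    (sm 2304 (v 9))) (v 0)) (sm 640 (v 9))) (v 0)) (sm 896 (v 9))) (v 0)) (v 8))) (v 6)) (add (mul
    (add (mul (mul (mul (sub (mul (add (mul (sub (mul (sub (mul (sub (sm 7168 (v 9)) (sm 1536 (v
    0))) (v 0)) (sm 4608 (v 9))) (v 0)) (sm 6144 (v 9))) (v 0)) (sm 6144 (v 9))) (v 0)) (sm 1024
    (v 9))) (v 0)) (v 0)) (v 7)) (mul (add (mul (sub (mul (sub (mul (add (mul (sub (mul (add (mul
    (add (mul (sub (sm 640 (v 0)) (sm 3968 (v 9))) (v 0)) (sm 9344 (v 9))) (v 0)) (sm 3200 (v 9)))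
    (v 0)) (sm 9344 (v 9))) (v 0)) (sm 3968 (v 9))) (v 0)) (sm 128 (v 9))) (v 0)) (sm 2176 (v 9)))
    (v 0)) (sm 512 (v 9))) (v 8))) (v 7)) (mul (mul (mul (sub (mul (add (mul (sub (mul (sub (mul
    (add (mul (add (mul (sub (sm 384 (v 0)) (sm 2176 (v 9))) (v 0)) (sm 2944 (v 9))) (v 0)) (sm
    4480 (v 9))) (v 0)) (sm 3968 (v 9))) (v 0)) (sm 1408 (v 9))) (v 0)) (sm 640 (v 9))) (v 0)) (sm
    896 (v 9))) (v 0)) (v 8)) (v 8)))) (v 6)) (mul (add (mul (add (mul (mul (mul (add (mul (sub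
    (mul (sub (sm 4864 (v 9)) (sm 1792 (v 0))) (v 0)) (sm 4352 (v 9))) (v 0)) (sm 1280 (v 9))) (v
    0)) (v 0)) (v 7)) (mul (mul (add (mul (sub (sm 768 (v 9)) (mul (mul (add (mul (add (sm 256 (v
    0)) (sm 2304 (v 9))) (v 0)) (sm 2560 (v 9))) (v 0)) (v 0))) (v 0)) (sm 256 (v 9))) (v 0)) (v
    8))) (v 7)) (mul (mul (mul (add (mul (add (mul (sub (sm 1280 (v 9)) (mul (add (mul (add (sm
    256 (v 0)) (sm 1536 (v 9))) (v 0)) (sm 4352 (v 9))) (v 0))) (v 0)) (sm 512 (v 9))) (v 0)) (sm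
    256 (v 9))) (v 0)) (v 8)) (v 8))) (v 7)))) (v 5)) (mul (add (mul (add (mul (add (mul (mul (mul
    (add (mul (sub (mul (sub (mul (add (mul (sub (sm 256 (v 9)) (sm 128 (v 0))) (v 0)) (sm 384 (v
    9))) (v 0)) (sm 384 (v 9))) (v 0)) (sm 256 (v 9))) (v 0)) (sm 128 (v 9))) (v 0)) (v 0)) (v 7))
    (mul (sub (mul (add (mul (add (mul (add (mul (sub (mul (add (mul (sub (sm 576 (v 9)) (mul (add
    (sm 192 (v 0)) (sm 192 (v 9))) (v 0))) (v 0)) (sm 64 (v 9))) (v 0)) (sm 1216 (v 9))) (v 0))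
    (sm 320 (v 9))) (v 0)) (sm 1600 (v 9))) (v 0)) (sm 320 (v 9))) (v 0)) (sm 256 (v 9))) (v 8)))
    (v 7)) (mul (mul (mul (add (mul (add (mul (add (mul (sub (sm 960 (v 9)) (mul (add (mul (add
    (mul (add (sm 192 (v 0)) (sm 832 (v 9))) (v 0)) (sm 1216 (v 9))) (v 0)) (sm 320 (v 9))) (v
    0))) (v 0)) (sm 1088 (v 9))) (v 0)) (sm 448 (v 9))) (v 0)) (sm 64 (v 9))) (v 0)) (v 8)) (v
    8))) (v 6)) (mul (add (mul (add (mul (mul (mul (sub (mul (add (mul (sub (sm 256 (v 9)) (sm 256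
    (v 0))) (v 0)) (sm 256 (v 9))) (v 0)) (sm 256 (v 9))) (v 0)) (v 0)) (v 7)) (mul (mul (sub (mul
    (add (mul (add (mul (add (mul (sub (sm 256 (v 0)) (sm 768 (v 9))) (v 0)) (sm 512 (v 9))) (v
    0)) (sm 3072 (v 9))) (v 0)) (sm 1280 (v 9))) (v 0)) (sm 256 (v 9))) (v 0)) (v 8))) (v 7)) (mul
    (mul (mul (sub (mul (add (mul (add (mul (add (mul (add (sm 256 (v 0)) (sm 512 (v 9))) (v 0))
    (sm 1280 (v 9))) (v 0)) (sm 1792 (v 9))) (v 0)) (sm 512 (v 9))) (v 0)) (sm 256 (v 9))) (v 0))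
    (v 8)) (v 8))) (v 7))) (v 6))

/-- A coefficient. -/
def kap31 : Ex :=
  add (mul (add (mul (add (mul (add (mul (mul (mul (mul (add (mul (sub (mul (sub (mul (add (mul
    (sub (mul (sub (sm 4096 (v 0)) (sm 8192 (v 9))) (v 0)) (sm 4096 (v 9))) (v 0)) (sm 16384 (v
    9))) (v 0)) (sm 4096 (v 9))) (v 0)) (sm 8192 (v 9))) (v 0)) (sm 4096 (v 9))) (v 0)) (v 0)) (v
    0)) (v 6)) (add (mul (mul (mul (add (mul (sub (mul (sub (mul (add (mul (sub (mul (add (sm 1024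
    (v 0)) (sm 3072 (v 9))) (v 0)) (sm 16384 (v 9))) (v 0)) (sm 19456 (v 9))) (v 0)) (sm 6144 (v
    9))) (v 0)) (sm 2048 (v 9))) (v 0)) (sm 1024 (v 9))) (v 0)) (v 0)) (v 7)) (mul (mul (sub (mul
    (mul (add (mul (sub (mul (add (mul (sub (mul (sub (mul (add (sm 256 (v 0)) (sm 2048 (v 9))) (v
    0)) (sm 512 (v 9))) (v 0)) (sm 12288 (v 9))) (v 0)) (sm 16384 (v 9))) (v 0)) (sm 6144 (v 9)))
    (v 0)) (sm 512 (v 9))) (v 0)) (v 0)) (sm 256 (v 9))) (v 0)) (v 8)))) (v 5)) (add (mul (add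
    (mul (mul (mul (mul (add (mul (sub (mul (sub (mul (add (mul (sub (mul (sub (sm 4096 (v 0)) (sm
    8192 (v 9))) (v 0)) (sm 4096 (v 9))) (v 0)) (sm 16384 (v 9))) (v 0)) (sm 4096 (v 9))) (v 0))
    (sm 8192 (v 9))) (v 0)) (sm 4096 (v 9))) (v 0)) (v 0)) (v 0)) (v 6)) (add (mul (mul (mul (mul
    (sub (mul (add (mul (add (mul (sub (sm 32768 (v 0)) (sm 61440 (v 9))) (v 0)) (sm 6144 (v 9)))
    (v 0)) (sm 40960 (v 9))) (v 0)) (sm 18432 (v 9))) (v 0)) (v 0)) (v 0)) (v 7)) (mul (mul (add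
    (mul (sub (mul (sub (mul (sub (mul (add (mul (sub (mul (add (mul (sub (sm 2048 (v 9)) (sm 512
    (v 0))) (v 0)) (sm 15360 (v 9))) (v 0)) (sm 10240 (v 9))) (v 0)) (sm 8192 (v 9))) (v 0)) (sm
    6144 (v 9))) (v 0)) (sm 7168 (v 9))) (v 0)) (sm 2048 (v 9))) (v 0)) (sm 512 (v 9))) (v 0)) (v
    8)))) (v 6)) (add (mul (add (mul (mul (mul (sub (mul (add (mul (sub (mul (add (sm 2816 (v 0))
    (sm 512 (v 9))) (v 0)) (sm 10752 (v 9))) (v 0)) (sm 9728 (v 9))) (v 0)) (sm 2304 (v 9))) (v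
    0)) (v 0)) (v 7)) (mul (mul (sub (mul (sub (mul (add (mul (add (mul (sub (mul (sub (sm 128 (v
    0)) (sm 256 (v 9))) (v 0)) (sm 10112 (v 9))) (v 0)) (sm 8704 (v 9))) (v 0)) (sm 4992 (v 9)))
    (v 0)) (sm 1280 (v 9))) (v 0)) (sm 128 (v 9))) (v 0)) (v 8))) (v 7)) (mul (mul (mul (sub (mul
    (add (mul (add (mul (mul (sub (mul (sub (sm 128 (v 0)) (sm 1536 (v 9))) (v 0)) (sm 3456 (v
    9))) (v 0)) (v 0)) (sm 3456 (v 9))) (v 0)) (sm 1536 (v 9))) (v 0)) (sm 128 (v 9))) (v 0)) (v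
    8)) (v 8))))) (v 5)) (add (mul (add (mul (add (mul (mul (mul (sub (mul (add (mul (add (mul
    (sub (mul (sub (mul (sub (sm 9216 (v 9)) (sm 1024 (v 0))) (v 0)) (sm 4096 (v 9))) (v 0)) (sm
    13312 (v 9))) (v 0)) (sm 6144 (v 9))) (v 0)) (sm 4096 (v 9))) (v 0)) (sm 1024 (v 9))) (v 0))
    (v 0)) (v 7)) (mul (mul (sub (mul (add (mul (sub (mul (sub (mul (sub (mul (add (mul (add (mul
    (sub (sm 256 (v 0)) (sm 4096 (v 9))) (v 0)) (sm 9728 (v 9))) (v 0)) (sm 22528 (v 9))) (v 0))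
    (sm 8192 (v 9))) (v 0)) (sm 20480 (v 9))) (v 0)) (sm 1536 (v 9))) (v 0)) (sm 2048 (v 9))) (v
    0)) (sm 256 (v 9))) (v 0)) (v 8))) (v 6)) (add (mul (add (mul (mul (mul (add (mul (sub (mul
    (sub (mul (sub (sm 11264 (v 9)) (sm 2560 (v 0))) (v 0)) (sm 10240 (v 9))) (v 0)) (sm 1024 (v
    9))) (v 0)) (sm 2560 (v 9))) (v 0)) (v 0)) (v 7)) (mul (mul (add (mul (sub (mul (add (mul (mul
    (sub (mul (sub (sm 1536 (v 9)) (sm 256 (v 0))) (v 0)) (sm 14592 (v 9))) (v 0)) (v 0)) (sm 2304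
    (v 9))) (v 0)) (sm 1536 (v 9))) (v 0)) (sm 256 (v 9))) (v 0)) (v 8))) (v 7)) (mul (mul (mul
    (add (mul (sub (mul (add (mul (mul (sub (mul (sub (sm 2048 (v 9)) (sm 256 (v 0))) (v 0)) (sm
    3328 (v 9))) (v 0)) (v 0)) (sm 3328 (v 9))) (v 0)) (sm 2048 (v 9))) (v 0)) (sm 256 (v 9))) (v
    0)) (v 8)) (v 8)))) (v 6)) (mul (mul (mul (mul (mul (sub (sm 1024 (v 9)) (sm 1024 (mul (v 0)
    (v 0)))) (v 0)) (v 0)) (v 8)) (v 7)) (v 7)))) (v 5)) (mul (add (mul (add (mul (add (mul (mul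
    (mul (sub (mul (sub (mul (add (mul (sub (sm 512 (v 9)) (sm 256 (v 0))) (v 0)) (sm 512 (v 9)))
    (v 0)) (sm 512 (v 9))) (v 0)) (sm 256 (v 9))) (v 0)) (v 0)) (v 7)) (mul (mul (sub (mul (add
    (mul (add (mul (add (mul (add (mul (sub (sm 128 (v 0)) (sm 1280 (v 9))) (v 0)) (sm 128 (v 9)))
    (v 0)) (sm 7680 (v 9))) (v 0)) (sm 9088 (v 9))) (v 0)) (sm 2816 (v 9))) (v 0)) (sm 128 (v 9)))
    (v 0)) (v 8))) (v 7)) (mul (mul (mul (sub (mul (add (mul (add (mul (mul (sub (mul (sub (sm 128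
    (v 0)) (sm 512 (v 9))) (v 0)) (sm 1408 (v 9))) (v 0)) (v 0)) (sm 1408 (v 9))) (v 0)) (sm 512
    (v 9))) (v 0)) (sm 128 (v 9))) (v 0)) (v 8)) (v 8))) (v 6)) (mul (mul (mul (mul (mul (sub (sm
    1024 (mul (v 0) (v 0))) (sm 1024 (v 9))) (v 0)) (v 0)) (v 8)) (v 7)) (v 7))) (v 6))

/-- A coefficient. -/
def kap32 : Ex :=
  add (mul (add (mul (add (mul (add (mul (mul (mul (add (mul (add (mul (sub (mul (add (mul (add
    (mul (sub (mul (add (sm 3072 (v 0)) (sm 3072 (v 9))) (v 0)) (sm 21504 (v 9))) (v 0)) (sm 11264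
    (v 9))) (v 0)) (sm 17408 (v 9))) (v 0)) (sm 15360 (v 9))) (v 0)) (sm 1024 (v 9))) (v 0)) (sm
    1024 (v 9))) (v 0)) (v 0)) (v 6)) (add (mul (mul (mul (add (mul (sub (mul (add (mul (sub (mul
    (sub (sm 1280 (v 0)) (sm 2304 (v 9))) (v 0)) (sm 1536 (v 9))) (v 0)) (sm 5632 (v 9))) (v 0))
    (sm 3840 (v 9))) (v 0)) (sm 768 (v 9))) (v 0)) (v 0)) (v 7)) (mul (mul (sub (mul (sub (mul
    (add (mul (sub (mul (add (mul (sub (mul (add (sm 128 (v 0)) (sm 2432 (v 9))) (v 0)) (sm 6272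
    (v 9))) (v 0)) (sm 4224 (v 9))) (v 0)) (sm 1152 (v 9))) (v 0)) (sm 1664 (v 9))) (v 0)) (sm 896
    (v 9))) (v 0)) (sm 128 (v 9))) (v 0)) (v 8)))) (v 5)) (add (mul (add (mul (mul (mul (mul (sub
    (mul (sub (mul (add (mul (sub (mul (sub (mul (add (sm 4096 (v 0)) (sm 12288 (v 9))) (v 0)) (sm
    32768 (v 9))) (v 0)) (sm 8192 (v 9))) (v 0)) (sm 36864 (v 9))) (v 0)) (sm 4096 (v 9))) (v 0))
    (sm 8192 (v 9))) (v 0)) (v 0)) (v 0)) (v 6)) (add (mul (mul (mul (sub (mul (add (mul (add (mul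
    (sub (mul (sub (sm 12032 (v 0)) (sm 768 (v 9))) (v 0)) (sm 29184 (v 9))) (v 0)) (sm 12800 (v
    9))) (v 0)) (sm 8960 (v 9))) (v 0)) (sm 3840 (v 9))) (v 0)) (v 0)) (v 7)) (mul (mul (add (mul
    (add (mul (sub (mul (add (mul (add (mul (sub (mul (sub (sm 3200 (v 9)) (sm 128 (v 0))) (v 0))
    (sm 6528 (v 9))) (v 0)) (sm 9088 (v 9))) (v 0)) (sm 2176 (v 9))) (v 0)) (sm 128 (v 9))) (v 0))
    (sm 384 (v 9))) (v 0)) (sm 128 (v 9))) (v 0)) (v 8)))) (v 6)) (mul (mul (mul (sub (mul (add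
    (mul (sub (sm 5120 (v 9)) (mul (add (sm 768 (v 0)) (sm 4608 (v 9))) (v 0))) (v 0)) (sm 512 (v
    9))) (v 0)) (sm 256 (v 9))) (v 0)) (v 8)) (v 7)))) (v 5)) (mul (add (mul (add (mul (mul (mul
    (sub (mul (sub (mul (add (mul (add (mul (sub (mul (sub (mul (add (sm 1024 (v 0)) (sm 1024 (v
    9))) (v 0)) (sm 3072 (v 9))) (v 0)) (sm 3072 (v 9))) (v 0)) (sm 3072 (v 9))) (v 0)) (sm 3072
    (v 9))) (v 0)) (sm 1024 (v 9))) (v 0)) (sm 1024 (v 9))) (v 0)) (v 0)) (v 6)) (add (mul (mul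
    (mul (add (mul (add (mul (sub (mul (sub (mul (add (sm 2816 (v 0)) (sm 10496 (v 9))) (v 0)) (sm
    10752 (v 9))) (v 0)) (sm 9728 (v 9))) (v 0)) (sm 3840 (v 9))) (v 0)) (sm 3328 (v 9))) (v 0))
    (v 0)) (v 7)) (mul (mul (add (mul (sub (mul (add (mul (add (mul (add (mul (sub (mul (sub (sm
    2688 (v 9)) (sm 128 (v 0))) (v 0)) (sm 2944 (v 9))) (v 0)) (sm 1920 (v 9))) (v 0)) (sm 11392
    (v 9))) (v 0)) (sm 3456 (v 9))) (v 0)) (sm 128 (v 9))) (v 0)) (sm 128 (v 9))) (v 0)) (v 8))))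
    (v 6)) (mul (mul (mul (add (mul (add (mul (sub (mul (sub (sm 3072 (v 9)) (sm 512 (v 0))) (v
    0)) (sm 4096 (v 9))) (v 0)) (sm 1024 (v 9))) (v 0)) (sm 512 (v 9))) (v 0)) (v 8)) (v 7))) (v
    6))) (v 5)) (mul (mul (add (mul (add (mul (mul (mul (sub (mul (sub (mul (sub (mul (add (mul
    (add (sm 256 (v 0)) (sm 768 (v 9))) (v 0)) (sm 512 (v 9))) (v 0)) (sm 512 (v 9))) (v 0)) (sm
    768 (v 9))) (v 0)) (sm 256 (v 9))) (v 0)) (v 0)) (v 7)) (mul (mul (sub (mul (add (mul (add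
    (mul (add (mul (add (mul (sub (mul (sub (sm 128 (v 0)) (sm 128 (v 9))) (v 0)) (sm 640 (v 9)))
    (v 0)) (sm 1152 (v 9))) (v 0)) (sm 3968 (v 9))) (v 0)) (sm 3200 (v 9))) (v 0)) (sm 640 (v 9)))
    (v 0)) (sm 128 (v 9))) (v 0)) (v 8))) (v 6)) (mul (mul (mul (sub (mul (sub (mul (sub (mul (add
    (sm 1280 (v 0)) (sm 1536 (v 9))) (v 0)) (sm 1024 (v 9))) (v 0)) (sm 1536 (v 9))) (v 0)) (sm
    256 (v 9))) (v 0)) (v 8)) (v 7))) (v 6)) (v 6))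

/-- A coefficient. -/
def kap33 : Ex :=
  add (mul (add (mul (add (mul (add (mul (mul (mul (add (mul (sub (mul (add (mul (add (mul (sub
    (mul (sub (sm 3072 (v 0)) (sm 4096 (v 9))) (v 0)) (sm 5120 (v 9))) (v 0)) (sm 8192 (v 9))) (v
    0)) (sm 1024 (v 9))) (v 0)) (sm 4096 (v 9))) (v 0)) (sm 1024 (v 9))) (v 0)) (v 0)) (v 6)) (mul
    (mul (mul (sub (mul (add (mul (mul (sub (sm 512 (v 0)) (sm 1024 (v 9))) (v 0)) (v 0)) (sm 1024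
    (v 9))) (v 0)) (sm 512 (v 9))) (v 0)) (v 0)) (v 8))) (v 5)) (mul (add (mul (mul (mul (sub (mul
    (mul (add (mul (mul (sub (sm 10240 (mul (v 0) (v 0))) (sm 22528 (v 9))) (v 0)) (v 0)) (sm
    14336 (v 9))) (v 0)) (v 0)) (sm 2048 (v 9))) (v 0)) (v 0)) (v 6)) (mul (mul (mul (add (mul
    (sub (sm 5120 (v 9)) (mul (mul (add (sm 512 (v 0)) (sm 5120 (v 9))) (v 0)) (v 0))) (v 0)) (sm
    512 (v 9))) (v 0)) (v 0)) (v 8))) (v 6))) (v 5)) (mul (mul (add (mul (mul (mul (add (mul (add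
    (mul (add (mul (sub (mul (sub (mul (add (sm 3072 (v 0)) (sm 4096 (v 9))) (v 0)) (sm 5120 (v
    9))) (v 0)) (sm 8192 (v 9))) (v 0)) (sm 1024 (v 9))) (v 0)) (sm 4096 (v 9))) (v 0)) (sm 1024
    (v 9))) (v 0)) (v 0)) (v 6)) (mul (mul (mul (add (mul (sub (mul (mul (sub (sm 5120 (v 9)) (sm
    512 (v 0))) (v 0)) (v 0)) (sm 5120 (v 9))) (v 0)) (sm 512 (v 9))) (v 0)) (v 0)) (v 8))) (v 6))
    (v 6))) (v 5)) (mul (mul (mul (mul (mul (mul (sub (mul (sub (mul (mul (add (sm 512 (v 0)) (sm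
    1024 (v 9))) (v 0)) (v 0)) (sm 1024 (v 9))) (v 0)) (sm 512 (v 9))) (v 0)) (v 0)) (v 8)) (v 6))
    (v 6)) (v 6))

/-- A coefficient. -/
def kap40 : Ex :=
  add (mul (add (mul (add (mul (add (mul (mul (mul (sub (mul (add (mul (sub (mul (sub (mul (add
    (mul (sub (mul (sub (mul (sub (sm 1024 (v 9)) (sm 256 (v 0))) (v 0)) (sm 1024 (v 9))) (v 0))
    (sm 1024 (v 9))) (v 0)) (sm 2560 (v 9))) (v 0)) (sm 1024 (v 9))) (v 0)) (sm 1024 (v 9))) (v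
    0)) (sm 1024 (v 9))) (v 0)) (sm 256 (v 9))) (v 0)) (v 0)) (v 5)) (add (mul (mul (mul (sub (mul
    (add (mul (sub (mul (sub (mul (add (mul (sub (mul (sub (mul (sub (sm 2048 (v 9)) (sm 512 (v
    0))) (v 0)) (sm 2048 (v 9))) (v 0)) (sm 2048 (v 9))) (v 0)) (sm 5120 (v 9))) (v 0)) (sm 2048
    (v 9))) (v 0)) (sm 2048 (v 9))) (v 0)) (sm 2048 (v 9))) (v 0)) (sm 512 (v 9))) (v 0)) (v 0))
    (v 6)) (add (mul (mul (mul (add (mul (sub (mul (sub (mul (add (mul (sub (mul (sub (sm 16128 (v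
    9)) (sm 2560 (v 0))) (v 0)) (sm 31232 (v 9))) (v 0)) (sm 22016 (v 9))) (v 0)) (sm 512 (v 9)))
    (v 0)) (sm 5376 (v 9))) (v 0)) (sm 1536 (v 9))) (v 0)) (v 0)) (v 7)) (mul (mul (add (mul (sub
    (mul (add (mul (sub (mul (add (mul (sub (mul (add (mul (sub (sm 128 (v 0)) (sm 3584 (v 9))) (v
    0)) (sm 9472 (v 9))) (v 0)) (sm 17920 (v 9))) (v 0)) (sm 22016 (v 9))) (v 0)) (sm 10752 (v
    9))) (v 0)) (sm 768 (v 9))) (v 0)) (sm 512 (v 9))) (v 0)) (sm 384 (v 9))) (v 0)) (v 8))))) (v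
    5)) (add (mul (add (mul (mul (mul (sub (mul (add (mul (sub (mul (sub (mul (add (mul (sub (mul
    (sub (mul (sub (sm 1024 (v 9)) (sm 256 (v 0))) (v 0)) (sm 1024 (v 9))) (v 0)) (sm 1024 (v 9)))
    (v 0)) (sm 2560 (v 9))) (v 0)) (sm 1024 (v 9))) (v 0)) (sm 1024 (v 9))) (v 0)) (sm 1024 (v
    9))) (v 0)) (sm 256 (v 9))) (v 0)) (v 0)) (v 6)) (add (mul (mul (mul (add (mul (sub (mul (add
    (mul (sub (mul (sub (mul (sub (sm 13312 (v 9)) (sm 3072 (v 0))) (v 0)) (sm 14336 (v 9))) (v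
    0)) (sm 5120 (v 9))) (v 0)) (sm 16384 (v 9))) (v 0)) (sm 8192 (v 9))) (v 0)) (sm 1024 (v 9)))
    (v 0)) (v 0)) (v 7)) (mul (mul (add (mul (mul (add (mul (add (mul (sub (mul (mul (add (mul
    (sub (sm 256 (v 0)) (sm 4096 (v 9))) (v 0)) (sm 9216 (v 9))) (v 0)) (v 0)) (sm 10752 (v 9)))
    (v 0)) (sm 4096 (v 9))) (v 0)) (sm 1024 (v 9))) (v 0)) (v 0)) (sm 256 (v 9))) (v 0)) (v 8))))
    (v 6)) (add (mul (add (mul (mul (mul (sub (mul (add (mul (sub (mul (sub (sm 15872 (v 9)) (sm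
    4672 (v 0))) (v 0)) (sm 19840 (v 9))) (v 0)) (sm 10752 (v 9))) (v 0)) (sm 2112 (v 9))) (v 0))
    (v 0)) (v 7)) (mul (add (mul (sub (mul (sub (mul (add (mul (add (mul (sub (sm 2624 (v 9)) (mul
    (add (sm 576 (v 0)) (sm 3520 (v 9))) (v 0))) (v 0)) (sm 7872 (v 9))) (v 0)) (sm 1856 (v 9)))
    (v 0)) (sm 1344 (v 9))) (v 0)) (sm 832 (v 9))) (v 0)) (sm 64 (v 9))) (v 8))) (v 7)) (mul (mul
    (mul (sub (mul (add (mul (add (mul (add (mul (add (mul (sub (sm 128 (v 9)) (sm 64 (v 0))) (v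
    0)) (sm 2112 (v 9))) (v 0)) (sm 7936 (v 9))) (v 0)) (sm 2112 (v 9))) (v 0)) (sm 128 (v 9))) (v
    0)) (sm 64 (v 9))) (v 0)) (v 8)) (v 8))))) (v 5)) (add (mul (add (mul (add (mul (mul (mul (sub
    (mul (add (mul (add (mul (sub (mul (add (mul (sub (sm 1280 (v 9)) (sm 512 (v 0))) (v 0)) (sm
    512 (v 9))) (v 0)) (sm 2560 (v 9))) (v 0)) (sm 512 (v 9))) (v 0)) (sm 1280 (v 9))) (v 0)) (sm
    512 (v 9))) (v 0)) (v 0)) (v 7)) (mul (mul (sub (mul (add (mul (add (mul (sub (mul (sub (mul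
    (add (mul (sub (sm 1792 (v 9)) (mul (add (sm 384 (v 0)) (sm 512 (v 9))) (v 0))) (v 0)) (sm
    1536 (v 9))) (v 0)) (sm 3072 (v 9))) (v 0)) (sm 1536 (v 9))) (v 0)) (sm 2304 (v 9))) (v 0))
    (sm 512 (v 9))) (v 0)) (sm 640 (v 9))) (v 0)) (v 8))) (v 6)) (add (mul (add (mul (mul (mul
    (add (mul (sub (mul (add (mul (sub (sm 2560 (v 9)) (sm 1408 (v 0))) (v 0)) (sm 256 (v 9))) (v
    0)) (sm 2560 (v 9))) (v 0)) (sm 1152 (v 9))) (v 0)) (v 0)) (v 7)) (mul (sub (mul (add (mul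
    (add (mul (sub (mul (add (mul (add (mul (sub (sm 640 (v 0)) (sm 2688 (v 9))) (v 0)) (sm 896 (v
    9))) (v 0)) (sm 4224 (v 9))) (v 0)) (sm 640 (v 9))) (v 0)) (sm 640 (v 9))) (v 0)) (sm 1152 (v
    9))) (v 0)) (sm 128 (v 9))) (v 8))) (v 7)) (mul (mul (mul (add (mul (sub (mul (sub (mul (sub
    (mul (sub (mul (sub (sm 128 (v 0)) (sm 768 (v 9))) (v 0)) (sm 1152 (v 9))) (v 0)) (sm 512 (v
    9))) (v 0)) (sm 1152 (v 9))) (v 0)) (sm 768 (v 9))) (v 0)) (sm 128 (v 9))) (v 0)) (v 8)) (v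
    8)))) (v 6)) (mul (mul (mul (mul (mul (add (mul (add (sm 512 (v 0)) (sm 1024 (v 9))) (v 0))
    (sm 512 (v 9))) (v 0)) (v 0)) (v 8)) (v 7)) (v 7)))) (v 5)) (mul (add (mul (add (mul (add (mul
    (mul (mul (sub (mul (mul (sub (sm 128 (v 9)) (sm 64 (mul (v 0) (v 0)))) (v 0)) (v 0)) (sm 64
    (v 9))) (v 0)) (v 0)) (v 7)) (mul (add (mul (sub (mul (sub (mul (sub (mul (add (mul (add (mul
    (sub (sm 64 (v 9)) (sm 64 (v 0))) (v 0)) (sm 576 (v 9))) (v 0)) (sm 192 (v 9))) (v 0)) (sm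
    1216 (v 9))) (v 0)) (sm 1344 (v 9))) (v 0)) (sm 320 (v 9))) (v 0)) (sm 64 (v 9))) (v 8))) (v
    7)) (mul (mul (neg (mul (add (mul (add (mul (add (mul (add (mul (add (mul (add (sm 64 (v 0))
    (sm 384 (v 9))) (v 0)) (sm 960 (v 9))) (v 0)) (sm 1280 (v 9))) (v 0)) (sm 960 (v 9))) (v 0))
    (sm 384 (v 9))) (v 0)) (sm 64 (v 9))) (v 0))) (v 8)) (v 8))) (v 6)) (mul (mul (mul (neg (mul
    (mul (add (mul (add (sm 512 (v 0)) (sm 1024 (v 9))) (v 0)) (sm 512 (v 9))) (v 0)) (v 0))) (v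
    8)) (v 7)) (v 7))) (v 6))

/-- A coefficient. -/
def kap41 : Ex :=
  add (mul (add (mul (add (mul (add (mul (mul (mul (sub (mul (add (mul (sub (mul (add (mul (add
    (mul (sub (mul (sub (sm 2560 (v 9)) (sm 512 (v 0))) (v 0)) (sm 4608 (v 9))) (v 0)) (sm 2560 (v
    9))) (v 0)) (sm 2560 (v 9))) (v 0)) (sm 4608 (v 9))) (v 0)) (sm 2560 (v 9))) (v 0)) (sm 512 (v
    9))) (v 0)) (v 0)) (v 5)) (add (mul (mul (mul (mul (add (mul (sub (mul (add (mul (add (mul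
    (sub (mul (sub (sm 20480 (v 9)) (sm 2048 (v 0))) (v 0)) (sm 38912 (v 9))) (v 0)) (sm 8192 (v
    9))) (v 0)) (sm 34816 (v 9))) (v 0)) (sm 28672 (v 9))) (v 0)) (sm 6144 (v 9))) (v 0)) (v 0))
    (v 0)) (v 6)) (add (mul (mul (mul (add (mul (sub (mul (add (mul (sub (mul (sub (sm 7936 (v 9))
    (sm 256 (v 0))) (v 0)) (sm 22016 (v 9))) (v 0)) (sm 23040 (v 9))) (v 0)) (sm 10496 (v 9))) (v
    0)) (sm 1792 (v 9))) (v 0)) (v 0)) (v 7)) (mul (mul (add (mul (add (mul (sub (mul (sub (mul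
    (add (mul (sub (mul (sub (sm 128 (v 0)) (sm 384 (v 9))) (v 0)) (sm 6272 (v 9))) (v 0)) (sm
    11136 (v 9))) (v 0)) (sm 2176 (v 9))) (v 0)) (sm 2688 (v 9))) (v 0)) (sm 128 (v 9))) (v 0))
    (sm 128 (v 9))) (v 0)) (v 8))))) (v 5)) (add (mul (add (mul (mul (mul (add (mul (sub (mul (add
    (mul (add (mul (sub (mul (sub (mul (sub (sm 9728 (v 9)) (sm 1536 (v 0))) (v 0)) (sm 9728 (v
    9))) (v 0)) (sm 10752 (v 9))) (v 0)) (sm 15872 (v 9))) (v 0)) (sm 512 (v 9))) (v 0)) (sm 4608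
    (v 9))) (v 0)) (sm 512 (v 9))) (v 0)) (v 0)) (v 6)) (add (mul (mul (mul (sub (mul (add (mul
    (add (mul (sub (mul (sub (sm 26112 (v 9)) (sm 6656 (v 0))) (v 0)) (sm 31744 (v 9))) (v 0)) (sm
    9216 (v 9))) (v 0)) (sm 5632 (v 9))) (v 0)) (sm 2560 (v 9))) (v 0)) (v 0)) (v 7)) (mul (mul
    (sub (mul (add (mul (sub (mul (sub (mul (sub (sm 12544 (v 9)) (mul (add (mul (add (sm 256 (v
    0)) (sm 1280 (v 9))) (v 0)) (sm 4864 (v 9))) (v 0))) (v 0)) (sm 3840 (v 9))) (v 0)) (sm 2816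
    (v 9))) (v 0)) (sm 768 (v 9))) (v 0)) (sm 256 (v 9))) (v 0)) (v 8)))) (v 6)) (mul (mul (mul
    (add (mul (sub (mul (add (mul (sub (sm 4096 (v 9)) (sm 1408 (v 0))) (v 0)) (sm 4352 (v 9))) (v
    0)) (sm 1024 (v 9))) (v 0)) (sm 128 (v 9))) (v 0)) (v 8)) (v 7)))) (v 5)) (mul (add (mul (add
    (mul (mul (mul (add (mul (add (mul (sub (mul (add (mul (sub (sm 2816 (v 9)) (sm 1280 (v 0)))
    (v 0)) (sm 512 (v 9))) (v 0)) (sm 3584 (v 9))) (v 0)) (sm 768 (v 9))) (v 0)) (sm 768 (v 9)))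
    (v 0)) (v 0)) (v 7)) (mul (mul (add (mul (sub (mul (add (mul (add (mul (add (mul (add (mul
    (sub (sm 128 (v 0)) (sm 2432 (v 9))) (v 0)) (sm 2944 (v 9))) (v 0)) (sm 17280 (v 9))) (v 0))
    (sm 14208 (v 9))) (v 0)) (sm 1408 (v 9))) (v 0)) (sm 896 (v 9))) (v 0)) (sm 128 (v 9))) (v 0))
    (v 8))) (v 6)) (mul (mul (mul (sub (mul (add (mul (sub (mul (sub (sm 1792 (v 0)) (sm 3072 (v
    9))) (v 0)) (sm 3584 (v 9))) (v 0)) (sm 1024 (v 9))) (v 0)) (sm 256 (v 9))) (v 0)) (v 8)) (v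
    7))) (v 6))) (v 5)) (mul (mul (mul (mul (mul (sub (sm 128 (v 9)) (mul (mul (add (mul (add (sm
    384 (v 0)) (sm 1024 (v 9))) (v 0)) (sm 768 (v 9))) (v 0)) (v 0))) (v 0)) (v 8)) (v 7)) (v 6))
    (v 6))

/-- A coefficient. -/
def kap42 : Ex :=
  add (mul (add (mul (add (mul (add (mul (mul (mul (sub (mul (add (mul (sub (mul (add (mul (sub
    (mul (sub (sm 1536 (v 9)) (sm 256 (v 0))) (v 0)) (sm 3840 (v 9))) (v 0)) (sm 5120 (v 9))) (v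
    0)) (sm 3840 (v 9))) (v 0)) (sm 1536 (v 9))) (v 0)) (sm 256 (v 9))) (v 0)) (v 0)) (v 5)) (add
    (mul (mul (mul (add (mul (sub (mul (add (mul (add (mul (sub (mul (add (sm 3072 (v 0)) (sm 4096
    (v 9))) (v 0)) (sm 21504 (v 9))) (v 0)) (sm 16384 (v 9))) (v 0)) (sm 1024 (v 9))) (v 0)) (sm
    4096 (v 9))) (v 0)) (sm 1024 (v 9))) (v 0)) (v 0)) (v 6)) (mul (mul (mul (mul (sub (mul (sub
    (sm 4096 (v 9)) (sm 2048 (v 0))) (v 0)) (sm 2048 (v 9))) (v 0)) (v 0)) (v 0)) (v 8)))) (v 5))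
    (mul (add (mul (mul (mul (sub (mul (add (mul (add (mul (sub (mul (sub (mul (add (sm 768 (v 0))
    (sm 9728 (v 9))) (v 0)) (sm 15104 (v 9))) (v 0)) (sm 3072 (v 9))) (v 0)) (sm 7424 (v 9))) (v
    0)) (sm 1536 (v 9))) (v 0)) (sm 1280 (v 9))) (v 0)) (v 0)) (v 6)) (mul (mul (mul (sub (mul
    (add (mul (add (mul (sub (sm 5120 (v 9)) (sm 256 (v 0))) (v 0)) (sm 2560 (v 9))) (v 0)) (sm
    5120 (v 9))) (v 0)) (sm 256 (v 9))) (v 0)) (v 0)) (v 8))) (v 6))) (v 5)) (mul (mul (add (mul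
    (mul (mul (add (mul (add (mul (sub (mul (sub (mul (sub (mul (add (sm 512 (v 0)) (sm 1024 (v
    9))) (v 0)) (sm 512 (v 9))) (v 0)) (sm 2048 (v 9))) (v 0)) (sm 512 (v 9))) (v 0)) (sm 1024 (v
    9))) (v 0)) (sm 512 (v 9))) (v 0)) (v 0)) (v 6)) (mul (mul (mul (add (mul (sub (mul (sub (mul
    (sub (sm 512 (v 0)) (sm 2048 (v 9))) (v 0)) (sm 5120 (v 9))) (v 0)) (sm 2048 (v 9))) (v 0))
    (sm 512 (v 9))) (v 0)) (v 0)) (v 8))) (v 6)) (v 6))) (v 5)) (mul (mul (mul (mul (neg (mul (mul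
    (add (mul (add (mul (add (mul (add (sm 256 (v 0)) (sm 1024 (v 9))) (v 0)) (sm 1536 (v 9))) (v
    0)) (sm 1024 (v 9))) (v 0)) (sm 256 (v 9))) (v 0)) (v 0))) (v 8)) (v 6)) (v 6)) (v 6))

/-- A coefficient. -/
def kap50 : Ex :=
  add (mul (add (mul (add (mul (add (mul (mul (mul (sub (mul (add (mul (sub (mul (add (mul (add
    (mul (sub (mul (sub (sm 6656 (v 9)) (sm 1536 (v 0))) (v 0)) (sm 9728 (v 9))) (v 0)) (sm 2560
    (v 9))) (v 0)) (sm 7680 (v 9))) (v 0)) (sm 8704 (v 9))) (v 0)) (sm 3584 (v 9))) (v 0)) (sm 512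
    (v 9))) (v 0)) (v 0)) (v 5)) (add (mul (mul (mul (mul (add (mul (sub (mul (add (mul (mul (sub
    (mul (sub (sm 8192 (v 9)) (sm 2048 (v 0))) (v 0)) (sm 10240 (v 9))) (v 0)) (v 0)) (sm 10240 (v
    9))) (v 0)) (sm 8192 (v 9))) (v 0)) (sm 2048 (v 9))) (v 0)) (v 0)) (v 0)) (v 6)) (add (mul
    (mul (mul (add (mul (sub (mul (add (mul (sub (mul (sub (sm 21760 (v 9)) (sm 5376 (v 0))) (v
    0)) (sm 34304 (v 9))) (v 0)) (sm 26112 (v 9))) (v 0)) (sm 9472 (v 9))) (v 0)) (sm 1280 (v 9)))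
    (v 0)) (v 0)) (v 7)) (mul (mul (add (mul (add (mul (sub (mul (sub (mul (add (mul (sub (sm 4736
    (v 9)) (mul (add (sm 128 (v 0)) (sm 1920 (v 9))) (v 0))) (v 0)) (sm 3968 (v 9))) (v 0)) (sm
    4992 (v 9))) (v 0)) (sm 2176 (v 9))) (v 0)) (sm 384 (v 9))) (v 0)) (sm 128 (v 9))) (v 0)) (v
    8))))) (v 5)) (add (mul (add (mul (mul (mul (add (mul (sub (mul (add (mul (add (mul (sub (mul
    (sub (mul (sub (sm 1536 (v 9)) (sm 512 (v 0))) (v 0)) (sm 512 (v 9))) (v 0)) (sm 2560 (v 9)))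
    (v 0)) (sm 2560 (v 9))) (v 0)) (sm 512 (v 9))) (v 0)) (sm 1536 (v 9))) (v 0)) (sm 512 (v 9)))
    (v 0)) (v 0)) (v 6)) (add (mul (mul (mul (sub (mul (add (mul (sub (mul (sub (mul (sub (sm 6656
    (v 9)) (sm 2560 (v 0))) (v 0)) (sm 3072 (v 9))) (v 0)) (sm 5120 (v 9))) (v 0)) (sm 5632 (v
    9))) (v 0)) (sm 1536 (v 9))) (v 0)) (v 0)) (v 7)) (mul (mul (sub (mul (add (mul (add (mul (sub
    (mul (add (mul (add (mul (sub (sm 256 (v 0)) (sm 2304 (v 9))) (v 0)) (sm 1792 (v 9))) (v 0))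
    (sm 2304 (v 9))) (v 0)) (sm 2304 (v 9))) (v 0)) (sm 256 (v 9))) (v 0)) (sm 256 (v 9))) (v 0))
    (sm 256 (v 9))) (v 0)) (v 8)))) (v 6)) (mul (mul (mul (add (mul (sub (mul (sub (mul (add (sm
    1152 (v 0)) (sm 1536 (v 9))) (v 0)) (sm 256 (v 9))) (v 0)) (sm 512 (v 9))) (v 0)) (sm 128 (v
    9))) (v 0)) (v 8)) (v 7)))) (v 5)) (mul (add (mul (add (mul (mul (mul (add (mul (sub (mul (sub
    (mul (add (mul (sub (sm 256 (v 9)) (sm 256 (v 0))) (v 0)) (sm 512 (v 9))) (v 0)) (sm 512 (v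
    9))) (v 0)) (sm 256 (v 9))) (v 0)) (sm 256 (v 9))) (v 0)) (v 0)) (v 7)) (mul (mul (add (mul
    (sub (mul (sub (mul (sub (mul (add (mul (add (mul (sub (sm 128 (v 9)) (sm 128 (v 0))) (v 0))
    (sm 1664 (v 9))) (v 0)) (sm 1920 (v 9))) (v 0)) (sm 896 (v 9))) (v 0)) (sm 2176 (v 9))) (v 0))
    (sm 640 (v 9))) (v 0)) (sm 128 (v 9))) (v 0)) (v 8))) (v 6)) (mul (mul (neg (mul (add (mul
    (mul (add (mul (add (sm 1280 (v 0)) (sm 2048 (v 9))) (v 0)) (sm 512 (v 9))) (v 0)) (v 0)) (sm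
    256 (v 9))) (v 0))) (v 8)) (v 7))) (v 6))) (v 5)) (mul (mul (mul (mul (mul (add (mul (add (mul
    (add (mul (add (sm 128 (v 0)) (sm 512 (v 9))) (v 0)) (sm 768 (v 9))) (v 0)) (sm 512 (v 9))) (v
    0)) (sm 128 (v 9))) (v 0)) (v 8)) (v 7)) (v 6)) (v 6))

/-- A coefficient. -/
def kap51 : Ex :=
  mul (add (mul (add (mul (add (mul (mul (mul (sub (mul (add (mul (sub (mul (add (mul (sub (mul
    (sub (sm 8192 (v 9)) (sm 1536 (v 0))) (v 0)) (sm 17920 (v 9))) (v 0)) (sm 20480 (v 9))) (v 0))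
    (sm 12800 (v 9))) (v 0)) (sm 4096 (v 9))) (v 0)) (sm 512 (v 9))) (v 0)) (v 0)) (v 5)) (add
    (mul (mul (mul (add (mul (sub (mul (add (mul (add (mul (sub (mul (sub (sm 20480 (v 9)) (sm
    5120 (v 0))) (v 0)) (sm 29696 (v 9))) (v 0)) (sm 16384 (v 9))) (v 0)) (sm 1024 (v 9))) (v 0))
    (sm 4096 (v 9))) (v 0)) (sm 1024 (v 9))) (v 0)) (v 0)) (v 6)) (mul (mul (mul (add (mul (sub
    (mul (mul (sub (sm 3072 (v 9)) (sm 512 (v 0))) (v 0)) (v 0)) (sm 3072 (v 9))) (v 0)) (sm 512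
    (v 9))) (v 0)) (v 0)) (v 8)))) (v 5)) (mul (add (mul (mul (mul (sub (mul (mul (add (mul (sub
    (mul (sub (mul (sub (sm 4096 (v 9)) (sm 1536 (v 0))) (v 0)) (sm 1536 (v 9))) (v 0)) (sm 4096
    (v 9))) (v 0)) (sm 3584 (v 9))) (v 0)) (v 0)) (sm 512 (v 9))) (v 0)) (v 0)) (v 6)) (mul (mul
    (mul (sub (mul (add (mul (mul (sub (sm 1024 (v 0)) (sm 2048 (v 9))) (v 0)) (v 0)) (sm 2048 (v
    9))) (v 0)) (sm 1024 (v 9))) (v 0)) (v 0)) (v 8))) (v 6))) (v 5)) (mul (mul (mul (mul (mul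
    (add (mul (sub (sm 1024 (v 9)) (mul (mul (add (sm 512 (v 0)) (sm 1024 (v 9))) (v 0)) (v 0)))
    (v 0)) (sm 512 (v 9))) (v 0)) (v 0)) (v 8)) (v 6)) (v 6))) (v 5)

/-- A coefficient. -/
def kap60 : Ex :=
  mul (add (mul (add (mul (add (mul (mul (mul (sub (mul (add (mul (sub (mul (add (mul (sub (mul
    (sub (sm 10752 (v 9)) (sm 2304 (v 0))) (v 0)) (sm 20224 (v 9))) (v 0)) (sm 19456 (v 9))) (v
    0)) (sm 9984 (v 9))) (v 0)) (sm 2560 (v 9))) (v 0)) (sm 256 (v 9))) (v 0)) (v 0)) (v 5)) (add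
    (mul (mul (mul (add (mul (sub (mul (add (mul (sub (mul (sub (mul (sub (sm 5120 (v 9)) (sm 1536
    (v 0))) (v 0)) (sm 4608 (v 9))) (v 0)) (sm 2048 (v 9))) (v 0)) (sm 5632 (v 9))) (v 0)) (sm
    3072 (v 9))) (v 0)) (sm 512 (v 9))) (v 0)) (v 0)) (v 6)) (mul (mul (mul (add (mul (sub (mul
    (sub (mul (sub (sm 256 (v 0)) (sm 1024 (v 9))) (v 0)) (sm 2560 (v 9))) (v 0)) (sm 1024 (v 9)))
    (v 0)) (sm 256 (v 9))) (v 0)) (v 0)) (v 8)))) (v 5)) (mul (add (mul (mul (mul (sub (mul (add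
    (mul (add (mul (sub (mul (add (mul (sub (sm 512 (v 9)) (sm 256 (v 0))) (v 0)) (sm 256 (v 9)))
    (v 0)) (sm 1024 (v 9))) (v 0)) (sm 256 (v 9))) (v 0)) (sm 512 (v 9))) (v 0)) (sm 256 (v 9)))
    (v 0)) (v 0)) (v 6)) (mul (mul (mul (sub (mul (mul (sub (sm 1024 (v 9)) (sm 512 (mul (v 0) (v
    0)))) (v 0)) (v 0)) (sm 512 (v 9))) (v 0)) (v 0)) (v 8))) (v 6))) (v 5)) (mul (mul (mul (mul
    (mul (add (mul (add (mul (add (mul (add (sm 256 (v 0)) (sm 1024 (v 9))) (v 0)) (sm 1536 (v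
    9))) (v 0)) (sm 1024 (v 9))) (v 0)) (sm 256 (v 9))) (v 0)) (v 0)) (v 8)) (v 6)) (v 6))) (v 5)

/-- The constant. -/
def kapEx : Ex :=
  add (mul (add (mul (add (mul (add (mul (add (mul (add (mul (kap60) (v 3)) (add (mul (kap51) (v
    4)) (kap50))) (v 3)) (add (mul (add (mul (kap42) (v 4)) (kap41)) (v 4)) (kap40))) (v 3)) (add
    (mul (add (mul (add (mul (kap33) (v 4)) (kap32)) (v 4)) (kap31)) (v 4)) (kap30))) (v 3)) (add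
    (mul (add (mul (add (mul (add (mul (kap24) (v 4)) (kap23)) (v 4)) (kap22)) (v 4)) (kap21)) (v
    4)) (kap20))) (v 3)) (add (mul (add (mul (add (mul (add (mul (add (mul (kap15) (v 4)) (kap14))
    (v 4)) (kap13)) (v 4)) (kap12)) (v 4)) (kap11)) (v 4)) (kap10))) (v 3)) (add (mul (add (mul
    (add (mul (add (mul (add (mul (add (mul (kap06) (v 4)) (kap05)) (v 4)) (kap04)) (v 4))
    (kap03)) (v 4)) (kap02)) (v 4)) (kap01)) (v 4)) (kap00))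

end Pool.Agent.P.MP_48bde8_co_s
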