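import Pool.Agent.P.MP_48bde8_co_s.Tree
import Pool.Agent.P.MP_48bde8_co_s.Prog
import Pool.Agent.P.MP_48bde8_co_s.KapD

/-! Kernel check of the curve identity. -/

namespace Pool.Agent.P.MP_48bde8_co_s

set_option maxRecDepth 10000 in
theorem okC : tchk (2 ^ 64 + 1) (2 ^ 2827 + 1)
    [1, 2, 3, 4, 5, 6, 7, 8, 9, 3] (kapEx :: progC) [102, 103, 104, 105, 106, 107, 108, 109, 128] = true := by
  decide +kernel

end Pool.Agent.P.MP_48bde8_co_s
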