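import Pool.Agent.P.MP_48bde8_co_s.Jac
import Pool.Agent.P.MP_48bde8_co_s.RunC

/-! The run of the curve program at a general point. -/

namespace Pool.Agent.P.MP_48bde8_co_s

variable {F : Type} [Field F]

/-- Weights of the registers of the curve program. -/
def wC : List ℤ :=
  [0, 1, 1, 1, 1, -3, -3, -2, -2, 0, -4, 1, 1, 0, 0, 1, 1, 1, 2, -1, 0, 0, 0, 1, 1, 0, 2, 1, 1, 0,
    3, 1, 2, 2, 0, 0, 6, 4, 6, 6, 6, 5, 4, 2, 6, 7, 4, 9, 10, 12, 11, 12, 16, 0, 2, 2, 8, 1, 2, 2,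
    3, 1, 1, 1, -3, -3, -6, 1, 1, -1, -1, 1, 1, -1, -1, -2, -2, 2, -1, -4, -4, 0, 2, 2, 1, 2, 3, 1,
    2, 3, -1, -1, -1, 0, -4, -3, -3, -2, -1, -3, -6, -5, 9, 10, 11, 3, 10, 20, 10, 1, 2, 1, 3, 2,
    4, 2, 5, 2, 2, 3, 4, 5, 6, 8, 8, 2, 4, 8, 12]

theorem crun0 (p : ℕ → F) (hb : p 2 ≠ 0) (h9 : p 9 = 1) : ∃ κ, ∀ Y, ∃ q : ℕ → F,
    (∀ i < 10, i ≠ 1 → q i = p i) ∧ q 1 = Y ∧ q 10 = κ ∧ Cons q 11 progC ∧
      ∀ i ∈ [102, 103, 104, 105, 106, 107, 108, 109, 128], q i = 0 := by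
  let w : ℕ → ℤ := fun i => wC.getD i 0
  let n : ℕ → F := fun i => p 2 ^ (-w i) * p i
  refine ⟨p 2 ^ w 10 * kapEx.ev n, fun Y => ?_⟩
  obtain ⟨q, q1, q2⟩ := exists_cons (n := 10) (s := kapEx :: progC) (by decide +kernel)
    (Function.update n 1 (p 2 ^ (-w 1) * Y))
  have q3 : ∀ i < 10, i ≠ 1 → q i = n i := fun i hi h1 => by
    rw [q1 i hi, Function.update_of_ne h1]
  have h0 := tchk_ok (y1 := q 0) (y2 := q 1) (xs := fun k => q (k + 3)) okC (fun i hi _ => by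
    have hi' : i < 10 := hi
    interval_cases i
    · rfl
    · rfl
    · exact (q3 2 hi (by decide)).trans (show p 2 ^ (-1 : ℤ) * p 2 = 1 by simp [hb])
    · rfl
    · rfl
    · rfl
    · rfl
    · rfl
    · rfl
    · exact (q3 9 hi (by decide)).trans (show p 2 ^ (0 : ℤ) * p 9 = 1 by simp [h9])) q2
  have k : ∀ i y, p 2 ^ w i * (p 2 ^ (-w i) * y) = y := fun i y => by
    rw [← mul_assoc, ← zpow_add₀ hb, add_neg_cancel, zpow_zero, one_mul]
  refine ⟨fun i => p 2 ^ w i * q i, fun i hi h1 => ?_, ?_, ?_,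
    q2.2.scale hb w (by decide +kernel), fun i hi => ?_⟩ <;> beta_reduce
  · rw [q3 i hi h1, k]
  · rw [q1 1 (by decide), Function.update_self, k]
  · rw [q2.1, ev_congr (p := fun i => Nat.blt i 10 && i != 1) (r' := n) (fun i hi => by
      simp only [Bool.and_eq_true, Nat.blt_eq, bne_iff_ne] at hi
      exact q3 i hi.1 hi.2) (by decide +kernel)]
  · rw [h0 i hi, mul_zero]

theorem crun [IsAlgClosed F] [CharZero F] {r : ℕ → F}
    (h : Cons r 26 (core ++ (core2 ++ coretb))) (h9 : r 9 = 1) (ho : r 22 = 1) (e0 : r 53 = 0)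
    (ha : r 12 ≠ 0) (hb : r 2 ≠ 0) (hP : r 39 ≠ 0) :
    ∃ q : ℕ → F, (∀ i ∈ [2, 8, 9, 12, 18, 19, 22, 23, 24, 25], q i = r i) ∧
      (∀ i, 26 ≤ i → i < 63 → q i = r i) ∧ Cons q 11 preC ∧ Cons q 63 restC ∧
      (∀ i ∈ [102, 103, 104, 105, 106, 107, 108, 109], q i = 0) ∧
      ∀ Y, ∃ q' : ℕ → F, (∀ i < 110, i ≠ 1 → q' i = q i) ∧ q' 1 = Y ∧ Cons q' 11 progC ∧
        q' 128 = 0 := by
  obtain ⟨s, hs⟩ := IsAlgClosed.exists_pow_nat_eq (r 12 / r 2) two_pos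
  have h1 := ((cons_append ..).1 h).1
  simp only [core, Cons, Ex.ev, Nat.cast_ofNat, Nat.reduceAdd, h9, ho] at h1
  obtain ⟨h26, h27, h28, -, h30, h31, h32, -, -, -, h36, h37, h38, h39, -, -, -, -, -, -, -, -, -,
    -, -, -, -, h53, -⟩ := h1
  have a1 : r 12 = s ^ 2 * r 2 := by rw [hs]; field_simp
  have s0 : s ≠ 0 := fun h => ha (by rw [a1, h]; ring)
  obtain ⟨k1, k2, c1, c2⟩ : ∃ k1 k2, r 18 = -(2 * (r 2 * ((s - 1) * k1 + (s + 1) * k2))) ∧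
      r 23 = 2 * (k2 - k1) - (r 12 - r 2) :=
    ⟨((-r 18 / (2 * r 2) - r 31 / 2) / s - r 31 / 2) / 2,
      ((-r 18 / (2 * r 2) - r 31 / 2) / s + r 31 / 2) / 2, by field_simp; ring,
      by rw [h31, h27]; ring⟩
  have a2 : r 39 = 16 * (s * r 2) ^ 4 * ((s - 1) * k1) * ((s + 1) * k2) := by
    rw [h39, h36, h38, h37, h32, h31, h30, h27, h26, c1, c2, a1]; ring
  have n1 : (s - 1) * k1 ≠ 0 := fun h => hP (by rw [a2, h]; ring)
  have n2 : (s + 1) * k2 ≠ 0 := fun h => hP (by rw [a2, h]; ring)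
  generalize hm : s - 1 = m at n1 c1
  generalize hp : s + 1 = p at n2 c1
  obtain ⟨lam, c3⟩ : ∃ lam, r 19 = lam * r 2 := ⟨r 19 / r 2, by field_simp⟩
  obtain ⟨A1, A2, c4, c5⟩ : ∃ A1 A2, 1 = 2 * (lam * (s * r 2) * (s * r 2 - m * k1 + p * k2)) -
      A1 - A2 - r 8 * (r 12 - r 2) * (r 12 - r 2) ∧
      r 24 = 2 * (s * r 2 * (A1 - A2 + lam * (s * r 2) * (m * k1 + p * k2))) :=
    ⟨(2 * (lam * (s * r 2) * (s * r 2 - m * k1 + p * k2)) - r 8 * (r 12 - r 2) ^ 2 - 1) / 2 +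
        (r 24 / (2 * s * r 2) - lam * (s * r 2) * (m * k1 + p * k2)) / 2,
      (2 * (lam * (s * r 2) * (s * r 2 - m * k1 + p * k2)) - r 8 * (r 12 - r 2) ^ 2 - 1) / 2 -
        (r 24 / (2 * s * r 2) - lam * (s * r 2) * (m * k1 + p * k2)) / 2,
      by ring, by field_simp; ring⟩
  obtain ⟨al, c6⟩ : ∃ al, A1 = 4 * (s * r 2 * (m * k1) * (m * k1) * al) :=
    ⟨A1 / (4 * (s * r 2 * (m * k1) * (m * k1))), by
      generalize m * k1 = y at n1
      field_simp⟩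
  obtain ⟨be, c7⟩ : ∃ be, A2 = -(4 * (s * r 2 * (p * k2) * (p * k2) * be)) :=
    ⟨-A2 / (4 * (s * r 2 * (p * k2) * (p * k2))), by
      generalize p * k2 = y at n2
      field_simp⟩
  obtain ⟨κ, hκ⟩ := crun0 (fun i => [s, 0, r 2, k1, k2, al, be, lam, r 8, 1].getD i 0) hb rfl
  obtain ⟨q, q1, -, q2, q3, q4⟩ := hκ 0
  obtain ⟨d1, d2, d3, d4, d5, -⟩ := progC_iff.1 q3
  have d6 := d1
  have g0 : q 0 = s := q1 0 (by decide) (by decide)
  have g2 : q 2 = r 2 := q1 2 (by decide) (by decide)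
  have g3 : q 3 = k1 := q1 3 (by decide) (by decide)
  have g4 : q 4 = k2 := q1 4 (by decide) (by decide)
  have g5 : q 5 = al := q1 5 (by decide) (by decide)
  have g6 : q 6 = be := q1 6 (by decide) (by decide)
  have g7 : q 7 = lam := q1 7 (by decide) (by decide)
  have g8 : q 8 = r 8 := q1 8 (by decide) (by decide)
  have g9 : q 9 = 1 := q1 9 (by decide) (by decide)
  simp only [preC, Cons, Ex.ev, Nat.cast_ofNat, Nat.reduceAdd, g0, g2, g3, g4, g5, g6, g7, g8, g9,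
    hm, hp] at d6
  obtain ⟨g11, g12, g13, g14, g15, g16, g17, g18, g19, g20, g21, g22, g23, g24, g25, -⟩ := d6
  rw [g13] at g15
  rw [g14] at g16
  rw [g15, g16] at g17
  rw [g11, g15, ← c6] at g20
  rw [g11, g16, ← c7] at g21
  replace g12 : q 12 = r 12 := by rw [g12, g11, a1]; ring
  rw [g17, ← c1] at g18
  rw [g12, ← c2] at g23
  have hI : ∀ i ∈ [2, 8, 9, 12, 18, 19, 22, 23, 24, 25], q i = r i := by
    simp only [List.forall_mem_cons]
    refine ⟨g2, g8, g9.trans h9.symm, g12, g18, g19.trans c3.symm, ?_, g23, ?_, ?_, by simp⟩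
    · rw [g22, g11, g15, g16, g20, g21, g12, ho, ← c4]
    · rw [g24, g11, g20, g21, g17, ← c5]
    · rw [g25, g12, g23, g18]
      rw [h31, h28, h27] at h53
      linear_combination h53 - e0
  refine ⟨q, hI, fun i h1 h2 => Cons.agree (by decide +kernel)
    ((cons_append ..).2 ⟨d2, (cons_append ..).2 ⟨d3, d4⟩⟩) h hI (fun j _ _ => by omega) i h1 h2,
    d1, d5, fun i hi => q4 i (List.mem_append_left [128] hi), fun Y => ?_⟩
  obtain ⟨q', p1, p2, p3, p4, p5⟩ := hκ Y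
  have e : ∀ q : ℕ → F, Cons q 11 progC →
      Cons q 11 (preC ++ (core ++ (core2 ++ (coretb ++ restC)))) := fun q h => by
    obtain ⟨d1, d2, d3, d4, d5, -⟩ := progC_iff.1 h
    simp only [cons_append]
    exact ⟨d1, d2, d3, d4, d5⟩
  have hJ : ∀ i < 11, i ≠ 1 → q' i = q i := fun i hi h1 => by
    rcases Nat.lt_succ_iff_lt_or_eq.1 hi with h2 | rfl
    · rw [p1 i h2 h1, q1 i h2 h1]
    · rw [p3, q2]
  refine ⟨q', fun i hi h1 => ?_, p2, p4, p5 128 (by simp)⟩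
  by_cases h2 : i < 11
  · exact hJ i h2 h1
  · exact Cons.agree (I := [0, 2, 3, 4, 5, 6, 7, 8, 9, 10]) (n0 := 11) (by decide +kernel)
      (e q' p4) (e q q3) (fun j hj => hJ j (by revert j; decide) (by revert j; decide))
      (fun j _ _ => by omega) i (by omega) hi

end Pool.Agent.P.MP_48bde8_co_s
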