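import Pool.Agent.P.MP_48bde8_co.Defs

/-!
Definitions used in the statement of the parametrisation for MP_48bde8_co: nine explicit
equations in nine unknowns `a, b, k, e, g, l, L, ν, μ`, the rational expression of the generating
function, the initial terms, and the eliminant.
-/

namespace Pool.Agent.P.MP_48bde8_co_s

open MvPolynomial MP_48bde8_co

section

variable {R : Type*} [CommRing R]

/-- Auxiliary polynomials `c, η, ϑ, ϖ, G, Λ, Q, p, D, H, P, S, Θ, T, Ψ`. -/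
def aux (x z : R) (u : Fin 9 → R) : Fin 15 → R :=
  let a := u 0; let b := u 1; let k := u 2; let e := u 3; let g := u 4; let l := u 5
  let c := z + x * k
  let η := a * b
  let ϑ := a - b
  let ϖ := a + b
  let G := k - g * ϑ ^ 2 * ϖ
  let Λ := a * l
  let Q := -(a * e)
  let p := c + x * ϑ
  let D := e - ϑ * p
  let H := 2 * x * Λ - 1 - g * ϑ ^ 2
  let P := Q ^ 2 - η * D ^ 2
  let S := Q ^ 2 + η * D ^ 2
  ![c, η, ϑ, ϖ, G, Λ, Q, p, D, H, P, S, H * S - Q * D * G - Λ * D ^ 3, G * S - 4 * η * Q * D * H,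
    x * (Q * G - 2 * η * D * H + Λ * D ^ 2) + P * g]

/-- Auxiliary polynomials `d, r, v, M, T₀, t`. -/
def aux2 (x z : R) (u : Fin 9 → R) : Fin 6 → R :=
  let b := u 1; let k := u 2; let e := u 3; let g := u 4; let l := u 5
  let A := aux x z u
  let η := A 1; let ϑ := A 2; let ϖ := A 3; let G := A 4; let Λ := A 5; let Q := A 6
  let p := A 7; let D := A 8; let H := A 9; let P := A 10; let S := A 11; let Θ := A 12
  let T := A 13; let Ψ := A 14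
  ![η * T - Λ * Q * (Q ^ 2 - 3 * η * D ^ 2), Q * T + Λ * D ^ 2 * S,
    G * D * (4 * x * η * P + D * Q ^ 2) - H * Q * (8 * x * η * P + D * S) +
      Λ * Q * D * (4 * x * P + D ^ 3) - 2 * g * ϖ * P ^ 2,
    Θ ^ 2 * D ^ 2 - 8 * P * Θ * Ψ,
    2 * Ψ ^ 2 - Θ * (x * ((D + 4 * x * η) * H - 4 * x * Λ * D) + g * (e + ϖ * p) ^ 2),
    2 * (x - z) * (l * (2 * D - e + x * (2 * b ^ 2 - 6 * η)) + ϖ - k) + ϑ ^ 2 *
      (4 * (x - z) * g * ϖ - g ^ 2 * (e * (3 * ϖ + ϑ) + p * (3 * ϖ ^ 2 - ϑ ^ 2) + 4 * x * η * ϑ))]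

/-- The nine equations. -/
def sys (x z : R) (u : Fin 9 → R) : Fin 9 → R :=
  let k := u 2; let e := u 3; let g := u 4; let L := u 6; let ν := u 7; let μ := u 8
  let A := aux x z u; let B := aux2 x z u
  let c := A 0; let η := A 1; let ϑ := A 2; let ϖ := A 3; let G := A 4; let Λ := A 5
  let Q := A 6; let p := A 7; let D := A 8; let H := A 9; let P := A 10; let Θ := A 12
  let d := B 0; let r := B 1; let v := B 2
  let w := 1 + z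
  let m := x * z * (x * w + z)
  let n₁ := z * (x - c)
  let n₂ := m - 2 * c * x * z + c ^ 2 * z
  let n₃ := x * z * (x ^ 2 * w ^ 3 + 3 * x * z * w + z ^ 2) - 3 * c * m + 3 * c ^ 2 * x * z -
    c ^ 3 * z
  let s₁ := x * z ^ 2
  let s₂ := z ^ 2 * (x * w - c)
  let s₃ := x * z ^ 2 * (2 * x * w + z - 2 * c)
  let t₀ := ν * n₁ + μ * z
  let t₁ := L * s₁ + ν * n₂ + μ * n₁
  let t₂ := L * s₃ + ν * n₃ + μ * n₂
  let q₂ := ν ^ 2 - 4 * Θ ^ 2 * η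
  let q₁ := 2 * ν * μ - 4 * Θ ^ 2 * Q
  let q₀ := μ ^ 2 - B 3
  ![g * (ϖ * (p + x * ϑ) + e) + x - z,
    z * w + x * k ^ 2 - D + x * η - x * (2 * Λ * D - 3 * η * H - g * ϑ ^ 2 * (ϖ ^ 2 - η)),
    z * w ^ 3 - 3 * k * z * w - x * k ^ 3 + 2 * (D - x * η) * k - Q -
      x * (Λ * Q - 2 * η * G - g * ϑ ^ 2 * ϖ * (ϖ ^ 2 - 2 * η)),
    t₀ - B 4,
    ϑ ^ 2 * (Q * t₀ + 2 * η * t₁ + 2 * d * n₂ + 2 * r * n₁ + v * z) - P ^ 2 * B 5,
    ϑ ^ 2 * (Q * t₁ + 2 * η * t₂ + 2 * d * n₃ + 2 * r * n₂ + v * n₁ + 2 * P ^ 2 * x * z) +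
      c * P ^ 2 * B 5,
    L ^ 2 * z ^ 2 + 2 * L * ν * s₁ + q₂ * n₂ + q₁ * n₁ + q₀ * z,
    L ^ 2 * s₂ + 2 * L * ν * s₃ + 2 * L * μ * s₁ + q₂ * n₃ + q₁ * n₂ + q₀ * n₁,
    L * (2 * L * ν * s₂ + 2 * L * μ * z ^ 2 + q₂ * s₃ + q₁ * s₁) - 8 * Θ ^ 2 * P ^ 2 * z ^ 2]

/-- The denominator `8 (1 + z) Θ² P²`. -/
def den (x z : R) (u : Fin 9 → R) : R := 8 * (1 + z) * aux x z u 12 ^ 2 * aux x z u 10 ^ 2

/-- The numerator. -/
def num (x z : R) (u : Fin 9 → R) : R :=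
  let L := u 6; let ν := u 7
  let A := aux x z u; let B := aux2 x z u
  let c := A 0; let η := A 1; let Θ := A 12; let d := B 0
  let m := u 8 - ν * c
  let N := 8 * Θ ^ 2 * A 10 ^ 2
  let y := 4 * Θ ^ 2 * (A 6 - 2 * η * c)
  let t := 4 * Θ ^ 2 * η - ν ^ 2
  N * x ^ 2 * z ^ 4 - (1 + z) * x * z ^ 2 * (L * (y - 2 * ν * m) - N +
    x * (8 * Θ ^ 2 * (B 1 - 2 * c * d) + 2 * ν * y + 2 * m * t) - 2 * z * L ^ 2 * ν +
    (2 * x + z + 6 * x * z) * L * t +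
    2 * x * (z + x * (1 + 2 * z + z ^ 2)) * (8 * Θ ^ 2 * d + ν * (3 * t + 2 * ν ^ 2)))

/-- The initial terms of the nine series. -/
def init (x z : R) : Fin 9 → R :=
  ![-1 - z - x * z ^ 2 * (1 + z) - 2 * x ^ 2 * z ^ 3 * (1 + 2 * z + z ^ 2) -
      x ^ 3 * z ^ 4 * (6 + 20 * z),
    -x ^ 5 * z ^ 6,
    (1 + z) ^ 2 + x * z ^ 2 * (2 + 3 * z + z ^ 2) + x ^ 2 * z ^ 3 * (3 + 10 * z + 10 * z ^ 2) +
      x ^ 3 * z ^ 4 * (8 + 41 * z),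
    x * z ^ 2 * (1 + z) + x ^ 2 * z ^ 3 * (1 + 2 * z + z ^ 2) + x ^ 3 * z ^ 4 * (2 + 7 * z) +
      4 * x ^ 4 * z ^ 5,
    -1 + z - z ^ 2 + z ^ 3 - z ^ 4 + z ^ 5 - z ^ 6 + x * z ^ 2 * (1 - z + z ^ 2 - z ^ 3 + z ^ 4) +
      x ^ 2 * z ^ 3 * (3 - 2 * z + 2 * z ^ 2) + x ^ 3 * z ^ 4 * (10 + 2 * z),
    0,
    x ^ 3 * z ^ 6 * (2 + 12 * z + 30 * z ^ 2 + 40 * z ^ 3) +
      x ^ 4 * z ^ 7 * (8 + 60 * z + 192 * z ^ 2) + 24 * x ^ 5 * z ^ 8,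
    0,
    x ^ 2 * z ^ 6 * (1 + 6 * z + 15 * z ^ 2 + 20 * z ^ 3 + 15 * z ^ 4) +
      x ^ 3 * z ^ 6 * (1 + 10 * z + 45 * z ^ 2 + 116 * z ^ 3) +
      x ^ 4 * z ^ 7 * (5 + 48 * z + 225 * z ^ 2) + 16 * x ^ 5 * z ^ 8]

end

/-- The orders up to which the initial terms are given (`x` has weight one, `z` weight two). -/
def ord : Fin 9 → ℕ := ![14, 18, 14, 15, 14, 15, 23, 24, 23]

/-- The polynomial `P ∈ ℚ[x,z][w]`: the eliminant of `den w - num` and the nine equations. -/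
noncomputable def poly9 : Rw :=
  let x : MvPolynomial (Fin 9) Rw := C (Polynomial.C (X 0))
  let z : MvPolynomial (Fin 9) Rw := C (Polynomial.C (X 1))
  eliminant (den x z X * C Polynomial.X - num x z X) (sys x z X)

/-- The series `F(x, u x²) ∈ ℚ(u)[[x]]`. -/
noncomputable def Fu : PowerSeries (RatFunc ℚ) :=
  PowerSeries.mk fun n =>
    ∑ j ∈ Finset.range (n / 2 + 1), (m (n - 2 * j) j : RatFunc ℚ) * RatFunc.X ^ j

/-- The series `z = u x²`. -/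
noncomputable def zu : PowerSeries (RatFunc ℚ) := PowerSeries.C RatFunc.X * PowerSeries.X ^ 2

end Pool.Agent.P.MP_48bde8_co_s
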