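import Pool.Agent.P.MP_48bde8_co_s.Ex

/-! Digit lemmas for polynomials packed into integers. -/

namespace Pool.Agent.P.MP_48bde8_co_s

open Polynomial

/-- Polynomials in two variables with natural coefficients. -/
abbrev A2 : Type := Polynomial (Polynomial ℕ)

section

variable {S S' : Type} [CommSemiring S] [CommSemiring S']

/-- Evaluation of the inner variable. -/
noncomputable def ev1 (s : S) : Polynomial ℕ →+* S := eval₂RingHom (Nat.castRingHom S) s

/-- Evaluation of both variables. -/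
noncomputable def hm (s1 s2 : S) : A2 →+* S := eval₂RingHom (ev1 s1) s2

@[simp] theorem ev1_X (s : S) : ev1 s X = s := by simp [ev1]

@[simp] theorem ev1_C (s : S) (n : ℕ) : ev1 s (C n) = n := by simp [ev1]

@[simp] theorem hm_X (s1 s2 : S) : hm s1 s2 X = s2 := by simp [hm]

@[simp] theorem hm_C (s1 s2 : S) (p : Polynomial ℕ) : hm s1 s2 (C p) = ev1 s1 p := by simp [hm]

theorem map_ev1 (χ : S →+* S') (s : S) (p : Polynomial ℕ) : χ (ev1 s p) = ev1 (χ s) p := by
  have : χ.comp (ev1 s) = ev1 (χ s) := Polynomial.ringHom_ext (fun a => by simp) (by simp)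
  exact congrArg (fun f : Polynomial ℕ →+* S' => f p) this

theorem map_hm (χ : S →+* S') (s1 s2 : S) (p : A2) : χ (hm s1 s2 p) = hm (χ s1) (χ s2) p := by
  have : χ.comp (hm s1 s2) = hm (χ s1) (χ s2) :=
    Polynomial.ringHom_ext (fun a => by simp [map_ev1]) (by simp)
  exact congrArg (fun f : A2 →+* S' => f p) this

theorem ev1_divX (s : S) (p : Polynomial ℕ) : ev1 s p = s * ev1 s p.divX + (p.coeff 0 : ℕ) := by
  conv_lhs => rw [← X_mul_divX_add p]
  simp

theorem hm_divX (s1 s2 : S) (p : A2) :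
    hm s1 s2 p = s2 * hm s1 s2 p.divX + ev1 s1 (p.coeff 0) := by
  conv_lhs => rw [← X_mul_divX_add p]
  rw [map_add, map_mul, hm_X, hm_C]

end

theorem dig1 {B : ℕ} (n : ℕ) : ∀ p q : Polynomial ℕ, p.natDegree ≤ n → q.natDegree ≤ n →
    ev1 B p = ev1 B q → ev1 1 p < B → ev1 1 q < B → p = q := by
  induction n with
  | zero =>
    intro p q hp hq h _ _
    rw [eq_C_of_natDegree_le_zero hp, eq_C_of_natDegree_le_zero hq] at h ⊢
    simpa using h
  | succ n ih =>
    intro p q hp hq h h1 h2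
    rw [ev1_divX _ p, ev1_divX _ q] at h
    rw [ev1_divX] at h1 h2
    simp only [Nat.cast_id, one_mul] at h h1 h2
    have h3 : p.coeff 0 = q.coeff 0 := by
      have h4 := congrArg (· % B) h
      simp only [Nat.mul_add_mod] at h4
      rwa [Nat.mod_eq_of_lt (by omega), Nat.mod_eq_of_lt (by omega)] at h4
    have h5 : p.divX = q.divX := by
      refine ih _ _ ?_ ?_ ?_ (by omega) (by omega)
      · rw [natDegree_divX_eq_natDegree_tsub_one]; omega
      · rw [natDegree_divX_eq_natDegree_tsub_one]; omega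
      · rw [h3] at h
        exact Nat.eq_of_mul_eq_mul_left (by omega) (Nat.add_right_cancel h)
    rw [← X_mul_divX_add p, ← X_mul_divX_add q, h3, h5]

theorem dig1' {B : ℕ} {p q : Polynomial ℕ} (h : ev1 B p = ev1 B q) (h1 : ev1 1 (p + q) < B) :
    p = q := by
  rw [map_add] at h1
  exact dig1 (max p.natDegree q.natDegree) p q (le_max_left _ _) (le_max_right _ _) h
    (by omega) (by omega)

theorem dig2 {B1 B2 : ℕ} (n : ℕ) : ∀ p q : A2, p.natDegree ≤ n → q.natDegree ≤ n →
    hm B1 B2 p = hm B1 B2 q → hm 1 1 (p + q) < B1 → hm B1 1 (p + q) < B2 → p = q := by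
  induction n with
  | zero =>
    intro p q hp hq h h1 _
    rw [eq_C_of_natDegree_le_zero hp, eq_C_of_natDegree_le_zero hq] at h h1 ⊢
    rw [← map_add] at h1
    simp only [hm_C] at h h1
    rw [dig1' h h1]
  | succ n ih =>
    intro p q hp hq h h1 h2
    rw [hm_divX _ _ p, hm_divX _ _ q] at h
    rw [map_add, hm_divX _ _ p, hm_divX _ _ q] at h1 h2
    simp only [one_mul] at h1 h2
    have h3 : ev1 B1 (p.coeff 0) = ev1 B1 (q.coeff 0) := by
      have h4 := congrArg (· % B2) h
      simp only [Nat.mul_add_mod] at h4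
      rwa [Nat.mod_eq_of_lt (by omega), Nat.mod_eq_of_lt (by omega)] at h4
    have h5 : p.divX = q.divX := by
      refine ih _ _ ?_ ?_ ?_ (by rw [map_add]; omega) (by rw [map_add]; omega)
      · rw [natDegree_divX_eq_natDegree_tsub_one]; omega
      · rw [natDegree_divX_eq_natDegree_tsub_one]; omega
      · rw [h3] at h
        exact Nat.eq_of_mul_eq_mul_left (by omega) (Nat.add_right_cancel h)
    rw [← X_mul_divX_add p, ← X_mul_divX_add q, dig1' h3 (by rw [map_add]; omega), h5]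

theorem dig2' {B1 B2 : ℕ} {p q : A2} (h : hm B1 B2 p = hm B1 B2 q) (h1 : hm 1 1 (p + q) < B1)
    (h2 : hm B1 1 (p + q) < B2) : p = q :=
  dig2 (max p.natDegree q.natDegree) p q (le_max_left _ _) (le_max_right _ _) h h1 h2

/-- One step of the truncated digit extraction. -/
theorem dig0 {B1 B2 : ℕ} {w0 w1 : NNReal} {p q : A2}
    (h : (B2 : ℤ) ∣ hm (B1 : ℤ) B2 p - hm (B1 : ℤ) B2 q) (h1 : hm 1 w0 (p + q) < B1)
    (h2 : hm (B1 : NNReal) w1 (p + q) < B2) : p.coeff 0 = q.coeff 0 := by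
  have c1 : ∀ (s : ℕ) (y : Polynomial ℕ), ev1 (s : ℤ) y = (ev1 s y : ℕ) := fun s y =>
    (map_ev1 (Nat.castRingHom ℤ) s y).symm
  have c2 : ∀ (s : ℕ) (y : Polynomial ℕ), ev1 (s : NNReal) y = (ev1 s y : ℕ) := fun s y =>
    (map_ev1 (Nat.castRingHom NNReal) s y).symm
  rw [hm_divX, coeff_add] at h1 h2
  have h3 : ev1 1 (p.coeff 0 + q.coeff 0) < B1 := by
    have := lt_of_le_of_lt le_add_self h1
    rw [← Nat.cast_one (R := NNReal), c2] at this
    exact_mod_cast this
  have h4 : ev1 B1 (p.coeff 0 + q.coeff 0) < B2 := by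
    have := lt_of_le_of_lt le_add_self h2
    rw [c2] at this
    exact_mod_cast this
  refine dig1' ?_ h3
  rw [hm_divX _ _ p, hm_divX _ _ q, c1, c1] at h
  have h5 : (B2 : ℤ) ∣ (ev1 B1 (p.coeff 0) : ℕ) - (ev1 B1 (q.coeff 0) : ℕ) := by
    have := h.sub (dvd_mul_right (B2 : ℤ) (hm (B1 : ℤ) B2 p.divX - hm (B1 : ℤ) B2 q.divX))
    exact this.trans (dvd_of_eq (by ring))
  rw [map_add] at h4
  have h6 := Int.eq_zero_of_abs_lt_dvd h5 (by rw [abs_lt]; constructor <;> omega)
  omega

end Pool.Agent.P.MP_48bde8_co_s
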