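import Mathlib

/-! Straight-line programs over a commutative ring. -/

namespace Pool.Agent.P.MP_48bde8_co_s

/-- Polynomial expressions in registers. -/
inductive Ex : Type
  | v (i : ℕ) : Ex
  | add (a b : Ex) : Ex
  | sub (a b : Ex) : Ex
  | neg (a : Ex) : Ex
  | mul (a b : Ex) : Ex
  | sm (c : ℕ) (a : Ex) : Ex

variable {R R' : Type} [CommRing R] [CommRing R']

/-- The value of an expression. -/
def Ex.ev (r : ℕ → R) : Ex → R
  | .v i => r i
  | .add a b => a.ev r + b.ev r
  | .sub a b => a.ev r - b.ev r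
  | .neg a => -a.ev r
  | .mul a b => a.ev r * b.ev r
  | .sm c a => (c : R) * a.ev r

/-- The registers from `n` on hold the values of the steps. -/
def Cons (r : ℕ → R) : ℕ → List Ex → Prop
  | _, [] => True
  | n, e :: s => r n = e.ev r ∧ Cons r (n + 1) s

theorem cons_append (r : ℕ → R) (s t : List Ex) (n : ℕ) :
    Cons r n (s ++ t) ↔ Cons r n s ∧ Cons r (n + s.length) t := by
  induction s generalizing n with
  | nil => simp [Cons]
  | cons e s ih =>
    simp only [List.cons_append, Cons, ih, List.length_cons, and_assoc]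
    rw [show n + 1 + s.length = n + (s.length + 1) by omega]

theorem map_ev (ψ : R →+* R') (r : ℕ → R) (e : Ex) : ψ (e.ev r) = e.ev fun i => ψ (r i) := by
  induction e <;> simp [Ex.ev, *]

theorem Cons.map (ψ : R →+* R') {r : ℕ → R} {n : ℕ} {s : List Ex} (h : Cons r n s) :
    Cons (fun i => ψ (r i)) n s := by
  induction s generalizing n with
  | nil => trivial
  | cons e s ih => exact ⟨by rw [← map_ev, ← h.1], ih h.2⟩

/-- All registers read satisfy `p`. -/
def Ex.ok (p : ℕ → Bool) : Ex → Bool
  | .v i => p i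
  | .add a b => a.ok p && b.ok p
  | .sub a b => a.ok p && b.ok p
  | .neg a => a.ok p
  | .mul a b => a.ok p && b.ok p
  | .sm _ a => a.ok p

theorem ev_congr {p : ℕ → Bool} {r r' : ℕ → R} (h : ∀ i, p i = true → r i = r' i) {e : Ex}
    (he : e.ok p = true) : e.ev r = e.ev r' := by
  induction e with
  | v i => exact h i he
  | add a b iha ihb =>
    simp only [Ex.ok, Bool.and_eq_true] at he
    simp only [Ex.ev, iha he.1, ihb he.2]
  | sub a b iha ihb =>
    simp only [Ex.ok, Bool.and_eq_true] at he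
    simp only [Ex.ev, iha he.1, ihb he.2]
  | neg a iha => simp only [Ex.ev, iha he]
  | mul a b iha ihb =>
    simp only [Ex.ok, Bool.and_eq_true] at he
    simp only [Ex.ev, iha he.1, ihb he.2]
  | sm c a iha => simp only [Ex.ev, iha he]

/-- Every step reads only registers in `I` or earlier registers from `n0` on. -/
def wf (I : List ℕ) (n0 : ℕ) : ℕ → List Ex → Bool
  | _, [] => true
  | n, e :: s => e.ok (fun i => I.elem i || (Nat.ble n0 i && Nat.blt i n)) && wf I n0 (n + 1) s

theorem Cons.agree {I : List ℕ} {n0 n : ℕ} {s : List Ex} (hw : wf I n0 n s = true) {r r' : ℕ → R}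
    (h : Cons r n s) (h' : Cons r' n s) (hI : ∀ i ∈ I, r i = r' i)
    (h0 : ∀ i, n0 ≤ i → i < n → r i = r' i) : ∀ i, n0 ≤ i → i < n + s.length → r i = r' i := by
  induction s generalizing n with
  | nil => exact h0
  | cons e s ih =>
    simp only [wf, Bool.and_eq_true] at hw
    have h1 : r n = r' n := by
      rw [h.1, h'.1]
      refine ev_congr (fun i hi => ?_) hw.1
      simp only [Bool.or_eq_true, Bool.and_eq_true, Nat.ble_eq, Nat.blt_eq, List.elem_iff] at hi
      exact hi.elim (hI i) fun hi => h0 i hi.1 hi.2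
    intro i hi hi'
    refine ih hw.2 h.2 h'.2 (fun j hj hj' => ?_) i hi (by simp only [List.length_cons] at hi'; omega)
    rcases Nat.lt_succ_iff_lt_or_eq.1 hj' with h2 | rfl
    · exact h0 j hj h2
    · exact h1

theorem exists_cons {n : ℕ} {s : List Ex} (hw : wf [] 0 n s = true) (r : ℕ → R) :
    ∃ r' : ℕ → R, (∀ i < n, r' i = r i) ∧ Cons r' n s := by
  induction s generalizing n r with
  | nil => exact ⟨r, fun _ _ => rfl, trivial⟩
  | cons e s ih =>
    simp only [wf, Bool.and_eq_true] at hw
    obtain ⟨r', h1, h2⟩ := ih hw.2 (Function.update r n (e.ev r))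
    have h3 : ∀ i < n, r' i = r i := fun i hi => by
      rw [h1 i (by omega), Function.update_of_ne (by omega)]
    refine ⟨r', h3, ?_, h2⟩
    rw [h1 n (by omega), Function.update_self]
    refine ev_congr (fun i hi => ?_) hw.1
    simp only [Bool.or_eq_true, Bool.and_eq_true, Nat.ble_eq, Nat.blt_eq, List.elem_iff,
      List.not_mem_nil, false_or] at hi
    exact (h3 i hi.2).symm

/-- The weight of an expression. -/
def Ex.wt (w : ℕ → ℤ) : Ex → ℤ
  | .v i => w i
  | .add a _ => a.wt w
  | .sub a _ => a.wt w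
  | .neg a => a.wt w
  | .mul a b => a.wt w + b.wt w
  | .sm _ a => a.wt w

/-- The expression is homogeneous. -/
def Ex.hom (w : ℕ → ℤ) : Ex → Bool
  | .v _ => true
  | .add a b => a.hom w && b.hom w && a.wt w == b.wt w
  | .sub a b => a.hom w && b.hom w && a.wt w == b.wt w
  | .neg a => a.hom w
  | .mul a b => a.hom w && b.hom w
  | .sm _ a => a.hom w

/-- The program is homogeneous. -/
def homP (w : ℕ → ℤ) : ℕ → List Ex → Bool
  | _, [] => true
  | n, e :: s => e.hom w && e.wt w == w n && homP w (n + 1) s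

theorem ev_scale {L : Type} [Field L] {u : L} (hu : u ≠ 0) (w : ℕ → ℤ) (r : ℕ → L) {e : Ex}
    (he : e.hom w = true) : e.ev (fun i => u ^ w i * r i) = u ^ e.wt w * e.ev r := by
  induction e with
  | v i => rfl
  | add a b iha ihb =>
    simp only [Ex.hom, Bool.and_eq_true, beq_iff_eq] at he
    simp only [Ex.ev, Ex.wt, iha he.1.1, ihb he.1.2, ← he.2, mul_add]
  | sub a b iha ihb =>
    simp only [Ex.hom, Bool.and_eq_true, beq_iff_eq] at he
    simp only [Ex.ev, Ex.wt, iha he.1.1, ihb he.1.2, ← he.2, mul_sub]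
  | neg a iha => simp only [Ex.ev, Ex.wt, iha he, mul_neg]
  | mul a b iha ihb =>
    simp only [Ex.hom, Bool.and_eq_true] at he
    simp only [Ex.ev, Ex.wt, iha he.1, ihb he.2, zpow_add₀ hu]
    ring
  | sm c a iha =>
    simp only [Ex.ev, Ex.wt, iha he]
    ring

theorem Cons.scale {L : Type} [Field L] {u : L} (hu : u ≠ 0) (w : ℕ → ℤ) {r : ℕ → L} {n : ℕ}
    {s : List Ex} (hw : homP w n s = true) (h : Cons r n s) :
    Cons (fun i => u ^ w i * r i) n s := by
  induction s generalizing n with
  | nil => trivial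
  | cons e s ih =>
    simp only [homP, Bool.and_eq_true, beq_iff_eq] at hw
    exact ⟨by rw [ev_scale hu w r hw.1.1, hw.1.2, ← h.1], ih hw.2 h.2⟩

end Pool.Agent.P.MP_48bde8_co_s
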