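import Pool.Agent.P.MP_48bde8_co_s.Ser

/-! The parametrisation over the field of rational functions. -/

namespace Pool.Agent.P.MP_48bde8_co_s

open MP_48bde8_co MP_48bde8_co.Exist PowerSeries

theorem param_gen {K : Type} [Field K] [Algebra ℚ K] {u : K} (hu : Transcendental ℚ u) :
    ∃ U : Fin 9 → K⟦X⟧, (∀ V : Fin 9 → K⟦X⟧, ((∀ j, X ^ ord j ∣ V j - init X (C u * X ^ 2) j) ∧
      sys X (C u * X ^ 2) V = 0) ↔ V = U) ∧ den X (C u * X ^ 2) U ≠ 0 ∧
      den X (C u * X ^ 2) U * (mk fun n => ∑ j ∈ Finset.range (n / 2 + 1),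
        (m (n - 2 * j) j : K) * u ^ j) = num X (C u * X ^ 2) U := by
  have h0 : u ≠ 0 := by
    rintro rfl
    exact hu isAlgebraic_zero
  let k := AlgebraicClosure K
  obtain ⟨σ, hσ⟩ := IsAlgClosed.exists_pow_nat_eq (-algebraMap K k u) two_pos
  have ht : Transcendental ℚ σ := fun h => hu (by
    have h1 := (h.pow 2).neg
    rw [hσ, neg_neg] at h1
    exact (isAlgebraic_algebraMap_iff (algebraMap K k).injective).1 h1)
  have s0 : σ ≠ 0 := by
    rintro rfl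
    exact ht isAlgebraic_zero
  have hC := cpl_powerSeries K
  have u2 : IsUnit (2 : K⟦X⟧) := .of_mul_eq_one _ two_hf
  have ue : IsUnit (C u) := (IsUnit.mk0 u h0).map C
  have hr : ∀ y : K⟦X⟧, X * y = 0 → y = 0 := fun y hy => (mul_eq_zero.1 hy).resolve_left X_ne_zero
  obtain ⟨U, hU⟩ := Sol.exists u2 ue hC X_ne_zero
  obtain ⟨W, Ψ, -, -, -, c, h1, h2, h3, h4⟩ := main_k ht
  let Φ : K⟦X⟧ →+* k⟦X⟧ := (expand 2 two_ne_zero).toRingHom.comp (map (algebraMap K k))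
  have p0 : ∀ f n, coeff (2 * n) (Φ f) = algebraMap K k (coeff n f) := fun f n => by
    simp [Φ, coeff_expand_mul]
  have p1 : Φ X = X ^ 2 := by simp [Φ]
  have p2 : Φ (C u) = -C σ ^ 2 := by
    rw [← map_pow, hσ, map_neg, neg_neg]
    simp [Φ, expand_C]
  have p3 : ∀ f n, (X ^ 2) ^ n ∣ Φ f → X ^ n ∣ f := fun f n h => by
    rw [← pow_mul, X_pow_dvd_iff] at h
    refine X_pow_dvd_iff.2 fun i hi => (algebraMap K k).injective ?_
    rw [← p0, h _ (by omega), map_zero]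
  have p4 : Function.Injective Φ := (injective_iff_map_eq_zero Φ).2 fun f hf =>
    hC.1 f fun n => p3 f n (hf ▸ dvd_zero _)
  have p5 : Φ (C u * X ^ 2) = -C σ ^ 2 * (X ^ 2) ^ 2 := by rw [map_mul, map_pow, p1, p2]
  have hC2 := cpl_sq (cpl_powerSeries k)
  have v2 : IsUnit (2 : k⟦X⟧) := .of_mul_eq_one _ two_hf
  have ve := ((IsUnit.of_mul_eq_one _ (sg_si s0)).pow 2).neg
  have vr : ∀ y : k⟦X⟧, X ^ 2 * y = 0 → y = 0 := fun y hy =>
    (mul_eq_zero.1 hy).resolve_left (pow_ne_zero _ X_ne_zero)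
  have h5 := hU.map Φ
  rw [p1, p2] at h5
  have h6 := h5.unique v2 ve hC2.1 vr (sol_of v2 ve hC2.1 vr h1 h2)
  rw [← h6, ← p5, ← p1] at h1 h3 h4
  refine ⟨U, fun V => ⟨fun h => (sol_of u2 ue hC.1 hr h.1 h.2).unique u2 ue hC.1 hr hU, ?_⟩,
    fun h => h3 (by rw [← map_den, h, map_zero]), p4 ?_⟩
  · rintro rfl
    refine ⟨fun j => p3 _ _ ?_, hU.sys hC.1⟩
    rw [map_sub, map_init, ← p1]
    exact h1 j
  · rw [map_mul, map_den, map_num, ← h4]
    congr 1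
    ext N
    rw [c]
    split_ifs with h
    · obtain ⟨n, rfl⟩ := h
      rw [p0, coeff_mk, Nat.mul_div_cancel_left n two_pos, hσ, neg_neg]
      simp only [map_sum, map_mul, map_natCast, map_pow]
    · exact coeff_expand_of_not_dvd 2 two_ne_zero _ h

theorem param : ∃ U : Fin 9 → (RatFunc ℚ)⟦X⟧,
    (∀ V : Fin 9 → (RatFunc ℚ)⟦X⟧, ((∀ j, X ^ ord j ∣ V j - init X zu j) ∧ sys X zu V = 0) ↔ V = U) ∧
      den X zu U ≠ 0 ∧ den X zu U * Fu = num X zu U :=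
  @param_gen (RatFunc ℚ) _ (_) RatFunc.X (RatFunc.transcendental_X (K := ℚ))

end Pool.Agent.P.MP_48bde8_co_s
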