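import Pool.Agent.P.MP_48bde8_co_s.Branch

/-! The couplings and the nine equations from the normalised data. -/

namespace Pool.Agent.P.MP_48bde8_co_s

open MP_48bde8_co

variable {F : Type} [Field F] {r : ℕ → F} {z a c u d s v κ : F} {μ : Fin 9 → F}

theorem gam9_eq {θ θ' : Fin 10 → F} (h : ∀ i, gam9 θ i = gam9 θ' i) (h0 : θ' 0 ≠ 0)
    (h9 : θ 9 = θ' 9) : θ = θ' := by
  have k0 := h 0
  have k1 := h 1
  have k2 := h 2
  have k3 := h 3
  have k4 := h 4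
  have k5 := h 5
  have k6 := h 6
  have k7 := h 7
  have k8 := h 8
  simp only [gam9, Matrix.cons_val, add_left_inj] at k0 k1 k2 k3 k4 k5 k6 k7 k8
  rw [k5] at k6
  replace k6 := mul_left_cancel₀ h0 k6
  simp only [k0, k2, k5, k6, add_left_inj] at k1 k3 k4 k7 k8
  simp only [k3, k7, add_left_inj] at k4 k8
  funext j
  fin_cases j
  exacts [k5, k6, k7, k2, k3, k0, k8, k4, k1, h9]

/-- The reduced parameters. -/
structure Red (r : ℕ → F) (L ν m a ω ρ ς l : F) : Prop where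
  hW : r 39 ^ 2 = ω * r 26
  hL : L = 2 * ρ * ω
  hν : ν = l * L
  hm : m = 2 * ς * ω + ν * r 23
  hA : a * r 26 * r 44 ^ 2 = -ω ^ 2

theorem Star.red [CharZero F] (h : Star r z a c u d s v κ μ) (hη : r 26 ≠ 0) (hP : r 39 ≠ 0)
    {L : F} (hL : L ≠ 0) (ν m : F) : ∃ ω ρ ς l, Red r L ν m a ω ρ ς l := by
  refine ⟨r 39 ^ 2 / r 26, L * r 26 / (2 * r 39 ^ 2), (m - ν * r 23) * r 26 / (2 * r 39 ^ 2),
    ν / L, by field_simp, by field_simp, by field_simp, by field_simp; ring, ?_⟩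
  field_simp
  linear_combination h.ha

theorem Star.sub {L ν m ω ρ ς l : F} (h : Star r z a c u d s v κ μ)
    (h' : Red r L ν m a ω ρ ς l) : r 30 = c * r 26 + 2 * r 26 * r 23 ∧ r 47 = d * (ω * r 26) ∧
      r 48 = s * (ω * r 26) + 2 * r 23 * r 47 ∧
      r 50 = 2 * v * (ω * r 26) + 2 * r 23 * (r 48 - r 23 * r 47) ∧
      r 52 = 4 * r 26 * r 44 ^ 2 * u - 4 * r 44 ^ 2 * r 23 * (r 26 * r 23 - r 30) := by
  rw [← h'.hW]
  exact ⟨by linear_combination -h.hc, h.hd.symm, by linear_combination -h.hs,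
    by linear_combination -h.hv, by linear_combination -h.hu⟩

theorem theta_eq [CharZero F] {q : ℕ → F} {ω ρ ς l : F} (h : Star r z a c u d s v κ μ)
    (h' : Red r (q 3) (q 4) (q 5) a ω ρ ς l) (hq : ∀ i, 23 ≤ i → i < 61 → q i = r i)
    (h1 : Cons q 26 core) (h2 : Cons q 61 coup) (h3 : Cons q 80 rowH)
    (h0 : ∀ i ∈ [80, 81, 82, 83, 84, 85, 86, 87, 88], q i = 0) {θ : Fin 10 → F}
    (hg : ∀ i, gam9 θ i = q (![10, 11, 13, 14, 15, 16, 17, 20, 21] i)) (hP : r 39 ≠ 0)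
    (hT : r 44 ≠ 0) (hL : q 3 ≠ 0) : θ = thS a c u d s v ρ ς l (θ 9) := by
  obtain ⟨s1, s2, s3, s4, s5⟩ := h.sub h'
  obtain ⟨a1, a2, a3, a4, a5⟩ := h'
  have g49 : q 49 = q 39 * q 39 := (h1.drop 23).1
  have g51 : q 51 = q 44 * q 44 := (h1.drop 25).1
  simp only [hq, Nat.reduceLeDiff, Nat.reduceLT, ← pow_two, a1] at g49 g51
  have n0 : 8 * (r 44 ^ 2 * (ω * r 26)) ≠ 0 :=
    mul_ne_zero (by norm_num) (mul_ne_zero (pow_ne_zero _ hT) (a1 ▸ pow_ne_zero _ hP))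
  simp only [List.forall_mem_cons] at h0
  simp only [coup, rowH, Cons, Ex.ev, Nat.cast_ofNat, Nat.reduceAdd, hq, Nat.reduceLeDiff,
    Nat.reduceLT, h0, g49, g51] at h2 h3
  obtain ⟨h61, h62, h63, h64, h65, h66, h67, h68, h69, h70, h71, h72, h73, h74, h75, h76, h77, h78,
    h79, -⟩ := h2
  obtain ⟨b0, b1, b2, b3, b4, b5, b6, b7, b8, -⟩ := h3
  replace h62 : q 62 = 2 * ς * ω := by rw [h62, a4]; ring
  simp only [h79, h78, h77, h76, h75, h74, h73, h72, h71, h70, h69, h68, h67, h66, h65, h64, h63,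
    h62, h61, s5, s4, s3, s2, s1, a3] at b0 b1 b2 b3 b4 b5 b6 b7 b8
  refine gam9_eq (fun i => mul_left_cancel₀ n0 ?_) (fun h5 => pow_ne_zero 3 hL ?_) rfl
  · rw [hg]
    rw [a2] at b0 b1 b2 b3 b4 b5 b6 b7 b8
    fin_cases i <;>
      simp only [gam9, thS, Fin.zero_eta, Fin.mk_one, Fin.reduceFinMk, Matrix.cons_val]
    · linear_combination -b0 - 8 * ρ * ς ^ 2 * ω * a5
    · linear_combination -b1 - 8 * l * ρ * ς ^ 2 * ω * a5
    · linear_combination -b2 - 16 * ρ ^ 2 * ς * ω * a5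
    · linear_combination -b3 - 16 * l * ρ ^ 2 * ς * ω * a5
    · linear_combination -b4 - 16 * l ^ 2 * ρ ^ 2 * ς * ω * a5
    · linear_combination -b5 - 8 * ρ ^ 3 * ω * a5
    · linear_combination -b6 - 8 * l * ρ ^ 3 * ω * a5
    · linear_combination -b7 - 8 * l ^ 2 * ρ ^ 3 * ω * a5
    · linear_combination -b8 - 8 * l ^ 3 * ρ ^ 3 * ω * a5
  · have h6 : a * ρ ^ 3 = 0 := h5
    rw [a2]
    linear_combination 8 * ρ ^ 3 * ω * a5 - 8 * r 26 * r 44 ^ 2 * ω * h6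

theorem rows_zero {p : ℕ → F} {ω ρ ς l t : F}
    (h : Star r z a c u d s v κ (msS z ρ ς (shear l (mom0 1 z t))))
    (h' : Red r (p 3) (p 4) (p 5) a ω ρ ς l) (hp : ∀ i, 23 ≤ i → i < 63 → p i = r i)
    (h1 : Cons p 23 progS) (h9 : p 9 = 1) (ho : p 22 = 1) (hz : p 0 = z) (ht : p 6 = t)
    (h57 : r 57 = -p 1) (hη : r 26 ≠ 0) :
    ∀ i ∈ [213, 214, 215, 227, 228, 224, 225, 226], p i = 0 := by
  obtain ⟨s1, s2, s3, s4, s5⟩ := h.sub h'
  obtain ⟨a1, a2, a3, a4, a5⟩ := h'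
  obtain ⟨c0, c1, -, -, -, c2⟩ := progS_iff.1 h1
  have g23 : p 23 = p 0 + p 9 * p 1 := c0.1
  have g43 : p 43 = p 9 * p 26 := (c1.drop 17).1
  have g49 : p 49 = p 39 * p 39 := (c1.drop 23).1
  have g51 : p 51 = p 44 * p 44 := (c1.drop 25).1
  simp only [hp, Nat.reduceLeDiff, Nat.reduceLT, ← pow_two, a1, hz, h9, one_mul]
    at g23 g43 g49 g51
  have r0 := h.rel 0
  have r1 := h.rel 1
  have r2 := h.rel 2
  have r3 := h.rel 3
  have m0 := h.m0
  have m4 := h.m4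
  have m8 := h.m8
  have mb := h.mb
  simp only [restS, Cons, Ex.ev, Nat.cast_ofNat, Nat.reduceAdd, hp, Nat.reduceLeDiff,
    Nat.reduceLT, h9, ho, hz, ht, g43, g49, g51, one_mul, mul_one] at c2
  obtain ⟨h193, h194, h195, h196, h197, h198, h199, h200, h201, h202, h203, h204, h205, h206,
    h207, h208, h209, h210, h211, h212, h213, h214, h215, -, -, h218, h219, h220, h221, h222, h223,
    h224, h225, h226, h227, h228, -⟩ := c2
  simp only [rel, a1, h57, g23] at r0 r1 r2 r3 m0 m4 m8 mb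
  obtain ⟨M, hM⟩ : ∃ M, M = msS z ρ ς (shear l (mom0 1 z t)) := ⟨_, rfl⟩
  have e2 := congrFun hM 2
  have e5 := congrFun hM 5
  have e6 := congrFun hM 6
  simp only [msS, shear, mom0, Matrix.cons_val] at r0 r1 r2 r3 m0 m4 m8 mb e2 e5 e6
  simp only [List.forall_mem_cons]
  simp only [h228, h227, h226, h225, h224, h223, h222, h221, h220, h219, h218, h215, h214, h213,
    h212, h211, h210, h209, h208, h207, h206, h205, h204, h203, h202, h201, h200, h199, h198, h197,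
    h196, h195, h194, h193]
  refine ⟨?_, ?_, mul_left_cancel₀ hη ?_, ?_, ?_, ?_, ?_, ?_, by simp⟩
  · linear_combination m4
  · linear_combination m8 - 3 * (z + p 1) * m4
  · rw [a4, a3, a2, g23]
    linear_combination m0
  · rw [s4, s3, s2, s1, a4, a3, a2, g23]
    linear_combination ω * r 26 * mb
  · rw [s4, s3, s2, s1, a4, a3, a2, g23]
    linear_combination 2 * ω * r 26 * r 33 * r3 - (z + p 1) * ω * r 26 * mb
  · rw [s5, s1, a4, a3, a2, g23]
    linear_combination (exp := 1) -4 * r 26 * r 44 ^ 2 * r0 + 4 * M 2 * a5 -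
      4 * (a * r 26 * r 44 ^ 2 + ω ^ 2) * e2
  · rw [s5, s1, a4, a3, a2, g23]
    linear_combination -4 * r 26 * r 44 ^ 2 * (r2 - (z + p 1) * r0) +
      4 * (M 6 - (z + p 1) * M 2) * a5 - 4 * (a * r 26 * r 44 ^ 2 + ω ^ 2) * (e6 - (z + p 1) * e2)
  · rw [s1, a4, a3, a2, g23]
    linear_combination -8 * ω * r 26 * r 44 ^ 2 * (r1 - ς * r0 - l * ρ * r2) +
      8 * ω * (M 5 - ς * M 2 - l * ρ * M 6) * a5 -
      8 * ω * (a * r 26 * r 44 ^ 2 + ω ^ 2) * (e5 - ς * e2 - l * ρ * e6)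

end Pool.Agent.P.MP_48bde8_co_s
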