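import Pool.Agent.P.MP_48bde8_co_s.Hrun
import Pool.Agent.P.MP_48bde8_co_s.Rows

/-! The solution of the matching system solves the nine equations. -/

namespace Pool.Agent.P.MP_48bde8_co_s

open MP_48bde8_co

/-- Weights of the registers of the matching program. -/
def wH : List ℤ :=
  [2, 0, 0, 5, 4, 6, 0, 0, 0, 2, 1, 0, 0, 0, -1, -2, -1, -2, 2, -2, -3, -4, 0, 2, 0, 2, 0, 0, 0,
    -2, 2, 2, 2, 0, 0, 0, 4, 4, 4, 4, 4, 4, 2, 2, 4, 4, 4, 4, 6, 8, 8, 8, 12, 2, 2, 4, 8, 0, 0, 0,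
    0, 16, 6, 2, 2, 10, 8, 12, 8, 10, 10, 17, 16, 16, 15, 14, 15, 14, 13, 12, 17, 16, 16, 15, 14,
    15, 14, 13, 12]

/-- Weights of the registers of the system program. -/
def wS : List ℤ :=
  [2, 0, 0, 5, 4, 6, -1, 0, 0, 2, 0, 0, 0, 0, 0, 0, 0, 0, 2, -2, 0, 0, 0, 2, 0, 2, 0, 0, 0, -2, 2,
    2, 2, 0, 0, 0, 4, 4, 4, 4, 4, 4, 2, 2, 4, 4, 4, 4, 6, 8, 8, 8, 12, 2, 2, 4, 8, 0, 0, 0, 0, 0, 2,
    2, 2, 0, 2, 0, 0, 0, 0, 4, 6, 8, 10, 0, 4, 6, 8, 10, -2, 6, 8, 10, 12, 0, 8, 10, 4, 6, 8, 10, 6,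
    8, 10, 12, 6, 8, 10, 12, 8, 10, 8, 10, 12, 12, 12, 6, 8, 10, 12, 10, 8, 10, 0, 0, -2, 12, -2,
    12, -4, 14, 8, 10, 12, 12, 10, 12, 14, 14, 10, 12, 12, 12, 10, 12, 10, 12, 0, 0, 14, 14, 14, 14,
    14, 10, 12, 0, 14, 12, 12, 12, 12, 12, 12, 0, 0, 0, 0, 10, 14, 14, 14, 14, 14, 16, 16, 16, 14,
    14, 14, 14, 14, 14, 16, 16, 14, 16, 16, 16, 16, 16, 16, 14, 14, 14, 14, 14, 14, 0, 0, 0, 12, 2,
    4, 0, 4, 2, 2, 4, 6, 8, 4, 6, 8, 5, 4, 6, 7, 8, 10, 12, 2, 2, 2, 8, 10, 12, 8, 10, 12, 9, 11,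
    10, 14, 16, 20, 10, 12]

theorem sys_scale {F : Type} [Field F] {e : F} (he : e ≠ 0) {p q : ℕ → F} (h : Cons p 23 progS)
    (h0 : ∀ i ∈ [53, 213, 214, 215, 227, 228, 224, 225, 226], p i = 0) (h6 : p 6 = e)
    (ho : p 22 = 1) (hq : ∀ i ∈ [0, 9, 12, 2, 1, 18, 8, 19, 3, 4, 5], p i = e ^ (-wH.getD i 0) * q i) :
    sys (q 9) (q 0) (uOf q) = 0 := by
  have h1 := link_sys (h.scale he (fun i => wS.getD i 0) (by decide +kernel))
    (show e ^ (-1 : ℤ) * p 6 = 1 by simp [h6, he]) (show e ^ (0 : ℤ) * p 22 = 1 by simp [ho])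
  have h2 : ∀ i ∈ [0, 9, 12, 2, 1, 18, 8, 19, 3, 4, 5], e ^ wS.getD i 0 * p i = q i := fun i hi => by
    rw [hq i hi, show wS.getD i 0 = wH.getD i 0 by revert i; decide, ← mul_assoc, ← zpow_add₀ he,
      add_neg_cancel, zpow_zero, one_mul]
  simp only [List.forall_mem_cons] at h0 h2
  simp only [uOf, h0, h2, mul_zero] at h1
  rw [uOf, h1]
  funext j
  fin_cases j <;> rfl

theorem vv_dvd {O F : Type} [CommRing O] [Field F] {ι : O →+* F} {ε : O} {e : Fˣ} (he : ι ε = e)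
    {n : ℕ} {y : O} (h : ε ^ n ∣ y) (k : ℤ) : VV ι.range e (k + n) ((e : F) ^ k * ι y) := by
  obtain ⟨t, rfl⟩ := h
  refine ⟨ι t, ⟨t, rfl⟩, ?_⟩
  rw [Units.val_zpow_eq_zpow_val, zpow_add₀ e.ne_zero, zpow_natCast, map_mul, map_pow, he,
    mul_assoc]

theorem main_O {O F : Type} [CommRing O] [Field F] [IsAlgClosed F] [CharZero F] {ι : O →+* F}
    (hι : Function.Injective ι) {ε sg si hf th z : O} {e : Fˣ} (he : ι ε = e) (hC : Cpl ε)
    (hinv : sg * si = 1) (hhf : 2 * hf = 1) (hth : 3 * th = 1) (hz : z = -sg ^ 2 * ε ^ 2)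
    {θ : Fin 10 → O} {τ : List Bool → O} (hτ : SDC 1 z θ τ) (hsm : Small ε z θ)
    (hpa : ParLT ι.range e (ι sg) (ι si) (ι hf) fun j => ι (θ j))
    (hkap : θ 9 = Kap 1 z θ τ) (hmom : ∀ j, τ (w9 j) = shear (θ 1) (mom0 1 z ε) j)
    {q : ℕ → O} (h : HSol ε (-sg ^ 2) (gam9 θ) q) :
    q 57 = -q 1 ∧ sys (q 9) (q 0) (uOf q) = 0 := by
  have e0 : (e : F) ≠ 0 := e.ne_zero
  have hC2 := cpl_sq hC
  have u2 : IsUnit (-sg ^ 2) := ((IsUnit.of_mul_eq_one _ hinv).pow 2).neg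
  have hloc : ∀ y ∈ ι.range, IsUnit (1 + (e : F) * y) := by
    rintro _ ⟨y, rfl⟩
    simpa only [map_add, map_one, map_mul, he] using (hC.isUnit y).map ι
  have hz' : ι z = -(ι sg ^ 2 * (e : F) ^ 2) := by simp [hz, he]
  have d1 : ∀ (j : Fin 9) (n : ℕ), n ≤ nH j + 1 → (u0 j).all (fun y => Nat.ble n y.1) = true →
      (ε ^ 2) ^ n ∣ uOf q j := fun j n h1 h2 => by
    have := ((pow_dvd_pow _ h1).trans (h.hu j)).add (val_dvd _ (-sg ^ 2) n _ h2)
    rwa [sub_add_cancel] at this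
  have d2 : ∀ (j : Fin 9) (n k : ℕ) (c : ℤ) (l : List (ℕ × ℕ × ℤ)), u0 j = (n, k, c) :: l →
      n ≤ nH j → l.all (fun y => Nat.ble (n + 1) y.1) = true →
      (ε ^ 2) ^ (n + 1) ∣ uOf q j - (ε ^ 2) ^ n * (c * (-sg ^ 2) ^ k) := fun j n k c l h0 h1 h2 =>
    (((pow_dvd_pow _ (by omega)).trans (h.hu j)).add (val_dvd _ (-sg ^ 2) _ l h2)).trans
      (dvd_of_eq (by simp only [h0, val, List.map_cons, List.sum_cons]; ring))
  obtain ⟨e', he'⟩ : (ε ^ 2) ^ 2 ∣ q 18 := d1 3 2 (by decide) rfl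
  have da : ε ^ 2 ∣ q 12 + 1 := by simpa [uOf] using d2 0 0 0 (-1) _ rfl (by decide) rfl
  obtain ⟨b', ub, hb⟩ : ∃ w, IsUnit w ∧ q 2 = (ε ^ 2) ^ 17 * w := unit_of hC2
    (by simpa using (u2.pow 6).neg) (d2 1 17 6 (-1) _ rfl (by decide) rfl)
  obtain ⟨r, r0, r2, r8, r9, r12, r18, r19, r22, r23, r24, r25, rs, r33⟩ := exists_lib
    (E := ε ^ 2) (z := z) (k := q 1) (e := ε ^ 2 * e') (g := q 8) (l := ε ^ 2 * q 19)
    (hz ▸ dvd_mul_left _ _) da (hb ▸ (dvd_pow_self _ (by decide)).mul_right _)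
    (by simpa [uOf] using d2 2 0 0 1 _ rfl (by decide) rfl) (dvd_mul_right _ _)
    (by simpa [uOf] using d2 4 0 0 (-1) _ rfl (by decide) rfl) (dvd_mul_right _ _) h.hG
  obtain ⟨g, hg⟩ : ∃ g : ℕ → F, ∀ i, g i = (e : F) ^ (-wH.getD i 0) * ι (q i) := ⟨_, fun _ => rfl⟩
  have c0 : Cons g 23 progH := funext hg ▸
    (h.cons.map ι).scale e0 (fun i => -wH.getD i 0) (by decide +kernel)
  obtain ⟨c1, c2, c3, c4, c5⟩ := progH_iff.1 c0
  have g0 : g 0 = ι z := by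
    rw [hg, h.hz, hz]
    simp only [map_mul, map_pow, he, show -wH.getD 0 0 = -2 from rfl]
    field_simp
  have g9 : g 9 = 1 := by
    rw [hg, h.hx, map_pow, he, show -wH.getD 9 0 = -2 from rfl]
    field_simp
  have gz : ∀ i, wH.getD i 0 = 0 → g i = ι (q i) := fun i hi => by rw [hg, hi]; simp
  have g22 : g 22 = 1 := by rw [gz 22 rfl, h.ho, map_one]
  have hI : ∀ i ∈ [2, 8, 9, 12, 18, 19, 22, 23, 24, 25], g i = ι (r i) := by
    simp only [preH, Cons, Ex.ev, Nat.reduceAdd, g0, g9, g22] at c1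
    simp only [List.forall_mem_cons, r2, r8, r9, r12, r18, r19, r22, r23, r24, r25, c1, g9, g22,
      map_one, map_add, map_sub, map_mul, map_pow, he, one_mul, true_and, add_right_inj]
    refine ⟨gz 2 rfl, gz 8 rfl, gz 12 rfl, ?_, ?_, gz 1 rfl, gz 7 rfl, by simp⟩
    · rw [hg, he', show -wH.getD 18 0 = -2 from rfl]
      simp only [map_mul, map_pow, he]
      field_simp
    · rw [hg, show -wH.getD 19 0 = 2 from rfl, zpow_ofNat]
  have r1 := r0.map ι
  have r3 := (cons_append ..).1 r1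
  have r4 := (cons_append ..).1 r3.2
  have hA : ∀ i, 23 ≤ i → i < 61 → g i = ι (r i) := fun i h1 h2 => by
    by_cases h3 : i < 26
    · exact hI i (by interval_cases i <;> simp)
    · exact Cons.agree (s := core ++ core2) (n0 := 26) (by decide +kernel)
        ((cons_append ..).2 ⟨c2, c3⟩) ((cons_append ..).2 ⟨r3.1, r4.1⟩) hI (fun j _ _ => by omega)
        i (by omega) h2
  have hrow : ∀ i ∈ [53, 80, 81, 82, 83, 84, 85, 86, 87, 88], g i = 0 := fun i hi => by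
    rw [hg, h.rows i hi, map_zero, mul_zero]
  have nz : ∀ i, q i ≠ 0 → g i ≠ 0 := fun i hi => hg i ▸
    mul_ne_zero (zpow_ne_zero _ e0) ((map_ne_zero_iff ι hι).2 hi)
  have nu : ∀ (i n : ℕ) (w : O), IsUnit w → q i = (ε ^ 2) ^ n * w → g i ≠ 0 := fun i n w h1 h2 => by
    rw [hg, h2, map_mul, map_pow, map_pow, he]
    exact mul_ne_zero (zpow_ne_zero _ e0) (mul_ne_zero (by simp) (h1.map ι).ne_zero)
  obtain ⟨P, uP, hP⟩ := h.hP
  obtain ⟨L, uL, hL⟩ : ∃ w, IsUnit w ∧ q 3 = (ε ^ 2) ^ 15 * w := unit_of hC2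
    (by simpa using (IsUnit.of_mul_eq_one _ hhf).mul (u2.pow 6))
    (d2 6 15 6 2 _ rfl (by decide) rfl)
  obtain ⟨a', ua, ha⟩ : ∃ w, IsUnit w ∧ q 12 = (ε ^ 2) ^ 0 * w :=
    unit_of hC2 isUnit_one.neg (by simpa using da)
  have n12 : ι (r 12) ≠ 0 := hI 12 (by simp) ▸ nu 12 _ _ ua ha
  have n2 : ι (r 2) ≠ 0 := hI 2 (by simp) ▸ nu 2 _ _ ub hb
  have n39 : ι (r 39) ≠ 0 := hA 39 (by decide) (by decide) ▸ nu 39 _ _ uP hP
  have n44 : ι (r 44) ≠ 0 := hA 44 (by decide) (by decide) ▸ nz 44 h.hT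
  have r26 : r 26 = r 12 * r 2 := r0.1
  have n26 : ι (r 26) ≠ 0 := by rw [r26, map_mul]; exact mul_ne_zero n12 n2
  have r53 : ι (r 53) = 0 := (hA 53 (by decide) (by decide)).symm.trans (hrow 53 (by simp))
  obtain ⟨a, c, u, d, s, v, κ, μ, hS⟩ := exists_star (z := ι z) r1 (by rw [r9, map_one])
    (by rw [r22, map_one]) r53 (by rw [r25, map_sub, map_one]) n12 n2 n39 n44
  have n3 := nu 3 _ _ uL hL
  obtain ⟨ω, ρ, ς, l, hR⟩ := hS.red n26 n39 n3 (g 4) (g 5)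
  have hθ : (fun j => ι (θ j)) = thS a c u d s v ρ ς l (ι (θ 9)) :=
    theta_eq hS hR hA c2 c4 c5 (fun i hi => hrow i (List.mem_cons_of_mem _ hi)) (fun i => by
      have h1 := congrArg ι (h.hγ i)
      rw [map_mul, map_mul, map_pow, map_pow, he, map_gam9] at h1
      rw [hg]
      generalize gam9 (fun j => ι (θ j)) i = y at h1
      fin_cases i <;>
        simp only [Fin.zero_eta, Fin.mk_one, Fin.reduceFinMk, Matrix.cons_val, wH,
          List.getD_cons_succ, List.getD_cons_zero, neg_neg, neg_zero, zpow_ofNat, zpow_neg] at h1 ⊢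
      · rw [pow_zero, one_mul] at h1
        rw [h1]
        field_simp
      all_goals linear_combination -h1) n39 n44 n3
  have hμ := moments he hC hinv hhf hth hz' hτ hsm hpa hloc hkap hmom
    (r12 ▸ (dvd_pow_self ε two_ne_zero).trans da) rs hS hθ (by
      obtain ⟨y, hy⟩ := uP.exists_right_inv
      obtain ⟨w, uw, hw⟩ := unit_of (n := 0) hC2 isUnit_one (y := r 33) (by simpa using r33)
      obtain ⟨y', hy'⟩ := uw.exists_right_inv
      have v0 : ∀ y, VV ι.range e 0 (ι y) := fun y => VV.of_mem ⟨y, rfl⟩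
      have k1 : ι (r 39) * ((e : F) ^ (-16 : ℤ) * ι y) = 1 := by
        rw [← hA 39 (by decide) (by decide), hg, hP, show -wH.getD 39 0 = -4 from rfl, map_mul,
          map_pow, map_pow, he, ← map_one ι, ← hy, map_mul]
        field_simp
      have v1 : VV ι.range e (-16 + (0 : ℕ)) ((e : F) ^ (-16 : ℤ) * ι y) :=
        vv_dvd he (by simp) _
      have v2 := vv_dvd he (n := 34) (y := r 26) ⟨r 12 * b', by rw [r26, r2, hb]; ring⟩ 0
      have v3 := vv_dvd he (pow_mul ε 2 7 ▸ h.h0) (-wH.getD 56 0)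
      have v4 := vv_dvd he (pow_mul ε 2 7 ▸ d1 7 7 (by decide) rfl) (-wH.getD 4 0)
      have v5 := vv_dvd he (pow_mul ε 2 7 ▸ d1 8 7 (by decide) rfl) (-wH.getD 5 0)
      rw [← hg, hA 56 (by decide) (by decide)] at v3
      rw [show uOf q 7 = q 4 from rfl, ← hg] at v4
      rw [show uOf q 8 = q 5 from rfl, ← hg] at v5
      rw [zpow_zero, one_mul] at v2
      have vz := hz' ▸ NodeC.vz hpa
      have t2 := congrFun hθ 2
      have t4 := congrFun hθ 4
      have t6 := congrFun hθ 6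
      have t7 := congrFun hθ 7
      simp only [thS, Matrix.cons_val] at t2 t4 t6 t7
      have k2 : ι (r 33) * ι y' = 1 := by
        rw [← map_mul, hw, pow_zero, one_mul, hy', map_one]
      generalize (e : F) ^ (-16 : ℤ) * ι y = Y at k1 v1
      rw [show ρ * coef 1 (ι z) a 1 0 c d s v μ 0 = ι (θ 2) * ι (r 62 * y') - ι (θ 4) *
          (ι (r 26) * Y ^ 2 * (ι (r 56) - (g 5 - g 4 * ι (r 23)) * ι z) +
            ι (θ 6) * ι (r 57 + r 23) + ι (θ 7) * ι z) by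
        simp only [coef, Matrix.cons_val, t2, t4, t6, t7, map_mul, map_add, ← hS.mb, ← hS.m1,
          hR.hm]
        linear_combination
          (-2 * ρ * (2 * μ 3 + d * μ 4 + c * μ 0 + s * μ 1 + v * ι z)) * k2 -
          ρ * c * Y ^ 2 * hS.m0 + 2 * ρ * c * ς * ι z * Y ^ 2 * hR.hW +
          2 * ρ * c * (μ 0 - ς * ι z) * (ι (r 39) * Y + 1) * k1]
      have m := hpa.he
      exact (((hpa.hc.vv m).mul (v0 _)).mono m (by decide)).sub ((hpa.hq.vv m).mul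
        (((((v2.mul (v1.pow 2)).mul ((v3.mono m (n' := 6) (by decide)).sub
          (((v5.mono m (n' := 4) (by decide)).sub ((v4.mul (v0 _)).mono m (by decide))).mul
            vz))).mono m (n' := 8) (by decide)).add
          (((hpa.rho.2.1.vv m).mul (v0 _)).mono m (by decide))).add
          ((hpa.rho.2.2.vv m).mul vz))))
  subst hμ
  have k57 : ι (r 57) = -g 1 := by
    have h1 := hS.m1
    simp only [msS, shear, mom0, Matrix.cons_val, r23, map_add] at h1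
    rw [gz 1 rfl]
    linear_combination -h1
  obtain ⟨p, p1, p2⟩ := exists_cons (n := 23) (s := progS) (by decide +kernel)
    (Function.update g 6 e)
  have p3 : ∀ i < 23, i ≠ 6 → p i = g i := fun i hi h6 => by
    rw [p1 i hi, Function.update_of_ne h6]
  have p6 : p 6 = e := by rw [p1 6 (by decide), Function.update_self]
  obtain ⟨s0, s1, s2, s3, -⟩ := progS_iff.1 p2
  have pI : ∀ i ∈ [2, 8, 9, 12, 18, 19, 22, 23, 24, 25], p i = ι (r i) := by
    have h27 : g 27 = g 12 - g 2 := c2.2.1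
    have h28 : g 28 = g 12 + g 2 := c2.2.2.1
    have h33 : g 33 = g 27 * g 27 := (c2.drop 7).1
    have h34 : g 34 = g 8 * g 33 := (c2.drop 8).1
    have h57 : g 57 = -g 24 - g 34 * g 28 := (c3.drop 3).1
    simp only [preS, preH, Cons, Ex.ev, Nat.reduceAdd, p3, Nat.reduceLT, ne_eq, Nat.reduceEqDiff,
      not_false_eq_true, OfNat.zero_ne_ofNat, OfNat.one_ne_ofNat] at s0 c1
    intro i hi
    rw [← hI i hi]
    by_cases h3 : i < 23
    · exact p3 i h3 (by revert i; decide)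
    · rw [hA 57 (by decide) (by decide), k57, h34, h33, h28, h27] at h57
      have h4 : i = 23 ∨ i = 24 ∨ i = 25 := by revert i; decide
      rcases h4 with rfl | rfl | rfl
      · rw [s0.1, c1.1]
      · rw [s0.2.1, g22]
        linear_combination -h57
      · rw [s0.2.2.1, c1.2.2.1]
  have pA : ∀ i, 23 ≤ i → i < 63 → p i = ι (r i) := fun i h1 h2 => by
    by_cases h3 : i < 26
    · exact pI i (by interval_cases i <;> simp)
    · exact Cons.agree (n0 := 26) (by decide +kernel)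
        ((cons_append ..).2 ⟨s1, (cons_append ..).2 ⟨s2, s3⟩⟩) r1 pI (fun j _ _ => by omega) i
        (by omega) h2
  have p22 : p 22 = 1 := (p3 22 (by decide) (by decide)).trans g22
  have hrows := rows_zero (p := p) hS (by rwa [p3 3, p3 4, p3 5] <;> decide) pA p2
    ((p3 9 (by decide) (by decide)).trans g9) p22 ((p3 0 (by decide) (by decide)).trans g0)
    (p6.trans he.symm) (by rw [k57, p3 1] <;> decide) n26
  refine ⟨hι ?_, funext fun j => hι ?_⟩
  · rw [map_neg, ← gz 1 rfl, ← gz 57 rfl, hA 57 (by decide) (by decide), k57]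
  · rw [map_sys]
    have h1 := sys_scale (q := fun i => ι (q i)) e0 p2 (List.forall_mem_cons.2
      ⟨(pA 53 (by decide) (by decide)).trans r53, hrows⟩) p6 p22 fun i hi => by
        rw [p3 i (by revert i; decide) (by revert i; decide), hg]
    rw [show (fun j => ι (uOf q j)) = uOf fun i => ι (q i) from
      funext fun j => by fin_cases j <;> rfl, h1]
    simp

end Pool.Agent.P.MP_48bde8_co_s
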