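import Pool.Agent.P.MP_48bde8_co_s.Uniq
import Pool.Agent.P.MP_48bde8_co_s.RunH
import Pool.Agent.P.MP_48bde8_co_s.Branch
import Pool.Agent.P.MP_48bde8_co.Table

/-! The solution of the matching system. -/

namespace Pool.Agent.P.MP_48bde8_co_s

open MP_48bde8_co

variable {O : Type} [CommRing O]

theorem val_dvd (e1 e2 : O) (n : ℕ) (l : List (ℕ × ℕ × ℤ))
    (h : l.all (fun y => Nat.ble n y.1) = true) : e1 ^ n ∣ val e1 e2 l := by
  refine List.dvd_sum fun t ht => ?_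
  obtain ⟨y, hy, rfl⟩ := List.mem_map.1 ht
  exact (pow_dvd_pow e1 (Nat.ble_eq.mp (List.all_eq_true.1 h y hy))).mul_left _

theorem cpl_sq {ε : O} (h : Cpl ε) : Cpl (ε ^ 2) := by
  have k : ∀ N, ε ^ N ∣ (ε ^ 2) ^ N := fun N => by
    rw [← pow_mul]
    exact pow_dvd_pow ε (by omega)
  refine ⟨fun a ha => h.1 a fun N => (k N).trans (ha N), fun f hf => ?_⟩
  obtain ⟨y, hy⟩ := h.2 f fun N => (k N).trans (hf N)
  refine ⟨y, fun N => ?_⟩
  have h1 := cplt_tele hf N (2 * N) (by omega)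
  have h2 := hy (2 * N)
  rw [pow_mul] at h2
  exact (h1.add h2).trans (dvd_of_eq (by ring))

theorem unit_of {e : O} (h : Cpl e) {n : ℕ} {y u : O} (hu : IsUnit u)
    (hy : e ^ (n + 1) ∣ y - e ^ n * u) : ∃ w, IsUnit w ∧ y = e ^ n * w := by
  obtain ⟨t, ht⟩ := hy
  exact ⟨u + e * t, h.isUnit_add hu t, by linear_combination ht⟩

/-- The orders in the matching system. -/
def nH : Fin 9 → ℕ := ![14, 17, 14, 15, 14, 15, 23, 24, 23]

/-- The properties of the solution of the matching system. -/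
structure HSol (ε e2 : O) (γ : Fin 9 → O) (q : ℕ → O) : Prop where
  cons : Cons q 23 progH
  rows : ∀ i ∈ [53, 80, 81, 82, 83, 84, 85, 86, 87, 88], q i = 0
  hx : q 9 = ε ^ 2
  hz : q 0 = e2 * (ε ^ 2) ^ 2
  ho : q 22 = 1
  hu : ∀ j, (ε ^ 2) ^ (nH j + 1) ∣ uOf q j - val (ε ^ 2) e2 (u0 j)
  hG : ε ^ 2 ∣ q 7
  hγ : ∀ i, ε ^ ![0, 0, 0, 1, 2, 1, 2, 3, 4] i * q (![10, 11, 13, 14, 15, 16, 17, 20, 21] i) =
    ε ^ ![1, 0, 0, 0, 0, 0, 0, 0, 0] i * γ i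
  hT : q 44 ≠ 0
  hP : ∃ w, IsUnit w ∧ q 39 = (ε ^ 2) ^ 10 * w
  h0 : (ε ^ 2) ^ 7 ∣ q 56

theorem hrun [IsDomain O] {ε e2 : O} (hC : Cpl ε) (h0 : ε ≠ 0) (h2 : IsUnit (2 : O))
    (he : IsUnit e2) {γ : Fin 9 → O} (hl : ∀ i, ∃ E, γ i = ((lowL i).map fun y =>
      ((y.2.2 : O) * e2 ^ y.2.1) * ε ^ (y.1 + 2 * y.2.1)).sum + ε ^ 31 * E) :
    ∃ q, HSol ε e2 γ q := by
  choose E hE using hl
  let c : ℕ → O := fun i => [0, 0, 0, 0, 0, 0, 0, 0, 0, 0, ε ^ 2 * E 0, -e2 ^ 6 + ε * E 1, 0,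
    ε ^ 5 * E 2, ε ^ 2 * E 3, -e2 ^ 7 + ε * E 4, ε ^ 4 * E 5, ε ^ 3 * E 6, 0, 0, ε ^ 2 * E 7,
    ε * E 8].getD i 0
  have hb : certH.Base (ε ^ 2) e2 fun i =>
      val (ε ^ 2) e2 (certH.sp i).l + (ε ^ 2) ^ (certH.sp i).N * c i :=
    fun i _ => ⟨c i, by ring⟩
  have hC2 := cpl_sq hC
  obtain ⟨V, q, v1, v2, v3⟩ := Cert.exists okH hb h2 he hC2 (pow_ne_zero 2 h0)
  have ex := Cert.extra okH hb v2
  simp only [certH, List.forall_mem_cons, cval, Sp.val, val, List.map_cons, List.map_nil,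
    List.sum_cons, List.sum_nil, Int.cast_one, pow_zero, one_mul, mul_one, add_zero, zero_mul,
    sub_zero] at ex
  have k : ∀ (i : ℕ) (l : List (ℕ × ℕ × ℤ)) (N n j : ℕ), i < 23 → certH.sp i = ⟨N, l, j, [(n, 0, 1)]⟩ →
      c i = 0 → (ε ^ 2) ^ (n + 1) ∣ q i - val (ε ^ 2) e2 l := fun i l N n j hi h1 h3 => by
    obtain ⟨t, ht⟩ := v1 j
    refine ⟨t, ?_⟩
    rw [v2.1 i hi]
    simp only [h1, h3, ht, val, List.map_cons, List.map_nil, List.sum_cons, List.sum_nil]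
    push_cast
    ring
  have k' : ∀ (i : ℕ) (l : List (ℕ × ℕ × ℤ)) (N : ℕ), i < 23 → certH.sp i = ⟨N, l, 0, []⟩ →
      q i = val (ε ^ 2) e2 l + (ε ^ 2) ^ N * c i := fun i l N hi h1 => by
    rw [v2.1 i hi]
    simp [h1, val]
  refine ⟨q, v2.2, v3, ?_, ?_, ?_, fun j => ?_, ?_, fun i => ?_, ?_,
    unit_of hC2 (he.pow 4) (by rw [mul_comm]; exact ex.2.1), ex.2.2.1⟩
  · simpa [val, c] using k' 9 _ _ (by decide) rfl
  · simpa [val, c] using k' 0 _ _ (by decide) rfl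
  · simpa [val, c] using k' 22 _ _ (by decide) rfl
  · fin_cases j
    exacts [k 12 _ _ _ _ (by decide) rfl rfl, k 2 _ _ _ _ (by decide) rfl rfl,
      k 1 _ _ _ _ (by decide) rfl rfl, k 18 _ _ _ _ (by decide) rfl rfl,
      k 8 _ _ _ _ (by decide) rfl rfl, k 19 _ _ _ _ (by decide) rfl rfl,
      k 3 _ _ _ _ (by decide) rfl rfl, k 4 _ _ _ _ (by decide) rfl rfl,
      k 5 _ _ _ _ (by decide) rfl rfl]
  · have h1 := ((dvd_pow_self _ (by decide)).trans (k 7 _ _ _ _ (by decide) rfl rfl)).add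
      (pow_one (ε ^ 2) ▸ val_dvd (ε ^ 2) e2 1 u0G rfl)
    rwa [sub_add_cancel] at h1
  · rw [hE]
    fin_cases i
    all_goals
      simp only [Fin.zero_eta, Fin.mk_one, Fin.reduceFinMk, Matrix.cons_val]
      rw [k' _ _ _ (by decide) rfl]
      simp only [val, lowL, c, Matrix.cons_val, List.map_cons, List.map_nil, List.sum_cons,
        List.sum_nil, List.getD_cons_succ, List.getD_cons_zero]
      push_cast
      ring
  · obtain ⟨w, hw, h1⟩ := unit_of hC2 (n := 12) (he.pow 5) (by rw [mul_comm]; exact ex.1)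
    exact h1 ▸ mul_ne_zero (pow_ne_zero _ (pow_ne_zero _ h0)) hw.ne_zero

theorem HSol.init {ε e2 : O} {γ : Fin 9 → O} {q : ℕ → O} (h : HSol ε e2 γ q) (j : Fin 9) :
    (ε ^ 2) ^ ord j ∣ uOf q j - init (ε ^ 2) (e2 * (ε ^ 2) ^ 2) j := by
  by_cases hj : j = 1
  · subst hj
    refine (h.hu 1).trans (dvd_of_eq ?_)
    simp only [u0, u0b, val, MP_48bde8_co_s.init, Matrix.cons_val, List.map_cons, List.map_nil,
      List.sum_cons, List.sum_nil]
    push_cast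
    ring
  · have h1 : ∀ j, j ≠ 1 → ord j = nB j ∧ nB j ≤ nH j + 1 := by decide
    rw [(h1 j hj).1]
    exact (((pow_dvd_pow _ (h1 j hj).2).trans (h.hu j)).sub (init_val _ e2 j)).trans
      (dvd_of_eq (by ring))

theorem exists_lib {E z : O} (hz : E ∣ z) {a b k e g l G : O} (ha : E ∣ a + 1) (hb : E ∣ b)
    (hk : E ∣ k - 1) (he : E ∣ e) (hg : E ∣ g + 1) (hl : E ∣ l) (hG : E ∣ G) :
    ∃ r : ℕ → O, Cons r 26 (core ++ (core2 ++ coretb)) ∧ r 2 = b ∧ r 8 = g ∧ r 9 = 1 ∧ r 12 = a ∧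
      r 18 = e ∧ r 19 = l ∧ r 22 = 1 ∧ r 23 = z + k ∧ r 24 = G ∧ r 25 = 1 - z ∧ Sm E r ∧
      E ∣ r 33 - 1 := by
  obtain ⟨r, r1, r2⟩ := exists_cons (n := 26) (s := core ++ (core2 ++ coretb)) (by decide +kernel)
    fun i => [0, 0, b, 0, 0, 0, 0, 0, g, 1, 0, 0, a, 0, 0, 0, 0, 0, e, l, 0, 0, 1, z + k, G,
      1 - z].getD i 0
  have g2 : r 2 = b := r1 2 (by decide)
  have g8 : r 8 = g := r1 8 (by decide)
  have g9 : r 9 = 1 := r1 9 (by decide)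
  have g12 : r 12 = a := r1 12 (by decide)
  have g18 : r 18 = e := r1 18 (by decide)
  have g19 : r 19 = l := r1 19 (by decide)
  have g22 : r 22 = 1 := r1 22 (by decide)
  have g23 : r 23 = z + k := r1 23 (by decide)
  have g24 : r 24 = G := r1 24 (by decide)
  have g25 : r 25 = 1 - z := r1 25 (by decide)
  refine ⟨r, r2, g2, g8, g9, g12, g18, g19, g22, g23, g24, g25, ?_⟩
  let π := Ideal.Quotient.mk (Ideal.span {E})
  have hπ : ∀ y, E ∣ y ↔ π y = 0 := fun y => (Ideal.Quotient.eq_zero_iff_dvd E y).symm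
  have h1 := (((cons_append ..).1 r2).1).map π
  simp only [hπ, map_add, map_sub, map_one, add_eq_zero_iff_eq_neg, sub_eq_zero]
    at hz ha hb hk he hg hl hG
  simp only [core, Cons, Ex.ev, Nat.cast_ofNat, Nat.reduceAdd, g2, g8, g9, g12, g18, g19, g22, g23,
    g24, g25, map_add, map_one, hz, ha, hb, hk, he, hg, hl, hG] at h1
  obtain ⟨h26, h27, -, h29, -, h31, h32, h33, h34, h35, -⟩ := h1
  simp only [Sm, hπ, map_add, map_sub, map_one, g2, g12, g23, g24, g25, h35, h34, h33, h32, h31,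
    h29, h27, h26, hz, ha, hb, hk, hG]
  norm_num

theorem den_num {q : ℕ → O} (h : Cons q 23 progH)
    (h0 : ∀ i ∈ [53, 80, 81, 82, 83, 84, 85, 86, 87, 88], q i = 0) (ho : q 22 = 1)
    (hG : q 57 = -q 1) {γ : List Bool → O} (h3 : γ [true, false] = q 14)
    (h4 : γ [false, false] = q 15) (h6 : γ [true, true, false] = q 17)
    (h7 : γ [true, false, false] = q 20) (h8 : γ [false, false, false] = q 21) {w : O}
    (hw : (1 + q 0) * w = outG (q 9) (q 0) 1 γ) :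
    den (q 9) (q 0) (uOf q) = 8 * (1 + q 0) * q 44 ^ 2 * q 39 ^ 2 ∧
      den (q 9) (q 0) (uOf q) * w = num (q 9) (q 0) (uOf q) := by
  obtain ⟨c0, c1, c2, c3, c4⟩ := progH_iff.1 h
  have c5 := c1
  simp only [List.forall_mem_cons] at h0
  simp only [core, core2, coup, rowH, Cons, Ex.ev, Nat.cast_ofNat, Nat.reduceAdd, h0]
    at c5 c2 c3 c4
  obtain ⟨-, h27, h28, -, -, -, -, h33, h34, -, h36, h37, h38, -, -, -, h42, -, -, -, -, h47, h48,
    h49, -, h51, -⟩ := c5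
  obtain ⟨h61, h62, h63, h64, h65, h66, -, h68, h69, h70, -, -, -, h74, h75, -, h77, h78,
    h79, -⟩ := c3
  obtain ⟨-, -, -, b3, b4, -, b6, b7, b8, -⟩ := c4
  have ha := link_aux ⟨c0.1, by
    simp only [Ex.ev, ← h27, ← h28, ho]
    linear_combination c2.2.2.2.1 - hG - q 28 * h34 - q 8 * q 28 * h33, c0.2.2⟩ c1 ho
  have a0 : aux2 (q 9) (q 0) (uOf q) 0 = q 47 := by
    simp only [aux2, ha, Matrix.cons_val]
    rw [h47, h36, h38, h37]; ring
  have a1 : aux2 (q 9) (q 0) (uOf q) 1 = q 48 := by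
    simp only [aux2, ha, Matrix.cons_val]
    rw [h48, h42, h37]; ring
  simp only [den, num, ha, a0, a1]
  simp only [uOf, Matrix.cons_val, true_and]
  simp only [outG, h3, h4, h6, h7, h8] at hw
  simp only [h79, h78, h77, h75, h74, h70, h69, h68, h66, h65, h64, h63, h62, h61, h49, h51]
    at b3 b4 b6 b7 b8
  linear_combination 8 * q 44 ^ 2 * q 39 ^ 2 * hw + (1 + q 0) * q 9 * q 0 ^ 2 * (b3 + q 9 * b4 +
    2 * q 0 * b6 + (2 * q 9 + q 0 + 6 * q 9 * q 0) * b7 +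
    2 * q 9 * (q 0 + q 9 * (1 + 2 * q 0 + q 0 ^ 2)) * b8)

end Pool.Agent.P.MP_48bde8_co_s
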