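import Pool.Agent.P.MP_48bde8_co_s.Tree
import Pool.Agent.P.MP_48bde8_co_s.Prog

/-! Kernel check of the identities for the smooth rows. -/

namespace Pool.Agent.P.MP_48bde8_co_s

set_option maxRecDepth 10000 in
theorem okJ : tchk (2 ^ 25 + 1) (2 ^ 405 + 1)
    [0, 0, 1, 0, 0, 0, 0, 0, 6, 9, 0, 0, 2, 0, 0, 0, 0, 0, 5, 7, 0, 0, 3, 4, 8] progJ [201, 202] = true := by
  decide +kernel

end Pool.Agent.P.MP_48bde8_co_s
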