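import Pool.Agent.P.MP_48bde8_co_s.Link
import Pool.Agent.P.MP_48bde8_co_s.RunJ

/-! The two smooth rows generate the two remaining equations, and conversely. -/

namespace Pool.Agent.P.MP_48bde8_co_s

variable {R : Type} [CommRing R] {r : ℕ → R}

theorem Cons.congr {n : ℕ} {s : List Ex} (hw : wf [] 0 n s = true) {r' : ℕ → R} (h : Cons r n s)
    (he : ∀ i < n + s.length, r' i = r i) : Cons r' n s := by
  induction s generalizing n with
  | nil => trivial
  | cons e s ih =>
    simp only [wf, Bool.and_eq_true] at hw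
    simp only [List.length_cons] at he
    refine ⟨?_, ih hw.2 h.2 fun i hi => he i (by omega)⟩
    rw [he n (by omega), h.1]
    refine ev_congr (fun i hi => ?_) hw.1
    simp only [Bool.or_eq_true, Bool.and_eq_true, Nat.ble_eq, Nat.blt_eq, List.elem_iff,
      List.not_mem_nil, false_or] at hi
    exact (he i (by omega)).symm

theorem Cons.drop {n : ℕ} {s : List Ex} (h : Cons r n s) (k : ℕ) : Cons r (n + k) (s.drop k) := by
  induction k generalizing n s with
  | zero => exact h
  | succ k ih =>
    cases s with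
    | nil => trivial
    | cons e s => exact (show n + 1 + k = n + (k + 1) by omega) ▸ ih h.2

set_option maxRecDepth 4000 in
theorem tpol_pow (h : Cons r 63 tpol) :
    r 65 = r 12 ^ 2 ∧ r 158 = r 12 ^ 9 ∧ r 191 = r 12 ^ 11 := by
  have h65 : r 65 = r 12 * r 12 := (h.drop 2).1
  have h67 : r 67 = r 65 * r 12 := (h.drop 4).1
  have h138 : r 138 = r 67 * r 12 := (h.drop 75).1
  have h147 : r 147 = r 138 * r 12 := (h.drop 84).1
  have h155 : r 155 = r 147 * r 12 := (h.drop 92).1
  have h156 : r 156 = r 155 * r 12 := (h.drop 93).1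
  have h157 : r 157 = r 156 * r 12 := (h.drop 94).1
  have h158 : r 158 = r 157 * r 12 := (h.drop 95).1
  have h189 : r 189 = r 157 * r 12 := (h.drop 126).1
  have h190 : r 190 = r 189 * r 12 := (h.drop 127).1
  have h191 : r 191 = r 190 * r 12 := (h.drop 128).1
  rw [h191, h190, h189, h158, h157, h156, h155, h147, h138, h67, h65]
  exact ⟨by ring, by ring, by ring⟩

theorem wf_head : wf [] 0 25 (preJ ++ (core ++ (core2 ++ (coretb ++ tpol)))) = true := by
  decide +kernel

theorem jac (h : Cons r 23 progS) (ho : r 22 = 1) (e0 : r 53 = 0) (e3 : r 213 = 0)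
    (e4 : r 214 = 0) (e1 : r 215 = 0) :
    r 12 ^ 9 * r 227 = 2 * r 26 * r 33 * r 216 ∧
      r 12 ^ 11 * r 228 = r 33 * (r 12 ^ 2 * r 30 * r 216 + 2 * r 26 * r 217) := by
  obtain ⟨h0, h1, h2, h3, h5, h4⟩ := progS_iff.1 h
  obtain ⟨q, q1, q2⟩ := exists_cons (n := 193) (s := restJ) (by decide +kernel) r
  obtain ⟨p1, p2, p3⟩ := tpol_pow h5
  have k1 := h1
  have k2 := h2
  simp only [preS, core, core2, restS, Cons, Ex.ev, Nat.cast_ofNat, Nat.reduceAdd, ho]
    at h0 k1 k2 h4
  obtain ⟨h23, h24, h25, -⟩ := h0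
  obtain ⟨-, h27, h28, -, -, h31, -, h33, h34, -, -, -, -, -, -, -, -, -,
    -, -, -, -, -, -, -, -, -, h53, -⟩ := k1
  obtain ⟨-, -, -, h57, -⟩ := k2
  have h6 : Cons r 25 (preJ ++ (core ++ (core2 ++ (coretb ++ tpol)))) := by
    simp only [cons_append]
    refine ⟨⟨?_, trivial⟩, h1, h2, h3, h5⟩
    simp only [Ex.ev, Nat.cast_ofNat]
    rw [h31, h27, h28] at h53
    linear_combination e0 - h53
  have h7 : Cons q 25 progJ := by
    have h8 := h6.congr wf_head (r' := q) fun i hi => q1 i (by
      simp only [List.length_append, tpol_len] at hi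
      exact hi)
    simp only [cons_append] at h8
    exact progJ_iff.2 ⟨h8.1, h8.2.1, h8.2.2.1, h8.2.2.2.1, h8.2.2.2.2, q2⟩
  have h8 := tchk_ok (y1 := q 2) (y2 := q 12) (xs := fun k => q ([23, 18, 8, 19, 24, 9].getD k 0))
    okJ (fun i hi => by
      have hi' : i < 25 := hi
      interval_cases i
      all_goals first
        | exact fun h => absurd rfl h
        | exact fun _ => rfl
        | exact fun _ => (q1 22 (by decide)).trans ho) h7
  have j5 := h8 201 (by simp)
  have j6 := h8 202 (by simp)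
  simp only [restJ, Cons, Ex.ev, Nat.cast_ofNat, Nat.reduceAdd, q1, Nat.reduceLT, ho] at q2
  obtain ⟨g193, g194, g195, g196, g197, g198, g199, g200, g201, g202, -⟩ := q2
  obtain ⟨h193, h194, h195, h196, h197, h198, h199, h200, h201, h202, h203, h204, -, -,
    -, -, h209, -, -, h212, h213, h214, h215, h216, h217, -, -, -, -, -, -,
    -, -, -, h227, h228, -⟩ := h4
  rw [← h27, ← h28] at h24
  have f2 : r 57 = -r 1 := by rw [h57, h24, h34, h33]; ring
  have a0 : q 196 = r 193 := by rw [g196, h25, h193]; ring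
  have a1 : q 197 = r 199 := by rw [g197, g193, g195, f2, h199, h193, h25, h23]; ring
  have a2 : q 198 = r 203 := by
    rw [h213, h197] at e3
    rw [g198, g193, g195, g194, ← h212, h203, h200, h202, h194, h198, h25, h23]
    linear_combination (-r 9 ^ 2) * e3
  have a3 : q 199 = r 204 := by
    rw [h214, h197] at e4
    rw [g199, g193, g195, g194, ← h212, f2, h204, h201, h200, h202, h196, h194, h198, h25, h23]
    linear_combination (-r 9 ^ 3) * e4
  have a4 : r 56 = r 209 := by linear_combination h215 - e1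
  rw [g201, g200, a0, a1, a2, a4, p2] at j5
  rw [g202, g200, a0, a1, a2, a3, p1, p3] at j6
  rw [h227, h228, h216, h217, p2, p3]
  exact ⟨by linear_combination -j5, by linear_combination j6⟩

end Pool.Agent.P.MP_48bde8_co_s
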