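import Pool.Agent.P.MP_48bde8_co_s.Defs
import Pool.Agent.P.MP_48bde8_co_s.Prog

/-! The registers of the system program are the polynomials of the statement. -/

namespace Pool.Agent.P.MP_48bde8_co_s

variable {R : Type} [CommRing R] {r : ℕ → R}

theorem tpol_len : tpol.length = 130 := by decide +kernel

theorem progS_iff : Cons r 23 progS ↔ Cons r 23 preS ∧ Cons r 26 core ∧ Cons r 54 core2 ∧
    Cons r 61 coretb ∧ Cons r 63 tpol ∧ Cons r 193 restS := by
  simp only [progS, cons_append, tpol_len]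
  rfl

theorem progH_iff : Cons r 23 progH ↔ Cons r 23 preH ∧ Cons r 26 core ∧ Cons r 54 core2 ∧
    Cons r 61 coup ∧ Cons r 80 rowH := by
  simp only [progH, cons_append]
  rfl

theorem progJ_iff : Cons r 25 progJ ↔ Cons r 25 preJ ∧ Cons r 26 core ∧ Cons r 54 core2 ∧
    Cons r 61 coretb ∧ Cons r 63 tpol ∧ Cons r 193 restJ := by
  simp only [progJ, cons_append, tpol_len]
  rfl

theorem progC_iff : Cons r 11 progC ↔ Cons r 11 preC ∧ Cons r 26 core ∧ Cons r 54 core2 ∧
    Cons r 61 coretb ∧ Cons r 63 restC ∧ Cons r 110 curC := by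
  simp only [progC, cons_append]
  rfl

/-- The nine unknowns in the registers. -/
def uOf (r : ℕ → R) : Fin 9 → R := ![r 12, r 2, r 1, r 18, r 8, r 19, r 3, r 4, r 5]

theorem link_aux (h0 : Cons r 23 preS) (h1 : Cons r 26 core) (ho : r 22 = 1) :
    aux (r 9) (r 0) (uOf r) = ![r 23, r 26, r 27, r 28, r 24, r 29, r 30, r 31, r 32, r 35, r 39,
      r 40, r 44, r 45, r 46] := by
  simp only [preS, core, Cons, Ex.ev, Nat.cast_ofNat, Nat.reduceAdd, ho] at h0 h1
  obtain ⟨h23, h24, -⟩ := h0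
  obtain ⟨h26, h27, h28, h29, h30, h31, h32, h33, h34, h35, h36, h37, h38, h39, h40, h41, h42, -,
    h44, h45, h46, -⟩ := h1
  have e24 : r 1 - r 8 * r 27 ^ 2 * r 28 = r 24 := by rw [h24, h27, h28]; ring
  have e35 : 2 * r 9 * r 29 - 1 - r 8 * r 27 ^ 2 = r 35 := by rw [h35, h34, h33]; ring
  have e39 : r 30 ^ 2 - r 26 * r 32 ^ 2 = r 39 := by rw [h39, h36, h38, h37]; ring
  have e40 : r 30 ^ 2 + r 26 * r 32 ^ 2 = r 40 := by rw [h40, h36, h38, h37]; ring
  have e44 : r 35 * r 40 - r 30 * r 32 * r 24 - r 29 * r 32 ^ 3 = r 44 := by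
    rw [h44, h41, h42, h37]; ring
  have e45 : r 24 * r 40 - 4 * r 26 * r 30 * r 32 * r 35 = r 45 := by rw [h45, h41]; ring
  have e46 : r 9 * (r 30 * r 24 - 2 * r 26 * r 32 * r 35 + r 29 * r 32 ^ 2) + r 39 * r 8 =
      r 46 := by rw [h46, h42, h37]; ring
  simp only [aux, uOf, Matrix.cons_val, ← h23, ← h26, ← h27, ← h28, ← h29, ← h30, ← h31, ← h32,
    e24, e35, e39, e40, e44, e45, e46]

theorem link_aux2 (h0 : Cons r 23 preS) (h1 : Cons r 26 core) (h2 : Cons r 54 core2)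
    (h3 : Cons r 61 coretb) (ho : r 22 = 1) :
    aux2 (r 9) (r 0) (uOf r) = ![r 47, r 48, r 50, r 52, r 56, r 62] := by
  have ha := link_aux h0 h1 ho
  simp only [preS, core, core2, coretb, Cons, Ex.ev, Nat.cast_ofNat, Nat.reduceAdd, ho]
    at h0 h1 h2 h3
  obtain ⟨-, h24, h25, -⟩ := h0
  obtain ⟨-, h27, h28, -, -, -, -, h33, h34, -, h36, h37, h38, -, -, h41, h42, h43,
    -, -, -, h47, h48, h49, h50, h51, h52, -⟩ := h1
  obtain ⟨h54, h55, h56, h57, h58, -⟩ := h2
  obtain ⟨h61, h62, -⟩ := h3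
  rw [← h27, ← h28] at h24
  simp only [aux2, ha]
  simp only [uOf, Matrix.cons_val]
  congr 1
  · rw [h47, h36, h38, h37]; ring
  congr 1
  · rw [h48, h42, h37]; ring
  congr 1
  · rw [h50, h43, h36, h41, h37, h49]; ring
  congr 1
  · rw [h52, h51, h37]; ring
  congr 1
  · rw [h56, h55, h54, h43]; ring
  congr 1
  · rw [h62, h61, h57, h25, h24, h34, h58, h33, h43]; ring

theorem link_sys (h : Cons r 23 progS) (ht : r 6 = 1) (ho : r 22 = 1) :
    sys (r 9) (r 0) (uOf r) =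
      ![r 53, r 213, r 214, r 215, r 227, r 228, r 224, r 225, r 226] := by
  obtain ⟨h0, h1, h2, h3, -, h4⟩ := progS_iff.1 h
  have ha := link_aux h0 h1 ho
  have hb := link_aux2 h0 h1 h2 h3 ho
  simp only [preS, core, core2, restS, Cons, Ex.ev, Nat.cast_ofNat, Nat.reduceAdd, ho, ht]
    at h0 h1 h2 h4
  obtain ⟨-, -, h25, -⟩ := h0
  obtain ⟨-, -, -, -, -, -, -, h33, h34, -, -, -, -, -, -, -, -, h43,
    -, -, -, -, -, h49, -, h51, -, h53, -⟩ := h1
  obtain ⟨-, -, -, -, h58, h59, h60, -⟩ := h2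
  obtain ⟨h193, h194, h195, h196, h197, h198, h199, h200, h201, h202, h203, h204, h205, h206,
    h207, h208, h209, h210, h211, h212, h213, h214, h215, -, -, h218, h219, h220, h221, h222, h223,
    h224, h225, h226, h227, h228, -⟩ := h4
  have e199 : r 0 * (r 9 - r 23) = r 199 := by rw [h199, h193]; ring
  have e200 : r 9 * r 0 * (r 9 * (1 + r 0) + r 0) = r 200 := by rw [h200, h194, h198, h195]; ring
  have e203 : r 200 - 2 * r 23 * r 9 * r 0 + r 23 ^ 2 * r 0 = r 203 := by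
    rw [h203, h194, h202]; ring
  have e204 : r 9 * r 0 * (r 9 ^ 2 * (1 + r 0) ^ 3 + 3 * r 9 * r 0 * (1 + r 0) + r 0 ^ 2) -
      3 * r 23 * r 200 + 3 * r 23 ^ 2 * r 9 * r 0 - r 23 ^ 3 * r 0 = r 204 := by
    rw [h204, h201, h194, h202, h196, h198, h195]; ring
  have e205 : r 9 * r 0 ^ 2 = r 205 := by rw [h205, h194, h193]; ring
  have e207 : r 0 ^ 2 * (r 9 * (1 + r 0) - r 23) = r 207 := by
    rw [h207, h194, h197, h206, h193, h195]; ring
  have e208 : r 205 * (2 * r 9 * (1 + r 0) + r 0 - 2 * r 23) = r 208 := by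
    rw [h208, h198, h195]; ring
  have e209 : r 4 * r 199 + r 5 * r 0 = r 209 := by rw [h209, h193]; ring
  have e218 : r 4 ^ 2 - 4 * r 44 ^ 2 * r 26 = r 218 := by rw [h218, h51]; ring
  have e219 : 2 * r 4 * r 5 - 4 * r 44 ^ 2 * r 30 = r 219 := by rw [h219, h51]; ring
  have e220 : r 5 ^ 2 - r 52 = r 220 := by rw [h220]; ring
  simp only [sys, ha, hb]
  simp only [uOf, Matrix.cons_val, e199, e200, e203, e204, e205, e207, e208, e209, e218, e219,
    e220, ← h210, ← h211]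
  congr 1
  · rw [h53, h25]; ring
  congr 1
  · rw [h213, h197, h212, h59, h195, h43, h34, h33, h58]; ring
  congr 1
  · rw [h214, h197, h212, h60, h195, h43, h34, h33, h58]; ring
  congr 1
  · rw [h215]
  congr 1
  · rw [h227, h33, h49, h193]; ring
  congr 1
  · rw [h228, h33, h49, h193]; ring
  congr 1
  · rw [h224, h223, h221, h206, h193]; ring
  congr 1
  · rw [h225, h223, h221, h222]; ring
  congr 1
  · rw [h226, h221, h222, h206, h51, h49, h193]; ring

end Pool.Agent.P.MP_48bde8_co_s
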