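import Pool.Agent.P.MP_48bde8_co_s.Dig

/-! Truncated series packed into natural numbers. -/

namespace Pool.Agent.P.MP_48bde8_co_s

open Polynomial

/-- Test of an inequality. -/
noncomputable def ifle {α : Type} (a b : ℕ) (t e : α) : α := Bool.rec e t (Nat.ble a b)

theorem ifle_eq {α : Type} (a b : ℕ) (t e : α) : ifle a b t e = if a ≤ b then t else e := by
  unfold ifle
  split_ifs with h
  · rw [Nat.ble_eq_true_of_le h]
  · rw [show Nat.ble a b = false from by simpa [← Nat.ble_eq] using h]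

/-- Evaluation of a number before use. -/
noncomputable def fN {α : Type} (n : ℕ) (k : ℕ → α) : α := Nat.rec (k 0) (fun m _ => k m.succ) n

theorem fN_eq {α : Type} (n : ℕ) (k : ℕ → α) : fN n k = k n := by cases n <;> rfl

/-- Minimum. -/
noncomputable def nmin (a b : ℕ) : ℕ := ifle a b a b

theorem nmin_eq (a b : ℕ) : nmin a b = min a b := by rw [nmin, ifle_eq, min_def]

/-- Parameters of the packing. -/
structure Cf where
  J : ℕ
  B1 : ℕ
  r0 : ℕ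
  r1 : ℕ
  s : ℕ

/-- A packed series: digits, offset and two norm bounds. -/
structure Pc where
  n : ℕ
  off : ℕ
  a : ℕ
  b : ℕ

/-- The mask of `k` digits. -/
def msk (c : Cf) (k : ℕ) : ℕ := Nat.sub (Nat.shiftLeft 1 (Nat.mul c.J k)) 1

theorem shl (a b : ℕ) : Nat.shiftLeft a b = a * 2 ^ b := Nat.shiftLeft_eq a b

theorem shr (a b : ℕ) : Nat.shiftRight a b = a / 2 ^ b := Nat.shiftRight_eq_div_pow a b

theorem land_msk (c : Cf) (n k : ℕ) : Nat.land n (msk c k) = n % 2 ^ (c.J * k) := by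
  rw [msk, shl, one_mul]
  exact Nat.and_two_pow_sub_one_eq_mod n _

/-- The zero series. -/
def pz (N : ℕ) : Pc := ⟨0, N, 0, 0⟩

/-- Sum when the first offset is the smaller one. -/
def pad0 (c : Cf) (N : ℕ) (p q : Pc) : Pc :=
  ⟨Nat.land (Nat.add p.n (Nat.shiftLeft q.n (Nat.mul c.J (Nat.sub q.off p.off))))
      (msk c (Nat.sub N p.off)), p.off,
    Nat.succ (Nat.add p.a (Nat.shiftRight q.a (Nat.mul c.r0 (Nat.sub q.off p.off)))),
    Nat.succ (Nat.add p.b (Nat.shiftRight q.b (Nat.mul c.r1 (Nat.sub q.off p.off))))⟩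

/-- Sum. -/
noncomputable def padd (c : Cf) (N : ℕ) (p q : Pc) : Pc :=
  ifle N p.off q (ifle N q.off p (ifle p.off q.off (pad0 c N p q) (pad0 c N q p)))

/-- Negation. -/
noncomputable def pneg (c : Cf) (N : ℕ) (p : Pc) : Pc :=
  ifle N p.off p ⟨Nat.sub (Nat.shiftLeft 1 (Nat.mul c.J (Nat.sub N p.off)))
    (Nat.land p.n (msk c (Nat.sub N p.off))), p.off, p.a, p.b⟩

/-- Multiple. -/
def psm (k : ℕ) (p : Pc) : Pc := ⟨Nat.mul k p.n, p.off, Nat.mul k p.a, Nat.mul k p.b⟩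

/-- Product. -/
noncomputable def pmul (c : Cf) (N : ℕ) (p q : Pc) : Pc :=
  ifle N (Nat.add p.off q.off) (pz N) (fN (msk c (Nat.sub N (Nat.add p.off q.off))) fun m =>
    ⟨Nat.land (Nat.mul (Nat.land p.n m) (Nat.land q.n m)) m, Nat.add p.off q.off,
      Nat.succ (Nat.shiftRight (Nat.mul p.a q.a) c.s),
      Nat.succ (Nat.shiftRight (Nat.mul p.b q.b) c.s)⟩)

/-- Removal of vanishing digits. -/
noncomputable def strip (c : Cf) (k : ℕ) : ℕ → ℕ → ℕ → ℕ → Pc :=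
  Nat.rec (fun _ o _ _ => pz o) (fun _ ih n o a b =>
    ifle (Nat.land n (msk c 1)) 0
      (ifle (Nat.shiftLeft c.B1 c.s) a ⟨n, o, a, b⟩
        (ifle (Nat.shiftLeft 1 (Nat.add c.J c.s)) b ⟨n, o, a, b⟩
          (ih (Nat.shiftRight n c.J) o.succ (Nat.shiftLeft a c.r0) (Nat.shiftLeft b c.r1))))
      ⟨n, o, a, b⟩) k

/-- Normal form. -/
noncomputable def pstrip (c : Cf) (N : ℕ) (p : Pc) : Pc :=
  ifle N p.off (pz N) (strip c (Nat.sub N p.off) (Nat.land p.n (msk c (Nat.sub N p.off)))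
    p.off p.a p.b)

/-- The monomial `k e1 ^ i e2 ^ j`. -/
def pm (c : Cf) (i j k : ℕ) : Pc :=
  ⟨Nat.mul k (Nat.pow c.B1 j), i, Nat.shiftLeft k c.s, Nat.shiftLeft (Nat.mul k (Nat.pow c.B1 j)) c.s⟩

/-- A monomial with integer coefficient. -/
noncomputable def pmo (c : Cf) (N : ℕ) (y : ℕ × ℕ × ℤ) : Pc :=
  Int.rec (fun k => pm c y.1 y.2.1 k) (fun k => pneg c N (pm c y.1 y.2.1 k.succ)) y.2.2

/-- A polynomial given by its monomials. -/
noncomputable def pcon (c : Cf) (N : ℕ) (l : List (ℕ × ℕ × ℤ)) : Pc :=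
  List.rec (pz N) (fun y _ ih => padd c N (pmo c N y) ih) l

/-- Evaluation of the fields before use. -/
noncomputable def fP {α : Type} (p : Pc) (k : Pc → α) : α :=
  fN p.n fun n => fN p.off fun o => fN p.a fun a => fN p.b fun b => k ⟨n, o, a, b⟩

theorem fP_eq {α : Type} (p : Pc) (k : Pc → α) : fP p k = k p := by simp only [fP, fN_eq]

variable {R : Type} [CommRing R]

/-- The value of a list of monomials. -/
def val (e1 e2 : R) (l : List (ℕ × ℕ × ℤ)) : R :=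
  (l.map fun y => (y.2.2 : R) * e2 ^ y.2.1 * e1 ^ y.1).sum

/-- The first norm. -/
noncomputable def nm0 (c : Cf) : A2 →+* NNReal := hm 1 (2 ^ c.r0)⁻¹

/-- The second norm. -/
noncomputable def nm1 (c : Cf) : A2 →+* NNReal := hm c.B1 (2 ^ c.r1)⁻¹

/-- The packing map. -/
noncomputable def pk (c : Cf) : A2 →+* ℤ := hm c.B1 ((2 ^ c.J : ℕ) : ℤ)

/-- `p` represents `v` modulo `e1 ^ N`. -/
def PRep (c : Cf) (e1 e2 : R) (N : ℕ) (p : Pc) (v : R) : Prop :=
  ∃ P Q : A2, ((2 ^ c.J : ℕ) : ℤ) ^ (N - p.off) ∣ p.n - (pk c P - pk c Q) ∧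
    2 ^ c.s * nm0 c (P + Q) ≤ p.a ∧ 2 ^ c.s * nm1 c (P + Q) ≤ p.b ∧
    e1 ^ N ∣ v - e1 ^ p.off * (hm e2 e1 P - hm e2 e1 Q)

variable {c : Cf} {e1 e2 : R} {N N' : ℕ} {p q : Pc} {v w : R}

theorem PRep.mono (h : PRep c e1 e2 N p v) (hN : N' ≤ N) : PRep c e1 e2 N' p v := by
  obtain ⟨P, Q, h1, h2, h3, h4⟩ := h
  exact ⟨P, Q, (pow_dvd_pow _ (by omega)).trans h1, h2, h3, (pow_dvd_pow _ hN).trans h4⟩

theorem PRep.congr (h : PRep c e1 e2 N p v) (hw : e1 ^ N ∣ w - v) : PRep c e1 e2 N p w := by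
  obtain ⟨P, Q, h1, h2, h3, h4⟩ := h
  exact ⟨P, Q, h1, h2, h3, (hw.add h4).trans (dvd_of_eq (by ring))⟩

theorem PRep.dvd (h : PRep c e1 e2 N p v) {t : ℕ} (h1 : t ≤ N) (h2 : t ≤ p.off) : e1 ^ t ∣ v := by
  obtain ⟨P, Q, -, -, -, h4⟩ := h
  exact (((pow_dvd_pow _ h1).trans h4).add ((pow_dvd_pow e1 h2).mul_right
    (hm e2 e1 P - hm e2 e1 Q))).trans (dvd_of_eq (by ring))

theorem PRep.zero {M : ℕ} (h : e1 ^ N ∣ v) : PRep c e1 e2 N (pz M) v :=
  ⟨0, 0, by simp [pz], by simp [pz], by simp [pz], by simpa using h⟩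

theorem le_shr (x : NNReal) (a k : ℕ) (h : 2 ^ k * x ≤ a) : x ≤ (a / 2 ^ k + 1 : ℕ) := by
  have h1 : (a : NNReal) ≤ 2 ^ k * (a / 2 ^ k + 1 : ℕ) := by
    exact_mod_cast (Nat.lt_mul_div_succ a (Nat.two_pow_pos k)).le
  exact le_of_mul_le_mul_left (h.trans h1) (by positivity)

theorem dvd_mod (n k : ℕ) :
    ((2 ^ c.J : ℕ) : ℤ) ^ k ∣ ((n % 2 ^ (c.J * k) : ℕ) : ℤ) - n := by
  rw [← Nat.cast_pow, ← pow_mul]
  exact ((Nat.mod_modEq n _).symm.dvd)

theorem nrm_add {f : A2 →+* NNReal} {r d s a1 a2 : ℕ} (hf : f X = (2 ^ r)⁻¹) {P1 P2 Q1 Q2 : A2}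
    (h1 : 2 ^ s * f (P1 + Q1) ≤ a1) (h2 : 2 ^ s * f (P2 + Q2) ≤ a2) :
    2 ^ s * f (P1 + X ^ d * P2 + (Q1 + X ^ d * Q2)) ≤ ((a1 + a2 / 2 ^ (r * d)).succ : ℕ) := by
  have h3 : 2 ^ s * (f X ^ d * f (P2 + Q2)) ≤ (a2 / 2 ^ (r * d) + 1 : ℕ) := by
    refine le_shr _ _ _ (le_trans (le_of_eq ?_) h2)
    rw [hf, inv_pow, ← pow_mul]
    field_simp
  rw [show P1 + X ^ d * P2 + (Q1 + X ^ d * Q2) = (P1 + Q1) + X ^ d * (P2 + Q2) by ring, map_add f,
    map_mul, map_pow, mul_add, Nat.succ_eq_add_one, add_assoc, Nat.cast_add]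
  exact add_le_add h1 h3

theorem PRep.pad0 (h : PRep c e1 e2 N p v) (h' : PRep c e1 e2 N q w) (h1 : p.off ≤ q.off)
    (h2 : q.off ≤ N) : PRep c e1 e2 N (pad0 c N p q) (v + w) := by
  obtain ⟨P1, Q1, a1, a2, a3, a4⟩ := h
  obtain ⟨P2, Q2, b1, b2, b3, b4⟩ := h'
  obtain ⟨d, hd⟩ := Nat.exists_eq_add_of_le h1
  have e : Nat.sub q.off p.off = d := by simp only [Nat.sub_eq]; omega
  refine ⟨P1 + X ^ d * P2, Q1 + X ^ d * Q2, ?_, ?_, ?_, ?_⟩
  · simp only [MP_48bde8_co_s.pad0, e, land_msk, shl, Nat.mul_eq, Nat.add_eq, Nat.sub_eq]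
    have b5 := mul_dvd_mul_left (((2 ^ c.J : ℕ) : ℤ) ^ d) b1
    rw [← pow_add, show d + (N - q.off) = N - p.off by omega] at b5
    refine (((dvd_mod (p.n + q.n * 2 ^ (c.J * d)) _).add a1).add b5).trans (dvd_of_eq ?_)
    simp only [pk, map_add, map_mul, map_pow, hm_X, pow_mul]
    push_cast
    ring
  · simp only [MP_48bde8_co_s.pad0, e, shr, Nat.mul_eq, Nat.add_eq]
    exact nrm_add (hm_X _ _) a2 b2
  · simp only [MP_48bde8_co_s.pad0, e, shr, Nat.mul_eq, Nat.add_eq]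
    exact nrm_add (hm_X _ _) a3 b3
  · refine (a4.add b4).trans (dvd_of_eq ?_)
    simp only [MP_48bde8_co_s.pad0, map_add, map_mul, map_pow, hm_X, hd]
    ring

theorem PRep.add (h : PRep c e1 e2 N p v) (h' : PRep c e1 e2 N q w) :
    PRep c e1 e2 N (padd c N p q) (v + w) := by
  simp only [padd, ifle_eq]
  split_ifs with h1 h2 h3
  · exact h'.congr (by simpa using h.dvd le_rfl h1)
  · exact h.congr (by simpa using h'.dvd le_rfl h2)
  · exact h.pad0 h' h3 (by omega)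
  · rw [add_comm]
    exact h'.pad0 h (by omega) (by omega)

theorem PRep.neg (h : PRep c e1 e2 N p v) : PRep c e1 e2 N (pneg c N p) (-v) := by
  simp only [pneg, ifle_eq]
  split_ifs with h1
  · have := h.dvd le_rfl h1
    exact h.congr (this.neg_right.sub this)
  · obtain ⟨P, Q, a1, a2, a3, a4⟩ := h
    refine ⟨Q, P, ?_, by rwa [add_comm], by rwa [add_comm],
      a4.neg_right.trans (dvd_of_eq (by ring))⟩
    simp only [land_msk, shl, Nat.mul_eq, Nat.sub_eq, one_mul]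
    rw [Nat.cast_sub (Nat.mod_lt _ (Nat.two_pow_pos _)).le]
    refine (((dvd_refl _).sub (dvd_mod p.n _)).sub a1).trans (dvd_of_eq ?_)
    rw [pow_mul]
    push_cast
    ring

theorem PRep.sm (h : PRep c e1 e2 N p v) (k : ℕ) : PRep c e1 e2 N (psm k p) (k * v) := by
  obtain ⟨P, Q, a1, a2, a3, a4⟩ := h
  refine ⟨k * P, k * Q, (a1.mul_left k).trans (dvd_of_eq ?_), ?_, ?_,
    (a4.mul_left k).trans (dvd_of_eq ?_)⟩
  · simp only [psm, Nat.mul_eq, map_mul, map_natCast]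
    push_cast
    ring
  · rw [← mul_add, map_mul, map_natCast, mul_left_comm]
    simp only [psm, Nat.mul_eq, Nat.cast_mul]
    exact mul_le_mul_right a2 _
  · rw [← mul_add, map_mul, map_natCast, mul_left_comm]
    simp only [psm, Nat.mul_eq, Nat.cast_mul]
    exact mul_le_mul_right a3 _
  · simp only [psm, map_mul, map_natCast]
    ring

theorem nrm_mul {f : A2 →+* NNReal} {s a1 a2 : ℕ} {P1 P2 Q1 Q2 : A2}
    (h1 : 2 ^ s * f (P1 + Q1) ≤ a1) (h2 : 2 ^ s * f (P2 + Q2) ≤ a2) :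
    2 ^ s * f (P1 * P2 + Q1 * Q2 + (P1 * Q2 + Q1 * P2)) ≤ ((a1 * a2 / 2 ^ s).succ : ℕ) := by
  refine le_shr _ _ _ (le_trans (le_of_eq ?_) ((mul_le_mul' h1 h2).trans (le_of_eq ?_)))
  · simp only [map_add, map_mul]
    ring
  · rw [Nat.cast_mul]

theorem PRep.mul {N1 N2 : ℕ} (h : PRep c e1 e2 N1 p v) (h' : PRep c e1 e2 N2 q w)
    (h1 : N ≤ N1 + min N2 q.off) (h2 : N ≤ N2 + min N1 p.off) :
    PRep c e1 e2 N (pmul c N p q) (v * w) := by
  have dv := h.dvd (min_le_left N1 p.off) (min_le_right _ _)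
  have dw := h'.dvd (min_le_left N2 q.off) (min_le_right _ _)
  simp only [pmul, ifle_eq, fN_eq, Nat.add_eq, Nat.sub_eq, Nat.mul_eq]
  split_ifs with h3
  · refine PRep.zero ((pow_dvd_pow e1 ?_).trans (pow_add e1 _ _ ▸ mul_dvd_mul dv dw))
    omega
  obtain ⟨P1, Q1, a1, a2, a3, a4⟩ := h
  obtain ⟨P2, Q2, b1, b2, b3, b4⟩ := h'
  refine ⟨P1 * P2 + Q1 * Q2, P1 * Q2 + Q1 * P2, ?_, ?_, ?_, ?_⟩
  · simp only [land_msk]
    set k := N - (p.off + q.off) with hk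
    have a5 := (dvd_mod p.n k).add ((pow_dvd_pow _ (show k ≤ N1 - p.off by omega)).trans a1)
    have b5 := (dvd_mod q.n k).add ((pow_dvd_pow _ (show k ≤ N2 - q.off by omega)).trans b1)
    refine (((dvd_mod (p.n % 2 ^ (c.J * k) * (q.n % 2 ^ (c.J * k))) k).add
      (a5.mul_right (q.n % 2 ^ (c.J * k) : ℕ))).add (b5.mul_left (pk c P1 - pk c Q1))).trans
      (dvd_of_eq ?_)
    simp only [map_add, map_mul, Nat.cast_mul]
    ring
  · simp only [shr]
    exact nrm_mul a2 b2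
  · simp only [shr]
    exact nrm_mul a3 b3
  · have a5 := (pow_dvd_pow e1 h1).trans (pow_add e1 _ _ ▸ mul_dvd_mul a4 dw)
    have b5 := (pow_dvd_pow e1 (show N ≤ N2 + p.off by omega)).trans
      (pow_add e1 _ _ ▸ mul_dvd_mul b4 (dvd_mul_right (e1 ^ p.off) (hm e2 e1 P1 - hm e2 e1 Q1)))
    refine (a5.add b5).trans (dvd_of_eq ?_)
    simp only [map_add, map_mul]
    ring

theorem nrm_div {f : A2 →+* NNReal} {r s a : ℕ} (hf : f X = (2 ^ r)⁻¹) {P Q : A2}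
    (h : 2 ^ s * f (P + Q) ≤ a) : 2 ^ s * f (P.divX + Q.divX) ≤ (a * 2 ^ r : ℕ) := by
  have h1 : f X * f (P.divX + Q.divX) ≤ f (P + Q) := by
    conv_rhs => rw [← X_mul_divX_add (P + Q), map_add f, map_mul f, divX_add]
    exact le_self_add
  have h2 := mul_le_mul_left ((mul_le_mul_right h1 (2 ^ s)).trans h) (2 ^ r)
  rw [Nat.cast_mul, Nat.cast_pow, Nat.cast_ofNat]
  refine le_trans (le_of_eq ?_) h2
  rw [hf]
  field_simp

theorem PRep.strip (k : ℕ) : ∀ n o a b : ℕ, o + k = N → PRep c e1 e2 N ⟨n, o, a, b⟩ v →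
    PRep c e1 e2 N (strip c k n o a b) v := by
  induction k with
  | zero => exact fun n o a b hk h => PRep.zero (h.dvd le_rfl (by simp only; omega))
  | succ k ih =>
    intro n o a b hk h
    show PRep c e1 e2 N (ifle _ _ (ifle _ _ _ (ifle _ _ _ (MP_48bde8_co_s.strip c k _ _ _ _))) _) v
    simp only [ifle_eq, land_msk, shl, shr, Nat.add_eq, one_mul, mul_one]
    split_ifs with h1 h2 h3
    · exact h
    · exact h
    swap
    · exact h
    refine ih _ _ _ _ (by omega) ?_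
    obtain ⟨P, Q, a1, a2, a3, a4⟩ := h
    simp only at a1 a2 a3 a4
    obtain ⟨n', rfl⟩ : 2 ^ c.J ∣ n := Nat.dvd_of_mod_eq_zero (by omega)
    rw [show N - o = k + 1 by omega, pow_succ'] at a1
    have h0 : P.coeff 0 = Q.coeff 0 := by
      refine dig0 (B1 := c.B1) (B2 := 2 ^ c.J) (w0 := (2 ^ c.r0)⁻¹) (w1 := (2 ^ c.r1)⁻¹) ?_ ?_ ?_
      · refine ((dvd_mul_right _ (n' : ℤ)).sub ((dvd_mul_right _ _).trans a1)).trans (dvd_of_eq ?_)
        simp only [pk, Nat.cast_mul]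
        ring
      · have h4 : (a : NNReal) < 2 ^ c.s * c.B1 := by
          rw [mul_comm]
          exact_mod_cast not_le.1 h2
        exact lt_of_mul_lt_mul_left (a2.trans_lt h4) (by positivity)
      · have h4 : (b : NNReal) < 2 ^ c.s * (2 ^ c.J : ℕ) := by
          rw [mul_comm]
          rw [pow_add] at h3
          exact_mod_cast not_le.1 h3
        exact lt_of_mul_lt_mul_left (a3.trans_lt h4) (by positivity)
    refine ⟨P.divX, Q.divX, ?_, nrm_div (hm_X _ _) a2, nrm_div (hm_X _ _) a3,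
      a4.trans (dvd_of_eq ?_)⟩
    · simp only [Nat.mul_div_cancel_left _ (Nat.two_pow_pos _)]
      rw [show N - o.succ = k by omega]
      refine (mul_dvd_mul_iff_left (a := ((2 ^ c.J : ℕ) : ℤ)) (by positivity)).1
        (a1.trans (dvd_of_eq ?_))
      simp only [pk]
      rw [hm_divX _ _ P, hm_divX _ _ Q, h0, Nat.cast_mul]
      ring
    · rw [hm_divX _ _ P, hm_divX _ _ Q, h0, Nat.succ_eq_add_one]
      ring

theorem PRep.pstrip (h : PRep c e1 e2 N p v) : PRep c e1 e2 N (pstrip c N p) v := by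
  simp only [MP_48bde8_co_s.pstrip, ifle_eq, Nat.sub_eq]
  split_ifs with h1
  · exact PRep.zero (h.dvd le_rfl h1)
  · refine PRep.strip _ _ _ _ _ (by omega) ?_
    obtain ⟨P, Q, a1, a2, a3, a4⟩ := h
    refine ⟨P, Q, ?_, a2, a3, a4⟩
    simp only [land_msk]
    exact ((dvd_mod p.n _).add a1).trans (dvd_of_eq (by ring))

theorem PRep.pm (i j k : ℕ) : PRep c e1 e2 N (pm c i j k) (k * e2 ^ j * e1 ^ i) := by
  refine ⟨C (C k * X ^ j), 0, ?_, ?_, ?_, ?_⟩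
  · simp [MP_48bde8_co_s.pm, pk]
  · simp [MP_48bde8_co_s.pm, nm0, Nat.shiftLeft_eq, mul_comm]
  · simp [MP_48bde8_co_s.pm, nm1, Nat.shiftLeft_eq, mul_comm]
  · simp [MP_48bde8_co_s.pm, mul_comm]

theorem PRep.pmo (y : ℕ × ℕ × ℤ) :
    PRep c e1 e2 N (pmo c N y) ((y.2.2 : R) * e2 ^ y.2.1 * e1 ^ y.1) := by
  obtain ⟨i, j, k | k⟩ := y
  · exact (PRep.pm (c := c) (e1 := e1) (e2 := e2) (N := N) i j k).congr (by simp)
  · have := (PRep.pm (c := c) (e1 := e1) (e2 := e2) (N := N) i j k.succ).neg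
    refine this.congr ((dvd_zero _).trans (dvd_of_eq ?_))
    simp only [Int.cast_negSucc]
    ring

theorem PRep.pcon (l : List (ℕ × ℕ × ℤ)) : PRep c e1 e2 N (pcon c N l) (val e1 e2 l) := by
  induction l with
  | nil => exact PRep.zero (by simp [val])
  | cons y l ih => exact (PRep.pmo y).add ih

end Pool.Agent.P.MP_48bde8_co_s
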