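import Pool.Agent.P.MP_48bde8_co_s.Pc

/-! Truncated series with a linear part in unknowns, and the evaluation of programs. -/

namespace Pool.Agent.P.MP_48bde8_co_s

/-- Sum of two lists. -/
noncomputable def zadd (c : Cf) (N : ℕ) (l : List Pc) : List Pc → List Pc :=
  List.rec (fun m => m) (fun p l ih m =>
    List.rec (p :: l) (fun q m _ => padd c N p q :: ih m) m) l

/-- Map of a list. -/
noncomputable def mp (f : Pc → Pc) (l : List Pc) : List Pc :=
  List.rec [] (fun p _ ih => f p :: ih) l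

/-- Least offset. -/
noncomputable def mn (N : ℕ) (l : List Pc) : ℕ := List.rec N (fun p _ ih => nmin p.off ih) l

/-- A register: precision, constant part, linear part, valuation bounds. -/
structure Rg where
  N : ℕ
  c : Pc
  l : List Pc
  vq : ℕ
  vl : ℕ

/-- Construction of a register. -/
noncomputable def mkR (N : ℕ) (c : Pc) (l : List Pc) : Rg :=
  fN (mn N l) fun q => ⟨N, c, l, q, nmin c.off q⟩

/-- Sum. -/
noncomputable def radd (c : Cf) (N : ℕ) (A B : Rg) : Rg :=
  fN (nmin N (nmin A.N B.N)) fun M => mkR M (padd c M A.c B.c) (zadd c M A.l B.l)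

/-- Negation. -/
noncomputable def rneg (c : Cf) (N : ℕ) (A : Rg) : Rg :=
  fN (nmin N A.N) fun M => mkR M (pneg c M A.c) (mp (pneg c M) A.l)

/-- Multiple. -/
noncomputable def rsm (k : ℕ) (A : Rg) : Rg := mkR A.N (psm k A.c) (mp (psm k) A.l)

/-- Product. -/
noncomputable def rmul (c : Cf) (N : ℕ) (A B : Rg) : Rg :=
  fN (nmin (nmin N (Nat.add A.vq B.vq)) (nmin (Nat.add A.N B.vl) (Nat.add B.N A.vl))) fun M =>
    mkR M (pmul c M A.c B.c) (zadd c M (mp (pmul c M A.c) B.l) (mp (pmul c M B.c) A.l))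

/-- Normal form. -/
noncomputable def rstrip (c : Cf) (A : Rg) : Rg :=
  mkR A.N (pstrip c A.N A.c) (mp (pstrip c A.N) A.l)

/-- The zero register. -/
def rz (N : ℕ) : Rg := ⟨N, pz N, [], N, N⟩

/-- Evaluation of a list before use. -/
noncomputable def fL {α : Type} (l : List Pc) : (List Pc → α) → α :=
  List.rec (fun k => k []) (fun p _ ih k => fP p fun p => ih fun t => k (p :: t)) l

theorem fL_eq {α : Type} (l : List Pc) (k : List Pc → α) : fL l k = k l := by
  induction l generalizing k with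
  | nil => rfl
  | cons p l ih => exact (fP_eq p fun p => fL l fun t => k (p :: t)).trans (ih _)

/-- Evaluation of a register before use. -/
noncomputable def fR {α : Type} (A : Rg) (k : Rg → α) : α :=
  fN A.N fun N => fP A.c fun c => fL A.l fun l => fN A.vq fun q => fN A.vl fun v => k ⟨N, c, l, q, v⟩

theorem fR_eq {α : Type} (A : Rg) (k : Rg → α) : fR A k = k A := by
  simp only [fR, fN_eq, fP_eq, fL_eq]

/-- A compiled expression: valuation bound and evaluation at a target precision. -/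
structure Cm where
  v : ℕ
  f : ℕ → Rg

/-- Skip when the valuation bound suffices. -/
noncomputable def sk (v : ℕ) (f : ℕ → Rg) : Cm := fN v fun v => ⟨v, fun N => ifle N v (rz v) (f N)⟩

/-- Compilation. -/
noncomputable def cmp (c : Cf) (lk : ℕ → Rg) (e : Ex) : Cm :=
  Ex.rec (fun i => Rg.rec (fun N p l q v => sk v fun _ => ⟨N, p, l, q, v⟩) (lk i))
    (fun _ _ A B => Cm.rec (fun v f => Cm.rec (fun w g =>
      sk (nmin v w) fun N => radd c N (f N) (g N)) B) A)
    (fun _ _ A B => Cm.rec (fun v f => Cm.rec (fun w g =>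
      sk (nmin v w) fun N => radd c N (f N) (rneg c N (g N))) B) A)
    (fun _ A => Cm.rec (fun v f => ⟨v, fun N => rneg c N (f N)⟩) A)
    (fun _ _ A B => Cm.rec (fun v f => Cm.rec (fun w g =>
      sk (Nat.add v w) fun N => rmul c N (f (Nat.sub N w)) (g (Nat.sub N v))) B) A)
    (fun k _ A => Cm.rec (fun v f => ⟨v, fun N => rsm k (f N)⟩) A) e

/-- Entry of a list. -/
noncomputable def nth {α : Type} (d : α) (l : List α) : ℕ → α :=
  List.rec (fun _ => d) (fun A _ ih i => Nat.rec A (fun j _ => ih j) i) l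

/-- Register number `i` in a reversed list of length `n`. -/
noncomputable def look {α : Type} (d : α) (l : List α) (n i : ℕ) : α :=
  ifle n i d (nth d l (Nat.sub n i.succ))

theorem look_cons {α : Type} (d A : α) (l : List α) (n i : ℕ) :
    look d (A :: l) n.succ i = if i = n then A else look d l n i := by
  simp only [look, ifle_eq, Nat.sub_eq, Nat.succ_eq_add_one]
  split_ifs with h1 h2 h3 h4 h5
  · omega
  · rfl
  · omega
  · rw [show n + 1 - (i + 1) = 0 by omega]
    rfl
  · omega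
  · rw [show n + 1 - (i + 1) = n - (i + 1) + 1 by omega]
    rfl

/-- Execution of the steps with given target precisions. -/
noncomputable def run (c : Cf) (k : (ℕ → Rg) → Bool) (s : List Ex) :
    List ℕ → List Rg → ℕ → Bool :=
  List.rec (fun _ l n => k (look (rz 0) l n)) (fun e _ ih hs l n =>
    List.rec false (fun h hs _ => fR (rstrip c ((cmp c (look (rz 0) l n) e).f h)) fun A =>
      fN n.succ fun m => ih hs (A :: l) m) hs) s

/-- Description of a value: precision, constant part, unknown and its coefficient. -/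
structure Sp where
  N : ℕ
  l : List (ℕ × ℕ × ℤ)
  i : ℕ
  m : List (ℕ × ℕ × ℤ)

/-- A list with one nonzero entry. -/
noncomputable def sgl (N : ℕ) (p : Pc) (i : ℕ) : List Pc := Nat.rec [p] (fun _ ih => pz N :: ih) i

/-- The register of a description. -/
noncomputable def rinp (c : Cf) (s : Sp) : Rg :=
  mkR s.N (pcon c s.N s.l) (List.rec [] (fun y t _ => sgl s.N (pcon c s.N (y :: t)) s.i) s.m)

/-- Loading of the inputs. -/
noncomputable def load (c : Cf) (k : List Rg → ℕ → Bool) (s : List Sp) : List Rg → ℕ → Bool :=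
  List.rec k (fun e _ ih l n => fR (rinp c e) fun A => fN n.succ fun m => ih (A :: l) m) s

/-- The combination of registers minus the target. -/
noncomputable def comb (c : Cf) (lk : ℕ → Rg) (s : Sp) (t : List (ℕ × List (ℕ × ℕ × ℤ))) : Rg :=
  List.rec (rneg c s.N (rinp c s)) (fun y _ ih =>
    radd c s.N (rmul c s.N (rinp c ⟨s.N, y.2, 0, []⟩) (lk y.1)) ih) t

/-- The check of the rows. -/
noncomputable def rows (c : Cf) (w : List (Sp × List (ℕ × List (ℕ × ℕ × ℤ)))) (lk : ℕ → Rg) :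
    Bool :=
  List.rec true (fun y _ ih => ifle y.1.N (rstrip c (comb c lk y.1 y.2)).vl ih false) w

/-- The complete check. -/
noncomputable def chk (c : Cf) (inp : List Sp) (s : List Ex) (hs : List ℕ)
    (w : List (Sp × List (ℕ × List (ℕ × ℕ × ℤ)))) : Bool :=
  load c (run c (rows c w) s hs) inp [] 0

variable {R : Type} [CommRing R]

/-- The list represents a linear form in the unknowns from number `k` on. -/
def LRep (c : Cf) (e1 e2 : R) (V : ℕ → R) (N : ℕ) : List Pc → ℕ → R → Prop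
  | [], _, v => e1 ^ N ∣ v
  | p :: l, k, v => ∃ a w, PRep c e1 e2 N p a ∧ LRep c e1 e2 V N l (k + 1) w ∧ v = a * V k + w

/-- The register represents `v`. -/
def RRep (c : Cf) (e1 e2 : R) (V : ℕ → R) (A : Rg) (v : R) : Prop :=
  ∃ a w, PRep c e1 e2 A.N A.c a ∧ LRep c e1 e2 V A.N A.l 0 w ∧ v = a + w ∧
    A.vq ≤ mn A.N A.l ∧ A.vl ≤ A.c.off ∧ A.vl ≤ A.vq

variable {c : Cf} {e1 e2 : R} {V : ℕ → R} {N N' k : ℕ} {l m : List Pc} {v w : R} {A B : Rg}

theorem mn_cons (p : Pc) (l : List Pc) : mn N (p :: l) = min p.off (mn N l) := nmin_eq _ _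

theorem mn_le (l : List Pc) : mn N l ≤ N := by
  induction l with
  | nil => exact le_rfl
  | cons p l ih => rw [mn_cons]; omega

theorem LRep.mono (h : LRep c e1 e2 V N l k v) (hN : N' ≤ N) : LRep c e1 e2 V N' l k v := by
  induction l generalizing k v with
  | nil => exact (pow_dvd_pow _ hN).trans h
  | cons p l ih =>
    obtain ⟨a, w, h1, h2, h3⟩ := h
    exact ⟨a, w, h1.mono hN, ih h2, h3⟩

theorem LRep.congr (h : LRep c e1 e2 V N l k v) (hw : e1 ^ N ∣ w - v) :
    LRep c e1 e2 V N l k w := by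
  induction l generalizing k v w with
  | nil => exact (hw.add h).trans (dvd_of_eq (by ring))
  | cons p l ih =>
    obtain ⟨a, u, h1, h2, rfl⟩ := h
    exact ⟨a, w - a * V k, h1, ih h2 (hw.trans (dvd_of_eq (by ring))), by ring⟩

theorem LRep.dvd (h : LRep c e1 e2 V N l k v) : e1 ^ mn N l ∣ v := by
  induction l generalizing k v with
  | nil => exact h
  | cons p l ih =>
    obtain ⟨a, u, h1, h2, rfl⟩ := h
    have := mn_le (N := N) l
    rw [mn_cons]
    exact ((h1.dvd (by omega) (by omega)).mul_right _).add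
      ((pow_dvd_pow _ (by omega)).trans (ih h2))

theorem LRep.add (h : LRep c e1 e2 V N l k v) (h' : LRep c e1 e2 V N m k w) :
    LRep c e1 e2 V N (zadd c N l m) k (v + w) := by
  induction l generalizing k v w m with
  | nil => exact h'.congr (by simpa [LRep] using h)
  | cons p l ih =>
    cases m with
    | nil => exact h.congr (by simpa [LRep] using h')
    | cons q m =>
      obtain ⟨a, u, h1, h2, rfl⟩ := h
      obtain ⟨a', u', h3, h4, rfl⟩ := h'
      exact ⟨a + a', u + u', h1.add h3, ih h2 h4, by ring⟩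

theorem LRep.map {f : Pc → Pc} {s : R} (hs : ∀ a, e1 ^ N ∣ a → e1 ^ N' ∣ s * a)
    (hf : ∀ p a, PRep c e1 e2 N p a → mn N l ≤ p.off → PRep c e1 e2 N' (f p) (s * a))
    (h : LRep c e1 e2 V N l k v) : LRep c e1 e2 V N' (mp f l) k (s * v) := by
  induction l generalizing k v with
  | nil => exact hs _ h
  | cons p l ih =>
    obtain ⟨a, u, h1, h2, rfl⟩ := h
    rw [mn_cons] at hf
    exact ⟨s * a, s * u, hf _ _ h1 (min_le_left _ _),
      ih (fun q b h3 h4 => hf q b h3 ((min_le_right _ _).trans h4)) h2, by ring⟩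

theorem RRep.mk {p : Pc} {a : R} (h : PRep c e1 e2 N p a) (h' : LRep c e1 e2 V N l 0 w) :
    RRep c e1 e2 V (mkR N p l) (a + w) := by
  rw [mkR, fN_eq, nmin_eq]
  exact ⟨a, w, h, h', rfl, le_rfl, min_le_left _ _, min_le_right _ _⟩

theorem RRep.dvd (h : RRep c e1 e2 V A v) : e1 ^ A.vl ∣ v := by
  obtain ⟨a, w, h1, h2, rfl, h3, h4, h5⟩ := h
  have := mn_le (N := A.N) A.l
  exact (h1.dvd (by omega) h4).add ((pow_dvd_pow _ (by omega)).trans h2.dvd)

theorem RRep.zero (h : e1 ^ N ∣ v) : RRep c e1 e2 V (rz N) v :=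
  ⟨v, 0, PRep.zero h, dvd_zero _, (add_zero v).symm, le_rfl, le_rfl, le_rfl⟩

theorem RRep.add (h : RRep c e1 e2 V A v) (h' : RRep c e1 e2 V B w) :
    RRep c e1 e2 V (radd c N A B) (v + w) := by
  obtain ⟨a, u, h1, h2, rfl, -⟩ := h
  obtain ⟨a', u', h3, h4, rfl, -⟩ := h'
  rw [radd, fN_eq, nmin_eq, nmin_eq, add_add_add_comm]
  exact RRep.mk ((h1.mono (by omega)).add (h3.mono (by omega)))
    ((h2.mono (by omega)).add (h4.mono (by omega)))

theorem RRep.neg (h : RRep c e1 e2 V A v) : RRep c e1 e2 V (rneg c N A) (-v) := by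
  obtain ⟨a, u, h1, h2, rfl, -⟩ := h
  rw [rneg, fN_eq, nmin_eq, neg_add, ← neg_one_mul u]
  exact RRep.mk (h1.mono (by omega)).neg (LRep.map (N := min N A.N) (fun _ h => h.mul_left _)
    (fun p a h _ => by simpa using h.neg) (h2.mono (by omega)))

theorem RRep.sm (h : RRep c e1 e2 V A v) (k : ℕ) : RRep c e1 e2 V (rsm k A) (k * v) := by
  obtain ⟨a, u, h1, h2, rfl, -⟩ := h
  rw [rsm, mul_add]
  exact RRep.mk (h1.sm k) (h2.map (fun _ h => h.mul_left _) fun p a h _ => h.sm k)

theorem RRep.strip (h : RRep c e1 e2 V A v) : RRep c e1 e2 V (rstrip c A) v := by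
  obtain ⟨a, u, h1, h2, rfl, -⟩ := h
  rw [rstrip, ← one_mul u]
  exact RRep.mk h1.pstrip (h2.map (fun _ h => h.mul_left _) fun p a h _ => by
    simpa using h.pstrip)

theorem RRep.mul (h : RRep c e1 e2 V A v) (h' : RRep c e1 e2 V B w) :
    RRep c e1 e2 V (rmul c N A B) (v * w) := by
  obtain ⟨a, u, h1, h2, rfl, a1, a2, a3⟩ := h
  obtain ⟨a', u', h3, h4, rfl, b1, b2, b3⟩ := h'
  have a4 := mn_le (N := A.N) A.l
  have b4 := mn_le (N := B.N) B.l
  simp only [rmul, fN_eq, nmin_eq, Nat.add_eq]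
  generalize hM : min (min N (A.vq + B.vq)) (min (A.N + B.vl) (B.N + A.vl)) = M
  have key : ∀ {N1 N2 : ℕ} {p : Pc} {s : R} {l : List Pc} {u : R} {t : ℕ}, PRep c e1 e2 N1 p s →
      LRep c e1 e2 V N2 l 0 u → t ≤ N1 → t ≤ p.off → M ≤ N2 + t → M ≤ N1 + mn N2 l →
      LRep c e1 e2 V M (mp (pmul c M p) l) 0 (s * u) := by
    intro N1 N2 p s l u t k1 k2 k3 k4 k5 k6
    have := mn_le (N := N2) l
    refine k2.map (fun y hy => (pow_dvd_pow e1 (show M ≤ t + N2 by omega)).trans
      (pow_add e1 _ _ ▸ mul_dvd_mul (k1.dvd k3 k4) hy)) fun q y hy hq => k1.mul hy ?_ ?_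
    · omega
    · omega
  have h5 := (key h1 h4 (t := A.vl) (by omega) a2 (by omega) (by omega)).add
    (key h3 h2 (t := B.vl) (by omega) b2 (by omega) (by omega))
  have h6 : e1 ^ M ∣ u * u' := (pow_dvd_pow e1 (show M ≤ mn A.N A.l + mn B.N B.l by omega)).trans
    (pow_add e1 _ _ ▸ mul_dvd_mul h2.dvd h4.dvd)
  rw [show (a + u) * (a' + u') = a * a' + (a * u' + a' * u + u * u') by ring]
  exact RRep.mk (h1.mul h3 (by omega) (by omega)) (h5.congr (by simpa using h6))

/-- The compiled expression represents `v`. -/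
def CRep (c : Cf) (e1 e2 : R) (V : ℕ → R) (A : Cm) (v : R) : Prop :=
  e1 ^ A.v ∣ v ∧ ∀ N, RRep c e1 e2 V (A.f N) v

theorem CRep.sk {t : ℕ} {f : ℕ → Rg} (h : e1 ^ t ∣ v) (h' : ∀ N, RRep c e1 e2 V (f N) v) :
    CRep c e1 e2 V (sk t f) v := by
  rw [MP_48bde8_co_s.sk, fN_eq]
  refine ⟨h, fun N => ?_⟩
  simp only [ifle_eq]
  split_ifs
  exacts [RRep.zero h, h' N]

theorem CRep.cmp {lk : ℕ → Rg} {r : ℕ → R} (h : ∀ i, RRep c e1 e2 V (lk i) (r i)) (e : Ex) :
    CRep c e1 e2 V (cmp c lk e) (e.ev r) := by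
  induction e with
  | v i => exact CRep.sk (h i).dvd fun _ => h i
  | add a b iha ihb =>
    refine CRep.sk ?_ fun N => (iha.2 N).add (ihb.2 N)
    rw [nmin_eq]
    exact ((pow_dvd_pow _ (min_le_left _ _)).trans iha.1).add
      ((pow_dvd_pow _ (min_le_right _ _)).trans ihb.1)
  | sub a b iha ihb =>
    rw [Ex.ev, sub_eq_add_neg]
    refine CRep.sk ?_ fun N => (iha.2 N).add (ihb.2 N).neg
    rw [nmin_eq]
    exact ((pow_dvd_pow _ (min_le_left _ _)).trans iha.1).add
      ((pow_dvd_pow _ (min_le_right _ _)).trans ihb.1).neg_right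
  | neg a iha => exact ⟨iha.1.neg_right, fun N => (iha.2 N).neg⟩
  | mul a b iha ihb =>
    exact CRep.sk (pow_add e1 _ _ ▸ mul_dvd_mul iha.1 ihb.1) fun N => (iha.2 _).mul (ihb.2 _)
  | sm k a iha => exact ⟨iha.1.mul_left _, fun N => (iha.2 N).sm k⟩

theorem look_push {α : Type} {d A : α} {l : List α} {n : ℕ} {p : α → ℕ → Prop}
    (h : ∀ i, p (look d l n i) i) (hA : p A n) (i : ℕ) : p (look d (A :: l) n.succ i) i := by
  rw [look_cons]
  split_ifs with h1
  · exact h1 ▸ hA
  · exact h i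

theorem run_ok {k : (ℕ → Rg) → Bool} {r : ℕ → R} (s : List Ex) : ∀ {hs : List ℕ} {l : List Rg}
    {n : ℕ}, Cons r n s → (∀ i, RRep c e1 e2 V (look (rz 0) l n i) (r i)) →
    run c k s hs l n = true → ∃ lk, (∀ i, RRep c e1 e2 V (lk i) (r i)) ∧ k lk = true := by
  induction s with
  | nil => exact fun _ h h' => ⟨_, h, h'⟩
  | cons e s ih =>
    intro hs l n h1 h2 h3
    cases hs with
    | nil => exact absurd h3 Bool.false_ne_true
    | cons t hs =>
      have h4 : (fR (rstrip c ((cmp c (look (rz 0) l n) e).f t)) fun A =>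
        fN n.succ fun m => run c k s hs (A :: l) m) = true := h3
      rw [fR_eq, fN_eq] at h4
      refine ih h1.2 (look_push (p := fun A i => RRep c e1 e2 V A (r i)) h2 ?_) h4
      rw [h1.1]
      exact ((CRep.cmp h2 e).2 t).strip

/-- The value described. -/
def Sp.val (e1 e2 : R) (V : ℕ → R) (s : Sp) : R :=
  MP_48bde8_co_s.val e1 e2 s.l + MP_48bde8_co_s.val e1 e2 s.m * V s.i

theorem LRep.sgl {p : Pc} (h : PRep c e1 e2 N p v) (i : ℕ) :
    LRep c e1 e2 V N (sgl N p i) k (v * V (k + i)) := by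
  induction i generalizing k with
  | zero => exact ⟨v, 0, h, dvd_zero _, by simp⟩
  | succ i ih =>
    exact ⟨0, _, PRep.zero (dvd_zero _), ih, by rw [zero_mul, zero_add, add_assoc, add_comm 1]⟩

theorem RRep.inp {s : Sp} (h : e1 ^ s.N ∣ v - s.val e1 e2 V) : RRep c e1 e2 V (rinp c s) v := by
  obtain ⟨N, l, i, m⟩ := s
  have h1 : LRep c e1 e2 V N (List.rec [] (fun y t _ => sgl N (pcon c N (y :: t)) i) m) 0
      (val e1 e2 m * V i) := by
    cases m with
    | nil => simp [LRep, val]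
    | cons y t => simpa using LRep.sgl (V := V) (k := 0) (PRep.pcon (c := c) (N := N) (y :: t)) i
  rw [← sub_add_cancel v (val e1 e2 m * V i)]
  exact RRep.mk ((PRep.pcon l).congr (h.trans (dvd_of_eq (by simp only [Sp.val]; ring)))) h1

/-- The inputs have the values described. -/
def InpOK (e1 e2 : R) (V r : ℕ → R) : ℕ → List Sp → Prop
  | _, [] => True
  | n, s :: t => e1 ^ s.N ∣ r n - s.val e1 e2 V ∧ InpOK e1 e2 V r (n + 1) t

theorem load_ok {k : List Rg → ℕ → Bool} {r : ℕ → R} (s : List Sp) : ∀ {l : List Rg} {n : ℕ},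
    InpOK e1 e2 V r n s → (∀ i, RRep c e1 e2 V (look (rz 0) l n i) (r i)) →
    load c k s l n = true → ∃ l', (∀ i, RRep c e1 e2 V (look (rz 0) l' (n + s.length) i) (r i)) ∧
      k l' (n + s.length) = true := by
  induction s with
  | nil => exact fun _ h h' => ⟨_, h, h'⟩
  | cons e s ih =>
    intro l n h1 h2 h3
    have h4 : (fR (rinp c e) fun A => fN n.succ fun m => load c k s (A :: l) m) = true := h3
    rw [fR_eq, fN_eq] at h4
    have := ih h1.2 (look_push (p := fun A i => RRep c e1 e2 V A (r i)) h2 (RRep.inp h1.1)) h4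
    rwa [List.length_cons, show n + (s.length + 1) = n + 1 + s.length by omega]

/-- The combination of registers. -/
def cval (e1 e2 : R) (r : ℕ → R) (t : List (ℕ × List (ℕ × ℕ × ℤ))) : R :=
  (t.map fun y => val e1 e2 y.2 * r y.1).sum

theorem RRep.comb {lk : ℕ → Rg} {r : ℕ → R} (h : ∀ i, RRep c e1 e2 V (lk i) (r i)) (s : Sp)
    (t : List (ℕ × List (ℕ × ℕ × ℤ))) :
    RRep c e1 e2 V (comb c lk s t) (cval e1 e2 r t - s.val e1 e2 V) := by
  induction t with
  | nil =>
    rw [cval, List.map_nil, List.sum_nil, zero_sub]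
    exact (RRep.inp (by simp)).neg
  | cons y t ih =>
    rw [cval, List.map_cons, List.sum_cons, add_sub_assoc]
    exact ((RRep.inp (by simp [Sp.val, val])).mul (h y.1)).add ih

theorem chk_ok {inp : List Sp} {s : List Ex} {hs : List ℕ}
    {w : List (Sp × List (ℕ × List (ℕ × ℕ × ℤ)))} (h : chk c inp s hs w = true) {r : ℕ → R}
    (h1 : InpOK e1 e2 V r 0 inp) (h2 : Cons r inp.length s) :
    ∀ y ∈ w, e1 ^ y.1.N ∣ cval e1 e2 r y.2 - y.1.val e1 e2 V := by
  obtain ⟨l, h3, h4⟩ := load_ok (c := c) inp h1 (l := []) (fun i => RRep.zero (N := 0) (by simp)) h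
  rw [zero_add] at h3 h4
  obtain ⟨lk, h5, h6⟩ := run_ok s h2 h3 h4
  clear h h4
  induction w with
  | nil => simp
  | cons y w ih =>
    have h7 : ifle y.1.N (rstrip c (comb c lk y.1 y.2)).vl (rows c w lk) false = true := h6
    rw [ifle_eq] at h7
    split_ifs at h7 with h8
    intro y' hy
    rcases List.mem_cons.1 hy with rfl | hy
    · exact (pow_dvd_pow _ h8).trans (RRep.comb h5 _ _).strip.dvd
    · exact ih h7 y' hy

end Pool.Agent.P.MP_48bde8_co_s
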