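import Pool.Agent.P.MP_48bde8_co_s.CertD

/-! Kernel check of a certificate. -/

namespace Pool.Agent.P.MP_48bde8_co_s

theorem okB : certB.ok cfg hsB = true := by decide +kernel

end Pool.Agent.P.MP_48bde8_co_s
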