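import Pool.Agent.P.MP_48bde8_co_s.Flev
import Pool.Agent.P.MP_48bde8_co.Final

/-! The solution in one-variable series; rigidity; the eliminant. -/

namespace Pool.Agent.P.MP_48bde8_co_s

open MP_48bde8_co MP_48bde8_co.Exist PowerSeries

variable {k : Type} [Field k] [Algebra ℚ k] {σ : k}

theorem main_k (hσ : Transcendental ℚ σ) : ∃ (U : Fin 9 → k⟦X⟧)
    (Ψ : MvPowerSeries (Fin 2) ℚ →+* k⟦X⟧), Function.Injective Ψ ∧
    Ψ (MvPowerSeries.X 0) = X ^ 2 ∧ Ψ (MvPowerSeries.X 1) = -C σ ^ 2 * (X ^ 2) ^ 2 ∧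
    (∀ N, coeff N (Ψ F) = if 2 ∣ N then
      ∑ j ∈ Finset.range (N / 2 / 2 + 1), (m (N / 2 - 2 * j) j : k) * (-σ ^ 2) ^ j else 0) ∧
    (∀ j, (X ^ 2) ^ ord j ∣ U j - init (X ^ 2) (-C σ ^ 2 * (X ^ 2) ^ 2) j) ∧
    sys (X ^ 2) (-C σ ^ 2 * (X ^ 2) ^ 2) U = 0 ∧ den (X ^ 2) (-C σ ^ 2 * (X ^ 2) ^ 2) U ≠ 0 ∧
    den (X ^ 2) (-C σ ^ 2 * (X ^ 2) ^ 2) U * Ψ F = num (X ^ 2) (-C σ ^ 2 * (X ^ 2) ^ 2) U := by
  have h0 : σ ≠ 0 := by
    rintro rfl
    exact hσ isAlgebraic_zero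
  have : CharZero k := algebraRat.charZero k
  obtain ⟨Ψ₁, -, x1, z1, c1⟩ := exists_psi1 hσ
  obtain ⟨Ψ₂, i2, x2, z2, c2⟩ := exists_psi2 hσ
  have hI := partI (1 : Polynomial ℚ) Polynomial.X
  obtain ⟨θ, hS⟩ := exists_setup h0 hI Ψ₁ x1 z1 c1
  have hC := cpl_powerSeries k
  obtain ⟨q, hq⟩ := hrun (e2 := -C σ ^ 2) (γ := gam9 θ) hC X_ne_zero (.of_mul_eq_one _ two_hf)
    ((IsUnit.of_mul_eq_one _ (sg_si h0)).pow 2).neg fun i => hS.gam i ▸ ParamA.low hI Ψ₁ c1 i
  let κ := algebraMap (Lf k) (AlgebraicClosure (Lf k))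
  have hι : Function.Injective (κ.comp (io k)) := κ.injective.comp io_inj
  have : CharZero k⟦X⟧ := charZero_of_injective_ringHom C_injective
  have : CharZero (AlgebraicClosure (Lf k)) := charZero_of_injective_ringHom hι
  have hz : zO σ = -C σ ^ 2 * X ^ 2 := by rw [zO]; ring
  obtain ⟨a1, a2⟩ := main_O hι (e := Units.map κ.toMonoidHom (eL k)) (th := C 3⁻¹) rfl hC
    (sg_si h0) two_hf
    (by rw [← map_ofNat C 3, ← map_mul, mul_inv_cancel₀ three_ne_zero, map_one]) hz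
    (sdc_of_sd1 hS.sd1 hS.gam) hS.small
    (hS.par.map κ (by rintro _ ⟨y, rfl⟩; exact ⟨y, rfl⟩)) hS.kap
    (fun j => by rw [shr_w9 hS.sd1.rotT]; simp only [hS.mom]) hq
  have ho := congrArg Ψ₁ hI.out
  rw [map_outG, outG_eq _ _ _ hS.gam] at ho
  simp only [map_mul, map_add, map_one, map_pow, x1, z1] at ho
  obtain ⟨b1, b2⟩ := den_num hq.cons hq.rows hq.ho a1
    (γ := fun u => q (![10, 11, 13, 14, 15, 16, 17, 20, 21] (cls u))) rfl rfl rfl rfl rfl
    (w := Ψ₂ F) (by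
      have g3 := hq.hγ 3
      have g4 := hq.hγ 4
      have g6 := hq.hγ 6
      have g7 := hq.hγ 7
      have g8 := hq.hγ 8
      simp only [gam9, Matrix.cons_val, pow_zero, one_mul] at g3 g4 g6 g7 g8
      simp only [out, ← g3, ← g4, ← g7, ← g8, hz] at ho
      rw [c2 Ψ₁ c1, hq.hx, hq.hz, outG]
      show _ = _ - _ * ((q 14 - _) * _ + q 15 * _ + q 17 * _ + q 20 * _ + q 21 * _)
      rw [← g6] at ho
      linear_combination X ^ 4 * ho)
  rw [hq.hx, hq.hz] at a2 b1 b2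
  refine ⟨uOf q, Ψ₂, i2, x2, by rw [z2, hz]; ring, fun N => ?_, hq.init, a2, ?_, b2⟩
  · rw [c2 Ψ₁ c1, coeff_X_pow_mul']
    split_ifs with h4 h2 h2
    · rw [c1]
      trans ∑ j ∈ Finset.range (N + 1),
        if 4 * j ≤ N then (m (N / 2 - 2 * j) j : k) * (-σ ^ 2) ^ j else 0
      · refine Finset.sum_subset_zero_on_sdiff (fun j hj => ?_) (fun j hj => ?_) fun j hj => ?_
        · rw [Finset.mem_range] at hj ⊢
          omega
        · rw [Finset.mem_sdiff, Finset.mem_range, Finset.mem_range] at hj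
          rw [Psi.m_zero (by omega), Nat.cast_zero, zero_mul, ite_self]
        · rw [Finset.mem_range] at hj
          rw [Psi.coeff_Ft]
          by_cases h : 4 * j ≤ N
          · rw [if_pos h, if_pos (by omega), map_natCast,
              show (N - 4 - 2 * j + 4) / 2 - j = N / 2 - 2 * j by omega]
          · rw [if_neg h, if_neg (by omega), map_zero, zero_mul]
      · symm
        refine Finset.sum_subset_zero_on_sdiff (fun j hj => ?_) (fun j hj => ?_) fun j hj => ?_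
        · rw [Finset.mem_range] at hj ⊢
          omega
        · rw [Finset.mem_sdiff, Finset.mem_range, Finset.mem_range] at hj
          exact if_neg (by omega)
        · rw [Finset.mem_range] at hj
          exact (if_pos (by omega)).symm
    · rw [c1]
      refine Finset.sum_eq_zero fun j hj => ?_
      rw [Finset.mem_range] at hj
      rw [Psi.coeff_Ft, if_neg (by omega), map_zero, zero_mul]
    · refine (Finset.sum_eq_zero fun j _ => ?_).symm
      rw [Psi.m_zero (by omega), Nat.cast_zero, zero_mul]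
    · rfl
  · obtain ⟨w, hw, hP⟩ := hq.hP
    rw [b1, hP, show (1 : k⟦X⟧) + -C σ ^ 2 * (X ^ 2) ^ 2 = 1 + X * (-C σ ^ 2 * X ^ 3) by ring]
    exact mul_ne_zero (mul_ne_zero (mul_ne_zero (by norm_num) (hC.isUnit _).ne_zero)
      (pow_ne_zero _ hq.hT)) (pow_ne_zero _ (mul_ne_zero (by simp) hw.ne_zero))

theorem rigid9 {O L : Type} [CommRing O] [IsDomain O] [Field L] [Algebra O L] [IsFractionRing O L]
    {e1 e2 : O} (hC : Cpl e1) (h0 : e1 ≠ 0) (h2 : IsUnit (2 : O)) (he : IsUnit e2) {U : Fin 9 → O}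
    (h : ∀ j, e1 ^ ord j ∣ U j - init e1 (e2 * e1 ^ 2) j) (hs : sys e1 (e2 * e1 ^ 2) U = 0)
    {P : Fin 9 → L} (hP : ∀ i, sys (inD (algebraMap O L e1)) (inD (algebraMap O L (e2 * e1 ^ 2)))
      (fun j => dn (algebraMap O L (U j)) (P j)) i = 0) : P = 0 := by
  have hι := IsFractionRing.injective O L
  obtain ⟨b, hb⟩ := IsLocalization.exist_integer_multiples (nonZeroDivisors O) (S := L)
    Finset.univ P
  choose t ht using fun j => hb j (Finset.mem_univ j)
  obtain ⟨χ, hχ⟩ := exists_mapD (RingHom.id L) (algebraMap O L (e1 ^ 24 * (b : O)))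
  obtain ⟨ψ, hψ⟩ := exists_mapD (algebraMap O L) 1
  simp only [RingHom.id_apply, one_mul] at hχ hψ
  have e3 : ∀ j, algebraMap O L (e1 ^ 24 * (b : O)) * P j = algebraMap O L (e1 ^ 24 * t j) :=
    fun j => by rw [map_mul, map_mul, ht j, Algebra.smul_def, mul_assoc]
  have h3 : sys (inD e1) (inD e2 * inD e1 ^ 2) (fun j => dn (U j) (e1 ^ 24 * t j)) = 0 := by
    funext i
    have h4 := congrArg χ (hP i)
    rw [map_sys, map_zero] at h4
    simp only [← dn_zero, hχ, mul_zero, e3] at h4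
    rw [← map_zero (algebraMap O L)] at h4
    simp only [← hψ, ← map_sys, dn_zero] at h4
    rw [← map_pow, ← map_mul]
    generalize sys (R := DualNumber O) _ _ _ i = y at h4
    rw [← dn_fst_snd y, hψ, EvalAux.dnZero, map_eq_zero_iff _ hι, map_eq_zero_iff _ hι] at h4
    exact TrivSqZeroExt.ext h4.1 h4.2
  have u2 : IsUnit (2 : DualNumber O) := map_ofNat (inD (R := O)) 2 ▸ h2.map _
  have hr : ∀ y, inD e1 * y = 0 → y = 0 := fun y hy => by
    have a1 := congrArg TrivSqZeroExt.fst hy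
    have a2 := congrArg TrivSqZeroExt.snd hy
    simp only [TrivSqZeroExt.fst_mul, DualNumber.snd_mul, fst_inD, snd_inD, zero_mul, add_zero,
      TrivSqZeroExt.fst_zero, TrivSqZeroExt.snd_zero, mul_eq_zero, h0, false_or] at a1 a2
    exact TrivSqZeroExt.ext a1 a2
  have h5 := ((sol_of h2 he hC.1 (fun y hy => (mul_eq_zero.1 hy).resolve_left h0) h hs).map
    inD).unique u2 (he.map _) hC.dual.1 hr (sol_of u2 (he.map _) hC.dual.1 hr (fun j => by
      rw [← map_pow, ← map_pow, ← map_mul, ← map_init, cplt_dvd_iff]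
      simp only [TrivSqZeroExt.fst_sub, TrivSqZeroExt.snd_sub, fst_dn, snd_dn, fst_inD, snd_inD,
        sub_zero]
      exact ⟨h j, (pow_dvd_pow e1 (by revert j; decide)).mul_right _⟩) h3)
  funext j
  have h6 := congrArg TrivSqZeroExt.snd (congrFun h5 j)
  rw [snd_inD, snd_dn] at h6
  have h7 := e3 j
  rw [← h6, map_zero, mul_eq_zero, map_eq_zero_iff _ hι] at h7
  exact h7.resolve_left (mul_ne_zero (pow_ne_zero _ h0) (nonZeroDivisors.coe_ne_zero b))

theorem eval_poly9 {L : Type} [CommRing L] (φ : MvPolynomial (Fin 2) ℚ →+* L) (w : L)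
    (P : Fin 9 → L) {x z : L} (hx : φ (.X 0) = x) (hz : φ (.X 1) = z)
    {x' z' : MvPolynomial (Fin 9) Rw} (hx' : x' = .C (.C (.X 0))) (hz' : z' = .C (.C (.X 1))) :
    MvPolynomial.eval₂ (Polynomial.eval₂RingHom φ w) P (den x' z' .X * .C .X - num x' z' .X) =
      den x z P * w - num x z P ∧
    ∀ j, MvPolynomial.eval₂ (Polynomial.eval₂RingHom φ w) P (sys x' z' .X j) = sys x z P j := by
  let ψ := MvPolynomial.eval₂Hom (Polynomial.eval₂RingHom φ w) P
  have h1 : ψ x' = x := by simp [ψ, hx', hx]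
  have h2 : ψ z' = z := by simp [ψ, hz', hz]
  have h3 : (fun j => ψ (.X j)) = P := funext fun j => by simp [ψ]
  have h4 : ψ (.C .X) = w := by simp [ψ]
  have a1 := map_den ψ x' z' .X
  have a2 := map_num ψ x' z' .X
  have a3 := map_sys ψ x' z' .X
  rw [h1, h2, h3] at a1 a2 a3
  refine ⟨?_, a3⟩
  show ψ _ = _
  rw [map_sub, map_mul, a1, a2, h4]

theorem aeval_poly9' (hσ : Transcendental ℚ σ) : Polynomial.aeval F poly9 = 0 := by
  have h0 : σ ≠ 0 := by
    rintro rfl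
    exact hσ isAlgebraic_zero
  obtain ⟨U, Ψ, i2, x2, z2, -, h1, h2, h3, h4⟩ := main_k hσ
  let φ := (io k).comp (Ψ.comp (algebraMap (MvPolynomial (Fin 2) ℚ) (MvPowerSeries (Fin 2) ℚ)))
  have hx : φ (MvPolynomial.X 0) = io k (X ^ 2) := by
    simp [φ, MvPowerSeries.algebraMap_apply', x2]
  have hz : φ (MvPolynomial.X 1) = io k (-C σ ^ 2 * (X ^ 2) ^ 2) := by
    simp [φ, MvPowerSeries.algebraMap_apply', z2]
  apply i2
  apply io_inj
  rw [map_zero, map_zero, Polynomial.aeval_def, Polynomial.hom_eval₂, Polynomial.hom_eval₂]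
  refine canny φ (io k (Ψ F)) (fun j => io k (U j)) _ _ ?_ (fun j => ?_) fun w' P' a1 a2 => ?_
  · rw [(eval_poly9 φ _ _ hx hz rfl rfl).1, ← map_den, ← map_num, ← map_mul, h4, sub_self]
  · rw [(eval_poly9 φ _ _ hx hz rfl rfl).2, ← map_sys, h2, Pi.zero_apply, map_zero]
  · rw [(eval_poly9 (inD.comp φ) _ _ (congrArg inD hx) (congrArg inD hz) rfl rfl).1] at a1
    simp only [(eval_poly9 (inD.comp φ) _ _ (congrArg inD hx) (congrArg inD hz) rfl rfl).2] at a2
    have h5 := rigid9 (cpl_sq (cpl_powerSeries k)) (by simp) (.of_mul_eq_one _ two_hf)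
      ((IsUnit.of_mul_eq_one _ (sg_si h0)).pow 2).neg h1 h2 a2
    refine ⟨?_, h5⟩
    simp only [h5, Pi.zero_apply, dn_zero, ← map_den, ← map_num] at a1
    have h6 := congrArg TrivSqZeroExt.snd a1
    simp only [TrivSqZeroExt.snd_sub, DualNumber.snd_mul, fst_inD, snd_inD, snd_dn, zero_mul,
      add_zero, sub_zero, TrivSqZeroExt.snd_zero, mul_eq_zero, map_eq_zero_iff _ io_inj] at h6
    exact h6.resolve_left h3

theorem aeval_poly9 : Polynomial.aeval F poly9 = 0 :=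
  @aeval_poly9' (RatFunc ℚ) _ (_) RatFunc.X (RatFunc.transcendental_X (K := ℚ))

theorem poly9_ne_zero : poly9 ≠ 0 := eliminant_ne_zero _ _

end Pool.Agent.P.MP_48bde8_co_s
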