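import Pool.Agent.P.MP_48bde8_co.Exist
import Pool.Agent.P.MP_48bde8_co.NodeC

/-! Six points of a second branch that lie on the curve. -/

namespace Pool.Agent.P.MP_48bde8_co_s

open MP_48bde8_co MP_48bde8_co.Exist

section

variable {R : Type} [CommRing R]

theorem simpson (x z : R) (θ : Fin 10 → R) (κ : R) (k : Fin 5 → R) (f h s : R) :
    3 * (curveK x z θ κ k (f + 2 * h) s - curveK x z θ κ k f s) =
      h * (cF x z θ k f s + 4 * cF x z θ k (f + h) s + cF x z θ k (f + 2 * h) s) := by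
  simp only [curveK, curve, cF]
  generalize θ 0 * θ 2 * θ 7 - θ 0 * θ 6 * θ 4 - θ 2 ^ 2 * θ 3 = ρ
  generalize k 0 - 2 * θ 6 * z * (s * (θ 4 + θ 2 * s)) = g
  generalize θ 4 + 2 * θ 2 * s = L
  generalize θ 4 + θ 2 * s = w
  generalize θ 6 * s ^ 2 + θ 7 * s + θ 8 = P
  generalize θ 2 * s ^ 2 + θ 4 * s + θ 5 = Q
  generalize x - z = δ
  ring

theorem curve_diff (x z : R) (θ : Fin 10 → R) (κ κ' : R) (k k' : Fin 5 → R) (f s : R) {hf : R}
    (h : 2 * hf = 1) : ∑ j, cols x z θ (fun _ => hf * (k 0 + k' 0)) f s j *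
      ![κ - κ', k 1 - k' 1, k 2 - k' 2, k 3 - k' 3, k 4 - k' 4, k 0 - k' 0] j =
      curveK x z θ κ k f s - curveK x z θ κ' k' f s := by
  simp only [curveK, curve, cols, Fin.sum_univ_six, Matrix.cons_val]
  generalize θ 0 * θ 2 * θ 7 - θ 0 * θ 6 * θ 4 - θ 2 ^ 2 * θ 3 = ρ
  generalize θ 4 + 2 * θ 2 * s = L
  generalize s * (θ 4 + θ 2 * s) = ν
  generalize f - (θ 6 * s ^ 2 + θ 7 * s + θ 8) = Y
  linear_combination θ 0 ^ 2 * θ 2 * (k 0 + k' 0) * (k 0 - k' 0) * h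

/-- The shift of the parameter of a node. -/
def shf (ε : R) (i : Fin 6) (δ w : R) : R :=
  ![ε * δ * w, ε ^ 3 * δ * w, ε ^ 13 * δ * w, ε ^ 17 * w * (1 + ε ^ 4 * δ),
    ε ^ 17 * w * (1 + ε ^ 4 * δ), ε * δ * w] i

theorem omO_shf (ε si : R) (i : Fin 6) (δ w : R) : omO ε si i (δ + ε * shf ε i δ w) =
    omO ε si i δ * (1 + ε ^ 2 * (ε ^ (sv i).toNat * w)) := by
  have h : ∀ i : Fin 6, (sv i).toNat = ![0, 2, 12, 20, 20, 0] i := by decide
  rw [h]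
  fin_cases i <;> simp only [omO, shf, Fin.zero_eta, Fin.mk_one, Fin.reduceFinMk,
    Matrix.cons_val] <;> ring

theorem map_shf {R' : Type} [CommRing R'] (χ : R →+* R') (ε : R) (i : Fin 6) (δ w : R) :
    χ (shf ε i δ w) = shf (χ ε) i (χ δ) (χ w) := by
  fin_cases i <;> simp [shf]

theorem shf_mem {S : Subring R} {ε δ w : R} (h1 : ε ∈ S) (h2 : δ ∈ S) (h3 : w ∈ S) (i : Fin 6) :
    shf ε i δ w ∈ S := by
  rw [show shf ε i δ w = S.subtype (shf ⟨ε, h1⟩ i ⟨δ, h2⟩ ⟨w, h3⟩) from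
    (map_shf S.subtype ⟨ε, h1⟩ i ⟨δ, h2⟩ ⟨w, h3⟩).symm]
  exact Subtype.property _

theorem omO_mem {S : Subring R} {ε si δ : R} (h1 : ε ∈ S) (h2 : si ∈ S) (h3 : δ ∈ S) (i : Fin 6) :
    omO ε si i δ ∈ S := by
  rw [show omO ε si i δ = S.subtype (omO ⟨ε, h1⟩ ⟨si, h2⟩ i ⟨δ, h3⟩) from
    (map_omO S.subtype ⟨ε, h1⟩ ⟨si, h2⟩ i ⟨δ, h3⟩).symm]
  exact Subtype.property _

theorem lp_iff {B : Type} {π : B → R} {g : B → R} :
    g ∈ lipS (RingHom.id R) π ↔ ∀ b b', π b - π b' ∣ g b - g b' :=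
  ⟨fun ⟨g', h1, h2⟩ => by rwa [show g = g' from funext h1], fun h => ⟨g, fun _ => rfl, h⟩⟩

theorem lp_inv {B : Type} {π : B → R} {g : B → R} (hg : g ∈ lipS (RingHom.id R) π)
    (hu : ∀ b, IsUnit (g b)) : ∃ y ∈ lipS (RingHom.id R) π, g * y = 1 := by
  obtain ⟨y, h1, h2⟩ := lip_inv π (lp_iff.1 hg) hu
  exact ⟨y, lp_iff.2 h2, funext h1⟩

theorem lp_comp {B : Type} {π : B → R} {g : B → R} (hg : g ∈ lipS (RingHom.id R) π) {W : R → R}
    (hW : ∀ s s', s - s' ∣ W s - W s') : (fun b => W (g b)) ∈ lipS (RingHom.id R) π :=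
  lp_iff.2 fun b b' => (lp_iff.1 hg b b').trans (hW _ _)

end

open Polynomial in
theorem branch_node {O F : Type} [CommRing O] [Field F] {ι : O →+* F}
    {ε sg si hf th z : O} {e : Fˣ} (he : ι ε = e) (hC : Cpl ε) (hinv : sg * si = 1)
    (hhf : 2 * hf = 1) (hth : 3 * th = 1) (hz : ι z = -(ι sg ^ 2 * (e : F) ^ 2)) {θ : Fin 10 → O}
    {τ : List Bool → O} (hτ : SDC 1 z θ τ) (hsm : Small ε z θ)
    (hpa : ParLT ι.range e (ι sg) (ι si) (ι hf) fun j => ι (θ j))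
    (hloc : ∀ y ∈ ι.range, IsUnit (1 + (e : F) * y)) (hkap : θ 9 = Kap 1 z θ τ)
    (hmom : ∀ j, τ (w9 j) = shear (θ 1) (mom0 1 z ε) j) {a : O} (ha : ε ∣ a + 1) {W Γ : O → O}
    (hW : ∀ s s', s - s' ∣ W s - W s') (hΓ : ∀ s s', s - s' ∣ Γ s - Γ s') (i : Fin 6) :
    ∃ (ζ δ : O) (y f : F), y * ι ζ = 1 ∧ ε ∣ δ - d0 sg si i ∧
      mOf e (ι si) i (ι δ) = (y - ι a) * ι (1 + ε ^ 2 * (ζ * W ζ)) ∧
      VV ι.range e (2 + sv i) (ι (ε ^ 2 * ζ * Γ ζ)) ∧
      mOf e (ι si) i (ι δ) * f = -(mOf e (ι si) i (ι δ) * ι (ε ^ 2 * ζ * Γ ζ)) - (1 - ι z) ∧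
      curveAt 1 (ι z) (ι ε) (fun j => ι (θ j)) f (mOf e (ι si) i (ι δ)) = 0 := by
  have hb := cB_dvd hτ hsm
  obtain ⟨G0, hG0, hG0'⟩ := phi_nil hC hb
  let B := {δ : O // ε ∣ δ - d0 sg si i}
  let k : O →+* (B → O) := Pi.constRingHom B O
  let T : Subring (B → O) := lipS (RingHom.id O) (Subtype.val : B → O)
  have hk : ∀ a, k a ∈ T := fun a => lip_const _ _ a
  let D : B → O := Subtype.val
  have hD : D ∈ T := lip_coord _ _
  let ev : B → (B → O) →+* O := fun b => Pi.evalRingHom (fun _ : B => O) b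
  set n := (sv i).toNat with hn
  obtain ⟨a', ha'⟩ := ha
  obtain ⟨y1, m1, u1⟩ := lp_inv (g := sUnit (k ε) (k si) i D + k ε * k (ε ^ n * a'))
    (add_mem (sUnit_mem (hk _) (hk _) hD i) (mul_mem (hk _) (hk _))) fun b => by
      have h1 : sUnit (k ε) (k si) i D b = sUnit ε si i b.1 := map_sUnit (ev b) _ _ i D
      exact hC.isUnit_add (h1 ▸ (node_units hC hinv hhf i b.2).1) _
  let ζ : B → O := k ε ^ n * y1
  have mζ : ζ ∈ T := mul_mem (pow_mem (hk _) _) m1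
  let w : B → O := y1 * fun b => W (ζ b)
  have mw : w ∈ T := mul_mem m1 (lp_comp mζ hW)
  have ms := shf_mem (hk ε) hD mw i
  let δ : B → O := D + k ε * shf (k ε) i D w
  have mδ : δ ∈ T := add_mem hD (mul_mem (hk _) ms)
  have hδ : ∀ b, ε ∣ δ b - d0 sg si i := fun b =>
    (b.2.add (dvd_mul_right ε (shf (k ε) i D w b))).trans (dvd_of_eq (by
      show _ = b.1 + ε * _ - _
      ring))
  have hun := fun b => node_units hC hinv hhf i (hδ b)
  obtain ⟨y2, m2, u2⟩ := lp_inv (omO_mem (hk ε) (hk si) mδ i) fun b => by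
    rw [show omO (k ε) (k si) i δ b = omO ε si i (δ b) from map_omO (ev b) _ _ i δ]
    exact (hun b).2.2
  obtain ⟨y3, m3, u3⟩ := lp_inv (un_mem (hk sg) mδ i) fun b => by
    rw [show un (k sg) i δ b = un sg i (δ b) from map_un (ev b) _ i δ]
    exact (hun b).2.1
  obtain ⟨y4, m4, u4⟩ := lp_inv (sUnit_mem (hk ε) (hk si) mδ i) fun b => by
    rw [show sUnit (k ε) (k si) i δ b = sUnit ε si i (δ b) from map_sUnit (ev b) _ _ i δ]
    exact (hun b).1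
  let s : B → O := k ε ^ n * y4
  let g0 : B → O := y4 * fun b => G0 (s b)
  have mg0 : g0 ∈ T := mul_mem m4 (lp_comp (mul_mem (pow_mem (hk _) _) m4) hG0')
  let g1 : B → O := y1 * fun b => Γ (ζ b)
  have mg1 : g1 ∈ T := mul_mem m1 (lp_comp mζ hΓ)
  let Φ : (B → O) →+* (B → F) := ι.compLeft B
  let S : Subring (B → F) := T.map Φ
  let S' : Subring (B → F)[X] := S.comap (evalRingHom (Φ (k 0))) ⊓
    (S.comap (evalRingHom (Φ (k hf))) ⊓ S.comap (evalRingHom (Φ (k 1))))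
  let ψ : (B → O) →+* (B → F)[X] := C.comp Φ
  have hψ : ∀ y ∈ T, ψ y ∈ S' := fun y hy => by
    refine ⟨?_, ?_, ?_⟩ <;> exact ⟨y, hy, (eval_C ..).symm⟩
  have hX : (X : (B → F)[X]) ∈ S' := by
    refine ⟨?_, ?_, ?_⟩ <;> exact ⟨_, hk _, (eval_X ..).symm⟩
  let c : F →+* (B → F)[X] := C.comp (Pi.constRingHom B F)
  have hc : ∀ a, ψ (k a) = c (ι a) := fun _ => rfl
  have hpar := hpa.map c (S' := S') (by
    rintro _ ⟨a, rfl⟩
    exact hψ _ (hk a))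
  set E : ((B → F)[X])ˣ := Units.map c.toMonoidHom e with hE
  have hEε : ψ (k ε) = E := by rw [hc, he]; rfl
  obtain ⟨hmu, f, hf', U, g, ⟨⟨q0, n0, v0⟩, ⟨q1, n1, v1⟩, ⟨q2, n2, v2⟩⟩, hU⟩ := core hpar i
    (δ := ψ δ) (y := 1) (G0 := ψ g0 + X * ψ (g1 - g0)) (hψ _ mδ)
    ⟨ψ y2, hψ _ m2, by rw [om_eq, ← hEε, ← hc, ← map_omO, ← map_mul, u2, map_one]⟩
    ⟨ψ y3, hψ _ m3, by rw [← hc, ← map_un, ← map_mul, u3, map_one]⟩ (one_mem _)
    (add_mem (hψ _ mg0) (mul_mem hX (hψ _ (sub_mem mg1 mg0)))) rfl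
  obtain ⟨b, hb0⟩ := hC.fixed _ (shf (k ε) i D w + k (th * hf) * (q0 + k 4 * q1 + q2))
    (lp_iff.1 (add_mem ms (mul_mem (hk _) (add_mem (add_mem n0 (mul_mem (hk _) n1)) n2))))
  let eb : (B → F) →+* F := Pi.evalRingHom (fun _ : B => F) b
  let π : O → (B → F)[X] →+* F := fun t => eb.comp (evalRingHom (Φ (k t)))
  have p1 : ∀ t y, π t (ψ y) = ι (y b) := fun t y => congrArg eb (eval_C ..)
  have p2 : ∀ t, π t X = ι t := fun t => congrArg eb (eval_X ..)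
  have p3 : ∀ t a, π t (c a) = a := fun t a => congrArg eb (eval_C ..)
  have p4 : ∀ t, π t E = ι ε := fun t => by rw [← hEε, p1]; rfl
  have p5 : ∀ t, Units.map (π t).toMonoidHom E = e := fun t => Units.ext ((p4 t).trans he)
  obtain ⟨u, -, hu⟩ := Polynomial.isUnit_iff.1 (U.isUnit.map (mapRingHom eb))
  have p6 : ∀ t, π t U = u := fun t => by
    have h1 := congrArg (eval (ι t)) hu
    rw [eval_C, coe_mapRingHom, eval_map] at h1
    exact (eval₂_at_apply eb (Φ (k t))).symm.trans h1.symm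
  set m := mOf e (ι si) i (ι (δ b)) with hm
  have pm : ∀ t, π t (mOf E (c (ι si)) i (ψ δ)) = m := fun t => by rw [map_mOf, p5, p3, p1]
  have hm0 : m ≠ 0 := pm 0 ▸ (hmu.map (π 0)).ne_zero
  have pz : ∀ t, π t (-(c (ι sg) ^ 2 * (E : (B → F)[X]) ^ 2)) = ι z := fun t => by
    rw [map_neg, map_mul, map_pow, map_pow, p3, p4, hz, he]
  have pf : ∀ t, m * π t f =
      -(m * (ι ε ^ 2 * ι ε ^ n * (ι (g0 b) + ι t * (ι (g1 b) - ι (g0 b))))) - (1 - ι z) := by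
    intro t
    have h1 := congrArg (π t) hf'
    rw [map_mul, map_sub, map_sub (π t) 1, pz, map_neg, map_mul, pm] at h1
    simpa only [map_mul, map_pow, map_add, map_one, p4, p1, p2, mul_one, Pi.sub_apply, map_sub]
      using h1
  have pc : ∀ t q, Φ q = evalRingHom (Φ (k t)) g → cFAt 1 (ι z) (ι ε) (fun j => ι (θ j)) (π t f) m =
      u * (ι (δ b) - d0 (ι sg) (ι si) i + ι ε * ι (q b)) := by
    intro t q hq
    have h1 := congrArg (π t) hU
    have h2 : π t g = ι (q b) := (congrArg eb hq).symm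
    rw [map_cFAt, pz, pm, map_mul, map_add, map_sub, map_d0, map_mul, h2] at h1
    simpa only [map_one, p4, p3, p1, p6] using h1
  have i2 : 2 * ι hf = 1 := by rw [← map_ofNat ι 2, ← map_mul, hhf, map_one]
  have i3 : 3 * ι th = 1 := by rw [← map_ofNat ι 3, ← map_mul, hth, map_one]
  obtain ⟨φ, hφ⟩ := phi_exists hC hb (s b)
  have hunits := hpa.units hloc
  have h0 : curveAt 1 (ι z) (ι ε) (fun j => ι (θ j)) (π 0 f) m = 0 := by
    have hy : sUnit ε si i (δ b) * y4 b = 1 :=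
      (congrArg (· * y4 b) (map_sUnit (ev b) _ _ i δ)).symm.trans (congrFun u4 b)
    have h1 := curve_zero (f := π 0 f) (m := m) (hτ.map ι) ((hφ.pr hC hτ hb).map ι)
      (by rw [map_one]; exact s_spec ι he i hy) (by
        rw [pf, hG0 _ _ hφ, map_one, map_zero]
        simp only [s, g0, Pi.mul_apply, Pi.pow_apply, map_mul, map_pow]
        rw [show k ε b = ε from rfl]
        ring) hunits.1 hunits.2.1 hm0.isUnit
    rw [← map_Kap, ← hkap] at h1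
    have h2 : (fun i => ι (τ (w9 i))) = shear (ι (θ 1)) (mom0 (ι 1) (ι z) (ι ε)) := by
      funext j
      rw [hmom, map_shear]
      simp only [map_mom0]
    rw [h2, map_one] at h1
    rw [curveAt_eq]
    exact h1
  have e1 : π hf f = π 0 f + -(ι hf * ι ε ^ 2 * ι ε ^ n * (ι (g1 b) - ι (g0 b))) :=
    mul_left_cancel₀ hm0 (by rw [mul_add, pf, pf, map_zero]; ring)
  have e2 : π 1 f = π 0 f + 2 * -(ι hf * ι ε ^ 2 * ι ε ^ n * (ι (g1 b) - ι (g0 b))) :=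
    mul_left_cancel₀ hm0 (by
      rw [mul_add, pf, pf, map_zero, map_one]
      linear_combination m * ι ε ^ 2 * ι ε ^ n * (ι (g1 b) - ι (g0 b)) * i2)
  have hy1 : (sUnit ε si i b.1 + ε * (ε ^ n * a')) * y1 b = 1 :=
    (congrArg (fun t => (t + ε * (ε ^ n * a')) * y1 b) (map_sUnit (ev b) _ _ i D)).symm.trans
      (congrFun u1 b)
  have hζ : ζ b = ε ^ n * y1 b := rfl
  refine ⟨ζ b, δ b, ι a + mOf e (ι si) i (ι b.1), π 1 f, ?_, hδ b, ?_, ?_, ?_, ?_⟩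
  · have h1 := sUnit_spec e (ι si) i (ι b.1)
    rw [← sv_cast, zpow_natCast, Units.val_pow_eq_pow_val, ← he, ← map_sUnit, ← hn] at h1
    have h2 := congrArg ι hy1
    have h3 := congrArg ι ha'
    simp only [map_mul, map_add, map_one, map_pow] at h2 h3
    rw [hζ, map_mul, map_pow]
    linear_combination ι (y1 b) * h1 + h2 + ι ε ^ n * ι (y1 b) * h3
  · have h1 : δ b = b.1 + ε * shf ε i b.1 (y1 b * W (ζ b)) :=
      congrArg (fun t => b.1 + ε * t) (map_shf (ev b) _ i D w)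
    rw [add_sub_cancel_left, mOf, mOf, om_eq, om_eq, ← he, ← map_omO, ← map_omO, h1, omO_shf,
      map_mul, hζ, mul_assoc, mul_assoc]
  · refine ⟨ι (g1 b), ⟨_, rfl⟩, ?_⟩
    rw [show (2 : ℤ) + sv i = ((2 + n : ℕ) : ℤ) by rw [Nat.cast_add, sv_cast]; rfl, zpow_natCast,
      Units.val_pow_eq_pow_val, ← he, ← map_pow, ← map_mul, hζ]
    congr 1
    simp only [g1, Pi.mul_apply, hζ]
    ring
  · rw [pf, map_one, hζ]
    simp only [g1, Pi.mul_apply, map_mul, map_pow, hζ]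
    ring
  · have h1 := simpson 1 (ι z) (fun j => ι (θ j)) (ι (θ 9)) (coefT 1 (ι z) (fun j => ι (θ j))
      (shear (ι (θ 1)) (mom0 1 (ι z) (ι ε)))) (π 0 f)
      (-(ι hf * ι ε ^ 2 * ι ε ^ n * (ι (g1 b) - ι (g0 b)))) m
    have c0 := pc 0 q0 v0
    have c1 := pc hf q1 v1
    have c2 := pc 1 q2 v2
    rw [curveAt_eq] at h0 ⊢
    simp only [cFAt] at c0 c1 c2
    rw [← e1, ← e2, c0, c1, c2, h0] at h1
    have h2 := congrArg ι (show b.1 - d0 sg si i +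
      ε * (shf (k ε) i D w b + th * hf * (q0 b + 4 * q1 b + q2 b)) = 0 from hb0)
    have h3 : ι (δ b) = ι b.1 + ι ε * ι (shf (k ε) i D w b) := by rw [← map_mul, ← map_add]; rfl
    simp only [map_add, map_sub, map_mul, map_d0, map_zero, map_ofNat] at h2
    have h6 : ι (δ b) - d0 (ι sg) (ι si) i =
      -(ι ε * (ι th * ι hf * (ι (q0 b) + 4 * ι (q1 b) + ι (q2 b)))) := by
      linear_combination h2 + h3
    have h7 : u * (ι (δ b) - d0 (ι sg) (ι si) i + ι ε * ι (q0 b)) +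
        4 * (u * (ι (δ b) - d0 (ι sg) (ι si) i + ι ε * ι (q1 b))) +
        u * (ι (δ b) - d0 (ι sg) (ι si) i + ι ε * ι (q2 b)) = 0 := by
      rw [h6]
      linear_combination -(u * ι ε * (ι (q0 b) + 4 * ι (q1 b) + ι (q2 b))) *
        (2 * ι hf * i3 + i2)
    rw [h7] at h1
    linear_combination ι th * h1 - curveK 1 (ι z) (fun j => ι (θ j)) (ι (θ 9))
      (coefT 1 (ι z) (fun j => ι (θ j)) (shear (ι (θ 1)) (mom0 1 (ι z) (ι ε)))) (π 1 f) m * i3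

end Pool.Agent.P.MP_48bde8_co_s
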