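import Pool.Agent.P.MP_48bde8_co_s.Rg

/-! Verification of polynomial identities with sparse trees of packed coefficients. -/

namespace Pool.Agent.P.MP_48bde8_co_s

open MvPolynomial

/-- Sparse polynomials with integer coefficients. -/
inductive PT : Type
  | z : PT
  | lf (s : Bool) (n : ℕ) : PT
  | cons (h t : PT) : PT

namespace PT

/-- The polynomial of a tree in the variables from `d` on. -/
noncomputable def toM : PT → ℕ → MvPolynomial ℕ ℤ
  | z, _ => 0
  | lf false n, _ => n
  | lf true n, _ => -n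
  | cons h t, d => h.toM (d + 1) + X d * t.toM d

/-- A leaf, or zero. -/
noncomputable def mkl (s : Bool) (n : ℕ) : PT := Nat.rec z (fun m _ => lf s m.succ) n

/-- A node, or zero. -/
noncomputable def mkc (h t : PT) : PT :=
  PT.rec (PT.rec z (fun s n => lf s n) (fun a b _ _ => cons (cons a b) z) h)
    (fun s n => cons h (lf s n)) (fun a b _ _ => cons h (cons a b)) t

/-- Difference of naturals as a leaf. -/
noncomputable def dif (s s' : Bool) (n m : ℕ) : PT :=
  ifle m n (mkl s (Nat.sub n m)) (lf s' (Nat.sub m n))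

/-- Addition of a constant. -/
noncomputable def addL (s : Bool) (n : ℕ) (q : PT) : PT :=
  PT.rec (lf s n) (fun s' m => Bool.rec
      (Bool.rec (lf false (Nat.add n m)) (dif false true n m) s')
      (Bool.rec (dif true false n m) (lf true (Nat.add n m)) s') s)
    (fun _ t ih _ => cons ih t) q

/-- Addition. -/
noncomputable def add (p : PT) : PT → PT :=
  PT.rec (fun q => q) (fun s n => addL s n) (fun h t ih it q =>
    PT.rec (cons h t) (fun s n => cons (addL s n h) t) (fun h' t' _ _ => mkc (ih h') (it t')) q) p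

/-- Multiplication by a constant. -/
noncomputable def mulL (s : Bool) (n : ℕ) (q : PT) : PT :=
  PT.rec z (fun s' m => lf (Bool.rec s' (Bool.rec true false s') s) (Nat.mul n m))
    (fun _ _ ih it => cons ih it) q

/-- Negation. -/
noncomputable def neg (q : PT) : PT :=
  PT.rec z (fun s m => lf (Bool.rec true false s) m) (fun _ _ ih it => cons ih it) q

/-- Application of a map to the coefficients in the first variable. -/
noncomputable def spine (f : PT → PT) (q : PT) : PT :=
  PT.rec z (fun s n => cons (f (lf s n)) z) (fun h _ _ it => cons (f h) it) q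

/-- Multiplication. -/
noncomputable def mul (p : PT) : PT → PT :=
  PT.rec (fun _ => z) (fun s n => mulL s n) (fun h t ih it q =>
    PT.rec z (fun s n => mulL s n (cons h t)) (fun _ _ _ _ =>
      PT.rec (cons z (it q)) (fun _ _ => add (spine ih q) (cons z (it q)))
        (fun _ _ _ _ => add (spine ih q) (cons z (it q))) h) q) p

/-- Normal form. -/
noncomputable def nrm (p : PT) : PT := PT.rec z (fun s n => mkl s n) (fun _ _ ih it => mkc ih it) p

/-- Evaluation before use. -/
noncomputable def frc {α : Type} (p : PT) : (PT → α) → α :=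
  PT.rec (fun k => k z)
    (fun s n k => Nat.rec (k z) (fun m _ => Bool.rec (k (lf false m.succ)) (k (lf true m.succ)) s) n)
    (fun _ _ ih it k => ih fun h => it fun t =>
      PT.rec (PT.rec (k z) (fun s n => k (lf s n)) (fun a b _ _ => k (cons (cons a b) z)) h)
        (fun s n => k (cons h (lf s n))) (fun a b _ _ => k (cons h (cons a b))) t) p

/-- The variable number `k`. -/
noncomputable def var (k : ℕ) : PT := Nat.rec (cons z (lf false 1)) (fun _ ih => cons ih z) k

theorem frc_eq {α : Type} (p : PT) (k : PT → α) : p.frc k = k p.nrm := by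
  induction p generalizing k with
  | z => rfl
  | lf s n => cases n <;> cases s <;> rfl
  | cons h t ih it =>
    refine (ih _).trans ((it _).trans ?_)
    show _ = k (mkc h.nrm t.nrm)
    generalize h.nrm = a
    generalize t.nrm = b
    cases a <;> cases b <;> rfl

theorem toM_lf (s : Bool) (n d d' : ℕ) : (lf s n).toM d = (lf s n).toM d' := by
  cases s <;> rfl

theorem toM_mkl (s : Bool) (n d : ℕ) : (mkl s n).toM d = (lf s n).toM d := by
  cases n
  · cases s <;> simp [mkl, toM]
  · rfl

theorem toM_mkc (h t : PT) (d : ℕ) : (mkc h t).toM d = h.toM (d + 1) + X d * t.toM d := by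
  cases t with
  | z =>
    cases h with
    | z => simp [mkc, toM]
    | lf s n => simpa [mkc, toM] using toM_lf s n _ _
    | cons a b => rfl
  | lf s n => rfl
  | cons a b => rfl

theorem toM_dif (s : Bool) (n m d : ℕ) :
    (dif s (!s) n m).toM d = (lf s n).toM d + (lf (!s) m).toM d := by
  rw [dif, ifle_eq]
  split_ifs with h
  · rw [toM_mkl]
    cases s <;> simp only [toM, Nat.sub_eq, Nat.cast_sub h, Bool.not_false, Bool.not_true] <;> ring
  · have h1 : n ≤ m := by omega
    cases s <;> simp only [toM, Nat.sub_eq, Nat.cast_sub h1, Bool.not_false, Bool.not_true] <;> ring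

theorem toM_addL (s : Bool) (n : ℕ) (q : PT) (d : ℕ) :
    (addL s n q).toM d = (lf s n).toM d + q.toM d := by
  induction q generalizing d with
  | z => exact (add_zero _).symm
  | lf s' m =>
    cases s <;> cases s'
    · exact Nat.cast_add n m
    · exact toM_dif false n m d
    · exact toM_dif true n m d
    · exact (congrArg Neg.neg (Nat.cast_add n m)).trans (neg_add _ _)
  | cons h t ih _ =>
    show (addL s n h).toM (d + 1) + _ = _ + (_ + _)
    rw [ih, add_assoc, toM_lf s n (d + 1) d]

theorem toM_add (p q : PT) (d : ℕ) : (add p q).toM d = p.toM d + q.toM d := by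
  induction p generalizing q d with
  | z => exact (zero_add _).symm
  | lf s n => exact toM_addL s n q d
  | cons h t ih it =>
    cases q with
    | z => exact (add_zero _).symm
    | lf s n =>
      show (addL s n h).toM (d + 1) + X d * t.toM d = _
      rw [toM_addL, toM_lf s n (d + 1) d, toM]
      ring
    | cons h' t' =>
      show (mkc (add h h') (add t t')).toM d = _
      rw [toM_mkc, ih, it, toM, toM]
      ring

theorem toM_mulL (s : Bool) (n : ℕ) (q : PT) (d : ℕ) :
    (mulL s n q).toM d = (lf s n).toM d * q.toM d := by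
  induction q generalizing d with
  | z => exact (mul_zero _).symm
  | lf s' m => cases s <;> cases s' <;> simp [mulL, toM]
  | cons h t ih it =>
    show (mulL s n h).toM (d + 1) + X d * (mulL s n t).toM d = _
    rw [ih, it, toM_lf s n (d + 1) d, toM]
    ring

theorem toM_neg (q : PT) (d : ℕ) : (neg q).toM d = -q.toM d := by
  induction q generalizing d with
  | z => exact neg_zero.symm
  | lf s' m => cases s' <;> simp [neg, toM]
  | cons h t ih it =>
    show (neg h).toM (d + 1) + X d * (neg t).toM d = _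
    rw [ih, it, toM]
    ring

theorem toM_spine {f : PT → PT} {a : MvPolynomial ℕ ℤ} {d : ℕ}
    (hf : ∀ q, (f q).toM (d + 1) = a * q.toM (d + 1)) (q : PT) :
    (spine f q).toM d = a * q.toM d := by
  induction q with
  | z => exact (mul_zero _).symm
  | lf s n =>
    show (f (lf s n)).toM (d + 1) + X d * 0 = _
    rw [hf, toM_lf s n (d + 1) d, mul_zero, add_zero]
  | cons h t _ it =>
    show (f h).toM (d + 1) + X d * (spine f t).toM d = _
    rw [hf, it, toM]
    ring

theorem toM_mul (p q : PT) (d : ℕ) : (mul p q).toM d = p.toM d * q.toM d := by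
  induction p generalizing q d with
  | z => exact (zero_mul _).symm
  | lf s n => exact toM_mulL s n q d
  | cons h t ih it =>
    have key : (add (spine (mul h) q) (cons z (mul t q))).toM d = (cons h t).toM d * q.toM d := by
      rw [toM_add, toM_spine fun q => ih q _, toM, toM, toM, it]
      ring
    cases q with
    | z => exact (mul_zero _).symm
    | lf s n => exact (toM_mulL s n (cons h t) d).trans (mul_comm _ _)
    | cons h' t' =>
      cases h with
      | z =>
        show (cons z (mul t (cons h' t'))).toM d = _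
        simp only [toM, it]
        ring
      | lf s n => exact key
      | cons a b => exact key

theorem toM_nrm (p : PT) (d : ℕ) : p.nrm.toM d = p.toM d := by
  induction p generalizing d with
  | z => rfl
  | lf s n => exact toM_mkl s n d
  | cons h t ih it => exact (toM_mkc _ _ d).trans (by rw [toM, ← ih, ← it]; rfl)

theorem toM_var (k d : ℕ) : (var k).toM d = X (d + k) := by
  induction k generalizing d with
  | zero => simp [var, toM]
  | succ k ih =>
    show (var k).toM (d + 1) + X d * 0 = _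
    rw [ih, mul_zero, add_zero, add_assoc, add_comm 1]

end PT

/-- A register: validity flag, tree and two norm bounds. -/
structure TR where
  g : Bool
  t : PT
  a : ℕ
  b : ℕ

/-- Evaluation of a register before use. -/
noncomputable def fT {α : Type} (A : TR) (k : TR → α) : α :=
  Bool.rec (k ⟨false, .z, 0, 0⟩)
    (A.t.frc fun t => fN A.a fun a => fN A.b fun b => k ⟨true, t, a, b⟩) A.g

/-- Sum. -/
noncomputable def tadd (A B : TR) : TR :=
  ⟨A.g && B.g, A.t.add B.t, Nat.add A.a B.a, Nat.add A.b B.b⟩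

/-- Negation. -/
noncomputable def tneg (A : TR) : TR := ⟨A.g, A.t.neg, A.a, A.b⟩

/-- Product. -/
noncomputable def tmul (A B : TR) : TR :=
  ⟨A.g && B.g, A.t.mul B.t, Nat.mul A.a B.a, Nat.mul A.b B.b⟩

/-- Evaluation of an expression. -/
noncomputable def tev (lk : ℕ → TR) (e : Ex) : TR :=
  Ex.rec lk (fun _ _ A B => tadd A B) (fun _ _ A B => tadd A (tneg B)) (fun _ A => tneg A)
    (fun _ _ A B => fT A fun A => fT B fun B => tmul A B)
    (fun k _ A => tmul ⟨true, .lf false k, k, k⟩ A) e

/-- The invalid register. -/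
def bad : TR := ⟨false, .z, 0, 0⟩

/-- Execution of the steps. -/
noncomputable def trun (k : (ℕ → TR) → Bool) (s : List Ex) : List TR → ℕ → Bool :=
  List.rec (fun l n => k (look bad l n)) (fun e _ ih l n =>
    fT (tev (look bad l n) e) fun A => fN n.succ fun m => ih (A :: l) m) s

/-- The register of an input code. -/
noncomputable def tin (B1 B2 : ℕ) : ℕ → TR
  | 0 => bad
  | 1 => ⟨true, .lf false B1, 1, B1⟩
  | 2 => ⟨true, .lf false B2, 1, 1⟩
  | 3 => ⟨true, .lf false 1, 1, 1⟩
  | k + 4 => ⟨true, .var k, 1, 1⟩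

/-- The zero test. -/
noncomputable def tzero (B1 B2 : ℕ) (A : TR) : Bool :=
  A.g && PT.rec true (fun _ _ => false) (fun _ _ _ _ => false) A.t && Nat.blt A.a B1 &&
    Nat.blt A.b B2

/-- The complete check. -/
noncomputable def tchk (B1 B2 : ℕ) (inp : List ℕ) (s : List Ex) (w : List ℕ) : Bool :=
  trun (fun lk => w.all fun i => tzero B1 B2 (lk i)) s (inp.map (tin B1 B2)).reverse inp.length

variable {R : Type} [CommRing R]

/-- A norm. -/
noncomputable def tn (B : ℕ) : MvPolynomial ℕ A2 →+* ℕ := eval₂Hom (hm B 1) fun _ => 1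

/-- The register represents `v`. -/
def TRep (B1 B2 : ℕ) (y1 y2 : R) (xs : ℕ → R) (A : TR) (v : R) : Prop :=
  A.g = true → ∃ P Q : MvPolynomial ℕ A2,
    A.t.toM 0 = map (hm (B1 : ℤ) B2) P - map (hm (B1 : ℤ) B2) Q ∧ tn 1 (P + Q) ≤ A.a ∧
      tn B1 (P + Q) ≤ A.b ∧ v = eval₂Hom (hm y1 y2) xs P - eval₂Hom (hm y1 y2) xs Q

variable {B1 B2 : ℕ} {y1 y2 : R} {xs : ℕ → R} {A B : TR} {v w : R}

theorem TRep.frc {α : Type} (h : TRep B1 B2 y1 y2 xs A v) (k : TR → α) :
    ∃ A', TRep B1 B2 y1 y2 xs A' v ∧ fT A k = k A' := by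
  obtain ⟨g, t, a, b⟩ := A
  cases g
  · exact ⟨_, fun h => absurd h Bool.false_ne_true, rfl⟩
  · refine ⟨⟨true, t.nrm, a, b⟩, fun _ => ?_, ?_⟩
    · rw [PT.toM_nrm]
      exact h rfl
    · simp only [fT, PT.frc_eq, fN_eq]

theorem TRep.add (h : TRep B1 B2 y1 y2 xs A v) (h' : TRep B1 B2 y1 y2 xs B w) :
    TRep B1 B2 y1 y2 xs (tadd A B) (v + w) := by
  intro hg
  rw [tadd, Bool.and_eq_true] at hg
  obtain ⟨P, Q, a1, a2, a3, a4⟩ := h hg.1
  obtain ⟨P', Q', b1, b2, b3, b4⟩ := h' hg.2
  simp only [map_add] at a2 a3 b2 b3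
  refine ⟨P + P', Q + Q', ?_, ?_, ?_, ?_⟩ <;>
    simp only [tadd, PT.toM_add, a1, b1, a4, b4, map_add, Nat.add_eq]
  · ring
  · omega
  · omega
  · ring

theorem TRep.neg (h : TRep B1 B2 y1 y2 xs A v) : TRep B1 B2 y1 y2 xs (tneg A) (-v) := by
  intro hg
  obtain ⟨P, Q, a1, a2, a3, a4⟩ := h hg
  exact ⟨Q, P, by rw [tneg, PT.toM_neg, a1, neg_sub], by rwa [add_comm], by rwa [add_comm],
    by rw [a4, neg_sub]⟩

theorem TRep.mul (h : TRep B1 B2 y1 y2 xs A v) (h' : TRep B1 B2 y1 y2 xs B w) :
    TRep B1 B2 y1 y2 xs (tmul A B) (v * w) := by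
  intro hg
  rw [tmul, Bool.and_eq_true] at hg
  obtain ⟨P, Q, a1, a2, a3, a4⟩ := h hg.1
  obtain ⟨P', Q', b1, b2, b3, b4⟩ := h' hg.2
  have e : P * P' + Q * Q' + (P * Q' + Q * P') = (P + Q) * (P' + Q') := by ring
  refine ⟨P * P' + Q * Q', P * Q' + Q * P', ?_, ?_, ?_, ?_⟩
  · simp only [tmul, PT.toM_mul, a1, b1, map_add, map_mul]
    ring
  · rw [e, map_mul]
    exact Nat.mul_le_mul a2 b2
  · rw [e, map_mul]
    exact Nat.mul_le_mul a3 b3
  · simp only [a4, b4, map_add, map_mul]
    ring

theorem TRep.nat (k : ℕ) : TRep B1 B2 y1 y2 xs ⟨true, .lf false k, k, k⟩ (k : R) :=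
  fun _ => ⟨k, 0, by simp [PT.toM], by simp, by simp, by simp⟩

theorem TRep.tev {lk : ℕ → TR} {r : ℕ → R} (h : ∀ i, TRep B1 B2 y1 y2 xs (lk i) (r i)) (e : Ex) :
    TRep B1 B2 y1 y2 xs (tev lk e) (e.ev r) := by
  induction e with
  | v i => exact h i
  | add a b iha ihb => exact iha.add ihb
  | sub a b iha ihb =>
    rw [Ex.ev, sub_eq_add_neg]
    exact iha.add ihb.neg
  | neg a iha => exact iha.neg
  | mul a b iha ihb =>
    obtain ⟨A, h1, h2⟩ := iha.frc fun A => fT (MP_48bde8_co_s.tev lk b) fun B => tmul A B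
    obtain ⟨B, h3, h4⟩ := ihb.frc fun B => tmul A B
    have h5 : MP_48bde8_co_s.tev lk (a.mul b) = tmul A B := h2.trans h4
    rw [h5]
    exact h1.mul h3
  | sm k a iha => exact (TRep.nat k).mul iha

theorem trun_ok {k : (ℕ → TR) → Bool} {r : ℕ → R} (s : List Ex) : ∀ {l : List TR} {n : ℕ},
    Cons r n s → (∀ i, TRep B1 B2 y1 y2 xs (look bad l n i) (r i)) → trun k s l n = true →
    ∃ lk, (∀ i, TRep B1 B2 y1 y2 xs (lk i) (r i)) ∧ k lk = true := by
  induction s with
  | nil => exact fun _ h h' => ⟨_, h, h'⟩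
  | cons e s ih =>
    intro l n h1 h2 h3
    obtain ⟨A, h4, h5⟩ := (TRep.tev h2 e).frc fun A => fN n.succ fun m => trun k s (A :: l) m
    rw [fN_eq] at h5
    exact ih h1.2 (look_push (p := fun A i => TRep B1 B2 y1 y2 xs A (r i)) h2 (h1.1 ▸ h4))
      (h5.symm.trans h3)

theorem tn_coeff (B : ℕ) (P : MvPolynomial ℕ A2) (d : ℕ →₀ ℕ) : hm B 1 (coeff d P) ≤ tn B P := by
  by_cases h : d ∈ P.support
  · rw [tn, coe_eval₂Hom, eval₂_eq]
    simpa using Finset.single_le_sum (f := fun d => hm B 1 (coeff d P))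
      (fun _ _ => Nat.zero_le _) h
  · rw [notMem_support_iff.1 h, map_zero]
    exact Nat.zero_le _

theorem TRep.eq_zero (h : TRep B1 B2 y1 y2 xs A v) (h0 : tzero B1 B2 A = true) : v = 0 := by
  obtain ⟨g, t, a, b⟩ := A
  simp only [tzero, Bool.and_eq_true, Nat.blt_eq] at h0
  obtain ⟨P, Q, a1, a2, a3, a4⟩ := h h0.1.1.1
  have ht : t = .z := by
    have := h0.1.1.2
    cases t
    · rfl
    all_goals exact absurd this Bool.false_ne_true
  subst ht
  have : P = Q := by
    ext1 d
    have h1 := congrArg (coeff d) (sub_eq_zero.1 a1.symm)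
    have c : ∀ p : A2, hm (B1 : ℤ) B2 p = (hm B1 B2 p : ℕ) := fun p =>
      (map_hm (Nat.castRingHom ℤ) B1 B2 p).symm
    rw [coeff_map, coeff_map, c, c, Nat.cast_inj] at h1
    exact dig2' h1 (coeff_add d P Q ▸ ((tn_coeff 1 _ d).trans a2).trans_lt h0.1.2)
      (coeff_add d P Q ▸ ((tn_coeff B1 _ d).trans a3).trans_lt h0.2)
  rw [a4, this, sub_self]

/-- The value of an input code. -/
def tv (y1 y2 : R) (xs : ℕ → R) : ℕ → R
  | 0 => 0
  | 1 => y1
  | 2 => y2
  | 3 => 1
  | k + 4 => xs k

theorem TRep.tin : ∀ k : ℕ, TRep B1 B2 y1 y2 xs (tin B1 B2 k) (tv y1 y2 xs k)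
  | 0 => fun h => absurd h Bool.false_ne_true
  | 1 => fun _ => ⟨C (Polynomial.C Polynomial.X), 0, by simp [MP_48bde8_co_s.tin, PT.toM],
      by simp [MP_48bde8_co_s.tin, tn], by simp [MP_48bde8_co_s.tin, tn], by simp [tv]⟩
  | 2 => fun _ => ⟨C Polynomial.X, 0, by simp [MP_48bde8_co_s.tin, PT.toM],
      by simp [MP_48bde8_co_s.tin, tn], by simp [MP_48bde8_co_s.tin, tn], by simp [tv]⟩
  | 3 => fun _ => ⟨1, 0, by simp [MP_48bde8_co_s.tin, PT.toM], by simp [MP_48bde8_co_s.tin],
      by simp [MP_48bde8_co_s.tin], by simp [tv]⟩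
  | k + 4 => fun _ => ⟨X k, 0, by simp [MP_48bde8_co_s.tin, PT.toM_var],
      by simp [MP_48bde8_co_s.tin, tn], by simp [MP_48bde8_co_s.tin, tn], by simp [tv]⟩

theorem look_rev {α : Type} (d : α) (l : List α) (i : ℕ) :
    look d l.reverse l.length i = l.getD i d := by
  induction l using List.reverseRecOn with
  | nil => simp [look, ifle_eq]
  | append_singleton l a ih =>
    rw [List.reverse_append, List.length_append, List.length_singleton]
    refine (look_cons d a l.reverse l.length i).trans ?_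
    split_ifs with h
    · simp [h]
    · rw [ih]
      rcases lt_or_gt_of_ne h with h | h
      · rw [List.getD_append _ _ _ _ h]
      · rw [List.getD_eq_default _ _ h.le, List.getD_eq_default _ _ (by simpa using h)]

theorem tchk_ok {inp : List ℕ} {s : List Ex} {w : List ℕ} (h : tchk B1 B2 inp s w = true)
    {r : ℕ → R} (h1 : ∀ i < inp.length, inp.getD i 0 ≠ 0 → r i = tv y1 y2 xs (inp.getD i 0))
    (h2 : Cons r inp.length s) : ∀ i ∈ w, r i = 0 := by
  obtain ⟨lk, h3, h4⟩ := trun_ok (B1 := B1) (B2 := B2) (y1 := y1) (y2 := y2) (xs := xs) s h2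
    (fun i => by
      rw [← List.length_map (tin B1 B2), look_rev]
      have e : (inp.map (tin B1 B2)).getD i bad = tin B1 B2 (inp.getD i 0) :=
        List.getD_map inp 0 (tin B1 B2)
      rw [e]
      by_cases h0 : inp.getD i 0 = 0
      · rw [h0]
        exact fun h => absurd h Bool.false_ne_true
      · rw [h1 i (by
          by_contra hi
          exact h0 (List.getD_eq_default _ _ (not_lt.1 hi))) h0]
        exact TRep.tin _) h
  exact fun i hi => (h3 i).eq_zero (List.all_eq_true.1 h4 i hi)

end Pool.Agent.P.MP_48bde8_co_s
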