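import Pool.Agent.P.MP_48bde8_co_s.Jac
import Pool.Agent.P.MP_48bde8_co_s.RunB

/-! Existence and uniqueness of the solution of the nine equations. -/

namespace Pool.Agent.P.MP_48bde8_co_s

open MP_48bde8_co

variable {R R' : Type} [CommRing R] [CommRing R'] {e1 e2 : R} {V r : ℕ → R} {U U' : Fin 9 → R}

theorem map_aux (ψ : R →+* R') (x z : R) (u : Fin 9 → R) (i : Fin 15) :
    ψ (aux x z u i) = aux (ψ x) (ψ z) (fun j => ψ (u j)) i := by
  fin_cases i <;> simp [aux, map_ofNat]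

theorem map_aux2 (ψ : R →+* R') (x z : R) (u : Fin 9 → R) (i : Fin 6) :
    ψ (aux2 x z u i) = aux2 (ψ x) (ψ z) (fun j => ψ (u j)) i := by
  fin_cases i <;> simp [aux2, map_ofNat, map_aux]

theorem map_sys (ψ : R →+* R') (x z : R) (u : Fin 9 → R) (i : Fin 9) :
    ψ (sys x z u i) = sys (ψ x) (ψ z) (fun j => ψ (u j)) i := by
  fin_cases i <;> simp [sys, map_ofNat, map_aux, map_aux2]

theorem map_den (ψ : R →+* R') (x z : R) (u : Fin 9 → R) :
    ψ (den x z u) = den (ψ x) (ψ z) fun j => ψ (u j) := by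
  simp [den, map_ofNat, map_aux]

theorem map_num (ψ : R →+* R') (x z : R) (u : Fin 9 → R) :
    ψ (num x z u) = num (ψ x) (ψ z) fun j => ψ (u j) := by
  simp [num, map_ofNat, map_aux, map_aux2]

theorem map_init (ψ : R →+* R') (x z : R) (i : Fin 9) :
    ψ (init x z i) = init (ψ x) (ψ z) i := by
  fin_cases i <;> simp [init, map_ofNat]

/-- The lists of initial terms. -/
def u0 : Fin 9 → List (ℕ × ℕ × ℤ) := ![u0a, u0b, u0cp, u0e, u0g, u0l, u0L, u0n, u0m]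

/-- The orders of the contraction. -/
def nB : Fin 9 → ℕ := ![14, 15, 14, 15, 14, 15, 23, 24, 23]

theorem init_val (e1 e2 : R) (j : Fin 9) :
    e1 ^ nB j ∣ init e1 (e2 * e1 ^ 2) j - val e1 e2 (u0 j) := by
  refine ⟨-![-18 * e2 ^ 5, 0, 23 * e2 ^ 5 + 3 * e2 ^ 6, 7 * e2 ^ 6,
    31 * e2 ^ 5 - 2 * e2 ^ 6 + e2 ^ 7, 0, 228 * e2 ^ 9 + 30 * e2 ^ 10, 0,
    178 * e2 ^ 9 + 185 * e2 ^ 10] j, ?_⟩
  fin_cases j <;>
    simp only [init, val, u0, nB, u0a, u0b, u0cp, u0e, u0g, u0l, u0L, u0n, u0m, Fin.zero_eta,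
      Fin.mk_one, Fin.reduceFinMk, Matrix.cons_val, List.map_cons, List.map_nil, List.sum_cons,
      List.sum_nil, Int.cast_neg, Int.cast_ofNat, Int.cast_one] <;> ring

/-- The base values. -/
def bB (e1 e2 : R) (i : ℕ) : R := val e1 e2 (certB.sp i).l

theorem bB_base (e1 e2 : R) : certB.Base e1 e2 (bB e1 e2) := fun i _ => by simp [bB]

theorem inB (h : ∀ i < certB.inp.length,
    r i = bB e1 e2 i + val e1 e2 (certB.sp i).m * V (certB.sp i).i) :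
    r 9 = e1 ∧ r 0 = e2 * e1 ^ 2 ∧ r 6 = 1 ∧ r 22 = 1 ∧
      ∀ j, uOf r j = val e1 e2 (u0 j) + e1 ^ nB j * V j := by
  have k : ∀ (n : ℕ) (y : R), val e1 e2 [(n, 0, 1)] * y = e1 ^ n * y := fun n y => by simp [val]
  refine ⟨?_, ?_, ?_, ?_, fun j => ?_⟩
  · simpa [bB, Cert.sp, certB, inpB, val] using h 9 (by decide)
  · simpa [bB, Cert.sp, certB, inpB, val] using h 0 (by decide)
  · simpa [bB, Cert.sp, certB, inpB, val] using h 6 (by decide)
  · simpa [bB, Cert.sp, certB, inpB, val] using h 22 (by decide)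
  · rw [← k]
    fin_cases j
    exacts [h 12 (by decide), h 2 (by decide), h 1 (by decide), h 18 (by decide), h 8 (by decide),
      h 19 (by decide), h 3 (by decide), h 4 (by decide), h 5 (by decide)]

/-- A solution of the smooth system near the initial terms. -/
def Sol (e1 e2 : R) (U : Fin 9 → R) : Prop :=
  ∃ V r, certB.Reg e1 e2 (bB e1 e2) V r ∧ (∀ k ∈ certB.idx, r k = 0) ∧ U = uOf r

theorem Sol.unique (h2 : IsUnit (2 : R)) (he : IsUnit e2)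
    (hs : ∀ a : R, (∀ N : ℕ, e1 ^ N ∣ a) → a = 0) (hr : ∀ y, e1 * y = 0 → y = 0)
    (h : Sol e1 e2 U) (h' : Sol e1 e2 U') : U = U' := by
  obtain ⟨V, r, a1, a2, rfl⟩ := h
  obtain ⟨W, r', b1, b2, rfl⟩ := h'
  have h3 := Cert.unique okB (bB_base e1 e2) h2 he hs hr a1 b1 a2 b2
  funext j
  rw [(inB a1.1).2.2.2.2, (inB b1.1).2.2.2.2, h3 j j.2]

theorem Sol.exists [IsDomain R] (h2 : IsUnit (2 : R)) (he : IsUnit e2) (hC : Cpl e1)
    (h0 : e1 ≠ 0) : ∃ U, Sol e1 e2 U := by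
  obtain ⟨V, r, -, a1, a2⟩ := Cert.exists okB (bB_base e1 e2) h2 he hC h0
  exact ⟨_, V, r, a1, a2, rfl⟩

theorem Sol.map (ψ : R →+* R') (h : Sol e1 e2 U) : Sol (ψ e1) (ψ e2) fun j => ψ (U j) := by
  obtain ⟨V, r, a1, a2, rfl⟩ := h
  refine ⟨fun i => ψ (V i), fun i => ψ (r i), ⟨fun i hi => ?_, a1.2.map ψ⟩,
    fun k hk => (congrArg ψ (a2 k hk)).trans (map_zero ψ), funext fun j => by fin_cases j <;> rfl⟩
  simp only [a1.1 i hi, map_add, map_mul, bB, map_val]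

theorem Sol.init (h : Sol e1 e2 U) (j : Fin 9) : e1 ^ nB j ∣ U j - init e1 (e2 * e1 ^ 2) j := by
  obtain ⟨V, r, a1, -, rfl⟩ := h
  rw [(inB a1.1).2.2.2.2]
  exact ((dvd_mul_right _ (V j)).sub (init_val e1 e2 j)).trans (dvd_of_eq (by ring))

open nonZeroDivisors

theorem reg_add (hs : ∀ a : R, (∀ N : ℕ, e1 ^ N ∣ a) → a = 0) {u y : R} (hu : IsUnit u)
    (hy : e1 ∣ y - u) : y ∈ R⁰ := by
  obtain ⟨v, hv⟩ := hu.exists_right_inv
  obtain ⟨t, ht⟩ := hy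
  refine mem_nonZeroDivisors_iff_right.2 fun w hw => hs w fun N => ?_
  induction N with
  | zero => simp
  | succ N ih =>
    rw [pow_succ]
    exact (mul_dvd_mul ih (dvd_mul_right e1 (-(t * v)))).trans (dvd_of_eq (by
      linear_combination v * w * ht - v * hw + w * hv))

theorem a_reg (h : e1 ^ 14 ∣ U 0 - init e1 (e2 * e1 ^ 2) 0) : e1 ∣ U 0 - -1 := by
  refine (((dvd_pow_self e1 (by decide)).trans h).add (dvd_mul_right e1 (-(e2 * e1) -
    (e2 * e1 ^ 2) ^ 2 * (1 + e2 * e1 ^ 2) - 2 * e1 * (e2 * e1 ^ 2) ^ 3 * (1 + e2 * e1 ^ 2) ^ 2 -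
    e1 ^ 2 * (e2 * e1 ^ 2) ^ 4 * (6 + 20 * (e2 * e1 ^ 2))))).trans (dvd_of_eq ?_)
  simp only [MP_48bde8_co_s.init, Matrix.cons_val]
  ring

theorem Sol.sys (hs : ∀ a : R, (∀ N : ℕ, e1 ^ N ∣ a) → a = 0) (h : Sol e1 e2 U) :
    sys e1 (e2 * e1 ^ 2) U = 0 := by
  have ha := reg_add hs isUnit_one.neg (a_reg (h.init 0))
  obtain ⟨V, r, a1, a2, rfl⟩ := h
  obtain ⟨b1, b2, b3, b4, -⟩ := inB a1.1
  simp only [certB, List.forall_mem_cons] at a2
  obtain ⟨k0, k1, k2, k3, k4, k5, k6, k7, k8, -⟩ := a2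
  obtain ⟨j5, j6⟩ := jac a1.2 b4 k0 k1 k2 k3
  rw [k4, mul_zero] at j5
  rw [k4, k5, mul_zero, mul_zero, add_zero, mul_zero] at j6
  rw [← b2, ← b1, link_sys a1.2 b3 b4, k0, k1, k2, k3, k6, k7, k8,
    (mul_left_mem_nonZeroDivisors_eq_zero_iff (pow_mem ha 9)).1 j5,
    (mul_left_mem_nonZeroDivisors_eq_zero_iff (pow_mem ha 11)).1 j6]
  funext j
  fin_cases j <;> rfl

theorem sol_of (h2 : IsUnit (2 : R)) (he : IsUnit e2)
    (hs : ∀ a : R, (∀ N : ℕ, e1 ^ N ∣ a) → a = 0) (hr : ∀ y, e1 * y = 0 → y = 0)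
    (h : ∀ j, e1 ^ ord j ∣ U j - init e1 (e2 * e1 ^ 2) j) (h0 : sys e1 (e2 * e1 ^ 2) U = 0) :
    Sol e1 e2 U := by
  have hn : ∀ j, nB j ≤ ord j := by decide
  choose W hW using fun j => ((pow_dvd_pow e1 (hn j)).trans (h j)).add (init_val e1 e2 j)
  let V : ℕ → R := fun i => if hi : i < 9 then W ⟨i, hi⟩ else 0
  obtain ⟨r, a1⟩ : ∃ r, certB.Reg e1 e2 (bB e1 e2) V r := exists_cons (by decide +kernel) _
  obtain ⟨b1, b2, b3, b4, b5⟩ := inB a1.1
  have hU : U = uOf r := funext fun j => by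
    rw [b5, show V j = W j from dif_pos j.2]
    linear_combination hW j
  have ha := reg_add hs isUnit_one.neg (a_reg (h 0))
  obtain ⟨y, hy⟩ := h 1
  have hb : U 1 = e1 ^ 17 * (-e2 ^ 6 + e1 * y) := by
    simp only [MP_48bde8_co_s.init, ord, Matrix.cons_val] at hy
    linear_combination hy
  have h1 : U 1 ∈ R⁰ := hb ▸ mul_mem (pow_mem (mem_nonZeroDivisors_iff_left.2 hr) 17)
    (reg_add hs (he.pow 6).neg ⟨y, by ring⟩)
  have h3 : U 0 - U 1 ∈ R⁰ := reg_add hs isUnit_one.neg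
    (((a_reg (h 0)).sub (hb ▸ (dvd_pow_self e1 (by decide)).mul_right _)).trans
      (dvd_of_eq (by ring)))
  subst hU
  rw [← b2, ← b1, link_sys a1.2 b3 b4] at h0
  have k0 : r 53 = 0 := congrFun h0 0
  have k1 : r 213 = 0 := congrFun h0 1
  have k2 : r 214 = 0 := congrFun h0 2
  have k3 : r 215 = 0 := congrFun h0 3
  obtain ⟨j5, j6⟩ := jac a1.2 b4 k0 k1 k2 k3
  have h4 := (progS_iff.1 a1.2).2.1
  have h26 : r 26 = r 12 * r 2 := h4.1
  have h27 : r 27 = r 12 - r 2 := h4.2.1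
  have h33 : r 33 = r 27 * r 27 := (h4.drop 7).1
  have h5 : 2 * r 26 * r 33 ∈ R⁰ := by
    rw [h33, h27, h26]
    exact mul_mem (mul_mem h2.mem_nonZeroDivisors (mul_mem ha h1)) (mul_mem h3 h3)
  have k4 : r 216 = 0 := (mul_left_mem_nonZeroDivisors_eq_zero_iff h5).1 (by
    rw [← j5, show r 227 = 0 from congrFun h0 4, mul_zero])
  have k5 : r 217 = 0 := (mul_left_mem_nonZeroDivisors_eq_zero_iff h5).1 (by
    rw [show r 228 = 0 from congrFun h0 5, k4] at j6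
    linear_combination -j6)
  refine ⟨V, r, a1, ?_, rfl⟩
  simp only [certB, List.forall_mem_cons]
  exact ⟨k0, k1, k2, k3, k4, k5, congrFun h0 6, congrFun h0 7, congrFun h0 8, by simp⟩

end Pool.Agent.P.MP_48bde8_co_s
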