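import Pool.Agent.P.MP_48bde8_co_s.Simp
import Pool.Agent.P.MP_48bde8_co.Mom

/-! Change of normalisation; comparison of two curves through six points. -/

namespace Pool.Agent.P.MP_48bde8_co_s

open MP_48bde8_co

section

variable {R : Type} [CommRing R]

/-- The couplings in terms of the normalised ones. -/
def thS (a c u d s v ρ ς l κ : R) : Fin 10 → R :=
  ![a * ρ ^ 3, l, ρ, 2 * a * ρ ^ 2 * ς, ρ * c, ρ * (u + a * ς ^ 2), d, s + 2 * ς, v + ς * c, κ]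

/-- The normalised moments. -/
def msS (z ρ ς : R) (μ : Fin 9 → R) : Fin 9 → R :=
  ![ρ * μ 0 + ς * z, μ 1, ρ ^ 2 * μ 2 + 2 * ρ * ς * μ 0 + ς ^ 2 * z, ρ * μ 3 + ς * μ 1, μ 4,
    ρ ^ 3 * μ 5 + 3 * ρ ^ 2 * ς * μ 2 + 3 * ρ * ς ^ 2 * μ 0 + ς ^ 3 * z,
    ρ ^ 2 * μ 6 + 2 * ρ * ς * μ 3 + ς ^ 2 * μ 1, ρ * μ 7 + ς * μ 4, μ 8]

/-- The scaled coefficients. -/
def ksS (ρ : R) (k : Fin 5 → R) : Fin 5 → R :=
  ![ρ * k 0, ρ ^ 4 * k 1, ρ ^ 6 * k 2, k 3, ρ ^ 2 * k 4]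

theorem curve_unn (x z a c u d s v ρ ς l κ κ' : R) (k : Fin 5 → R) (f m : R) :
    curveK x z (thS a c u d s v ρ ς l κ') (ρ ^ 7 * κ) (ksS ρ k) f m =
      ρ ^ 9 * curve x z a 1 0 c u d s v κ k f m := by
  simp only [curveK, curve, thS, ksS, Matrix.cons_val]
  obtain ⟨Y, rfl⟩ : ∃ Y, v = f - Y - (d * m ^ 2 + s * m) := ⟨f - v - (d * m ^ 2 + s * m), by ring⟩
  generalize x - z = δ
  ring

theorem coef_unn (x z a c u d s v ρ ς l κ : R) (μ : Fin 9 → R) :
    coefT x z (thS a c u d s v ρ ς l κ) μ = ksS ρ (coef x z a 1 0 c d s v (msS z ρ ς μ)) := by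
  simp only [coefT, coef, thS, ksS, msS, Matrix.cons_val]
  congr 1
  · ring
  congr 1
  · ring
  congr 1
  · ring
  congr 1
  · ring
  congr 1
  · ring

theorem rel_unn {x z a c u d s v ρ ς l κ : R} {μ : Fin 9 → R} (hρ : IsUnit ρ)
    (h : ∀ j, relT x z (thS a c u d s v ρ ς l κ) μ j = 0) (j : Fin 4) :
    rel x z a 1 0 c u d s v (msS z ρ ς μ) j = 0 := by
  have h0 := h 0
  have h1 := h 1
  have h2 := h 2
  have h3 := h 3
  simp only [relT, rel, thS, Matrix.cons_val] at h0 h1 h2 h3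
  refine hρ.mul_right_eq_zero.1 ?_
  fin_cases j <;> simp only [rel, msS, Fin.zero_eta, Fin.mk_one, Fin.reduceFinMk, Matrix.cons_val]
  · linear_combination h0
  · linear_combination ρ * h1 + ς * h0
  · linear_combination h2
  · linear_combination ρ * h3

theorem mom_eq {x z a c u d s v : R} {μ μ' : Fin 9 → R} (h2 : IsUnit (2 : R)) (ha : IsUnit a)
    (hρ : IsUnit (a * 1 * s - a * d * c - 1 ^ 2 * 0)) (hd : IsUnit (4 * 1 ^ 3 + a * d ^ 2))
    (hk : coef x z a 1 0 c d s v μ = coef x z a 1 0 c d s v μ')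
    (h : ∀ j, rel x z a 1 0 c u d s v μ j = 0) (h' : ∀ j, rel x z a 1 0 c u d s v μ' j = 0) :
    μ = μ' := by
  have k0 := congrFun hk 0
  have k1 := congrFun hk 1
  have k2 := congrFun hk 2
  have k3 := congrFun hk 3
  have k4 := congrFun hk 4
  have r0 := (h 0).trans (h' 0).symm
  have r1 := (h 1).trans (h' 1).symm
  have r2 := (h 2).trans (h' 2).symm
  have r3 := (h 3).trans (h' 3).symm
  simp only [coef, rel, Matrix.cons_val] at k0 k1 k2 k3 k4 r0 r1 r2 r3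
  exact sub_eq_zero.1 (MomA.lin (D := μ - μ') (u := u) (v := v) h2 ha isUnit_one hρ hd
    (by simp only [Pi.sub_apply]; linear_combination k0)
    (by simp only [Pi.sub_apply]; linear_combination k1)
    (by simp only [Pi.sub_apply]; linear_combination k2)
    (by simp only [Pi.sub_apply]; linear_combination k3)
    (by simp only [Pi.sub_apply]; linear_combination k4)
    (by simp only [Pi.sub_apply]; linear_combination r0)
    (by simp only [Pi.sub_apply]; linear_combination r1)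
    (by simp only [Pi.sub_apply]; linear_combination r2)
    (by simp only [Pi.sub_apply]; linear_combination r3))

end

variable {Λ : Type} [CommRing Λ] {S : Subring Λ} {e : Λˣ} {sg si hf : Λ} {θ : Fin 10 → Λ}

open NodeC in
theorem vand' (h : ParLT S e sg si hf θ) (hloc : ∀ y ∈ S, IsUnit (1 + (e : Λ) * y))
    {δ G f : Fin 6 → Λ} (hδ : ∀ i, VV S e 1 (δ i - d0 sg si i))
    (hω : ∀ i, ∃ y ∈ S, om e si i (δ i) * y = 1) (hG : ∀ i, VV S e (2 + sv i) (G i)) {z : Λ}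
    (hz : VV S e 2 z) (hf' : ∀ i, mOf e si i (δ i) * f i = -(mOf e si i (δ i) * G i) - (1 - z))
    {y : Fin 6 → Λ} {k : Fin 5 → Λ} (hk0 : VV S e 9 (k 0))
    (hy : ∀ i, ∑ j, cols 1 z θ k (f i) (mOf e si i (δ i)) j * y j = 0) : y = 0 := by
  choose u hu hu' using hω
  have hff : ∀ i, f i = -G i + -((1 - z) * (((e ^ (-kx i) : Λˣ) : Λ) * u i)) :=
    fun i => fval (hu' i) (hf' i)
  have fv : ∀ i, -kx i ≤ 2 + sv i → VV S e (-kx i) (f i) := fun i hi => hff i ▸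
    ((hG i).neg.mono h.he hi).add ((((lz h hz).vv h.he).mul ⟨_, hu i, rfl⟩).neg.mono h.he
      (zero_add _).ge)
  have fl : ∀ i c c', c' ∈ S → c * c' = 1 → VV S e 1 (om e si i (δ i) - c) →
      -kx i + 1 ≤ 2 + sv i → MP_48bde8_co.LT S e (-kx i) (-c') (f i) := fun i c c' h1 h2 h3 hi =>
    hff i ▸ LT.vv_add ((hG i).neg.mono h.he hi) (NodeC.cast ((lz h hz).mul h.he
      (lM h1 (lInv h1 h2 h3 (hu i) (hu' i)) _)).neg (zero_add _) (by rw [one_mul]))
  obtain ⟨q, hq⟩ := (h.units hloc).2.2.1.exists_right_inv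
  have s8 := S.pow_mem h.hsg 8
  have s2 := S.pow_mem h.hsg 2
  have key := ker_of_LT h.he hloc ![0, 0, -7, -17, -17, -41] ![2, 3, -2, 22, 10, 24]
    (Matrix.of fun i => colN θ z (k 0) (f i) (mOf e si i (δ i))) _ (fun i => ?_)
    (S.mul_mem (S.pow_mem h.hhf 5) (S.pow_mem h.hsg 17)) (by
      rw [det6 si]
      linear_combination (2 * hf) ^ 5 * hpow h 17 +
        (1 + 2 * hf + (2 * hf) ^ 2 + (2 * hf) ^ 3 + (2 * hf) ^ 4) * h.hhf2)
    (y := ![y 0, y 1, y 2, y 3 - y 5 * q, y 4, y 5 * q]) (funext fun i => ?_)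
  · have k5 : y 5 * q = 0 := congrFun key 5
    have k3 : y 3 - y 5 * q = 0 := congrFun key 3
    have h5 : y 5 = 0 := by linear_combination θ 4 * k5 - y 5 * hq
    have h3 : y 3 = 0 := by linear_combination k3 + q * h5
    funext i
    fin_cases i
    exacts [congrFun key 0, congrFun key 1, congrFun key 2, h3, congrFun key 4, h5]
  · fin_cases i
    exacts [row0 h hz hk0 (lM S.one_mem (hδ 0) _)
        (fl 0 1 1 S.one_mem (one_mul 1) (hδ 0) (by decide)),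
      row1 h hz hk0 (lM S.one_mem (hδ 1) _) (fv 1 (by decide)),
      row2 h hz hk0 (lM (S.pow_mem h.hsi 4) (hδ 2) _) (fv 2 (by decide)),
      row3 h hz hk0 (S.add_mem s2 h.hsg) (hδ 3) (by ring) rfl (fv 3 (by decide)),
      row3 h hz hk0 (S.sub_mem s2 h.hsg) (hδ 4) (by ring) rfl (fv 4 (by decide)),
      row5 h hz hk0 (lM (S.neg_mem s8) (hδ 5) _) (NodeC.cast (fl 5 (-sg ^ 8) (-si ^ 8)
        (S.neg_mem (S.pow_mem h.hsi 8)) (by linear_combination hpow h 8) (hδ 5) (by decide)) rfl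
        (neg_neg _))]
  · have h1 := hy i
    simp only [Matrix.mulVec, dotProduct, Matrix.of_apply, Pi.zero_apply]
    generalize mOf e si i (δ i) = m at h1 ⊢
    simp only [Fin.sum_univ_six, cols, colN, nI, nX, nR, nZ, nY, nV, nL, Matrix.cons_val] at h1 ⊢
    linear_combination h1 + (y 5 * ((2 * θ 0 * (f i - (θ 6 * m ^ 2 + θ 7 * m + θ 8)) +
      θ 3 * (θ 4 + 2 * θ 2 * m)) * (θ 0 * θ 2 * θ 4 * f i +
        (θ 0 * θ 2 * θ 7 - θ 0 * θ 6 * θ 4 - θ 2 ^ 2 * θ 3) * (θ 4 + 2 * θ 2 * m) * m -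
        2 * θ 0 * θ 2 ^ 2 * (1 - z)) +
      2 * θ 0 ^ 2 * θ 2 * (k 0 - 2 * θ 6 * z * (m * (θ 4 + θ 2 * m))))) * hq

end Pool.Agent.P.MP_48bde8_co_s
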